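import Pool.Agent.N10.Han.Hoch

/-!
# Tools for the vanishing of Hochschild cohomology

Contracting homotopies, the bimodules `Hom_k (L, N)`, duals, and the pencil lemma.
-/

namespace Pool.Agent.N10.Han

open Bi

variable {k A : Type} [Field k] [Ring A] [Algebra k A]

/-! ### Contracting homotopies -/

/-- A contracting homotopy which is stable under the shift. -/
def Star (Y : Bi k A) : Prop :=
  ∃ σ : Y.T.C →ₗ[k] Y.C, (∀ a g, σ (Y.T.l a g) = Y.l a (σ g)) ∧
    (∀ a g, Y.r a (σ g) - σ (Y.T.r a g) = Y.toFun g a)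

lemma Star.shift {Y : Bi k A} (h : Star Y) : Star Y.T := by
  obtain ⟨σ, h1, h2⟩ := h
  refine ⟨-(LinearMap.compRight k σ), ?_, ?_⟩
  · intro a g
    apply Y.T_ext
    intro x
    change -(σ (Y.T.l a (Y.T.toFun g x))) = Y.l a (-(σ (Y.T.toFun g x)))
    rw [h1, map_neg]
  · intro a g
    apply Y.T_ext
    intro x
    change (-(σ (Y.T.toFun g (a * x))) - Y.r x (-(σ (Y.T.toFun g a)))) -
      (-(σ (Y.T.toFun g (a * x) - Y.T.r x (Y.T.toFun g a)))) = Y.toFun (Y.T.toFun g a) x
    rw [← h2 x (Y.T.toFun g a), map_sub, map_neg]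
    abel

lemma Star.van_one {Y : Bi k A} (h : Star Y) {g : Y.T.C} (hg : Y.T.ad g = 0) :
    ∃ y, Y.ad y = g := by
  obtain ⟨σ, h1, h2⟩ := h
  refine ⟨-(σ g), ?_⟩
  apply Y.T_ext
  intro a
  have h3 := h2 a g
  rw [← (Y.T.mem_ker_ad g).mp hg a, h1] at h3
  rw [ad_apply, ← h3, map_neg, map_neg]
  abel

lemma Star.tn {Y : Bi k A} (h : Star Y) (n : ℕ) : Star (Tn n Y) := by
  induction n with
  | zero => exact h
  | succ n ih => exact ih.shift

theorem Star.van {Y : Bi k A} (h : Star Y) (n : ℕ) : Van (n + 1) Y := by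
  intro g hg
  exact (h.tn n).van_one hg

/-! ### Bimodules of linear maps between left modules -/

section homBi

variable (L N : Type) [AddCommGroup L] [Module k L] [Module A L] [IsScalarTower k A L]
  [AddCommGroup N] [Module k N] [Module A N] [IsScalarTower k A N]

/-- The bimodule `Hom_k (L, N)`. -/
noncomputable def homBi (k A : Type) [Field k] [Ring A] [Algebra k A] (L N : Type)
    [AddCommGroup L] [Module k L] [Module A L] [IsScalarTower k A L]
    [AddCommGroup N] [Module k N] [Module A N] [IsScalarTower k A N] : Bi k A where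
  C := L →ₗ[k] N
  l := LinearMap.mk₂ k (fun a f => (Algebra.lsmul k k N a).comp f)
    (by intros; ext; simp) (by intros; ext; simp) (by intros; ext; simp)
    (by intro c a f; ext x; simp [smul_comm a c])
  r := LinearMap.mk₂ k (fun a f => f.comp (Algebra.lsmul k k L a))
    (by intros; ext; simp) (by intros; ext; simp) (by intros; ext; simp) (by intros; ext; simp)
  l_mul := by intro a b y; ext x; simp
  r_mul := by intro a b y; ext x; simp
  comm := by intro a b y; ext x; simp

variable {L N}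

/-- Elements of `homBi` are linear maps. -/
def hun (f : (homBi k A L N).C) : L →ₗ[k] N := f

/-- Linear maps are elements of `homBi`. -/
def hmk (A : Type) [Ring A] [Algebra k A] [Module A L] [IsScalarTower k A L] [Module A N]
    [IsScalarTower k A N] (f : L →ₗ[k] N) : (homBi k A L N).C := f

@[simp] lemma hun_hmk (f : L →ₗ[k] N) : hun (hmk A f) = f := rfl

@[simp] lemma homBi_l (a : A) (f : (homBi k A L N).C) (x : L) :
    hun ((homBi k A L N).l a f) x = a • hun f x := rfl

@[simp] lemma homBi_r (a : A) (f : (homBi k A L N).C) (x : L) :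
    hun ((homBi k A L N).r a f) x = hun f (a • x) := rfl

lemma hun_ext {f g : (homBi k A L N).C} (h : ∀ x, hun f x = hun g x) : f = g :=
  LinearMap.ext h

lemma hun_add (f g : (homBi k A L N).C) (x : L) : hun (f + g) x = hun f x + hun g x := rfl

lemma hun_sub (f g : (homBi k A L N).C) (x : L) : hun (f - g) x = hun f x - hun g x := rfl

lemma hun_smul (c : k) (f : (homBi k A L N).C) (x : L) : hun (c • f) x = c • hun f x := rfl

lemma mem_Z_homBi (f : (homBi k A L N).C) :
    (homBi k A L N).ad f = 0 ↔ ∀ (a : A) (x : L), hun f (a • x) = a • hun f x := by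
  rw [mem_ker_ad]
  constructor
  · intro h a x
    have := congrArg (fun g => hun g x) (h a)
    simpa using this.symm
  · intro h a
    apply hun_ext
    intro x
    simp [h a x]

/-- Linear maps out of a projective module have a contracting homotopy. -/
theorem star_homBi_of_projective [Module.Projective A L] : Star (homBi k A L N) := by
  obtain ⟨s, hs⟩ := Module.Projective.out (R := A) (P := L)
  have hs' : ∀ p : L, ((s p).sum fun i a => a • i) = p := fun p => hs p
  let σ0 : (A →ₗ[k] (L →ₗ[k] N)) →ₗ[k] (L →ₗ[k] N) :=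
    { toFun := fun g => (Finsupp.lsum k (fun i => g.flip i)) ∘ₗ (s.restrictScalars k)
      map_add' := by
        intro f g
        ext p
        change ((s p).sum fun i b => (f b i + g b i)) =
          ((s p).sum fun i b => f b i) + ((s p).sum fun i b => g b i)
        exact Finsupp.sum_add
      map_smul' := by
        intro c g
        ext p
        change ((s p).sum fun i b => c • g b i) = c • ((s p).sum fun i b => g b i)
        rw [Finsupp.smul_sum] }
  let σ : (homBi k A L N).T.C →ₗ[k] (homBi k A L N).C := σ0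
  have hσ : ∀ g p, hun (σ g) p = (s p).sum fun i a => hun ((homBi k A L N).toFun g a) i := by
    intro g p
    change ((Finsupp.lsum k (fun i => (show A →ₗ[k] (L →ₗ[k] N) from g).flip i)) ∘ₗ
      (s.restrictScalars k)) p = _
    simp only [LinearMap.comp_apply, Finsupp.lsum_apply]
    rfl
  refine ⟨σ, ?_, ?_⟩
  · intro a g
    apply hun_ext
    intro p
    rw [hσ, homBi_l, hσ, Finsupp.smul_sum]
    rfl
  · intro a g
    apply hun_ext
    intro p
    rw [hun_sub, homBi_r, hσ, hσ]
    have e1 : ((s (a • p)).sum fun i b => hun ((homBi k A L N).toFun g b) i) =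
        (s p).sum fun i b => hun ((homBi k A L N).toFun g (a * b)) i := by
      rw [map_smul]
      rw [Finsupp.sum_smul_index' (h := fun i b => hun ((homBi k A L N).toFun g b) i)]
      · rfl
      · intro i
        rw [map_zero]
        rfl
    have e2 : ((s p).sum fun i b => hun ((homBi k A L N).toFun ((homBi k A L N).T.r a g) b) i) =
        (s p).sum fun i b => (hun ((homBi k A L N).toFun g (a * b)) i -
          hun ((homBi k A L N).toFun g a) (b • i)) := rfl
    rw [e1, e2, Finsupp.sum_sub]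
    have e3 : ((s p).sum fun i b => hun ((homBi k A L N).toFun g a) (b • i)) =
        hun ((homBi k A L N).toFun g a) p := by
      conv_rhs => rw [← hs' p]
      rw [map_finsuppSum]
    rw [e3, sub_sub_cancel]

/-- Precomposition. -/
noncomputable def homPre {L' : Type} [AddCommGroup L'] [Module k L'] [Module A L']
    [IsScalarTower k A L'] (f : L' →ₗ[A] L) (N : Type) [AddCommGroup N] [Module k N] [Module A N]
    [IsScalarTower k A N] : BHom (homBi k A L N) (homBi k A L' N) where
  f := LinearMap.lcomp k N (f.restrictScalars k)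
  hl := by
    intro a y
    apply LinearMap.ext
    intro x
    rfl
  hr := by
    intro a y
    apply LinearMap.ext
    intro x
    change hun y (a • f x) = hun y (f (a • x))
    rw [f.map_smul]

/-- The exact sequence of bimodules attached to a short exact sequence of left modules. -/
noncomputable def homSes {L' L'' : Type} [AddCommGroup L'] [Module k L'] [Module A L']
    [IsScalarTower k A L'] [AddCommGroup L''] [Module k L''] [Module A L'']
    [IsScalarTower k A L''] (i : L' →ₗ[A] L) (p : L →ₗ[A] L'') (hi : Function.Injective i)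
    (hp : Function.Surjective p) (hpi : ∀ x, p (i x) = 0) (he : ∀ x, p x = 0 → ∃ y, i y = x)
    (N : Type) [AddCommGroup N] [Module k N] [Module A N] [IsScalarTower k A N] :
    Ses (homBi k A L'' N) (homBi k A L N) (homBi k A L' N) where
  i := homPre p N
  p := homPre i N
  inj := by
    intro f g h
    apply LinearMap.ext
    intro x
    obtain ⟨y, rfl⟩ := hp x
    exact LinearMap.congr_fun h y
  surj := by
    intro g
    obtain ⟨s, hs⟩ := (i.restrictScalars k).exists_leftInverse_of_injective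
      (LinearMap.ker_eq_bot.mpr hi)
    refine ⟨(show L' →ₗ[k] N from g).comp s, ?_⟩
    apply LinearMap.ext
    intro x
    change (show L' →ₗ[k] N from g) (s (i x)) = (show L' →ₗ[k] N from g) x
    rw [show s (i x) = x from LinearMap.congr_fun hs x]
  zero := by
    intro f
    apply LinearMap.ext
    intro x
    change (show L'' →ₗ[k] N from f) (p (i x)) = 0
    rw [hpi, map_zero]
  exact := by
    intro f hf
    obtain ⟨s, hs⟩ := (p.restrictScalars k).exists_rightInverse_of_surjective
      (LinearMap.range_eq_top.mpr hp)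
    refine ⟨(show L →ₗ[k] N from f).comp s, ?_⟩
    apply LinearMap.ext
    intro x
    change (show L →ₗ[k] N from f) (s (p x)) = (show L →ₗ[k] N from f) x
    have h1 : p (s (p x) - x) = 0 := by
      rw [map_sub]
      rw [show p (s (p x)) = p x from LinearMap.congr_fun hs (p x), sub_self]
    obtain ⟨y, hy⟩ := he _ h1
    have h2 : (show L →ₗ[k] N from f) (s (p x) - x) = 0 := by
      rw [← hy]
      exact LinearMap.congr_fun hf y
    rw [map_sub] at h2
    exact sub_eq_zero.mp h2

end homBi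

/-! ### Duals -/

/-- The dual bimodule. -/
noncomputable def Bi.dual (X : Bi k A) : Bi k A where
  C := X.C →ₗ[k] k
  l := LinearMap.mk₂ k (fun a f => f.comp (X.r a))
    (by intros; ext; simp) (by intros; ext; simp) (by intros; ext; simp) (by intros; ext; simp)
  r := LinearMap.mk₂ k (fun a f => f.comp (X.l a))
    (by intros; ext; simp) (by intros; ext; simp) (by intros; ext; simp) (by intros; ext; simp)
  l_mul := by intro a b y; ext x; simp [X.r_mul]
  r_mul := by intro a b y; ext x; simp [X.l_mul]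
  comm := by intro a b y; ext x; simp [X.comm]

/-- The transpose of a morphism. -/
noncomputable def BHom.dual {X Y : Bi k A} (φ : BHom X Y) : BHom Y.dual X.dual where
  f := LinearMap.lcomp k k φ.f
  hl := by
    intro a y
    apply LinearMap.ext
    intro x
    change (show Y.C →ₗ[k] k from y) (Y.r a (φ.f x)) = (show Y.C →ₗ[k] k from y) (φ.f (X.r a x))
    rw [φ.hr]
  hr := by
    intro a y
    apply LinearMap.ext
    intro x
    change (show Y.C →ₗ[k] k from y) (Y.l a (φ.f x)) = (show Y.C →ₗ[k] k from y) (φ.f (X.l a x))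
    rw [φ.hl]

/-- The dual of an exact sequence. -/
noncomputable def Ses.dual {X' X X'' : Bi k A} (S : Ses X' X X'') :
    Ses X''.dual X.dual X'.dual where
  i := S.p.dual
  p := S.i.dual
  inj := by
    intro f g h
    apply LinearMap.ext
    intro x
    obtain ⟨y, rfl⟩ := S.surj x
    exact LinearMap.congr_fun h y
  surj := by
    intro g
    obtain ⟨s, hs⟩ := S.i.f.exists_leftInverse_of_injective (LinearMap.ker_eq_bot.mpr S.inj)
    refine ⟨(show X'.C →ₗ[k] k from g).comp s, ?_⟩
    apply LinearMap.ext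
    intro x
    change (show X'.C →ₗ[k] k from g) (s (S.i.f x)) = (show X'.C →ₗ[k] k from g) x
    rw [show s (S.i.f x) = x from LinearMap.congr_fun hs x]
  zero := by
    intro f
    apply LinearMap.ext
    intro x
    change (show X''.C →ₗ[k] k from f) (S.p.f (S.i.f x)) = 0
    rw [S.zero, map_zero]
  exact := by
    intro f hf
    obtain ⟨s, hs⟩ := S.p.f.exists_rightInverse_of_surjective (LinearMap.range_eq_top.mpr S.surj)
    refine ⟨(show X.C →ₗ[k] k from f).comp s, ?_⟩
    apply LinearMap.ext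
    intro x
    change (show X.C →ₗ[k] k from f) (s (S.p.f x)) = (show X.C →ₗ[k] k from f) x
    have h1 : S.p.f (s (S.p.f x) - x) = 0 := by
      rw [map_sub]
      rw [show S.p.f (s (S.p.f x)) = S.p.f x from LinearMap.congr_fun hs (S.p.f x), sub_self]
    obtain ⟨y, hy⟩ := S.exact _ h1
    have h2 : (show X.C →ₗ[k] k from f) (s (S.p.f x) - x) = 0 := by
      rw [← hy]
      exact LinearMap.congr_fun hf y
    rw [map_sub] at h2
    exact sub_eq_zero.mp h2

/-- The algebra as a bimodule over itself. -/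
noncomputable def regBi (k A : Type) [Field k] [Ring A] [Algebra k A] : Bi k A where
  C := A
  l := LinearMap.mul k A
  r := (LinearMap.mul k A).flip
  l_mul := by intro a b y; simp [mul_assoc]
  r_mul := by intro a b y; simp [mul_assoc]
  comm := by intro a b y; simp [mul_assoc]

/-! ### The pencil lemma -/

section pencil

variable {Y Z : Bi k A}

/-- `H^n` of a morphism is injective. -/
def BHom.HInj (n : ℕ) (φ : BHom Y Z) : Prop :=
  ∀ y ∈ Bi.Z n Y, (φ.Tn n).f y ∈ Bi.B n Z → y ∈ Bi.B n Y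

/-- `H^n` of a morphism is surjective. -/
def BHom.HSurj (n : ℕ) (φ : BHom Y Z) : Prop :=
  ∀ z ∈ Bi.Z n Z, ∃ y ∈ Bi.Z n Y, (φ.Tn n).f y - z ∈ Bi.B n Z

/-- Composition. -/
def BHom.comp {W : Bi k A} (ψ : BHom Z W) (φ : BHom Y Z) : BHom Y W where
  f := ψ.f.comp φ.f
  hl := by intro a y; simp [φ.hl, ψ.hl]
  hr := by intro a y; simp [φ.hr, ψ.hr]

lemma BHom.comp_Tn {W : Bi k A} (ψ : BHom Z W) (φ : BHom Y Z) (n : ℕ) :
    ((ψ.comp φ).Tn n).f = (ψ.Tn n).f.comp (φ.Tn n).f := by
  induction n with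
  | zero => rfl
  | succ n ih =>
    apply LinearMap.ext
    intro y
    apply (Bi.Tn n W).T_ext
    intro x
    exact LinearMap.congr_fun ih _

lemma BHom.HInj.comp {W : Bi k A} {ψ : BHom Z W} {φ : BHom Y Z} {n : ℕ} (h1 : ψ.HInj n)
    (h2 : φ.HInj n) : (ψ.comp φ).HInj n := by
  intro y hy h
  rw [BHom.comp_Tn] at h
  exact h2 y hy (h1 _ (φ.map_Z n hy) h)

lemma BHom.HSurj.comp {W : Bi k A} {ψ : BHom Z W} {φ : BHom Y Z} {n : ℕ} (h1 : ψ.HSurj n)
    (h2 : φ.HSurj n) : (ψ.comp φ).HSurj n := by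
  intro w hw
  obtain ⟨z, hz, hz'⟩ := h1 w hw
  obtain ⟨y, hy, hy'⟩ := h2 z hz
  refine ⟨y, hy, ?_⟩
  rw [BHom.comp_Tn]
  have := Submodule.add_mem _ (ψ.map_B n hy') hz'
  rw [map_sub] at this
  rwa [sub_add_sub_cancel] at this

lemma Ses.hinj_i {Y' Y Y'' : Bi k A} (S : Ses Y' Y Y'') (h : ∀ n, Van n Y'') (n : ℕ) :
    S.i.HInj n := by
  intro y hy hb
  cases n with
  | zero =>
    have h3 : (S.i.Tn 0).f y = 0 := hb
    have h4 : y = 0 := S.inj' 0 (by rw [h3, map_zero])
    rw [h4]
    exact Submodule.zero_mem _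
  | succ n =>
    apply S.inj_of_lift n _ hb
    intro z hz
    exact ⟨0, Submodule.zero_mem _, by
      rw [map_zero, zero_sub]; exact Submodule.neg_mem _ (h n hz)⟩

lemma Ses.hsurj_i {Y' Y Y'' : Bi k A} (S : Ses Y' Y Y'') (h : ∀ n, Van n Y'') (n : ℕ) :
    S.i.HSurj n := by
  intro y hy
  obtain ⟨z', hz', hb⟩ := S.mid n hy (h n (S.p.map_Z n hy))
  refine ⟨z', hz', ?_⟩
  rw [← neg_sub]
  exact Submodule.neg_mem _ hb

lemma Ses.hinj_p {Y' Y Y'' : Bi k A} (S : Ses Y' Y Y'') (h : ∀ n, Van n Y') (n : ℕ) :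
    S.p.HInj n := by
  intro y hy hb
  obtain ⟨z', hz', hb'⟩ := S.mid n hy hb
  have := Submodule.add_mem _ hb' (S.i.map_B n (h n hz'))
  rwa [sub_add_cancel] at this

lemma Ses.hsurj_p {Y' Y Y'' : Bi k A} (S : Ses Y' Y Y'') (h : ∀ n, Van n Y') (n : ℕ) :
    S.p.HSurj n := by
  intro y hy
  obtain ⟨z, hz, rfl⟩ := S.lift_Z n (h (n + 1)) hy
  exact ⟨z, hz, by rw [sub_self]; exact Submodule.zero_mem _⟩

/-- The combination `g - μ f`. -/
def BHom.lin (g f : BHom Y Z) (μ : k) : BHom Y Z where
  f := g.f - μ • f.f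
  hl := by intro a y; simp [g.hl, f.hl]
  hr := by intro a y; simp [g.hr, f.hr]

lemma BHom.lin_Tn (g f : BHom Y Z) (μ : k) (n : ℕ) :
    ((g.lin f μ).Tn n).f = (g.Tn n).f - μ • (f.Tn n).f := by
  induction n with
  | zero => rfl
  | succ n ih =>
    apply LinearMap.ext
    intro y
    apply (Bi.Tn n Z).T_ext
    intro x
    exact LinearMap.congr_fun ih _

end pencil

/-- Linear algebra behind the pencil lemma. -/
lemma pencil_lin [IsAlgClosed k] {E F : Type} [AddCommGroup E] [Module k E] [AddCommGroup F]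
    [Module k F] [FiniteDimensional k E] (U U0 : Submodule k E) (V V0 : Submodule k F)
    (f g : E →ₗ[k] F) (hfU : ∀ u ∈ U, f u ∈ V) (hgU : ∀ u ∈ U, g u ∈ V)
    (hf0 : ∀ u ∈ U0, f u ∈ V0) (hg0 : ∀ u ∈ U0, g u ∈ V0)
    (inj : ∀ u ∈ U, f u ∈ V0 → u ∈ U0) (surj : ∀ v ∈ V, ∃ u ∈ U, f u - v ∈ V0)
    (hinj : ∀ μ : k, ∀ u ∈ U, g u - μ • f u ∈ V0 → u ∈ U0) : U ≤ U0 := by
  classical
  let fq : (E ⧸ U0) →ₗ[k] (F ⧸ V0) := U0.mapQ V0 f hf0
  let gq : (E ⧸ U0) →ₗ[k] (F ⧸ V0) := U0.mapQ V0 g hg0
  let Uq : Submodule k (E ⧸ U0) := U.map U0.mkQ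
  let Vq : Submodule k (F ⧸ V0) := V.map V0.mkQ
  have hf : ∀ x ∈ Uq, fq x ∈ Vq := by
    rintro _ ⟨u, hu, rfl⟩
    exact ⟨f u, hfU u hu, rfl⟩
  have hg : ∀ x ∈ Uq, gq x ∈ Vq := by
    rintro _ ⟨u, hu, rfl⟩
    exact ⟨g u, hgU u hu, rfl⟩
  let fr : Uq →ₗ[k] Vq := fq.restrict hf
  let gr : Uq →ₗ[k] Vq := gq.restrict hg
  have hbij : Function.Bijective fr := by
    constructor
    · rw [← LinearMap.ker_eq_bot, LinearMap.ker_eq_bot']
      rintro ⟨_, u, hu, rfl⟩ h
      have h1 : fq (U0.mkQ u) = 0 := congrArg Subtype.val h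
      have h2 : f u ∈ V0 := by
        rw [← Submodule.Quotient.mk_eq_zero]; exact h1
      apply Subtype.ext
      change U0.mkQ u = 0
      rw [Submodule.mkQ_apply, Submodule.Quotient.mk_eq_zero]
      exact inj u hu h2
    · rintro ⟨_, v, hv, rfl⟩
      obtain ⟨u, hu, huv⟩ := surj v hv
      refine ⟨⟨U0.mkQ u, u, hu, rfl⟩, ?_⟩
      apply Subtype.ext
      change V0.mkQ (f u) = V0.mkQ v
      rw [← sub_eq_zero, ← map_sub, Submodule.mkQ_apply, Submodule.Quotient.mk_eq_zero]
      exact huv
  let e : Uq ≃ₗ[k] Vq := LinearEquiv.ofBijective fr hbij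
  let t : Module.End k Uq := e.symm.toLinearMap.comp gr
  by_contra hU
  have hne : Nontrivial Uq := by
    obtain ⟨u, hu, hu0⟩ := SetLike.not_le_iff_exists.mp hU
    refine ⟨⟨⟨U0.mkQ u, u, hu, rfl⟩, 0, ?_⟩⟩
    intro h
    apply hu0
    rw [← Submodule.Quotient.mk_eq_zero]
    exact congrArg Subtype.val h
  obtain ⟨μ, hμ⟩ := Module.End.exists_eigenvalue t
  obtain ⟨x, hx⟩ := hμ.exists_hasEigenvector
  have hx1 : t x = μ • x := hx.apply_eq_smul
  have hx2 : gr x = μ • fr x := by
    have : e (t x) = e (μ • x) := by rw [hx1]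
    rw [map_smul] at this
    have h3 : e (t x) = gr x := e.apply_symm_apply (gr x)
    rw [h3] at this
    exact this
  obtain ⟨⟨_, u, hu, rfl⟩, hx3⟩ : ∃ y : Uq, y = x := ⟨x, rfl⟩
  subst hx3
  have h4 : V0.mkQ (g u) = μ • V0.mkQ (f u) := congrArg Subtype.val hx2
  have h5 : g u - μ • f u ∈ V0 := by
    rw [← Submodule.Quotient.mk_eq_zero]
    change V0.mkQ (g u - μ • f u) = 0
    rw [map_sub, map_smul, h4, sub_self]
  have h6 := hinj μ u hu h5
  apply hx.2
  apply Subtype.ext
  change U0.mkQ u = 0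
  rw [Submodule.mkQ_apply, Submodule.Quotient.mk_eq_zero]
  exact h6

instance Tn_finite [FiniteDimensional k A] (Y : Bi k A) [h : FiniteDimensional k Y.C] (n : ℕ) :
    FiniteDimensional k (Tn n Y).C := by
  induction n with
  | zero => exact h
  | succ n ih =>
    change FiniteDimensional k (A →ₗ[k] (Tn n Y).C)
    infer_instance

/-- **Pencil lemma.** -/
theorem pencil [IsAlgClosed k] [FiniteDimensional k A] {Y Z : Bi k A} [FiniteDimensional k Y.C]
    (n : ℕ) (f g : BHom Y Z) (h1 : f.HInj n) (h2 : f.HSurj n)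
    (h3 : ∀ μ : k, (g.lin f μ).HInj n) : Van n Y ∧ Van n Z := by
  have hY : Van n Y := by
    apply pencil_lin (Bi.Z n Y) (Bi.B n Y) (Bi.Z n Z) (Bi.B n Z) (f.Tn n).f (g.Tn n).f
    · intro u hu; exact f.map_Z n hu
    · intro u hu; exact g.map_Z n hu
    · intro u hu; exact f.map_B n hu
    · intro u hu; exact g.map_B n hu
    · exact h1
    · exact h2
    · intro μ u hu h
      apply h3 μ u hu
      rw [BHom.lin_Tn]
      exact h
  refine ⟨hY, ?_⟩
  intro z hz
  obtain ⟨y, hy, hyz⟩ := h2 z hz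
  have h4 := f.map_B n (hY hy)
  have := Submodule.sub_mem _ h4 hyz
  rwa [sub_sub_cancel] at this

end Pool.Agent.N10.Han
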