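import Pool.Agent.N10.Han.Defs2
import Pool.Agent.N10.Han.Hoch2

/-!
# The algebra

`TT D` is the ring of pairs `(s, x)`, `s` a polynomial in three variables and `x` in `K`, with
product `(s s', l(s) x' + x r(s'))`.  The algebra `AA D` consists of the three by three matrices
over `TT D` whose `(a,b)` entry lies in `P_(b-a) ⊕ W (3-a) (1+b)`.
-/

open scoped WithZero
open Matrix

namespace Pool.Agent.N10.Han

variable {k K : Type} [Field k] [Field K] [Algebra k K]

/-- Polynomials. -/
abbrev PS (k : Type) [Field k] : Type := MvPolynomial (Fin 3) k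

/-- Linear form with given coefficients. -/
noncomputable def lin (v : Fin 3 → k) : PS k := ∑ i, v i • MvPolynomial.X i

/-- Evaluation at a point. -/
noncomputable def ev (p : Fin 3 → k) : PS k →ₐ[k] k := MvPolynomial.aeval p

@[simp] lemma ev_lin (p v : Fin 3 → k) : ev p (lin v) = v ⬝ᵥ p := by
  simp [ev, lin, dotProduct]

/-- Linear polynomials. -/
noncomputable def P1 (k : Type) [Field k] : Submodule k (PS k) :=
  Submodule.span k (Set.range MvPolynomial.X)

lemma lin_mem (v : Fin 3 → k) : lin v ∈ P1 k := by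
  unfold lin
  exact Submodule.sum_mem _ fun i _ => Submodule.smul_mem _ _
    (Submodule.subset_span ⟨i, rfl⟩)

lemma exists_lin {f : PS k} (hf : f ∈ P1 k) : ∃ v, f = lin v := by
  unfold P1 at hf
  rw [Submodule.mem_span_range_iff_exists_fun] at hf
  obtain ⟨c, rfl⟩ := hf
  exact ⟨c, rfl⟩

/-- The polynomials allowed at the place `(a, b)`. -/
noncomputable def PP (k : Type) [Field k] (a b : Fin 3) : Submodule k (PS k) :=
  if a ≤ b then P1 k ^ ((b : ℕ) - (a : ℕ)) else ⊥

lemma PP_mul {a b c : Fin 3} {f g : PS k} (hf : f ∈ PP k a b) (hg : g ∈ PP k b c) :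
    f * g ∈ PP k a c := by
  unfold PP at *
  by_cases h1 : a ≤ b
  · by_cases h2 : b ≤ c
    · rw [if_pos h1] at hf
      rw [if_pos h2] at hg
      rw [if_pos (h1.trans h2)]
      have h3 : (c : ℕ) - (a : ℕ) = ((b : ℕ) - (a : ℕ)) + ((c : ℕ) - (b : ℕ)) := by
        have h4 : (a : ℕ) ≤ (b : ℕ) := h1
        have h5 : (b : ℕ) ≤ (c : ℕ) := h2
        omega
      rw [h3, pow_add]
      exact Submodule.mul_mem_mul hf hg
    · rw [if_neg h2, Submodule.mem_bot] at hg
      rw [hg, mul_zero]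
      exact Submodule.zero_mem _
  · rw [if_neg h1, Submodule.mem_bot] at hf
    rw [hf, zero_mul]
    exact Submodule.zero_mem _

lemma PP_self (a : Fin 3) : PP k a a = 1 := by
  unfold PP
  rw [if_pos le_rfl, Nat.sub_self, pow_zero]

lemma PP_lt {a b : Fin 3} (h : b < a) : PP k a b = ⊥ := by
  unfold PP
  rw [if_neg (not_le.mpr h)]

namespace Datum

variable (D : Datum k K)

/-- The homomorphism `l`. -/
noncomputable def lS : PS k →ₐ[k] K := MvPolynomial.aeval ![1, D.X, D.Y]

/-- The homomorphism `r`. -/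
noncomputable def rS : PS k →ₐ[k] K := MvPolynomial.aeval ![1, D.X', D.Y']

@[simp] lemma lS_lin (v : Fin 3 → k) : D.lS (lin v) = D.l v := by
  simp [lS, lin, l, Fin.sum_univ_three, Algebra.smul_def]

@[simp] lemma rS_lin (v : Fin 3 → k) : D.rS (lin v) = D.r v := by
  simp [rS, lin, r, Fin.sum_univ_three, Algebra.smul_def]

lemma lS_P1 {f : PS k} (hf : f ∈ P1 k) : D.lS f ∈ D.V := by
  obtain ⟨v, rfl⟩ := exists_lin hf
  rw [lS_lin]
  exact ⟨v, rfl⟩

lemma rS_P1 {f : PS k} (hf : f ∈ P1 k) : D.rS f ∈ D.V' := by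
  obtain ⟨v, rfl⟩ := exists_lin hf
  rw [rS_lin]
  exact ⟨v, rfl⟩

lemma lS_pow (n : ℕ) : (P1 k ^ n).map D.lS.toLinearMap ≤ D.V ^ n := by
  rw [Submodule.map_pow]
  refine pow_le_pow_left' ?_ n
  rintro _ ⟨f, hf, rfl⟩
  exact D.lS_P1 hf

lemma rS_pow (n : ℕ) : (P1 k ^ n).map D.rS.toLinearMap ≤ D.V' ^ n := by
  rw [Submodule.map_pow]
  refine pow_le_pow_left' ?_ n
  rintro _ ⟨f, hf, rfl⟩
  exact D.rS_P1 hf

lemma lS_mul_mem {a b : Fin 3} {f : PS k} (hf : f ∈ PP k a b) {t : ℕ} {x : K}
    (hx : x ∈ D.W (3 - (b : ℕ)) t) : D.lS f * x ∈ D.W (3 - (a : ℕ)) t := by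
  unfold PP at hf
  by_cases h : a ≤ b
  · rw [if_pos h] at hf
    have h4 : (a : ℕ) ≤ (b : ℕ) := h
    have h5 : (b : ℕ) < 3 := b.2
    have h3 : 3 - (a : ℕ) = ((b : ℕ) - (a : ℕ)) + (3 - (b : ℕ)) := by omega
    unfold W at *
    rw [h3, pow_add, mul_assoc]
    exact Submodule.mul_mem_mul (D.lS_pow _ ⟨f, hf, rfl⟩) hx
  · rw [if_neg h, Submodule.mem_bot] at hf
    rw [hf, map_zero, zero_mul]
    exact Submodule.zero_mem _

lemma mul_rS_mem {b c : Fin 3} {f : PS k} (hf : f ∈ PP k b c) {s : ℕ} {x : K}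
    (hx : x ∈ D.W s (1 + (b : ℕ))) : x * D.rS f ∈ D.W s (1 + (c : ℕ)) := by
  unfold PP at hf
  by_cases h : b ≤ c
  · rw [if_pos h] at hf
    have h4 : (b : ℕ) ≤ (c : ℕ) := h
    have h3 : 1 + (c : ℕ) = (1 + (b : ℕ)) + ((c : ℕ) - (b : ℕ)) := by omega
    unfold W at *
    rw [h3, pow_add, ← mul_assoc]
    exact Submodule.mul_mem_mul hx (D.rS_pow _ ⟨f, hf, rfl⟩)
  · rw [if_neg h, Submodule.mem_bot] at hf
    rw [hf, map_zero, mul_zero]
    exact Submodule.zero_mem _

end Datum

/-! ### The ring `TT D` -/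

/-- Pairs of a polynomial and an element of `K`. -/
@[ext] structure TT (D : Datum k K) where
  s : PS k
  x : K

namespace TT

variable (D : Datum k K)

/-- Underlying equivalence. -/
def equiv : TT D ≃ (PS k × K) where
  toFun a := (a.s, a.x)
  invFun a := ⟨a.1, a.2⟩
  left_inv _ := rfl
  right_inv _ := rfl

noncomputable instance : AddCommGroup (TT D) := (equiv D).addCommGroup

noncomputable instance : Module k (TT D) := (equiv D).module k

variable {D}

@[simp] lemma add_s (a b : TT D) : (a + b).s = a.s + b.s := rfl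
@[simp] lemma add_x (a b : TT D) : (a + b).x = a.x + b.x := rfl
@[simp] lemma sub_s (a b : TT D) : (a - b).s = a.s - b.s := rfl
@[simp] lemma sub_x (a b : TT D) : (a - b).x = a.x - b.x := rfl
@[simp] lemma neg_s (a : TT D) : (-a).s = -a.s := rfl
@[simp] lemma neg_x (a : TT D) : (-a).x = -a.x := rfl
@[simp] lemma zero_s : (0 : TT D).s = 0 := rfl
@[simp] lemma zero_x : (0 : TT D).x = 0 := rfl
@[simp] lemma smul_s (c : k) (a : TT D) : (c • a).s = c • a.s := rfl
@[simp] lemma smul_x (c : k) (a : TT D) : (c • a).x = c • a.x := rfl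

noncomputable instance : Mul (TT D) := ⟨fun a b => ⟨a.s * b.s, D.lS a.s * b.x + a.x * D.rS b.s⟩⟩
noncomputable instance : One (TT D) := ⟨⟨1, 0⟩⟩

@[simp] lemma mul_s (a b : TT D) : (a * b).s = a.s * b.s := rfl
@[simp] lemma mul_x (a b : TT D) : (a * b).x = D.lS a.s * b.x + a.x * D.rS b.s := rfl
@[simp] lemma one_s : (1 : TT D).s = 1 := rfl
@[simp] lemma one_x : (1 : TT D).x = 0 := rfl

noncomputable instance : Ring (TT D) where
  __ := (inferInstance : AddCommGroup (TT D))
  mul_assoc a b c := by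
    ext
    · simp [mul_assoc]
    · simp; ring
  one_mul a := by ext <;> simp
  mul_one a := by ext <;> simp
  left_distrib a b c := by
    ext
    · simp [mul_add]
    · simp; ring
  right_distrib a b c := by
    ext
    · simp [add_mul]
    · simp; ring
  zero_mul a := by ext <;> simp
  mul_zero a := by ext <;> simp

noncomputable instance : Algebra k (TT D) :=
  Algebra.ofModule
    (by intro c a b; ext <;> simp)
    (by intro c a b; ext <;> simp)

@[simp] lemma sum_s {ι : Type} (t : Finset ι) (f : ι → TT D) :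
    (∑ i ∈ t, f i).s = ∑ i ∈ t, (f i).s := by
  classical
  induction t using Finset.induction_on with
  | empty => rfl
  | insert i t hi ih => rw [Finset.sum_insert hi, Finset.sum_insert hi, add_s, ih]

@[simp] lemma sum_x {ι : Type} (t : Finset ι) (f : ι → TT D) :
    (∑ i ∈ t, f i).x = ∑ i ∈ t, (f i).x := by
  classical
  induction t using Finset.induction_on with
  | empty => rfl
  | insert i t hi ih => rw [Finset.sum_insert hi, Finset.sum_insert hi, add_x, ih]

end TT

/-- The entries allowed at the place `(a, b)`. -/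
noncomputable def EE (D : Datum k K) (a b : Fin 3) : Submodule k (TT D) where
  carrier := {e | e.s ∈ PP k a b ∧ e.x ∈ D.W (3 - (a : ℕ)) (1 + (b : ℕ))}
  add_mem' := by
    intro e f he hf
    exact ⟨Submodule.add_mem _ he.1 hf.1, Submodule.add_mem _ he.2 hf.2⟩
  zero_mem' := ⟨Submodule.zero_mem _, Submodule.zero_mem _⟩
  smul_mem' := by
    intro c e he
    exact ⟨Submodule.smul_mem _ c he.1, Submodule.smul_mem _ c he.2⟩

lemma EE_mul (D : Datum k K) {a b c : Fin 3} {e f : TT D} (he : e ∈ EE D a b)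
    (hf : f ∈ EE D b c) : e * f ∈ EE D a c := by
  refine ⟨PP_mul he.1 hf.1, ?_⟩
  rw [TT.mul_x]
  exact Submodule.add_mem _ (D.lS_mul_mem he.1 hf.2) (D.mul_rS_mem hf.1 he.2)

lemma EE_one (D : Datum k K) (a : Fin 3) : (1 : TT D) ∈ EE D a a := by
  refine ⟨?_, Submodule.zero_mem _⟩
  rw [PP_self]
  exact Submodule.one_le.mp le_rfl

/-- The algebra. -/
noncomputable def AA (D : Datum k K) : Subalgebra k (Matrix (Fin 3) (Fin 3) (TT D)) where
  carrier := {m | ∀ a b, m a b ∈ EE D a b}
  mul_mem' := by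
    intro m n hm hn a b
    rw [Matrix.mul_apply]
    exact Submodule.sum_mem _ fun c _ => EE_mul D (hm a c) (hn c b)
  add_mem' := by
    intro m n hm hn a b
    exact Submodule.add_mem _ (hm a b) (hn a b)
  algebraMap_mem' := by
    intro c a b
    rw [Matrix.algebraMap_matrix_apply]
    split_ifs with h
    · subst h
      rw [Algebra.algebraMap_eq_smul_one]
      exact Submodule.smul_mem _ _ (EE_one D a)
    · exact Submodule.zero_mem _

end Pool.Agent.N10.Han
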