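import Pool.Agent.N10.Han.Mod

/-!
# Bimodules of matrices over `K`
-/

open scoped WithZero
open Matrix

namespace Pool.Agent.N10.Han

variable {k K : Type} [Field k] [Field K] [Algebra k K] (D : Datum k K)

/-- Polynomial part of an element of the algebra. -/
noncomputable def sM : AA D →ₐ[k] Matrix (Fin 3) (Fin 3) (PS k) :=
  (AlgHom.ofLinearMap
    { toFun := fun e : TT D => e.s
      map_add' := by intro a b; rfl
      map_smul' := by intro c a; rfl }
    rfl (by intro a b; rfl) : TT D →ₐ[k] PS k).mapMatrix.comp (AA D).val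

@[simp] lemma sM_apply (a : AA D) (i j : Fin 3) : sM D a i j = (a.1 i j).s := rfl

/-- Image of the polynomial part under `l`. -/
noncomputable def lM : AA D →ₐ[k] Matrix (Fin 3) (Fin 3) K := D.lS.mapMatrix.comp (sM D)

/-- Image of the polynomial part under `r`. -/
noncomputable def rM : AA D →ₐ[k] Matrix (Fin 3) (Fin 3) K := D.rS.mapMatrix.comp (sM D)

@[simp] lemma lM_apply (a : AA D) (i j : Fin 3) : lM D a i j = D.lS (a.1 i j).s := rfl

@[simp] lemma rM_apply (a : AA D) (i j : Fin 3) : rM D a i j = D.rS (a.1 i j).s := rfl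

/-- A family of subspaces of `K` stable under `l` and `r`. -/
structure Fam (D : Datum k K) where
  N : ℕ → ℕ → Submodule k K
  hl : ∀ (v : Fin 3 → k) (s t : ℕ), ∀ h ∈ N s t, D.l v * h ∈ N (s + 1) t
  hr : ∀ (v : Fin 3 → k) (s t : ℕ), ∀ h ∈ N s t, D.r v * h ∈ N s (t + 1)

namespace Fam

variable {D} (F : Fam D)

lemma lS_mem {n : ℕ} {f : PS k} (hf : f ∈ P1 k ^ n) {s t : ℕ} {x : K} (hx : x ∈ F.N s t) :
    D.lS f * x ∈ F.N (s + n) t := by
  induction n generalizing f with
  | zero =>
    rw [pow_zero, Submodule.mem_one] at hf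
    obtain ⟨c, rfl⟩ := hf
    have : D.lS (algebraMap k (PS k) c) * x = c • x := by
      rw [D.lS.commutes, Algebra.smul_def]
    rw [this]
    exact Submodule.smul_mem _ c hx
  | succ n ih =>
    rw [pow_succ'] at hf
    refine Submodule.mul_induction_on hf ?_ ?_
    · intro a ha b hb
      obtain ⟨v, rfl⟩ := exists_lin ha
      rw [map_mul, D.lS_lin, mul_assoc]
      exact F.hl v _ _ _ (ih hb)
    · intro a b ha hb
      rw [map_add, add_mul]
      exact Submodule.add_mem _ ha hb

lemma rS_mem {n : ℕ} {f : PS k} (hf : f ∈ P1 k ^ n) {s t : ℕ} {x : K} (hx : x ∈ F.N s t) :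
    D.rS f * x ∈ F.N s (t + n) := by
  induction n generalizing f with
  | zero =>
    rw [pow_zero, Submodule.mem_one] at hf
    obtain ⟨c, rfl⟩ := hf
    have : D.rS (algebraMap k (PS k) c) * x = c • x := by
      rw [D.rS.commutes, Algebra.smul_def]
    rw [this]
    exact Submodule.smul_mem _ c hx
  | succ n ih =>
    rw [pow_succ'] at hf
    refine Submodule.mul_induction_on hf ?_ ?_
    · intro a ha b hb
      obtain ⟨v, rfl⟩ := exists_lin ha
      rw [map_mul, D.rS_lin, mul_assoc]
      exact F.hr v _ _ _ (ih hb)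
    · intro a b ha hb
      rw [map_add, add_mul]
      exact Submodule.add_mem _ ha hb

lemma lS_PP {a b : Fin 3} {f : PS k} (hf : f ∈ PP k a b) {t : ℕ} {x : K}
    (hx : x ∈ F.N (3 - (b : ℕ)) t) : D.lS f * x ∈ F.N (3 - (a : ℕ)) t := by
  unfold PP at hf
  by_cases h : a ≤ b
  · rw [if_pos h] at hf
    have h4 : (a : ℕ) ≤ (b : ℕ) := h
    have h5 : (b : ℕ) < 3 := b.2
    have h3 : 3 - (a : ℕ) = (3 - (b : ℕ)) + ((b : ℕ) - (a : ℕ)) := by omega
    rw [h3]
    exact F.lS_mem hf hx
  · rw [if_neg h, Submodule.mem_bot] at hf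
    rw [hf, map_zero, zero_mul]
    exact Submodule.zero_mem _

lemma rS_PP {b c : Fin 3} {f : PS k} (hf : f ∈ PP k b c) {s : ℕ} {x : K}
    (hx : x ∈ F.N s (1 + (b : ℕ))) : x * D.rS f ∈ F.N s (1 + (c : ℕ)) := by
  unfold PP at hf
  by_cases h : b ≤ c
  · rw [if_pos h] at hf
    have h4 : (b : ℕ) ≤ (c : ℕ) := h
    have h3 : 1 + (c : ℕ) = (1 + (b : ℕ)) + ((c : ℕ) - (b : ℕ)) := by omega
    rw [h3, mul_comm]
    exact F.rS_mem hf hx
  · rw [if_neg h, Submodule.mem_bot] at hf
    rw [hf, map_zero, mul_zero]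
    exact Submodule.zero_mem _

/-- Matrices with entries in the family. -/
def mat : Submodule k (Matrix (Fin 3) (Fin 3) K) where
  carrier := {m | ∀ a b : Fin 3, m a b ∈ F.N (3 - (a : ℕ)) (1 + (b : ℕ))}
  add_mem' := by intro x y hx hy a b; exact Submodule.add_mem _ (hx a b) (hy a b)
  zero_mem' := fun a b => Submodule.zero_mem _
  smul_mem' := by intro c x hx a b; exact Submodule.smul_mem _ c (hx a b)

lemma lM_mul_mem (a : AA D) {m : Matrix (Fin 3) (Fin 3) K} (hm : m ∈ F.mat) :
    lM D a * m ∈ F.mat := by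
  intro i j
  rw [Matrix.mul_apply]
  exact Submodule.sum_mem _ fun c _ => F.lS_PP (a.2 i c).1 (hm c j)

lemma mul_rM_mem (a : AA D) {m : Matrix (Fin 3) (Fin 3) K} (hm : m ∈ F.mat) :
    m * rM D a ∈ F.mat := by
  intro i j
  rw [Matrix.mul_apply]
  exact Submodule.sum_mem _ fun c _ => F.rS_PP (a.2 c j).1 (hm i c)

/-- The bimodule of matrices with entries in a family. -/
noncomputable def bi : Bi k (AA D) where
  C := F.mat
  l := LinearMap.mk₂ k (fun a m => (⟨lM D a * m.1, F.lM_mul_mem a m.2⟩ : F.mat))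
    (by intro a b m; apply Subtype.ext; simp [add_mul])
    (by intro c a m; apply Subtype.ext; simp)
    (by intro a m n; apply Subtype.ext; simp [mul_add])
    (by intro c a m; apply Subtype.ext; simp)
  r := LinearMap.mk₂ k (fun a m => (⟨m.1 * rM D a, F.mul_rM_mem a m.2⟩ : F.mat))
    (by intro a b m; apply Subtype.ext; simp [mul_add])
    (by intro c a m; apply Subtype.ext; simp)
    (by intro a m n; apply Subtype.ext; simp [add_mul])
    (by intro c a m; apply Subtype.ext; simp)
  l_mul := by intro a b m; apply Subtype.ext; simp [mul_assoc]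
  r_mul := by intro a b m; apply Subtype.ext; simp [mul_assoc]
  comm := by intro a b m; apply Subtype.ext; simp [mul_assoc]

end Fam

/-- The family `W`. -/
noncomputable def famW : Fam D where
  N := D.W
  hl := by
    intro v s t h hh
    unfold Datum.W at *
    rw [pow_succ', mul_assoc]
    exact Submodule.mul_mem_mul ⟨v, rfl⟩ hh
  hr := by
    intro v s t h hh
    unfold Datum.W at *
    rw [pow_succ', mul_left_comm]
    exact Submodule.mul_mem_mul ⟨v, rfl⟩ hh

/-- The bimodule `M`. -/
noncomputable def MBi : Bi k (AA D) := (famW D).bi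

end Pool.Agent.N10.Han
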