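import Mathlib

/-!
# Elliptic datum used for the algebra of the file S02300

The curve is `y^2 = X^3 + 3 X^2 + 1` with the point `P = (0, 1)`.  Vectors of `k^3` are written
`(z, X, y)`.  `Rel u p` says that `p = u + P` on this curve, in the form of three bilinear
equations.
-/

open scoped WithZero

namespace Pool.Agent.N10.Han

variable {k : Type} [Field k]

/-- First bilinear form. -/
def Th1 (u p : Fin 3 → k) : k := p 1 * u 2 + p 1 * u 0 + 2 * (u 1 * p 0) + 6 * (u 0 * p 0)

/-- Second bilinear form. -/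
def Th2 (u p : Fin 3 → k) : k := u 1 * p 2 - u 1 * p 0 - 2 * (p 1 * u 0) - 6 * (u 0 * p 0)

/-- Third bilinear form. -/
def Th3 (u p : Fin 3 → k) : k :=
  u 2 * p 2 - u 2 * p 0 + p 2 * u 0 + 3 * (u 1 * p 1) + 3 * (u 0 * p 0)

/-- The relation `p = u + P` between points of the projective plane. -/
def Rel (u p : Fin 3 → k) : Prop :=
  u ≠ 0 ∧ p ≠ 0 ∧ Th1 u p = 0 ∧ Th2 u p = 0 ∧ Th3 u p = 0

/-- A field with two valuations and four elements: the coordinate functions `X, Y` of the
generic point of the curve and the coordinate functions `X', Y'` of its translate by `P`. -/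
structure Datum (k K : Type) [Field k] [Field K] [Algebra k K] where
  X : K
  Y : K
  X' : K
  Y' : K
  r1 : X' * Y = -X' - 2 * X - 6
  r2 : X * Y' = X + 2 * X' + 6
  r3 : Y * Y' = Y - Y' - 3 * (X * X') - 3
  v : Valuation K ℤᵐ⁰
  v' : Valuation K ℤᵐ⁰
  vk : ∀ a : k, a ≠ 0 → v (algebraMap k K a) = 1
  v'k : ∀ a : k, a ≠ 0 → v' (algebraMap k K a) = 1
  vX : v X = WithZero.exp 2
  vY : v Y = WithZero.exp 3
  vX' : v X' = WithZero.exp (-1)
  vY' : v Y' ≤ 1
  v'X' : v' X' = WithZero.exp 2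
  v'Y' : v' Y' = WithZero.exp 3
  v'X : v' X = WithZero.exp (-1)
  v'Y : v' Y ≤ 1

end Pool.Agent.N10.Han
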