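import Pool.Agent.N10.Han.Defs

/-!
# The spaces `W s t` of an elliptic datum
-/

open scoped WithZero
open Matrix

namespace Pool.Agent.N10.Han

variable {k K : Type} [Field k] [Field K] [Algebra k K]

namespace Datum

/-- Linear forms in `1, X, Y`. -/
noncomputable def l (D : Datum k K) : (Fin 3 → k) →ₗ[k] K where
  toFun v := algebraMap k K (v 0) + v 1 • D.X + v 2 • D.Y
  map_add' := by intro u w; simp only [Pi.add_apply, map_add, add_smul]; ring
  map_smul' := by
    intro c u
    simp only [Pi.smul_apply, smul_eq_mul, map_mul, RingHom.id_apply, smul_add, mul_smul]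
    rw [Algebra.smul_def c (algebraMap k K (u 0))]

/-- Linear forms in `1, X', Y'`. -/
noncomputable def r (D : Datum k K) : (Fin 3 → k) →ₗ[k] K where
  toFun v := algebraMap k K (v 0) + v 1 • D.X' + v 2 • D.Y'
  map_add' := by intro u w; simp only [Pi.add_apply, map_add, add_smul]; ring
  map_smul' := by
    intro c u
    simp only [Pi.smul_apply, smul_eq_mul, map_mul, RingHom.id_apply, smul_add, mul_smul]
    rw [Algebra.smul_def c (algebraMap k K (u 0))]

/-- The span of `1, X, Y`. -/
noncomputable def V (D : Datum k K) : Submodule k K := LinearMap.range D.l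

/-- The span of `1, X', Y'`. -/
noncomputable def V' (D : Datum k K) : Submodule k K := LinearMap.range D.r

/-- Bihomogeneous pieces. -/
noncomputable def W (D : Datum k K) (s t : ℕ) : Submodule k K := D.V ^ s * D.V' ^ t

/-- Elements multiplied into `W (s+1) t` by all forms `l v` with `v` vanishing at `p`. -/
noncomputable def What (D : Datum k K) (p : Fin 3 → k) (s t : ℕ) : Submodule k K where
  carrier := {h | ∀ v : Fin 3 → k, v ⬝ᵥ p = 0 → D.l v * h ∈ D.W (s + 1) t}
  add_mem' := by
    intro a b ha hb v hv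
    rw [mul_add]
    exact Submodule.add_mem _ (ha v hv) (hb v hv)
  zero_mem' := by intro v _; rw [mul_zero]; exact Submodule.zero_mem _
  smul_mem' := by
    intro c a ha v hv
    rw [mul_smul_comm]
    exact Submodule.smul_mem _ c (ha v hv)

/-- The span of the products of forms `l v`, `v` vanishing at `p`, with `W (s+1) t`. -/
noncomputable def Img (D : Datum k K) (p : Fin 3 → k) (s t : ℕ) : Submodule k K :=
  Submodule.span k {x | ∃ v h, v ⬝ᵥ p = 0 ∧ h ∈ D.W (s + 1) t ∧ x = D.l v * h}

/-- The same with the roles of the two sets of coordinates exchanged. -/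
noncomputable def What' (D : Datum k K) (p : Fin 3 → k) (s t : ℕ) : Submodule k K where
  carrier := {h | ∀ v : Fin 3 → k, v ⬝ᵥ p = 0 → D.r v * h ∈ D.W s (t + 1)}
  add_mem' := by
    intro a b ha hb v hv
    rw [mul_add]
    exact Submodule.add_mem _ (ha v hv) (hb v hv)
  zero_mem' := by intro v _; rw [mul_zero]; exact Submodule.zero_mem _
  smul_mem' := by
    intro c a ha v hv
    rw [mul_smul_comm]
    exact Submodule.smul_mem _ c (ha v hv)

/-- The same with the roles of the two sets of coordinates exchanged. -/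
noncomputable def Img' (D : Datum k K) (p : Fin 3 → k) (s t : ℕ) : Submodule k K :=
  Submodule.span k {x | ∃ v h, v ⬝ᵥ p = 0 ∧ h ∈ D.W s (t + 1) ∧ x = D.r v * h}

/-- Exchange of the two sets of coordinates. -/
noncomputable def swap (D : Datum k K) : Datum k K where
  X := D.X'
  Y := -D.Y'
  X' := D.X
  Y' := -D.Y
  r1 := by linear_combination (-1) * D.r2
  r2 := by linear_combination (-1) * D.r1
  r3 := by linear_combination D.r3
  v := D.v'
  v' := D.v
  vk := D.v'k
  v'k := D.vk
  vX := D.v'X'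
  vY := by rw [Valuation.map_neg]; exact D.v'Y'
  vX' := D.v'X
  vY' := by rw [Valuation.map_neg]; exact D.v'Y
  v'X' := D.vX
  v'Y' := by rw [Valuation.map_neg]; exact D.vY
  v'X := D.vX'
  v'Y := by rw [Valuation.map_neg]; exact D.vY'

/-- A family of subspaces `N0 s t` of codimension one in `N s t` (`1 ≤ s, t ≤ 3`), such that
linear forms act on the quotients by evaluation at `a` and `b`. -/
def IsFun (D : Datum k K) (a b : Fin 3 → k) (N N0 : ℕ → ℕ → Submodule k K) : Prop :=
  ∃ φ : ℕ → ℕ → (K →ₗ[k] k), ∀ s t : ℕ, 1 ≤ s → s ≤ 3 → 1 ≤ t → t ≤ 3 →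
    (∀ h ∈ N s t, φ s t h = 0 ↔ h ∈ N0 s t) ∧
    (∃ h ∈ N s t, φ s t h = 1) ∧
    (s < 3 → ∀ v : Fin 3 → k, ∀ h ∈ N s t, φ (s + 1) t (D.l v * h) = (v ⬝ᵥ a) * φ s t h) ∧
    (t < 3 → ∀ v : Fin 3 → k, ∀ h ∈ N s t, φ s (t + 1) (D.r v * h) = (v ⬝ᵥ b) * φ s t h)

end Datum

end Pool.Agent.N10.Han
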