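import Pool.Agent.N10.Han.Defs

/-!
# Translation by the point `P = (0, 1)` on `y^2 = X^3 + 3 X^2 + 1`

`P` has infinite order, so a chain of points related by the translation never closes up.
-/

namespace Pool.Agent.N10.Han

namespace Dyn

open WeierstrassCurve WeierstrassCurve.Affine

variable {k : Type} [Field k]

/-- The curve `y^2 = X^3 + 3 X^2 + 1`. -/
def Wk (k : Type) [Field k] : WeierstrassCurve.Affine k := ⟨0, 3, 0, 0, 1⟩

lemma eqn_iff (x y : k) : (Wk k).Equation x y ↔ y ^ 2 = x ^ 3 + 3 * x ^ 2 + 1 := by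
  rw [equation_iff]
  simp [Wk]

lemma nons [CharZero k] {x y : k} (h : y ^ 2 = x ^ 3 + 3 * x ^ 2 + 1) :
    (Wk k).Nonsingular x y := by
  rw [nonsingular_iff]
  refine ⟨(eqn_iff x y).2 h, ?_⟩
  by_contra hc
  push Not at hc
  obtain ⟨h1, h2⟩ := hc
  simp only [Wk] at h1 h2
  have hy : y = 0 := by
    have : (2 : k) * y = 0 := by linear_combination h2
    simpa using this
  rw [hy] at h
  have h3 : x * (x + 2) = 0 := by
    have : (3 : k) * (x * (x + 2)) = 0 := by linear_combination -h1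
    simpa using this
  rcases mul_eq_zero.1 h3 with h4 | h4
  · rw [h4] at h
    norm_num at h
  · have h5 : x = -2 := by linear_combination h4
    rw [h5] at h
    norm_num at h

lemma eqn_of {x y : k} (h : (Wk k).Nonsingular x y) : y ^ 2 = x ^ 3 + 3 * x ^ 2 + 1 :=
  (eqn_iff x y).1 h.1

variable [CharZero k]

/-- the point `(0, 1)` -/
def P0 (k : Type) [Field k] [CharZero k] : (Wk k).Point := .some 0 1 (nons (by ring))

/-- `u` represents the point -/
def Rep (u : Fin 3 → k) : (Wk k).Point → Prop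
  | .zero => u 0 = 0 ∧ u 1 = 0 ∧ u 2 ≠ 0
  | .some x y _ => u 0 ≠ 0 ∧ u 1 = u 0 * x ∧ u 2 = u 0 * y

omit [CharZero k] in
lemma Rep.unique {u : Fin 3 → k} {Q R : (Wk k).Point} (h1 : Rep u Q) (h2 : Rep u R) : Q = R := by
  cases Q with
  | zero =>
    cases R with
    | zero => rfl
    | some x y h => exact absurd h1.1 h2.1
  | some x y h =>
    cases R with
    | zero => exact absurd h2.1 h1.1
    | some x' y' h' =>
      obtain ⟨a1, a2, a3⟩ := h1
      obtain ⟨b1, b2, b3⟩ := h2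
      have e1 : x = x' := mul_left_cancel₀ a1 (a2.symm.trans b2)
      have e2 : y = y' := mul_left_cancel₀ a1 (a3.symm.trans b3)
      subst e1 e2
      rfl

omit [CharZero k] in
lemma Rep.smul {u : Fin 3 → k} {Q : (Wk k).Point} (h1 : Rep u Q) {c : k} (hc : c ≠ 0) :
    Rep (c • u) Q := by
  cases Q with
  | zero =>
    obtain ⟨a1, a2, a3⟩ := h1
    refine ⟨?_, ?_, ?_⟩ <;> simp [a1, a2, a3, hc]
  | some x y h =>
    obtain ⟨a1, a2, a3⟩ := h1
    refine ⟨?_, ?_, ?_⟩
    · simp [a1, hc]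
    · simp only [Pi.smul_apply, smul_eq_mul, a2]; ring
    · simp only [Pi.smul_apply, smul_eq_mul, a3]; ring

/-! ### the group law -/

variable [DecidableEq k]

/-- adding `P` to a point with `x ≠ 0` -/
lemma add_P0 {x y x' y' : k} (h : (Wk k).Nonsingular x y) (h' : (Wk k).Nonsingular x' y')
    (hx : x ≠ 0) (e1 : x' * x ^ 2 = (y - 1) ^ 2 - 3 * x ^ 2 - x ^ 3)
    (e2 : x * y' = -((y - 1) * (x' - x) + y * x)) :
    (Point.some x y h : (Wk k).Point) + P0 k = .some x' y' h' := by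
  unfold P0
  rw [Point.add_of_X_ne hx]
  have e3 : (Wk k).addX x 0 ((Wk k).slope x 0 y 1) = x' := by
    rw [slope_of_X_ne hx]
    simp only [addX, Wk]
    field_simp
    linear_combination -e1
  have e4 : (Wk k).addY x 0 y ((Wk k).slope x 0 y 1) = y' := by
    unfold addY negAddY
    rw [e3, slope_of_X_ne hx]
    simp only [negY, Wk]
    field_simp
    linear_combination -e2
  congr 1

lemma two_P0 : P0 k + P0 k = .some (-3) (-1) (nons (by norm_num)) := by
  unfold P0
  have hy : (1 : k) ≠ (Wk k).negY 0 1 := by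
    simp only [negY, Wk]
    norm_num
  rw [Point.add_self_of_Y_ne hy]
  have e3 : (Wk k).addX 0 0 ((Wk k).slope 0 0 1 1) = -3 := by
    rw [slope_of_Y_ne rfl hy]
    simp only [addX, negY, Wk]
    norm_num
  have e4 : (Wk k).addY 0 0 1 ((Wk k).slope 0 0 1 1) = -1 := by
    unfold addY negAddY
    rw [e3, slope_of_Y_ne rfl hy]
    simp only [negY, Wk]
    norm_num
  congr 1

lemma neg_P0 : (Point.some 0 (-1) (nons (by norm_num)) : (Wk k).Point) + P0 k = 0 := by
  unfold P0
  refine Point.add_of_Y_eq rfl ?_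
  simp only [negY, Wk]
  norm_num

/-- doubling -/
lemma dbl {x y : k} (h : (Wk k).Nonsingular x y) (hy : y ≠ 0) :
    ∃ (x' y' : k) (h' : (Wk k).Nonsingular x' y'),
      (Point.some x y h : (Wk k).Point) + .some x y h = .some x' y' h' ∧
      x' * (4 * (x ^ 3 + 3 * x ^ 2 + 1)) = x ^ 4 - 8 * x - 12 := by
  have hy' : y ≠ (Wk k).negY x y := by
    simp only [negY, Wk]
    intro h1
    apply hy
    have : (2 : k) * y = 0 := by linear_combination h1
    simpa using this
  refine ⟨_, _, _, Point.add_self_of_Y_ne hy', ?_⟩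
  rw [slope_of_Y_ne rfl hy']
  simp only [addX, negY, Wk]
  have e := eqn_of h
  rw [← e]
  have e5 : y - (-y - 0 * x - 0) = 2 * y := by ring
  have e6 : ((3 * x ^ 2 + 2 * 3 * x + 0 - 0 * y) / (2 * y)) ^ 2 * (4 * y ^ 2) =
      (3 * x ^ 2 + 6 * x) ^ 2 := by
    field_simp
    ring
  rw [e5]
  linear_combination e6 - (8 * x + 12) * e

/-! ### the relation -/

omit [DecidableEq k] in
/-- both vectors are on the curve -/
lemma rel_curve {u p : Fin 3 → k} (h : Rel u p) :
    u 0 * u 2 ^ 2 = u 1 ^ 3 + 3 * u 1 ^ 2 * u 0 + u 0 ^ 3 ∧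
    p 0 * p 2 ^ 2 = p 1 ^ 3 + 3 * p 1 ^ 2 * p 0 + p 0 ^ 3 ∧
    u 1 ^ 2 * p 1 = -2 * u 0 * p 0 * (u 2 - u 0) := by
  obtain ⟨hu, hp, t1, t2, t3⟩ := h
  unfold Th1 at t1
  unfold Th2 at t2
  unfold Th3 at t3
  set z := u 0
  set X := u 1
  set y := u 2
  set z' := p 0
  set X' := p 1
  set y' := p 2
  refine ⟨?_, ?_, ?_⟩
  · by_contra hc
    have hG : z * y ^ 2 - (X ^ 3 + 3 * X ^ 2 * z + z ^ 3) ≠ 0 := sub_ne_zero.2 hc
    have h0 : (z * y ^ 2 - (X ^ 3 + 3 * X ^ 2 * z + z ^ 3)) * z' = 0 := by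
      linear_combination (1 / 6) * ((-2 * z * (y + z) - 3 * X ^ 2) * t1 + (-(y + z) ^ 2) * t2 +
        (X * (y + z)) * t3)
    have h1 : (z * y ^ 2 - (X ^ 3 + 3 * X ^ 2 * z + z ^ 3)) * X' = 0 := by
      linear_combination (1 / 6) * (((X + 6 * z) * (y + z) + X * (3 * z - y)) * t1 +
        ((2 * X + 6 * z) * (y + z)) * t2 + (-(2 * X + 6 * z) * X) * t3)
    have h2 : (z * y ^ 2 - (X ^ 3 + 3 * X ^ 2 * z + z ^ 3)) * y' = 0 := by
      linear_combination (1 / 6) * ((-3 * X ^ 2 - 18 * X * z + 6 * z ^ 2 - 2 * z * y) * t1 +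
        (-(6 * X ^ 2 + 18 * X * z) + (y + z) * (3 * z - y)) * t2 +
        (-4 * X * z - 12 * z ^ 2 + (y + z) * (X + 6 * z)) * t3)
    apply hp
    funext i
    fin_cases i
    · exact (mul_eq_zero.1 h0).resolve_left hG
    · exact (mul_eq_zero.1 h1).resolve_left hG
    · exact (mul_eq_zero.1 h2).resolve_left hG
  · by_contra hc
    have hG : z' * y' ^ 2 - (X' ^ 3 + 3 * X' ^ 2 * z' + z' ^ 3) ≠ 0 := sub_ne_zero.2 hc
    have h0 : (z' * y' ^ 2 - (X' ^ 3 + 3 * X' ^ 2 * z' + z' ^ 3)) * z = 0 := by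
      linear_combination (1 / 6) * ((y' - z') ^ 2 * t1 + (-2 * z' * (y' - z') + 3 * X' ^ 2) * t2 +
        (-X' * (y' - z')) * t3)
    have h1 : (z' * y' ^ 2 - (X' ^ 3 + 3 * X' ^ 2 * z' + z' ^ 3)) * X = 0 := by
      linear_combination (1 / 6) * (((2 * X' + 6 * z') * (y' - z')) * t1 +
        ((X' + 6 * z') * (y' - z') - X' * (y' + 3 * z')) * t2 + (-X' * (2 * X' + 6 * z')) * t3)
    have h2 : (z' * y' ^ 2 - (X' ^ 3 + 3 * X' ^ 2 * z' + z' ^ 3)) * y = 0 := by
      linear_combination (1 / 6) *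
        (((-2 * X' - 6 * z') * (3 * X') - (y' - z') * (y' + 3 * z')) * t1 +
        (-3 * X' * (X' + 6 * z') + 2 * z' * (y' + 3 * z')) * t2 +
        ((X' + 6 * z') * (y' - z') + 2 * z' * (2 * X' + 6 * z')) * t3)
    apply hu
    funext i
    fin_cases i
    · exact (mul_eq_zero.1 h0).resolve_left hG
    · exact (mul_eq_zero.1 h1).resolve_left hG
    · exact (mul_eq_zero.1 h2).resolve_left hG
  · linear_combination (1 / 3) * (X * t3 - (y + z) * t2 - 2 * z * t1)

lemma rel_rep {u p : Fin 3 → k} (h : Rel u p) :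
    ∃ Q : (Wk k).Point, Rep u Q ∧ Rep p (Q + P0 k) := by
  obtain ⟨c1, c2, c3⟩ := rel_curve h
  obtain ⟨hu, hp, t1, t2, t3⟩ := h
  unfold Th1 at t1
  unfold Th2 at t2
  unfold Th3 at t3
  have hu' : ¬ (u 0 = 0 ∧ u 1 = 0 ∧ u 2 = 0) := by
    rintro ⟨h0, h1, h2⟩
    apply hu
    funext i
    fin_cases i <;> simp [h0, h1, h2]
  have hp' : ¬ (p 0 = 0 ∧ p 1 = 0 ∧ p 2 = 0) := by
    rintro ⟨h0, h1, h2⟩
    apply hp
    funext i
    fin_cases i <;> simp [h0, h1, h2]
  by_cases hz : u 0 = 0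
  · -- `u` is the point at infinity
    rw [hz] at c1 t1 t2 t3
    have hx : u 1 = 0 := by
      have : u 1 ^ 3 = 0 := by linear_combination -c1
      exact pow_eq_zero_iff (by norm_num) |>.1 this
    have hy : u 2 ≠ 0 := fun h2 => hu' ⟨hz, hx, h2⟩
    rw [hx] at t1 t2 t3
    have hx' : p 1 = 0 := by
      have : p 1 * u 2 = 0 := by linear_combination t1
      exact (mul_eq_zero.1 this).resolve_right hy
    have hy' : p 2 = p 0 := by
      have : u 2 * (p 2 - p 0) = 0 := by linear_combination t3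
      exact sub_eq_zero.1 ((mul_eq_zero.1 this).resolve_left hy)
    refine ⟨0, ⟨hz, hx, hy⟩, ?_⟩
    rw [zero_add]
    refine ⟨fun h0 => hp' ⟨h0, hx', by rw [hy', h0]⟩, ?_, ?_⟩
    · rw [hx', mul_zero]
    · rw [hy', mul_one]
  by_cases hz' : p 0 = 0
  · rw [hz'] at c2 t1 t2 t3
    have hx' : p 1 = 0 := by
      have : p 1 ^ 3 = 0 := by linear_combination -c2
      exact pow_eq_zero_iff (by norm_num) |>.1 this
    have hy' : p 2 ≠ 0 := fun h2 => hp' ⟨hz', hx', h2⟩
    rw [hx'] at t1 t2 t3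
    have hx : u 1 = 0 := by
      have : u 1 * p 2 = 0 := by linear_combination t2
      exact (mul_eq_zero.1 this).resolve_right hy'
    have hy : u 2 = -u 0 := by
      have : p 2 * (u 2 + u 0) = 0 := by linear_combination t3
      exact eq_neg_of_add_eq_zero_left ((mul_eq_zero.1 this).resolve_left hy')
    refine ⟨.some 0 (-1) (nons (by norm_num)), ⟨hz, ?_, ?_⟩, ?_⟩
    · rw [hx, mul_zero]
    · rw [hy]; ring
    · rw [neg_P0]
      exact ⟨hz', hx', hy'⟩
  -- both are affine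
  obtain ⟨x, ex⟩ : ∃ x, u 1 = u 0 * x := ⟨u 1 / u 0, by field_simp⟩
  obtain ⟨y, ey⟩ : ∃ y, u 2 = u 0 * y := ⟨u 2 / u 0, by field_simp⟩
  obtain ⟨x', ex'⟩ : ∃ x', p 1 = p 0 * x' := ⟨p 1 / p 0, by field_simp⟩
  obtain ⟨y', ey'⟩ : ∃ y', p 2 = p 0 * y' := ⟨p 2 / p 0, by field_simp⟩
  rw [ex, ey] at c1
  rw [ex', ey'] at c2
  rw [ex, ey, ex'] at c3
  rw [ex, ey, ex'] at t1
  rw [ex, ex', ey'] at t2
  rw [ex, ex', ey, ey'] at t3
  have d1 : y ^ 2 = x ^ 3 + 3 * x ^ 2 + 1 := by
    have : u 0 ^ 3 * (y ^ 2 - (x ^ 3 + 3 * x ^ 2 + 1)) = 0 := by linear_combination c1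
    exact sub_eq_zero.1 ((mul_eq_zero.1 this).resolve_left (pow_ne_zero 3 hz))
  have d2 : y' ^ 2 = x' ^ 3 + 3 * x' ^ 2 + 1 := by
    have : p 0 ^ 3 * (y' ^ 2 - (x' ^ 3 + 3 * x' ^ 2 + 1)) = 0 := by linear_combination c2
    exact sub_eq_zero.1 ((mul_eq_zero.1 this).resolve_left (pow_ne_zero 3 hz'))
  have hzz : u 0 * p 0 ≠ 0 := mul_ne_zero hz hz'
  have d3 : x ^ 2 * x' = -2 * (y - 1) := by
    have : u 0 * (u 0 * p 0) * (x ^ 2 * x' - (-2 * (y - 1))) = 0 := by linear_combination c3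
    exact sub_eq_zero.1 ((mul_eq_zero.1 this).resolve_left (mul_ne_zero hz hzz))
  have s1 : x' * y + x' + 2 * x + 6 = 0 := by
    have : u 0 * p 0 * (x' * y + x' + 2 * x + 6) = 0 := by linear_combination t1
    exact (mul_eq_zero.1 this).resolve_left hzz
  have s2 : x * y' - x - 2 * x' - 6 = 0 := by
    have : u 0 * p 0 * (x * y' - x - 2 * x' - 6) = 0 := by linear_combination t2
    exact (mul_eq_zero.1 this).resolve_left hzz
  have s3 : y * y' - y + y' + 3 * (x * x') + 3 = 0 := by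
    have : u 0 * p 0 * (y * y' - y + y' + 3 * (x * x') + 3) = 0 := by linear_combination t3
    exact (mul_eq_zero.1 this).resolve_left hzz
  refine ⟨.some x y (nons d1), ⟨hz, ex, ey⟩, ?_⟩
  by_cases hx : x = 0
  · subst hx
    have f1 : x' = -3 := by
      have : (2 : k) * (x' + 3) = 0 := by linear_combination -s2
      have := (mul_eq_zero.1 this).resolve_left (by norm_num)
      linear_combination this
    subst f1
    have f2 : y = 1 := by
      have : (3 : k) * (y - 1) = 0 := by linear_combination -s1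
      have := (mul_eq_zero.1 this).resolve_left (by norm_num)
      linear_combination this
    subst f2
    have f3 : y' = -1 := by
      have : (2 : k) * (y' + 1) = 0 := by linear_combination s3
      have := (mul_eq_zero.1 this).resolve_left (by norm_num)
      linear_combination this
    subst f3
    have : (Point.some 0 1 (nons d1) : (Wk k).Point) + P0 k = .some (-3) (-1) (nons (by norm_num)) :=
      two_P0
    rw [this]
    exact ⟨hz', ex', ey'⟩
  · rw [add_P0 (nons d1) (nons d2) hx (by linear_combination d3 - d1)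
      (by linear_combination s2 + s1)]
    exact ⟨hz', ex', ey'⟩

/-- coordinates -/
def crd : (Wk k).Point → Fin 3 → k
  | .zero => ![0, 0, 1]
  | .some x y _ => ![1, x, y]

omit [DecidableEq k] in
lemma crd_ne (Q : (Wk k).Point) : crd Q ≠ 0 := by
  cases Q with
  | zero => exact fun h => by simpa [crd] using congrFun h 2
  | some x y h => exact fun h => by simpa [crd] using congrFun h 0

lemma rel_crd (Q : (Wk k).Point) : Rel (crd Q) (crd (Q + P0 k)) := by
  refine ⟨crd_ne _, crd_ne _, ?_⟩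
  cases Q with
  | zero =>
    have : (Point.zero : (Wk k).Point) + P0 k = P0 k := zero_add _
    rw [this]
    simp [crd, P0, Th1, Th2, Th3]
  | some x y h =>
    have e := eqn_of h
    by_cases hx : x = 0
    · subst hx
      have hy : (y - 1) * (y + 1) = 0 := by linear_combination e
      rcases mul_eq_zero.1 hy with h1 | h1
      · have : y = 1 := by linear_combination h1
        subst this
        have h2 : (Point.some 0 1 h : (Wk k).Point) + P0 k = .some (-3) (-1) (nons (by norm_num)) :=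
          two_P0
        rw [h2]
        simp only [crd, Th1, Th2, Th3, Matrix.cons_val_zero, Matrix.cons_val_one, Matrix.cons_val]
        norm_num
      · have : y = -1 := by linear_combination h1
        subst this
        have h2 : (Point.some 0 (-1) h : (Wk k).Point) + P0 k = .zero := neg_P0
        rw [h2]
        simp only [crd, Th1, Th2, Th3, Matrix.cons_val_zero, Matrix.cons_val_one, Matrix.cons_val]
        norm_num
    · obtain ⟨x', y', h', e', g1, g2⟩ : ∃ (x' y' : k) (h' : (Wk k).Nonsingular x' y'),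
          (Point.some x y h : (Wk k).Point) + P0 k = .some x' y' h' ∧
          x' * x ^ 2 = (y - 1) ^ 2 - 3 * x ^ 2 - x ^ 3 ∧
          x * y' = -((y - 1) * (x' - x) + y * x) := by
        unfold P0
        rw [Point.add_of_X_ne hx]
        refine ⟨_, _, _, rfl, ?_, ?_⟩
        · rw [slope_of_X_ne hx]
          simp only [addX, Wk]
          field_simp
          ring
        · unfold addY negAddY
          rw [slope_of_X_ne hx]
          simp only [negY, addX, Wk]
          field_simp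
          ring
      rw [e']
      have hx2 : x ^ 2 ≠ 0 := pow_ne_zero 2 hx
      have d3 : x ^ 2 * x' = -2 * (y - 1) := by linear_combination g1 + e
      have s1 : x' * y + x' + 2 * x + 6 = 0 := by
        have : x ^ 2 * (x' * y + x' + 2 * x + 6) = 0 := by linear_combination (y + 1) * d3 - 2 * e
        exact (mul_eq_zero.1 this).resolve_left hx2
      have s2 : x * y' - x - 2 * x' - 6 = 0 := by linear_combination g2 - s1
      have s3 : y * y' - y + y' + 3 * (x * x') + 3 = 0 := by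
        have : x * (y * y' - y + y' + 3 * (x * x') + 3) = 0 := by
          linear_combination (y + 1) * s2 + 3 * d3 + 2 * s1
        exact (mul_eq_zero.1 this).resolve_left hx
      simp only [crd, Th1, Th2, Th3, Matrix.cons_val_zero, Matrix.cons_val_one, Matrix.cons_val]
      refine ⟨by linear_combination s1, by linear_combination s2, by linear_combination s3⟩

/-! ### `P` has infinite order -/

/-- points whose first coordinate is `a / (4^r b)`, `a`, `b` odd -/
def Sr (r : ℕ) (Q : (Wk k).Point) : Prop :=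
  ∃ (x y : k) (h : (Wk k).Nonsingular x y) (a b : ℤ), Q = .some x y h ∧ Odd a ∧ Odd b ∧
    x * (4 ^ r * b) = a

lemma Sr_dbl {r : ℕ} (hr : 1 ≤ r) {Q : (Wk k).Point} (h : Sr r Q) : Sr (r + 1) (Q + Q) := by
  obtain ⟨x, y, h, a, b, rfl, ha, hb, hx⟩ := h
  have e := eqn_of h
  set d : ℤ := 4 ^ r * b with hd
  have hdk : (4 ^ r * b : k) = (d : k) := by rw [hd]; push_cast; ring
  rw [hdk] at hx
  have hb0 : b ≠ 0 := by
    rintro rfl
    exact absurd hb (by decide)
  have hd0 : (d : k) ≠ 0 := by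
    have : d ≠ 0 := mul_ne_zero (by positivity) hb0
    exact_mod_cast this
  have hdeven : Even d := by
    obtain ⟨s, rfl⟩ : ∃ s, r = s + 1 := ⟨r - 1, by omega⟩
    rw [hd]
    exact ((by decide : Even (4 : ℤ)).pow_of_ne_zero (by omega)).mul_right b
  have hodd1 : Odd (a ^ 3 + 3 * a ^ 2 * d + d ^ 3) := by
    have h1 : Odd (a ^ 3) := ha.pow
    have h2 : Even (3 * a ^ 2 * d) := hdeven.mul_left _
    have h3 : Even (d ^ 3) := hdeven.pow_of_ne_zero (by norm_num)
    exact (h1.add_even h2).add_even h3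
  have hodd2 : Odd (a ^ 4 - 8 * a * d ^ 3 - 12 * d ^ 4) := by
    have h1 : Odd (a ^ 4) := ha.pow
    have h2 : Even (8 * a * d ^ 3) := (hdeven.pow_of_ne_zero (by norm_num)).mul_left _
    have h3 : Even (12 * d ^ 4) := (hdeven.pow_of_ne_zero (by norm_num)).mul_left _
    exact (h1.sub_even h2).sub_even h3
  have hA : ((a ^ 3 + 3 * a ^ 2 * d + d ^ 3 : ℤ) : k) ≠ 0 := by
    have : (a ^ 3 + 3 * a ^ 2 * d + d ^ 3) ≠ 0 := by
      intro h0
      rw [h0] at hodd1
      exact absurd hodd1 (by decide)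
    exact_mod_cast this
  have hd3 : (x ^ 3 + 3 * x ^ 2 + 1) * d ^ 3 = ((a ^ 3 + 3 * a ^ 2 * d + d ^ 3 : ℤ) : k) := by
    push_cast
    rw [← hx]
    ring
  have hy : y ≠ 0 := by
    rintro rfl
    have : x ^ 3 + 3 * x ^ 2 + 1 = 0 := by linear_combination -e
    rw [this, zero_mul] at hd3
    exact hA hd3.symm
  obtain ⟨x', y', h', e1, e2⟩ := dbl h hy
  refine ⟨x', y', h', a ^ 4 - 8 * a * d ^ 3 - 12 * d ^ 4, b * (a ^ 3 + 3 * a ^ 2 * d + d ^ 3), e1,
    hodd2, hb.mul hodd1, ?_⟩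
  have e3 : (4 : k) ^ (r + 1) * ((b * (a ^ 3 + 3 * a ^ 2 * d + d ^ 3) : ℤ) : k) =
      4 * d * ((x ^ 3 + 3 * x ^ 2 + 1) * d ^ 3) := by
    rw [hd3, ← hdk]
    push_cast
    ring
  rw [e3]
  push_cast
  rw [← hx]
  linear_combination (d : k) ^ 4 * e2

omit [DecidableEq k] in
lemma Sr_inj {r s : ℕ} {Q : (Wk k).Point} (h1 : Sr r Q) (h2 : Sr s Q) (hrs : r < s) : False := by
  obtain ⟨x, y, h, a, b, rfl, ha, hb, hx⟩ := h1
  obtain ⟨x2, y2, h2, a2, b2, e, ha2, hb2, hx2⟩ := h2
  injection e with e1 e2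
  subst e1
  obtain ⟨t, rfl⟩ : ∃ t, s = r + (t + 1) := ⟨s - r - 1, by omega⟩
  have h4 : (4 : k) ^ r ≠ 0 := pow_ne_zero _ (by norm_num)
  have key : (a : k) * (4 ^ (t + 1) * b2) = a2 * b := by
    have : (4 : k) ^ r * ((a : k) * (4 ^ (t + 1) * b2) - a2 * b) = 0 := by
      rw [← hx, ← hx2]
      ring
    exact sub_eq_zero.1 ((mul_eq_zero.1 this).resolve_left h4)
  have key2 : a * (4 ^ (t + 1) * b2) = a2 * b := by exact_mod_cast key
  have hev : Even (a * (4 ^ (t + 1) * b2)) := by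
    rw [pow_succ]
    exact (((by decide : Even (4 : ℤ)).mul_left _).mul_right _).mul_left _
  rw [key2] at hev
  exact (Int.not_even_iff_odd.2 (ha2.mul hb)) hev

lemma four_P0 : Sr 1 (4 • P0 k) := by
  have e : 4 • P0 k = (P0 k + P0 k) + (P0 k + P0 k) := by
    rw [show (4 : ℕ) = 2 * 2 by norm_num, mul_nsmul, two_nsmul, two_nsmul]
  rw [e, two_P0]
  obtain ⟨x', y', h', e1, e2⟩ := dbl (k := k) (nons (x := -3) (y := -1) (by norm_num)) (by norm_num)
  refine ⟨x', y', h', 93, 1, e1, by decide, by decide, ?_⟩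
  push_cast
  linear_combination e2

lemma pow_P0 (j : ℕ) : Sr (1 + j) ((2 ^ (j + 2)) • P0 k) := by
  induction j with
  | zero => exact four_P0
  | succ j ih =>
    have := Sr_dbl (by omega) ih
    rw [← two_nsmul, ← mul_nsmul] at this
    have e : 2 ^ (j + 2) * 2 = 2 ^ (j + 1 + 2) := by ring
    rw [e] at this
    exact this

lemma inf_order (n : ℕ) : (n + 1) • P0 k ≠ 0 := by
  intro h
  have hfin : IsOfFinAddOrder (P0 k) :=
    isOfFinAddOrder_iff_nsmul_eq_zero.2 ⟨n + 1, by omega, h⟩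
  have hinj : Function.Injective (fun j : ℕ => (2 ^ (j + 2)) • P0 k) := by
    intro i j hij
    simp only at hij
    rcases lt_trichotomy i j with h1 | h1 | h1
    · exact (Sr_inj (pow_P0 (k := k) i) (hij ▸ pow_P0 (k := k) j) (by omega)).elim
    · exact h1
    · exact (Sr_inj (pow_P0 (k := k) j) (hij ▸ pow_P0 (k := k) i) (by omega)).elim
  have hsub : Set.range (fun j : ℕ => (2 ^ (j + 2)) • P0 k) ⊆
      (AddSubmonoid.multiples (P0 k) : Set _) := by
    rintro _ ⟨j, rfl⟩
    exact ⟨2 ^ (j + 2), rfl⟩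
  have hf : (AddSubmonoid.multiples (P0 k) : Set (Wk k).Point).Finite :=
    hfin.finite_multiples
  exact (Set.infinite_range_of_injective hinj) (hf.subset hsub)

end Dyn

open Dyn

theorem no_cycle {k : Type} [Field k] [CharZero k] (n : ℕ) (p : ℕ → Fin 3 → k)
    (h : ∀ i ≤ n, Rel (p i) (p (i + 1))) : ¬ ∃ c : k, p (n + 1) = c • p 0 := by
  classical
  rintro ⟨c, hc⟩
  obtain ⟨Q, hQ, -⟩ := rel_rep (h 0 (Nat.zero_le n))
  have key : ∀ i ≤ n + 1, Rep (p i) (Q + i • P0 k) := by
    intro i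
    induction i with
    | zero =>
      intro _
      simpa using hQ
    | succ i ih =>
      intro hi
      have h1 := ih (by omega)
      obtain ⟨R, hR1, hR2⟩ := rel_rep (h i (by omega))
      have := hR1.unique h1
      rw [this, add_assoc, ← succ_nsmul] at hR2
      exact hR2
  have hc0 : c ≠ 0 := by
    rintro rfl
    rw [zero_smul] at hc
    exact (h n le_rfl).2.1 hc
  have h1 := key (n + 1) le_rfl
  rw [hc] at h1
  have h2 := (hQ.smul hc0).unique h1
  have h3 : (n + 1) • P0 k = 0 := by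
    have : Q + 0 = Q + (n + 1) • P0 k := by rw [add_zero]; exact h2
    exact (add_left_cancel this).symm
  exact inf_order n h3

theorem exists_chain {k : Type} [Field k] [CharZero k] :
    ∃ p : ℕ → Fin 3 → k, ∀ i, Rel (p (i + 1)) (p i) := by
  classical
  refine ⟨fun i => crd (-(i • P0 k)), fun i => ?_⟩
  have h := rel_crd (-((i + 1) • P0 k))
  have e : -((i + 1) • P0 k) + P0 k = -(i • P0 k) := by
    rw [succ_nsmul]
    abel
  rw [e] at h
  exact h

end Pool.Agent.N10.Han
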