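import Pool.Agent.N10.Han.Defs

/-!
# The elliptic datum exists over the complex numbers

`K` is the function field of `Y^2 = X^3 + 3 X^2 + 1` over `ℂ`; the first valuation is the pole
order at infinity (computed by the degree of the norm), the second one is its pull-back under the
automorphism `X ↦ X'`, `Y ↦ -Y'` of `K`, where `(X', Y')` is the translate of the generic point by
`(0, 1)`.
-/

open Polynomial Polynomial.Bivariate
open scoped WithZero

namespace Pool.Agent.N10.Han
namespace Ex

noncomputable section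

/-- The curve `Y^2 = X^3 + 3 X^2 + 1`. -/
def W : WeierstrassCurve.Affine ℂ := { a₁ := 0, a₂ := 3, a₃ := 0, a₄ := 0, a₆ := 1 }

/-- Its coordinate ring. -/
abbrev S : Type := W.CoordinateRing

/-- Its function field. -/
abbrev K : Type := W.FunctionField

/-- The norm to the polynomial ring. -/
def nm (f : S) : ℂ[X] := Algebra.norm ℂ[X] f

theorem nm_mul (f g : S) : nm (f * g) = nm f * nm g := map_mul _ _ _

theorem nm_one : nm 1 = 1 := map_one _

theorem nm_ne_zero {f : S} (hf : f ≠ 0) : nm f ≠ 0 :=
  (Algebra.norm_ne_zero_iff_of_basis (WeierstrassCurve.Affine.CoordinateRing.basis W)).2 hf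

theorem deg_nm (p q : ℂ[X]) :
    (nm (p • (1 : S) + q • WeierstrassCurve.Affine.CoordinateRing.mk W Y)).degree
      = max (2 • p.degree) (2 • q.degree + 3) :=
  WeierstrassCurve.Affine.CoordinateRing.degree_norm_smul_basis p q

theorem deg_nm_add (f g : S) : (nm (f + g)).degree ≤ max (nm f).degree (nm g).degree := by
  obtain ⟨p, q, rfl⟩ := WeierstrassCurve.Affine.CoordinateRing.exists_smul_basis_eq f
  obtain ⟨r, s, rfl⟩ := WeierstrassCurve.Affine.CoordinateRing.exists_smul_basis_eq g
  have h1 : p • (1 : S) + q • WeierstrassCurve.Affine.CoordinateRing.mk W Y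
      + (r • (1 : S) + s • WeierstrassCurve.Affine.CoordinateRing.mk W Y)
      = (p + r) • (1 : S) + (q + s) • WeierstrassCurve.Affine.CoordinateRing.mk W Y := by
    rw [add_smul, add_smul]; abel
  rw [h1, deg_nm, deg_nm, deg_nm]
  have h2 : (p + r).degree ≤ max p.degree r.degree := degree_add_le p r
  have h3 : (q + s).degree ≤ max q.degree s.degree := degree_add_le q s
  rcases le_total p.degree r.degree with h | h <;> rcases le_total q.degree s.degree with h' | h' <;>
    simp only [h, h', max_eq_left, max_eq_right] at h2 h3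
  · refine max_le ?_ ?_
    · exact (nsmul_le_nsmul_right h2 2).trans ((le_max_left _ _).trans (le_max_right _ _))
    · exact (add_le_add_left (nsmul_le_nsmul_right h3 2) 3).trans
        ((le_max_right _ _).trans (le_max_right _ _))
  · refine max_le ?_ ?_
    · exact (nsmul_le_nsmul_right h2 2).trans ((le_max_left _ _).trans (le_max_right _ _))
    · exact (add_le_add_left (nsmul_le_nsmul_right h3 2) 3).trans
        ((le_max_right _ _).trans (le_max_left _ _))
  · refine max_le ?_ ?_
    · exact (nsmul_le_nsmul_right h2 2).trans ((le_max_left _ _).trans (le_max_left _ _))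
    · exact (add_le_add_left (nsmul_le_nsmul_right h3 2) 3).trans
        ((le_max_right _ _).trans (le_max_right _ _))
  · refine max_le ?_ ?_
    · exact (nsmul_le_nsmul_right h2 2).trans ((le_max_left _ _).trans (le_max_left _ _))
    · exact (add_le_add_left (nsmul_le_nsmul_right h3 2) 3).trans
        ((le_max_right _ _).trans (le_max_left _ _))

open Classical in
/-- The pole order at infinity. -/
def vf (f : S) : ℤᵐ⁰ := if f = 0 then 0 else WithZero.exp ((nm f).natDegree : ℤ)

theorem vf_zero : vf 0 = 0 := by simp [vf]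

theorem vf_of {f : S} (hf : f ≠ 0) : vf f = WithZero.exp ((nm f).natDegree : ℤ) := by
  simp [vf, hf]

theorem vf_deg {f : S} {n : ℕ} (h : (nm f).degree = n) : vf f = WithZero.exp (n : ℤ) := by
  have hf : f ≠ 0 := by
    rintro rfl
    have : nm (0 : S) = 0 := by
      unfold nm
      exact (Algebra.norm_eq_zero_iff_of_basis
        (WeierstrassCurve.Affine.CoordinateRing.basis W)).2 rfl
    rw [this] at h
    simp at h
  rw [vf_of hf, natDegree_eq_of_degree_eq_some h]

/-- The valuation on the coordinate ring. -/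
def v0 : Valuation S ℤᵐ⁰ where
  toFun := vf
  map_zero' := vf_zero
  map_one' := by
    rw [vf_of one_ne_zero, nm_one]
    simp
  map_mul' f g := by
    by_cases hf : f = 0
    · simp [hf, vf_zero]
    by_cases hg : g = 0
    · simp [hg, vf_zero]
    rw [vf_of hf, vf_of hg, vf_of (mul_ne_zero hf hg), nm_mul,
      natDegree_mul (nm_ne_zero hf) (nm_ne_zero hg), ← WithZero.exp_add]
    push_cast
    rfl
  map_add_le_max' f g := by
    by_cases hf : f = 0
    · simp [hf]
    by_cases hg : g = 0
    · simp [hg]
    by_cases hfg : f + g = 0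
    · rw [hfg, vf_zero]; exact zero_le
    rw [vf_of hf, vf_of hg, vf_of hfg]
    have h := deg_nm_add f g
    rw [degree_eq_natDegree (nm_ne_zero hf), degree_eq_natDegree (nm_ne_zero hg),
      degree_eq_natDegree (nm_ne_zero hfg)] at h
    rcases le_total (nm f).natDegree (nm g).natDegree with h' | h'
    · have h2 : (nm (f + g)).natDegree ≤ (nm g).natDegree := by
        have : max ((nm f).natDegree : WithBot ℕ) ((nm g).natDegree : WithBot ℕ)
          = ((nm g).natDegree : WithBot ℕ) := max_eq_right (by exact_mod_cast h')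
        rw [this] at h
        exact_mod_cast h
      exact le_max_of_le_right (WithZero.exp_le_exp.2 (by exact_mod_cast h2))
    · have h2 : (nm (f + g)).natDegree ≤ (nm f).natDegree := by
        have : max ((nm f).natDegree : WithBot ℕ) ((nm g).natDegree : WithBot ℕ)
          = ((nm f).natDegree : WithBot ℕ) := max_eq_left (by exact_mod_cast h')
        rw [this] at h
        exact_mod_cast h
      exact le_max_of_le_left (WithZero.exp_le_exp.2 (by exact_mod_cast h2))

theorem v0_apply (f : S) : v0 f = vf f := rfl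

theorem v0_supp : nonZeroDivisors S ≤ v0.supp.primeCompl := by
  intro f hf
  have h0 : f ≠ 0 := nonZeroDivisors.ne_zero hf
  intro h
  have : v0 f = 0 := h
  rw [v0_apply, vf_of h0] at this
  exact WithZero.exp_ne_zero this

/-- The valuation on the function field. -/
def v : Valuation K ℤᵐ⁰ := v0.extendToLocalization v0_supp K

theorem v_alg (f : S) : v (algebraMap S K f) = vf f :=
  Valuation.extendToLocalization_apply_map_apply v0 v0_supp K f

/-- The function `X` in the coordinate ring. -/
def xS : S := WeierstrassCurve.Affine.CoordinateRing.mk W (C X)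

/-- The function `Y` in the coordinate ring. -/
def yS : S := WeierstrassCurve.Affine.CoordinateRing.mk W Y

/-- The function `X`. -/
def x : K := algebraMap S K xS

/-- The function `Y`. -/
def y : K := algebraMap S K yS

theorem smul_one' (p : ℂ[X]) : p • (1 : S) = WeierstrassCurve.Affine.CoordinateRing.mk W (C p) := by
  rw [WeierstrassCurve.Affine.CoordinateRing.smul, mul_one]

theorem deg_mkC (p : ℂ[X]) (hp : p ≠ 0) :
    (nm (WeierstrassCurve.Affine.CoordinateRing.mk W (C p))).degree = ((2 * p.natDegree : ℕ) : WithBot ℕ) := by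
  have h := deg_nm p 0
  rw [zero_smul, add_zero, smul_one'] at h
  rw [h, degree_zero, degree_eq_natDegree hp]
  simp

theorem v_mkC (p : ℂ[X]) (hp : p ≠ 0) :
    v (algebraMap S K (WeierstrassCurve.Affine.CoordinateRing.mk W (C p)))
      = WithZero.exp ((2 * p.natDegree : ℕ) : ℤ) := by
  rw [v_alg]
  exact vf_deg (deg_mkC p hp)

theorem alg_const (a : ℂ) : algebraMap ℂ K a
    = algebraMap S K (WeierstrassCurve.Affine.CoordinateRing.mk W (C (C a))) := by
  rw [IsScalarTower.algebraMap_apply ℂ S K]
  rfl

theorem v_const (a : ℂ) (ha : a ≠ 0) : v (algebraMap ℂ K a) = 1 := by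
  rw [alg_const, v_mkC (C a) (by simpa using ha)]
  simp

theorem vx : v x = WithZero.exp 2 := by
  unfold x xS
  rw [v_mkC X X_ne_zero]
  simp

theorem vxa (a : ℂ) : v (x + algebraMap ℂ K a) = WithZero.exp 2 := by
  rw [alg_const]
  unfold x xS
  rw [← map_add, ← map_add, ← C_add, v_mkC (X + C a) (X_add_C_ne_zero a)]
  simp

theorem vy_add (a : ℂ) : v (y + algebraMap ℂ K a) = WithZero.exp 3 := by
  rw [alg_const]
  unfold y yS
  rw [← map_add, v_alg]
  apply vf_deg
  have h := deg_nm (C a) 1
  rw [smul_one', one_smul, add_comm] at h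
  rw [h]
  by_cases ha : a = 0
  · subst ha
    simp
  · rw [degree_C ha]
    simp

theorem vy : v y = WithZero.exp 3 := by
  have h := vy_add 0
  rwa [map_zero, add_zero] at h

theorem pol_eq : W.polynomial = Y ^ 2 - C (X ^ 3 + C 3 * X ^ 2 + 1) := by
  rw [WeierstrassCurve.Affine.polynomial]
  simp [W]

/-- The equation of the curve. -/
theorem eqn : y ^ 2 = x ^ 3 + 3 * x ^ 2 + 1 := by
  have h : WeierstrassCurve.Affine.CoordinateRing.mk W (Y ^ 2 - C (X ^ 3 + C 3 * X ^ 2 + 1)) = 0 := by
    have h0 : WeierstrassCurve.Affine.CoordinateRing.mk W W.polynomial = 0 := AdjoinRoot.mk_self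
    have h1 : WeierstrassCurve.Affine.CoordinateRing.mk W (Y ^ 2 - C (X ^ 3 + C 3 * X ^ 2 + 1))
        = WeierstrassCurve.Affine.CoordinateRing.mk W W.polynomial :=
      congrArg _ pol_eq.symm
    rw [h1, h0]
  have h1 : yS ^ 2 = xS ^ 3 + 3 * xS ^ 2 + 1 := by
    rw [map_sub, map_pow, sub_eq_zero] at h
    unfold yS xS
    rw [h]
    simp only [map_add, map_mul, map_pow, map_one]
    congr 2
  unfold x y
  rw [← map_pow, h1]
  simp only [map_add, map_mul, map_pow, map_one, map_ofNat]

theorem x_ne : x ≠ 0 := by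
  intro h
  have := vx
  rw [h, map_zero] at this
  exact WithZero.exp_ne_zero this.symm

theorem y1_ne : y + 1 ≠ 0 := by
  intro h
  have := vy_add 1
  rw [map_one, h, map_zero] at this
  exact WithZero.exp_ne_zero this.symm

/-- The first coordinate of the translate by `(0, 1)`. -/
def x' : K := -2 * (x + 3) / (y + 1)

/-- The second coordinate of the translate by `(0, 1)`. -/
def y' : K := 1 + 2 * (x' + 3) / x

theorem r1 : x' * y = -x' - 2 * x - 6 := by
  have h : x' * (y + 1) = -2 * (x + 3) := div_mul_cancel₀ _ y1_ne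
  linear_combination h

theorem r2 : x * y' = x + 2 * x' + 6 := by
  have h : x * (y' - 1) = 2 * (x' + 3) := by
    unfold y'
    field_simp [x_ne]
    ring
  linear_combination h

theorem r3 : y * y' = y - y' - 3 * (x * x') - 3 := by
  have h1 := r1
  have h2 := r2
  have h3 := eqn
  have hx := x_ne
  have hy := y1_ne
  have h4 : x ^ 2 * x' = -2 * (y - 1) := by
    apply mul_right_cancel₀ hy
    linear_combination (x ^ 2) * h1 + 2 * h3
  apply mul_left_cancel₀ hx
  apply mul_right_cancel₀ hy
  linear_combination (y + 1) ^ 2 * h2 + 2 * (y + 1) * h1 + 3 * (y + 1) * h4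

theorem vx' : v x' = WithZero.exp (-1) := by
  have h3 : v (x + 3) = WithZero.exp 2 := by
    have := vxa 3
    rwa [map_ofNat] at this
  have h1 : v (y + 1) = WithZero.exp 3 := by
    have := vy_add 1
    rwa [map_one] at this
  have h2 : v (-2 : K) = 1 := by
    have := v_const (-2) (by norm_num)
    rwa [map_neg, map_ofNat] at this
  unfold x'
  rw [map_div₀, map_mul, h2, h3, h1, one_mul, ← WithZero.exp_sub]
  norm_num

theorem v3 : v (3 : K) = 1 := by
  have := v_const 3 (by norm_num)
  rwa [map_ofNat] at this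

theorem v2 : v (2 : K) = 1 := by
  have := v_const 2 (by norm_num)
  rwa [map_ofNat] at this

theorem vx'3 : v (x' + 3) = 1 := by
  have h : v x' < v (3 : K) := by
    rw [vx', v3, ← WithZero.exp_zero]
    exact WithZero.exp_lt_exp.2 (by norm_num)
  rw [Valuation.map_add_eq_of_lt_right _ h, v3]

theorem vy'1 : v (y' - 1) = WithZero.exp (-2) := by
  have : y' - 1 = 2 * (x' + 3) / x := by
    unfold y'; ring
  rw [this, map_div₀, map_mul, v2, vx'3, vx, ← WithZero.exp_zero, ← WithZero.exp_add,
    ← WithZero.exp_sub]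
  norm_num

theorem vy' : v y' ≤ 1 := by
  have h : y' = (y' - 1) + 1 := by ring
  rw [h]
  refine (v.map_add _ _).trans (max_le ?_ ?_)
  · rw [vy'1, ← WithZero.exp_zero]
    exact WithZero.exp_le_exp.2 (by norm_num)
  · rw [map_one]

theorem y'1_ne : y' - 1 ≠ 0 := by
  intro h
  have := vy'1
  rw [h, map_zero] at this
  exact WithZero.exp_ne_zero this.symm

theorem x'_ne : x' ≠ 0 := by
  intro h
  have := vx'
  rw [h, map_zero] at this
  exact WithZero.exp_ne_zero this.symm

theorem r4 : x * x' ^ 2 = 2 * (y' + 1) := by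
  have h1 := r1
  have h2 := r2
  have h3 := r3
  have h0 : (3 : K) ≠ 0 := by
    intro h
    have := v3
    rw [h, map_zero] at this
    exact zero_ne_one this
  apply mul_left_cancel₀ h0
  linear_combination x' * h3 + h1 - y' * h1 + 2 * h2

/-- The equation for the translate. -/
theorem eqn' : y' ^ 2 = x' ^ 3 + 3 * x' ^ 2 + 1 := by
  apply mul_left_cancel₀ x_ne
  linear_combination (y' + 1) * r2 - (x' + 3) * r4

/-- Constants and polynomials in `X'`. -/
def i0 : ℂ[X] →+* K := eval₂RingHom (algebraMap ℂ K) x'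

theorem i0_X : i0 X = x' := by simp [i0]

theorem i0_C (a : ℂ) : i0 (C a) = algebraMap ℂ K a := by simp [i0]

theorem x'_sub_ne (a : ℂ) : x' - algebraMap ℂ K a ≠ 0 := by
  intro h
  have h1 : x' = algebraMap ℂ K a := sub_eq_zero.1 h
  have h2 := vx'
  rw [h1] at h2
  by_cases ha : a = 0
  · rw [ha, map_zero, map_zero] at h2
    exact WithZero.exp_ne_zero h2.symm
  · rw [v_const a ha, ← WithZero.exp_zero] at h2
    have := WithZero.exp_injective h2
    norm_num at this

theorem i0_ne {g : ℂ[X]} (hg : g ≠ 0) : i0 g ≠ 0 := by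
  have h := (IsAlgClosed.splits g).eq_prod_roots
  rw [h, map_mul, i0_C]
  refine mul_ne_zero ?_ ?_
  · rw [Ne, map_eq_zero]
    exact leadingCoeff_ne_zero.2 hg
  · rw [map_multiset_prod, Multiset.map_map]
    rw [Ne, Multiset.prod_eq_zero_iff]
    intro h0
    rw [Multiset.mem_map] at h0
    obtain ⟨a, _, ha⟩ := h0
    simp only [Function.comp_apply, map_sub, i0_X, i0_C] at ha
    exact x'_sub_ne a ha

theorem lift_cond : W.polynomial.eval₂ i0 (-y') = 0 := by
  refine (congrArg (fun p => eval₂ i0 (-y') p) pol_eq).trans ?_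
  rw [eval₂_sub, eval₂_pow, eval₂_X, eval₂_C]
  simp only [map_add, map_mul, map_pow, map_one, i0_X, map_ofNat]
  linear_combination eqn'

/-- The homomorphism `X ↦ X'`, `Y ↦ -Y'` on the coordinate ring. -/
def phi : S →+* K := AdjoinRoot.lift i0 (-y') lift_cond

theorem phi_mk (p : ℂ[X][Y]) : phi (WeierstrassCurve.Affine.CoordinateRing.mk W p) = p.eval₂ i0 (-y') :=
  AdjoinRoot.lift_mk lift_cond p

theorem phi_injective : Function.Injective phi := by
  rw [injective_iff_map_eq_zero]
  intro f hf
  obtain ⟨p, q, rfl⟩ := WeierstrassCurve.Affine.CoordinateRing.exists_smul_basis_eq f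
  rw [map_add, WeierstrassCurve.Affine.CoordinateRing.smul, mul_one,
    WeierstrassCurve.Affine.CoordinateRing.smul, map_mul, phi_mk, phi_mk, phi_mk, eval₂_C, eval₂_C,
    eval₂_X] at hf
  have h1 : i0 (p ^ 2 - q ^ 2 * (X ^ 3 + C 3 * X ^ 2 + 1)) = 0 := by
    have h2 := eqn'
    simp only [map_sub, map_add, map_mul, map_pow, map_one, i0_X, map_ofNat]
    linear_combination (i0 p + i0 q * y') * hf + (i0 q) ^ 2 * h2
  have h2 : p ^ 2 - q ^ 2 * (X ^ 3 + C 3 * X ^ 2 + 1) = 0 := by
    by_contra h
    exact i0_ne h h1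
  have h3 : p ^ 2 = q ^ 2 * (X ^ 3 + C 3 * X ^ 2 + 1) := sub_eq_zero.1 h2
  have hcub : (X ^ 3 + C 3 * X ^ 2 + 1 : ℂ[X]).natDegree = 3 := by compute_degree!
  by_cases hq : q = 0
  · rw [hq] at h3
    have hp : p = 0 := by
      have : p ^ 2 = 0 := by rw [h3]; ring
      exact pow_eq_zero_iff (two_ne_zero) |>.1 this
    rw [hp, hq, zero_smul, zero_smul, add_zero]
  · exfalso
    have hc0 : (X ^ 3 + C 3 * X ^ 2 + 1 : ℂ[X]) ≠ 0 := by
      intro h
      rw [h] at hcub
      simp at hcub
    have h4 := congrArg natDegree h3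
    rw [natDegree_mul (pow_ne_zero 2 hq) hc0, natDegree_pow, natDegree_pow, hcub] at h4
    omega

/-- The endomorphism `X ↦ X'`, `Y ↦ -Y'` of the function field. -/
def psi : K →+* K := IsFractionRing.lift phi_injective

theorem psi_alg (f : S) : psi (algebraMap S K f) = phi f :=
  IsFractionRing.lift_algebraMap phi_injective f

theorem psi_x : psi x = x' := by
  unfold x xS
  rw [psi_alg, phi_mk, eval₂_C, i0_X]

theorem psi_y : psi y = -y' := by
  unfold y yS
  rw [psi_alg, phi_mk, eval₂_X]

theorem psi_const (a : ℂ) : psi (algebraMap ℂ K a) = algebraMap ℂ K a := by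
  rw [alg_const, psi_alg, phi_mk, eval₂_C, i0_C, alg_const]

theorem psi_x' : psi x' = x := by
  have h1 : psi x' * (1 - y') = -2 * (x' + 3) := by
    have h := congrArg psi r1
    simp only [map_mul, map_sub, map_neg, psi_x, psi_y, map_ofNat] at h
    linear_combination h
  have h2 := r2
  have h3 : (psi x' - x) * (1 - y') = 0 := by linear_combination h1 + h2
  rcases mul_eq_zero.1 h3 with h | h
  · exact sub_eq_zero.1 h
  · exact absurd (by linear_combination -h : y' - 1 = 0) y'1_ne

theorem psi_y' : psi y' = -y := by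
  have h := congrArg psi r2
  simp only [map_mul, map_add, psi_x, psi_x', map_ofNat] at h
  apply mul_left_cancel₀ x'_ne
  linear_combination h + r1

/-- The second valuation. -/
def v' : Valuation K ℤᵐ⁰ := v.comap psi

theorem v'_apply (f : K) : v' f = v (psi f) := rfl

/-- The datum. -/
def datum : Datum ℂ K :=
  ⟨x, y, x', y', r1, r2, r3, v, v', v_const,
    fun a ha => by rw [v'_apply, psi_const, v_const a ha],
    vx, vy, vx', vy',
    by rw [v'_apply, psi_x', vx],
    by rw [v'_apply, psi_y', Valuation.map_neg, vy],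
    by rw [v'_apply, psi_x, vx'],
    by rw [v'_apply, psi_y, Valuation.map_neg]; exact vy'⟩

end

end Ex

/-- The elliptic datum exists over `ℂ`. -/
theorem exists_datum : ∃ (K : Type) (_ : Field K) (_ : Algebra ℂ K), Nonempty (Datum ℂ K) :=
  ⟨Ex.K, inferInstance, inferInstance, ⟨Ex.datum⟩⟩

end Pool.Agent.N10.Han
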