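import Pool.Agent.N10.Han.Point3
import Pool.Agent.N10.Han.Dyn

/-!
# Extensions between point modules
-/

open scoped WithZero
open Matrix WeierstrassCurve.Affine

namespace Pool.Agent.N10.Han

open Dyn

variable {k K : Type} [Field k] [Field K] [Algebra k K] (D : Datum k K)

/-! ### Lifting conditions -/

/-- The zero module has no cohomology. -/
lemma van_of_subsingleton {A : Type} [Ring A] [Algebra k A] (Y : Bi k A) [h : Subsingleton Y.C]
    (n : ℕ) : Bi.Van n Y := by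
  have h1 : ∀ m, Subsingleton (Bi.Tn m Y).C := by
    intro m
    induction m with
    | zero => exact h
    | succ m ih =>
      change Subsingleton (A →ₗ[k] (Bi.Tn m Y).C)
      infer_instance
  intro z _
  have := h1 n
  rw [Subsingleton.elim z 0]
  exact Submodule.zero_mem _

lemma van_punit (N : Type) [AddCommGroup N] [Module k N] [Module (AA D) N]
    [IsScalarTower k (AA D) N] (n : ℕ) : Bi.Van n (homBi k (AA D) PUnit.{1} N) := by
  have : Subsingleton (homBi k (AA D) PUnit.{1} N).C := by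
    change Subsingleton (PUnit.{1} →ₗ[k] N)
    infer_instance
  exact van_of_subsingleton _ n

variable {D} {p v w g : Fin 3 → k}

/-- Maps out of the middle term. -/
lemma hom_U1 (q : Fin 3 → k) (f : (UU D 1 × UU D 1) →ₗ[AA D] LP D q) :
    ∃ α β : k, ∀ z, f z = α • piU D 1 q z.1 + β • piU D 1 q z.2 := by
  obtain ⟨α, hα⟩ := hom_UU D 1 q (f.comp (LinearMap.inl (AA D) (UU D 1) (UU D 1)))
  obtain ⟨β, hβ⟩ := hom_UU D 1 q (f.comp (LinearMap.inr (AA D) (UU D 1) (UU D 1)))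
  refine ⟨α, β, fun z => ?_⟩
  rw [← hα, ← hβ]
  change f z = f (z.1, 0) + f (0, z.2)
  rw [← map_add]
  congr 1
  ext1 <;> simp

lemma piU_d1 (q : Fin 3 → k) (x : UU D 0) :
    piU D 1 q (d1 D v w x).1 = (v ⬝ᵥ q) • piU D 0 q x ∧
      piU D 1 q (d1 D v w x).2 = (w ⬝ᵥ q) • piU D 0 q x :=
  ⟨piU_rm D v 0 1 rfl q x, piU_rm D w 0 1 rfl q x⟩

lemma piU_d2 (q : Fin 3 → k) (z : UU D 1 × UU D 1) :
    piU D 2 q (d2 D v w z) = (w ⬝ᵥ q) • piU D 1 q z.1 - (v ⬝ᵥ q) • piU D 1 q z.2 := by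
  funext a
  change ev q ((d2 D v w z).1 a).s = (w ⬝ᵥ q) * ev q (z.1.1 a).s - (v ⬝ᵥ q) * ev q (z.2.1 a).s
  rw [d2_s, map_sub, map_mul, map_mul, ev_lin, ev_lin]
  ring

lemma exists_fac (q : Fin 3 → k) (h : ¬ (v ⬝ᵥ q = 0 ∧ w ⬝ᵥ q = 0)) (α β : k)
    (e : α * (v ⬝ᵥ q) + β * (w ⬝ᵥ q) = 0) :
    ∃ m : k, α = m * (w ⬝ᵥ q) ∧ β = -(m * (v ⬝ᵥ q)) := by
  by_cases hv : v ⬝ᵥ q = 0
  · have hw : w ⬝ᵥ q ≠ 0 := fun hw => h ⟨hv, hw⟩
    refine ⟨α / (w ⬝ᵥ q), ?_, ?_⟩
    · field_simp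
    · rw [hv, mul_zero, zero_add] at e
      rw [hv, mul_zero, neg_zero]
      exact (mul_eq_zero.mp e).resolve_right hw
  · refine ⟨-(β / (v ⬝ᵥ q)), ?_, ?_⟩
    · field_simp
      linear_combination e
    · field_simp

/-- First lifting condition. -/
lemma liftH1 (hp : Ad p v w g) (q : Fin 3 → k) (hq : ¬ ∃ c : k, q = c • p)
    (f : (UU D 1 × UU D 1) →ₗ[AA D] LP D q) (hf : ∀ x, f (d1 D v w x) = 0) :
    ∃ G : UU D 2 →ₗ[AA D] LP D q, ∀ z, G (d2 D v w z) = f z := by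
  obtain ⟨α, β, hab⟩ := hom_U1 q f
  have hne : ¬ (v ⬝ᵥ q = 0 ∧ w ⬝ᵥ q = 0) := fun h => hq (hp.prop q h.1 h.2)
  have e : α * (v ⬝ᵥ q) + β * (w ⬝ᵥ q) = 0 := by
    have h1 := congrFun (hf (ee D 0)) 0
    rw [hab, (piU_d1 q _).1, (piU_d1 q _).2] at h1
    change α * ((v ⬝ᵥ q) * piU D 0 q (ee D 0) 0) + β * ((w ⬝ᵥ q) * piU D 0 q (ee D 0) 0) = 0 at h1
    rw [piU_ee, mul_one, mul_one] at h1
    exact h1
  obtain ⟨m, h1, h2⟩ := exists_fac q hne α β e
  refine ⟨m • piU D 2 q, fun z => ?_⟩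
  rw [LinearMap.smul_apply, piU_d2, hab, h1, h2, smul_sub, neg_smul, mul_smul, mul_smul,
    sub_eq_add_neg]

/-- Second lifting condition. -/
lemma liftH2 (hp : Ad p v w g) (q : Fin 3 → k) (hq : ¬ ∃ c : k, q = c • p)
    (f : UU D 0 →ₗ[AA D] LP D q) :
    ∃ G : (UU D 1 × UU D 1) →ₗ[AA D] LP D q, ∀ x, G (d1 D v w x) = f x := by
  obtain ⟨α, hα⟩ := hom_UU D 0 q f
  have hne : ¬ (v ⬝ᵥ q = 0 ∧ w ⬝ᵥ q = 0) := fun h => hq (hp.prop q h.1 h.2)
  by_cases hv : v ⬝ᵥ q = 0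
  · have hw : w ⬝ᵥ q ≠ 0 := fun hw => hne ⟨hv, hw⟩
    refine ⟨((α / (w ⬝ᵥ q)) • piU D 1 q).comp (LinearMap.snd (AA D) (UU D 1) (UU D 1)),
      fun x => ?_⟩
    change (α / (w ⬝ᵥ q)) • piU D 1 q (d1 D v w x).2 = _
    rw [(piU_d1 q x).2, hα, smul_smul, div_mul_cancel₀ _ hw]
  · refine ⟨((α / (v ⬝ᵥ q)) • piU D 1 q).comp (LinearMap.fst (AA D) (UU D 1) (UU D 1)),
      fun x => ?_⟩
    change (α / (v ⬝ᵥ q)) • piU D 1 q (d1 D v w x).1 = _
    rw [(piU_d1 q x).1, hα, smul_smul, div_mul_cancel₀ _ hv]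

/-- Third condition. -/
lemma liftH3 (hp : Ad p v w g) (q : Fin 3 → k) (hq : ¬ ∃ c : k, q = c • p)
    (f : UU D 2 →ₗ[AA D] LP D q) (hf : ∀ z, f (d2 D v w z) = 0) : f = 0 := by
  obtain ⟨α, hα⟩ := hom_UU D 2 q f
  have hne : ¬ (v ⬝ᵥ q = 0 ∧ w ⬝ᵥ q = 0) := fun h => hq (hp.prop q h.1 h.2)
  have hz : α = 0 := by
    have h1 := congrFun (hf (ee D 1, 0)) 1
    have h2 := congrFun (hf (0, ee D 1)) 1
    rw [hα, piU_d2] at h1 h2
    simp only [map_zero, smul_zero, sub_zero, zero_sub] at h1 h2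
    change α * ((w ⬝ᵥ q) * piU D 1 q (ee D 1) 1) = 0 at h1
    change α * (-((v ⬝ᵥ q) * piU D 1 q (ee D 1) 1)) = 0 at h2
    rw [piU_ee, mul_one] at h1 h2
    by_contra h0
    exact hne ⟨neg_eq_zero.mp ((mul_eq_zero.mp h2).resolve_left h0),
      (mul_eq_zero.mp h1).resolve_left h0⟩
  apply LinearMap.ext
  intro x
  rw [hα, hz, zero_smul]
  rfl

/-! ### Vanishing -/

/-- No point reached from `p` in at most `n` backward steps is proportional to `q`. -/
def Avoid : ℕ → (Fin 3 → k) → (Fin 3 → k) → Prop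
  | 0, p, q => ¬ ∃ c : k, q = c • p
  | n + 1, p, q => (¬ ∃ c : k, q = c • p) ∧ ∀ u, Rel u p → Avoid n u q

lemma Avoid.ne {n : ℕ} {p q : Fin 3 → k} (h : Avoid n p q) : ¬ ∃ c : k, q = c • p := by
  cases n with
  | zero => exact h
  | succ n => exact h.1

variable (D)

theorem van_LP [CharZero k] (n : ℕ) : ∀ p q : Fin 3 → k, p ≠ 0 → Avoid n p q →
    ∀ j ≤ n, Bi.Van j (homBi k (AA D) (LP D p) (LP D q)) := by
  induction n with
  | zero =>
    intro p q hp h j hj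
    have : j = 0 := by omega
    subst this
    rw [Kos.van_zero_iff]
    exact hom_LP D p q hp h
  | succ n ih =>
    intro p q hp h j hj
    cases j with
    | zero =>
      rw [Kos.van_zero_iff]
      exact hom_LP D p q hp h.ne
    | succ j =>
      obtain ⟨v, w, g, had⟩ := exists_ad p hp
      rcases D.koszul' p hp with h1 | ⟨u, hu⟩
      · exact (kosNone had h1.2).vanL (liftH1 had q h.ne) (liftH2 had q h.ne) n
          (fun i _ => van_punit D _ i) j (by omega)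
      · obtain ⟨⟨φ, hφ⟩, ⟨ψ, hψ⟩⟩ := D.koszul_rel' u p hu
        exact (kosRel (D := D) had (φ := φ) (ψ := ψ) hφ hψ).vanL (liftH1 had q h.ne)
          (liftH2 had q h.ne) n (ih u q hu.1 (h.2 u hu)) j (by omega)

/-- Avoidance from the group law. -/
lemma avoid_of_rep [CharZero k] [DecidableEq k] (n : ℕ) : ∀ (p q : Fin 3 → k) (R S : (Wk k).Point),
    Rep p R → Rep q S → q ≠ 0 → (∀ i ≤ n, S + i • P0 k ≠ R) → Avoid n p q := by
  have key : ∀ (p q : Fin 3 → k) (R S : (Wk k).Point), Rep p R → Rep q S → q ≠ 0 → S ≠ R →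
      ¬ ∃ c : k, q = c • p := by
    rintro p q R S hR hS hq hne ⟨c, rfl⟩
    have hc : c ≠ 0 := by
      rintro rfl
      exact hq (zero_smul _ _)
    exact hne (hS.unique (hR.smul hc))
  induction n with
  | zero =>
    intro p q R S hR hS hq h
    apply key p q R S hR hS hq
    have := h 0 le_rfl
    rwa [zero_smul, add_zero] at this
  | succ n ih =>
    intro p q R S hR hS hq h
    refine ⟨?_, ?_⟩
    · apply key p q R S hR hS hq
      have := h 0 (Nat.zero_le _)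
      rwa [zero_smul, add_zero] at this
    · intro u hu
      obtain ⟨Q, hQ1, hQ2⟩ := rel_rep hu
      have e : R = Q + P0 k := hR.unique hQ2
      apply ih u q Q S hQ1 hS hq
      intro i hi h'
      apply h (i + 1) (by omega)
      rw [succ_nsmul, ← add_assoc, h', e]

theorem van_LP_rel [CharZero k] (p q : Fin 3 → k) (h : Rel p q) (n : ℕ) :
    Bi.Van n (homBi k (AA D) (LP D p) (LP D q)) := by
  classical
  obtain ⟨Q, hQ1, hQ2⟩ := rel_rep h
  apply van_LP D n p q h.1 _ n le_rfl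
  apply avoid_of_rep n p q Q (Q + P0 k) hQ1 hQ2 h.2.1
  intro i _ h'
  apply inf_order (k := k) i
  rw [succ_nsmul]
  have : Q + (P0 k + i • P0 k) = Q + 0 := by rw [← add_assoc, h', add_zero]
  rw [add_comm]
  exact add_left_cancel this

lemma crd_rep [CharZero k] (Q : (Wk k).Point) : Rep (crd Q) Q := by
  cases Q with
  | zero => simp [Dyn.Rep, crd]
  | some x y h => simp [Dyn.Rep, crd]

/-- Nonvanishing. -/
theorem not_van_LP [CharZero k] [DecidableEq k] (n : ℕ) : ∀ Q : (Wk k).Point,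
    ¬ Bi.Van n (homBi k (AA D) (LP D (crd Q)) (LP D (crd (Q - n • P0 k)))) := by
  have h0 : ∀ p : Fin 3 → k, ¬ Bi.Van 0 (homBi k (AA D) (LP D p) (LP D p)) := by
    intro p h
    rw [Kos.van_zero_iff] at h
    have h1 := LinearMap.congr_fun (h LinearMap.id) (dl D p 0)
    have h2 : dl D p 0 0 = 0 := congrFun h1 0
    rw [dl_apply] at h2
    simp at h2
  induction n with
  | zero =>
    intro Q
    rw [zero_smul, sub_zero]
    exact h0 _
  | succ n ih =>
    intro Q h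
    have hrel : Rel (crd (Q - P0 k)) (crd Q) := by
      have := rel_crd (Q - P0 k)
      rwa [sub_add_cancel] at this
    have e : Q - P0 k - n • P0 k = Q - (n + 1) • P0 k := by rw [succ_nsmul]; abel
    have ih' := ih (Q - P0 k)
    rw [e] at ih'
    obtain ⟨v, w, g, had⟩ := exists_ad (crd Q) (crd_ne Q)
    obtain ⟨⟨φ, hφ⟩, ⟨ψ, hψ⟩⟩ := D.koszul_rel' _ _ hrel
    have hq : ¬ ∃ c : k, crd (Q - (n + 1) • P0 k) = c • crd Q := by
      have := avoid_of_rep 0 (crd Q) (crd (Q - (n + 1) • P0 k)) Q (Q - (n + 1) • P0 k)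
        (crd_rep _) (crd_rep _) (crd_ne _) (by
          intro i hi h'
          have hi0 : i = 0 := by omega
          rw [hi0, zero_smul, add_zero] at h'
          exact inf_order (k := k) n (sub_eq_self.mp h'))
      exact this
    apply ih'
    cases n with
    | zero =>
      rw [zero_add, one_smul] at h hq ⊢
      exact (kosRel (D := D) had (φ := φ) (ψ := ψ) hφ hψ).vanC_zero
        (fun G hG => liftH3 had _ hq G hG) h
    | succ n =>
      refine (kosRel (D := D) had (φ := φ) (ψ := ψ) hφ hψ).vanC (liftH1 had _ hq)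
        (liftH2 had _ hq) n ?_ h
      apply van_LP D n _ _ (crd_ne _)
      apply avoid_of_rep n _ _ _ _ (crd_rep _) (crd_rep _) (crd_ne _)
      intro i hi h'
      apply inf_order (k := k) (n - i)
      have e2 : (n + 1 + 1) • P0 k = (n - i + 1) • P0 k + (i • P0 k + P0 k) := by
        rw [← succ_nsmul, ← add_smul]
        congr 1
        omega
      rw [e2] at h'
      have h3 : Q - ((n - i + 1) • P0 k + (i • P0 k + P0 k)) + i • P0 k =
          (Q - P0 k) - (n - i + 1) • P0 k := by abel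
      rw [h3] at h'
      exact sub_eq_self.mp h'

end Pool.Agent.N10.Han
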