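import Pool.Agent.N10.Han.Hoch2

/-!
# Projective resolutions of finite length kill `Ext`, in the form of Hochschild cochains

`Bi.Van n (homBi k A L N)` is the vanishing of `Ext_A^n (L, N)`.
-/

open CategoryTheory

namespace Pool.Agent.N10.Han

namespace Gld

variable {k : Type} [Field k] {A : Type} [Ring A] [Algebra k A]

lemma subsingleton_Tn (Y : Bi k A) (h : Subsingleton Y.C) (n : ℕ) :
    Subsingleton (Bi.Tn n Y).C := by
  induction n with
  | zero => exact h
  | succ n ih =>
    refine ⟨fun f g => (Bi.Tn n Y).T_ext fun x => ?_⟩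
    exact Subsingleton.elim _ _

lemma van_of_subsingleton (Y : Bi k A) (h : Subsingleton Y.C) (n : ℕ) : Bi.Van n Y := by
  intro z _
  have := subsingleton_Tn Y h n
  rw [Subsingleton.elim z 0]
  exact Submodule.zero_mem _

lemma van_step {K P L : Type} [AddCommGroup K] [Module k K] [Module A K] [IsScalarTower k A K]
    [AddCommGroup P] [Module k P] [Module A P] [IsScalarTower k A P]
    [AddCommGroup L] [Module k L] [Module A L] [IsScalarTower k A L] [Module.Projective A P]
    (i : K →ₗ[A] P) (p : P →ₗ[A] L) (hi : Function.Injective i)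
    (hp : Function.Surjective p) (hpi : ∀ x, p (i x) = 0) (he : ∀ x, p x = 0 → ∃ y, i y = x)
    (N : Type) [AddCommGroup N] [Module k N] [Module A N] [IsScalarTower k A N] (n : ℕ)
    (h : Bi.Van n (homBi k A K N)) : Bi.Van (n + 1) (homBi k A L N) :=
  (homSes i p hi hp hpi he N).van_left n h
    (star_homBi_of_projective.van n)

/-- The version for an explicit resolution. -/
theorem van_of_seq (L : Type) [AddCommGroup L] [Module k L] [Module A L] [IsScalarTower k A L]
    (X : ℕ → Type) [∀ i, AddCommGroup (X i)] [∀ i, Module k (X i)] [∀ i, Module A (X i)]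
    [∀ i, IsScalarTower k A (X i)] [∀ i, Module.Projective A (X i)]
    (dd : ∀ i, X (i + 1) →ₗ[A] X i) (ε : X 0 →ₗ[A] L) (hε : Function.Surjective ε)
    (h0 : ∀ x, ε (dd 0 x) = 0) (h0' : ∀ x, ε x = 0 → ∃ y, dd 0 y = x)
    (h1 : ∀ i x, dd i (dd (i + 1) x) = 0) (h1' : ∀ i x, dd i x = 0 → ∃ y, dd (i + 1) y = x)
    (d : ℕ) (hd : Subsingleton (X (d + 1)))
    (N : Type) [AddCommGroup N] [Module k N] [Module A N] [IsScalarTower k A N] (n : ℕ)
    (hn : d < n) : Bi.Van n (homBi k A L N) := by
  have key : ∀ j i : ℕ, i + j = d → ∀ n,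
      Bi.Van (n + j) (homBi k A (LinearMap.range (dd i)) N) := by
    intro j
    induction j with
    | zero =>
      intro i hi n
      have hi' : i = d := by omega
      subst hi'
      apply van_of_subsingleton
      refine ⟨fun f g => LinearMap.ext ?_⟩
      rintro ⟨_, y, rfl⟩
      have hy : y = 0 := Subsingleton.elim _ _
      have : (⟨dd i y, y, rfl⟩ : LinearMap.range (dd i)) = 0 := by
        apply Subtype.ext
        simp [hy]
      rw [this, map_zero, map_zero]
    | succ j ih =>
      intro i hi n
      have h2 := ih (i + 1) (by omega) n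
      refine van_step (P := X (i + 1)) (K := LinearMap.range (dd (i + 1)))
        (LinearMap.range (dd (i + 1))).subtype (dd i).rangeRestrict
        (Submodule.subtype_injective _) (dd i).surjective_rangeRestrict ?_ ?_ N (n + j) h2
      · rintro ⟨_, y, rfl⟩
        apply Subtype.ext
        exact h1 i y
      · intro x hx
        obtain ⟨y, hy⟩ := h1' i x (congrArg Subtype.val hx)
        exact ⟨⟨x, y, hy⟩, rfl⟩
  obtain ⟨m, rfl⟩ := Nat.exists_eq_add_of_lt hn
  have h2 := key d 0 (by omega) m
  have h3 : Bi.Van (m + d + 1) (homBi k A L N) := by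
    refine van_step (P := X 0) (K := LinearMap.range (dd 0))
        (LinearMap.range (dd 0)).subtype ε
        (Submodule.subtype_injective _) hε ?_ ?_ N (m + d) h2
    · rintro ⟨_, y, rfl⟩
      exact h0 y
    · intro x hx
      obtain ⟨y, hy⟩ := h0' x hx
      exact ⟨⟨x, y, hy⟩, rfl⟩
  rw [show d + m + 1 = m + d + 1 by omega]
  exact h3

/-- The version without `k`-structures on the resolution. -/
theorem van_of_seq' (L : Type) [AddCommGroup L] [Module k L] [Module A L] [IsScalarTower k A L]
    (X : ℕ → Type) [∀ i, AddCommGroup (X i)] [∀ i, Module A (X i)]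
    [∀ i, Module.Projective A (X i)]
    (dd : ∀ i, X (i + 1) →ₗ[A] X i) (ε : X 0 →ₗ[A] L) (hε : Function.Surjective ε)
    (h0 : ∀ x, ε (dd 0 x) = 0) (h0' : ∀ x, ε x = 0 → ∃ y, dd 0 y = x)
    (h1 : ∀ i x, dd i (dd (i + 1) x) = 0) (h1' : ∀ i x, dd i x = 0 → ∃ y, dd (i + 1) y = x)
    (d : ℕ) (hd : Subsingleton (X (d + 1)))
    (N : Type) [AddCommGroup N] [Module k N] [Module A N] [IsScalarTower k A N] (n : ℕ)
    (hn : d < n) : Bi.Van n (homBi k A L N) := by
  let ik : ∀ i, Module k (X i) := fun i => Module.compHom (X i) (algebraMap k A)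
  have : ∀ i, IsScalarTower k A (X i) := fun i => by
    constructor
    intro c a x
    change (c • a) • x = algebraMap k A c • (a • x)
    rw [Algebra.smul_def, mul_smul]
  exact van_of_seq L X dd ε hε h0 h0' h1 h1' d hd N n hn

end Gld

theorem van_of_resolution (k : Type) [Field k] (A : Type) [Ring A] [Algebra k A] (d : ℕ)
    (L : Type) [AddCommGroup L] [Module k L] [Module A L] [IsScalarTower k A L]
    (P : ProjectiveResolution (ModuleCat.of A L))
    (hP : ∀ i : ℕ, d < i → CategoryTheory.Limits.IsZero (P.complex.X i))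
    (N : Type) [AddCommGroup N] [Module k N] [Module A N] [IsScalarTower k A N] (n : ℕ)
    (hn : d < n) : Bi.Van n (homBi k A L N) := by
  have : ∀ i, Module.Projective A (P.complex.X i) := fun i => by
    have := P.projective i
    exact (IsProjective.iff_projective (R := A) (P.complex.X i)).mpr this
  have e0 := P.exact₀
  rw [ShortComplex.moduleCat_exact_iff] at e0
  have e1 : ∀ i, _ := fun i => P.exact_succ i
  simp only [ShortComplex.moduleCat_exact_iff] at e1
  let ε : (P.complex.X 0 : Type) →ₗ[A] L := (P.π.f 0).hom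
  refine Gld.van_of_seq' L (fun i => P.complex.X i) (fun i => (P.complex.d (i + 1) i).hom)
    ε ?_ ?_ e0 ?_ e1 d ?_ N n hn
  · exact (ModuleCat.epi_iff_surjective (P.π.f 0)).mp inferInstance
  · intro x
    exact congrArg (fun f => f.hom x) P.complex_d_comp_π_f_zero
  · intro i x
    exact congrArg (fun f => f.hom x) (P.complex.d_comp_d (i + 2) (i + 1) i)
  · exact ModuleCat.subsingleton_of_isZero (hP (d + 1) (by omega))

end Pool.Agent.N10.Han
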