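import Pool.Agent.N10.Han.Hoch2

/-!
# The Hochschild cochains of the dual of `A` and the Hochschild complex of `A`
-/

namespace Pool.Agent.N10.Han

namespace Link

open Bi

variable {k A : Type} [Field k] [Ring A] [Algebra k A]

/-- The bimodule `Hom_k (X, M)` for a `k`-module `M`. -/
noncomputable def cod (X : Bi k A) (M : Type) [AddCommGroup M] [Module k M] : Bi k A where
  C := X.C →ₗ[k] M
  l := LinearMap.mk₂ k (fun a f => f.comp (X.r a))
    (by intros; ext; simp) (by intros; ext; simp) (by intros; ext; simp) (by intros; ext; simp)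
  r := LinearMap.mk₂ k (fun a f => f.comp (X.l a))
    (by intros; ext; simp) (by intros; ext; simp) (by intros; ext; simp) (by intros; ext; simp)
  l_mul := by intro a b y; ext x; simp [X.r_mul]
  r_mul := by intro a b y; ext x; simp [X.l_mul]
  comm := by intro a b y; ext x; simp [X.comm]

/-- The bimodule `Hom_k (A, M)` for a `k`-module `M`. -/
noncomputable def cd (k A : Type) [Field k] [Ring A] [Algebra k A] (M : Type) [AddCommGroup M]
    [Module k M] : Bi k A := cod (regBi k A) M

lemma cd_eq : cd k A k = (regBi k A).dual := rfl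

variable {M : Type} [AddCommGroup M] [Module k M]

/-- Elements of `cd` are linear maps. -/
def cfun (f : (cd k A M).C) : A →ₗ[k] M := f

lemma cd_l (a : A) (f : (cd k A M).C) (x : A) : cfun ((cd k A M).l a f) x = cfun f (x * a) := rfl

lemma cd_r (a : A) (f : (cd k A M).C) (x : A) : cfun ((cd k A M).r a f) x = cfun f (a * x) := rfl

/-- Cochains as multilinear maps. -/
noncomputable def ml (Y : Bi k A) :
    (n : ℕ) → (Tn n Y).C ≃ₗ[k] MultilinearMap k (fun _ : Fin n => A) Y.C
  | 0 => MultilinearMap.constLinearEquivOfIsEmpty k k (fun _ : Fin 0 => A) Y.C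
  | n + 1 => (LinearEquiv.congrRight (ml Y n)).trans
      (multilinearCurryLeftEquiv k (fun _ : Fin (n + 1) => A) Y.C).symm

lemma ml_zero (Y : Bi k A) (f : (Tn 0 Y).C) (x : Fin 0 → A) : ml Y 0 f x = f := rfl

lemma ml_succ (Y : Bi k A) (n : ℕ) (f : (Tn (n + 1) Y).C) (x : Fin (n + 1) → A) :
    ml Y (n + 1) f x = ml Y n ((Tn n Y).toFun f (x 0)) (Fin.tail x) := rfl

lemma ml_l (Y : Bi k A) (n : ℕ) (a : A) (f : (Tn n Y).C) (x : Fin n → A) :
    ml Y n ((Tn n Y).l a f) x = Y.l a (ml Y n f x) := by
  induction n with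
  | zero => rfl
  | succ n ih =>
    rw [ml_succ, ml_succ, ← ih]
    rfl

lemma contractNth_zero {n : ℕ} (y : Fin (n + 1 + 1) → A) :
    Fin.contractNth (0 : Fin (n + 1)).castSucc (fun x y : A => x * y) y =
      Fin.cons (y 0 * y 1) (Fin.tail (Fin.tail y)) := by
  funext i
  cases i using Fin.cases with
  | zero => rfl
  | succ i => rfl

lemma contractNth_succ {n : ℕ} (y : Fin (n + 1 + 1) → A) (i : Fin n) :
    Fin.contractNth i.succ.castSucc (fun x y : A => x * y) y =
      Fin.cons (y 0) (Fin.contractNth i.castSucc (fun x y : A => x * y) (Fin.tail y)) := by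
  funext j
  cases j using Fin.cases with
  | zero => 
    rw [Fin.cons_zero, Fin.contractNth_apply_of_lt]
    · rfl
    · simp
  | succ j => 
    rw [Fin.cons_succ]
    unfold Fin.contractNth
    simp only [Fin.val_succ, Fin.val_castSucc, Nat.add_lt_add_iff_right, Nat.add_right_cancel_iff]
    rfl

lemma ml_r (Y : Bi k A) (n : ℕ) (f : (Tn n Y).C) (y : Fin (n + 1) → A) :
    ml Y n ((Tn n Y).r (y 0) f) (Fin.tail y) =
      (∑ i : Fin n, (-1 : k) ^ (i : ℕ) •
        ml Y n f (Fin.contractNth i.castSucc (fun x y : A => x * y) y)) +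
      (-1 : k) ^ n • Y.r (y (Fin.last n)) (ml Y n f (Fin.init y)) := by
  induction n with
  | zero =>
    rw [Fin.sum_univ_zero, pow_zero, one_smul]
    exact (zero_add _).symm
  | succ n ih =>
    have h1 : ml Y (n + 1) ((Tn (n + 1) Y).r (y 0) f) (Fin.tail y) =
        ml Y n ((Tn n Y).toFun f (y 0 * y 1)) (Fin.tail (Fin.tail y)) -
        ml Y n ((Tn n Y).r (y 1) ((Tn n Y).toFun f (y 0))) (Fin.tail (Fin.tail y)) := by
      rw [ml_succ]
      have : (Tn n Y).toFun ((Tn (n + 1) Y).r (y 0) f) (Fin.tail y 0) =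
        (Tn n Y).toFun f (y 0 * y 1) - (Tn n Y).r (y 1) ((Tn n Y).toFun f (y 0)) := rfl
      rw [this, map_sub]
      rfl
    have h2 := ih ((Tn n Y).toFun f (y 0)) (Fin.tail y)
    have h3 : (Fin.tail y) 0 = y 1 := rfl
    rw [h3] at h2
    rw [h1, h2, Fin.sum_univ_succ, contractNth_zero, ml_succ Y n f]
    rw [Fin.cons_zero, Fin.tail_cons]
    have h4 : ∀ i : Fin n, ml Y (n + 1) f (Fin.contractNth i.succ.castSucc
        (fun x y : A => x * y) y) = ml Y n ((Tn n Y).toFun f (y 0))
          (Fin.contractNth i.castSucc (fun x y : A => x * y) (Fin.tail y)) := by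
      intro i
      rw [contractNth_succ, ml_succ, Fin.cons_zero, Fin.tail_cons]
    have h5 : ml Y (n + 1) f (Fin.init y) = ml Y n ((Tn n Y).toFun f (y 0))
        (Fin.init (Fin.tail y)) := by
      rw [ml_succ]
      rfl
    have h6 : (Fin.tail y) (Fin.last n) = y (Fin.last (n + 1)) := rfl
    rw [h5, h6]
    simp only [h4, Fin.val_succ, pow_succ, mul_neg, mul_one, neg_smul, Finset.sum_neg_distrib]
    rw [Fin.val_zero, pow_zero, one_smul]
    abel

/-- The multilinear map attached to a cochain of `cd`. -/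
noncomputable def flipR {n : ℕ} (F : MultilinearMap k (fun _ : Fin n => A) (A →ₗ[k] M)) :
    MultilinearMap k (fun _ : Fin (n + 1) => A) M :=
  LinearMap.uncurryLeft (M := fun _ : Fin (n + 1) => A)
    { toFun := fun a => (LinearMap.applyₗ a).compMultilinearMap F
      map_add' := by intro a b; ext x; simp
      map_smul' := by intro a b; ext x; simp }

lemma flipR_apply {n : ℕ} (F : MultilinearMap k (fun _ : Fin n => A) (A →ₗ[k] M))
    (a : Fin (n + 1) → A) : flipR F a = F (Fin.tail a) (a 0) := rfl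

/-- The cochain attached to a multilinear map. -/
noncomputable def flipL {n : ℕ} (Φ : MultilinearMap k (fun _ : Fin (n + 1) => A) M) :
    MultilinearMap k (fun _ : Fin n => A) (A →ₗ[k] M) :=
  MultilinearMap.mk' (fun x =>
    { toFun := fun a => Φ (Fin.cons a x)
      map_add' := fun a b => Φ.cons_add x a b
      map_smul' := fun c a => Φ.cons_smul x c a })
    (by
      intro m i x y
      ext a
      have := (Φ.curryLeft a).map_update_add m i x y
      exact this)
    (by
      intro m i c x
      ext a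
      have := (Φ.curryLeft a).map_update_smul m i c x
      exact this)

lemma flipL_apply {n : ℕ} (Φ : MultilinearMap k (fun _ : Fin (n + 1) => A) M)
    (x : Fin n → A) (a : A) : flipL Φ x a = Φ (Fin.cons a x) := rfl

/-- the cochain of a multilinear map -/
noncomputable def co {n : ℕ} (Φ : MultilinearMap k (fun _ : Fin (n + 1) => A) M) :
    (Tn n (cd k A M)).C := (ml (cd k A M) n).symm (flipL Φ)

/-- the multilinear map of a cochain -/
noncomputable def mu {n : ℕ} (f : (Tn n (cd k A M)).C) :
    MultilinearMap k (fun _ : Fin (n + 1) => A) M := flipR (ml (cd k A M) n f)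

lemma mu_apply {n : ℕ} (f : (Tn n (cd k A M)).C) (a : Fin (n + 1) → A) :
    mu f a = cfun (ml (cd k A M) n f (Fin.tail a)) (a 0) := rfl

lemma mu_co {n : ℕ} (Φ : MultilinearMap k (fun _ : Fin (n + 1) => A) M) : mu (co Φ) = Φ := by
  have h : ml (cd k A M) n (co Φ) = flipL Φ := LinearEquiv.apply_symm_apply _ _
  ext a
  rw [mu_apply, h]
  change Φ (Fin.cons (a 0) (Fin.tail a)) = _
  rw [Fin.cons_self_tail]

lemma eq_zero_of_mu {n : ℕ} (f : (Tn n (cd k A M)).C) (h : ∀ a, mu f a = 0) : f = 0 := by
  apply (ml (cd k A M) n).injective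
  rw [map_zero]
  ext x
  refine LinearMap.ext fun (a : A) => ?_
  have := h (Fin.cons a x)
  rw [mu_apply, Fin.tail_cons, Fin.cons_zero] at this
  exact this

/-- the main formula -/
lemma mu_d {n : ℕ} (f : (Tn n (cd k A M)).C) (a : Fin (n + 1 + 1) → A) :
    mu (d n (cd k A M) f) a =
      (∑ i : Fin (n + 1), (-1 : k) ^ (i : ℕ) •
        mu f (Fin.contractNth i.castSucc (fun x y : A => x * y) a)) +
      (-1 : k) ^ (n + 1) • mu f ((Fin.cons (a (Fin.last (n + 1)) * a 0)
                        (fun j : Fin n => a j.succ.castSucc) : Fin (n + 1) → A)) := by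
  have h1 : ml (cd k A M) (n + 1) (d n (cd k A M) f) (Fin.tail a) =
      (cd k A M).l (a 1) (ml (cd k A M) n f (Fin.tail (Fin.tail a))) -
      ml (cd k A M) n ((Tn n (cd k A M)).r (a 1) f) (Fin.tail (Fin.tail a)) := by
    rw [ml_succ]
    have : (Tn n (cd k A M)).toFun (d n (cd k A M) f) (Fin.tail a 0) =
        (Tn n (cd k A M)).l (a 1) f - (Tn n (cd k A M)).r (a 1) f := rfl
    rw [this, map_sub, sub_apply, ml_l]
  have h2 := ml_r (cd k A M) n f (Fin.tail a)
  have h3 : (Fin.tail a) 0 = a 1 := rfl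
  rw [h3] at h2
  rw [mu_apply, h1, h2, Fin.sum_univ_succ, contractNth_zero]
  have h4 : ∀ i : Fin n, mu f (Fin.contractNth i.succ.castSucc (fun x y : A => x * y) a) =
      cfun (ml (cd k A M) n f
        (Fin.contractNth i.castSucc (fun x y : A => x * y) (Fin.tail a))) (a 0) := by
    intro i
    rw [contractNth_succ, mu_apply, Fin.cons_zero, Fin.tail_cons]
  simp only [h4]
  rw [mu_apply, mu_apply, Fin.cons_zero, Fin.tail_cons, Fin.cons_zero, Fin.tail_cons]
  have h5 : cfun ((cd k A M).l (a 1) (ml (cd k A M) n f (Fin.tail (Fin.tail a)))) (a 0) =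
    cfun (ml (cd k A M) n f (Fin.tail (Fin.tail a))) (a 0 * a 1) := rfl
  have h6 : cfun ((cd k A M).r (Fin.tail a (Fin.last n))
      (ml (cd k A M) n f (Fin.init (Fin.tail a)))) (a 0) =
    cfun (ml (cd k A M) n f (fun j : Fin n => a j.succ.castSucc)) (a (Fin.last (n + 1)) * a 0) := rfl
  have h7 : ∀ g h : (cd k A M).C, cfun (g - h) (a 0) = cfun g (a 0) - cfun h (a 0) :=
    fun g h => rfl
  have h8 : ∀ g h : (cd k A M).C, cfun (g + h) (a 0) = cfun g (a 0) + cfun h (a 0) :=
    fun g h => rfl
  have h9 : ∀ (c : k) (g : (cd k A M).C), cfun (c • g) (a 0) = c • cfun g (a 0) :=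
    fun g h => rfl
  have h10 : ∀ (g : Fin n → (cd k A M).C), cfun (∑ i, g i) (a 0) = ∑ i, cfun (g i) (a 0) := by
    intro g
    have := LinearMap.sum_apply (Finset.univ) (fun i => cfun (g i)) (a 0)
    exact this
  rw [h7, h8, h9, h10, h5, h6]
  simp only [h9]
  simp only [Fin.val_succ, pow_succ, mul_neg, mul_one, neg_smul, Finset.sum_neg_distrib]
  rw [Fin.val_zero, pow_zero, one_smul]
  abel

end Link

open Link in
theorem exists_b (k : Type) [Field k] (A : Type) [Ring A] [Algebra k A] :
    ∃ b : (n : ℕ) → (PiTensorProduct k (fun _ : Fin (n + 1 + 1) => A)) →ₗ[k]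
        (PiTensorProduct k (fun _ : Fin (n + 1) => A)),
      ∀ (n : ℕ) (a : Fin (n + 1 + 1) → A),
            b n (PiTensorProduct.tprod k a) =
              (∑ i : Fin (n + 1),
                  (-1 : k) ^ (i : ℕ) •
                    PiTensorProduct.tprod k
                      (Fin.contractNth i.castSucc (fun x y : A => x * y) a)) +
                (-1 : k) ^ (n + 1) •
                  PiTensorProduct.tprod k
                    ((Fin.cons (a (Fin.last (n + 1)) * a 0)
                        (fun j : Fin n => a j.succ.castSucc) : Fin (n + 1) → A)) := by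
  refine ⟨fun n => PiTensorProduct.lift (mu (Bi.d n (cd k A _)
    (co (PiTensorProduct.tprod k (s := fun _ : Fin (n + 1) => A))))), fun n a => ?_⟩
  rw [PiTensorProduct.lift.tprod, mu_d, mu_co]

open Link in
theorem exact_of_van (k : Type) [Field k] (A : Type) [Ring A] [Algebra k A]
    [FiniteDimensional k A] (hV : ∀ n, Bi.Van (n + 1) (regBi k A).dual)
    (b : (n : ℕ) → (PiTensorProduct k (fun _ : Fin (n + 1 + 1) => A)) →ₗ[k]
        (PiTensorProduct k (fun _ : Fin (n + 1) => A)))
    (hb : ∀ (n : ℕ) (a : Fin (n + 1 + 1) → A),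
            b n (PiTensorProduct.tprod k a) =
              (∑ i : Fin (n + 1),
                  (-1 : k) ^ (i : ℕ) •
                    PiTensorProduct.tprod k
                      (Fin.contractNth i.castSucc (fun x y : A => x * y) a)) +
                (-1 : k) ^ (n + 1) •
                  PiTensorProduct.tprod k
                    ((Fin.cons (a (Fin.last (n + 1)) * a 0)
                        (fun j : Fin n => a j.succ.castSucc) : Fin (n + 1) → A))) :
    ∀ n : ℕ, LinearMap.ker (b n) ≤ LinearMap.range (b (n + 1)) := by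
  intro n x hx
  by_contra hne
  obtain ⟨φ, hφ, hker⟩ := Submodule.exists_le_ker_of_notMem hne
  apply hφ
  have hφb : ∀ y, φ (b (n + 1) y) = 0 := fun y => hker ⟨y, rfl⟩
  have key : ∀ (m : ℕ) (ψ : PiTensorProduct k (fun _ : Fin (m + 1) => A) →ₗ[k] k)
      (g : (Bi.Tn m (cd k A k)).C) (hg : mu g = ψ.compMultilinearMap (PiTensorProduct.tprod k))
      (a : Fin (m + 1 + 1) → A),
      ψ (b m (PiTensorProduct.tprod k a)) = mu (Bi.d m (cd k A k) g) a := by
    intro m ψ g hg a
    rw [mu_d, hb, map_add, map_sum, hg]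
    simp only [map_smul]
    rfl
  set f : (Bi.Tn (n + 1) (cd k A k)).C := co (φ.compMultilinearMap (PiTensorProduct.tprod k)) with hf
  have hfd : Bi.d (n + 1) (cd k A k) f = 0 := by
    apply eq_zero_of_mu
    intro a
    rw [← key (n + 1) φ f (mu_co _) a, hφb]
  obtain ⟨g, hg⟩ := hV n (show f ∈ Bi.Z (n + 1) (regBi k A).dual from hfd)
  set ψ : PiTensorProduct k (fun _ : Fin (n + 1) => A) →ₗ[k] k :=
    PiTensorProduct.lift (mu (show (Bi.Tn n (cd k A k)).C from g)) with hψ
  have h1 : φ = ψ.comp (b n) := by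
    apply PiTensorProduct.ext
    ext a
    change φ (PiTensorProduct.tprod k a) = ψ (b n (PiTensorProduct.tprod k a))
    rw [key n ψ g (by rw [hψ]; ext a; simp) a]
    have : Bi.d n (cd k A k) g = f := hg
    rw [this, hf, mu_co]
    rfl
  rw [h1, LinearMap.comp_apply, LinearMap.mem_ker.1 hx, map_zero]

end Pool.Agent.N10.Han
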