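import Pool.Agent.N10.Han.KoszulA

/-!
# The spaces `W s t`, `What p s t` and `Img p s t`: elementary facts
(helper566, subtask HAN/S5b of helper10)
-/

open scoped WithZero
open Matrix

namespace Pool.Agent.N10.Han

namespace Datum

variable {k K : Type} [Field k] [CharZero k] [Field K] [Algebra k K] (D : Datum k K)

namespace Kz

/-! ### Multiplication -/

omit [CharZero k] in
lemma l_mem (x : Fin 3 → k) : D.l x ∈ D.V := ⟨x, rfl⟩

omit [CharZero k] in
lemma r_mem (x : Fin 3 → k) : D.r x ∈ D.V' := ⟨x, rfl⟩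

omit [CharZero k] in
lemma W_succ_s (s t : ℕ) : D.W (s + 1) t = D.V * D.W s t := by
  unfold W
  rw [pow_succ', mul_assoc]

omit [CharZero k] in
lemma W_succ_t (s t : ℕ) : D.W s (t + 1) = D.V' * D.W s t := by
  unfold W
  rw [pow_succ', ← mul_assoc, ← mul_assoc, mul_comm (D.V ^ s)]

omit [CharZero k] in
lemma mul_l {s t : ℕ} {h : K} (hh : h ∈ D.W s t) (x : Fin 3 → k) : D.l x * h ∈ D.W (s + 1) t := by
  rw [W_succ_s]
  exact Submodule.mul_mem_mul (l_mem D x) hh

omit [CharZero k] in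
lemma mul_r {s t : ℕ} {h : K} (hh : h ∈ D.W s t) (x : Fin 3 → k) : D.r x * h ∈ D.W s (t + 1) := by
  rw [W_succ_t]
  exact Submodule.mul_mem_mul (r_mem D x) hh

omit [CharZero k] in
lemma W_le_s {s t : ℕ} {N : Submodule k K} (h : ∀ x, ∀ m ∈ D.W s t, D.l x * m ∈ N) :
    D.W (s + 1) t ≤ N := by
  rw [W_succ_s, Submodule.mul_le]
  rintro _ ⟨x, rfl⟩ m hm
  exact h x m hm

omit [CharZero k] in
lemma W_le_t {s t : ℕ} {N : Submodule k K} (h : ∀ x, ∀ m ∈ D.W s t, D.r x * m ∈ N) :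
    D.W s (t + 1) ≤ N := by
  rw [W_succ_t, Submodule.mul_le]
  rintro _ ⟨x, rfl⟩ m hm
  exact h x m hm

omit [CharZero k] in
lemma W01 : D.W 0 1 = D.V' := by
  unfold W
  rw [pow_zero, one_mul, pow_one]

omit [CharZero k] in
lemma W10 : D.W 1 0 = D.V := by
  unfold W
  rw [pow_zero, mul_one, pow_one]

omit [CharZero k] in
lemma W_fin (s t : ℕ) : FiniteDimensional k (D.W s t) := by
  have h1 : (D.V).FG := by
    unfold V
    exact Module.Finite.iff_fg.1 inferInstance
  have h2 : (D.V').FG := by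
    unfold V'
    exact Module.Finite.iff_fg.1 inferInstance
  exact Module.Finite.iff_fg.2 ((h1.pow s).mul (h2.pow t))

omit [CharZero k] in
lemma img_mem {p x : Fin 3 → k} {s t : ℕ} {h : K} (hx : x ⬝ᵥ p = 0) (hh : h ∈ D.W (s + 1) t) :
    D.l x * h ∈ D.Img p s t :=
  Submodule.subset_span ⟨x, h, hx, hh, rfl⟩

omit [CharZero k] in
lemma img_le_W (p : Fin 3 → k) (s t : ℕ) : D.Img p s t ≤ D.W (s + 2) t := by
  unfold Img
  rw [Submodule.span_le]
  rintro _ ⟨x, h, hx, hh, rfl⟩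
  exact mul_l D hh x

omit [CharZero k] in
lemma img_mul_l {p : Fin 3 → k} {s t : ℕ} {h : K} (hh : h ∈ D.Img p s t) (y : Fin 3 → k) :
    D.l y * h ∈ D.Img p (s + 1) t := by
  have : D.Img p s t ≤ (D.Img p (s + 1) t).comap (LinearMap.mulLeft k (D.l y)) := by
    unfold Img
    rw [Submodule.span_le]
    rintro _ ⟨x, h, hx, hh, rfl⟩
    show D.l y * (D.l x * h) ∈ D.Img p (s + 1) t
    rw [mul_left_comm]
    exact img_mem D hx (mul_l D hh y)
  exact this hh

omit [CharZero k] in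
lemma img_mul_r {p : Fin 3 → k} {s t : ℕ} {h : K} (hh : h ∈ D.Img p s t) (y : Fin 3 → k) :
    D.r y * h ∈ D.Img p s (t + 1) := by
  have : D.Img p s t ≤ (D.Img p s (t + 1)).comap (LinearMap.mulLeft k (D.r y)) := by
    unfold Img
    rw [Submodule.span_le]
    rintro _ ⟨x, h, hx, hh, rfl⟩
    show D.r y * (D.l x * h) ∈ D.Img p s (t + 1)
    rw [mul_left_comm]
    exact img_mem D hx (mul_r D hh y)
  exact this hh

omit [CharZero k] in
lemma hat_mem {p : Fin 3 → k} {s t : ℕ} {h : K} (hh : h ∈ D.What p s t) {x : Fin 3 → k}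
    (hx : x ⬝ᵥ p = 0) : D.l x * h ∈ D.W (s + 1) t := hh x hx

omit [CharZero k] in
lemma W_le_hat (p : Fin 3 → k) (s t : ℕ) : D.W s t ≤ D.What p s t :=
  fun _ hh x _ => mul_l D hh x

omit [CharZero k] in
lemma hat_mul_l {p : Fin 3 → k} {s t : ℕ} {h : K} (hh : h ∈ D.What p s t) (y : Fin 3 → k) :
    D.l y * h ∈ D.What p (s + 1) t := by
  intro x hx
  rw [mul_left_comm]
  exact mul_l D (hh x hx) y

omit [CharZero k] in
lemma hat_mul_r {p : Fin 3 → k} {s t : ℕ} {h : K} (hh : h ∈ D.What p s t) (y : Fin 3 → k) :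
    D.r y * h ∈ D.What p s (t + 1) := by
  intro x hx
  rw [mul_left_comm]
  exact mul_r D (hh x hx) y

/-! ### The relation -/

omit [CharZero k] in
lemma l_e0 : D.l ![1, 0, 0] = 1 := by simp [l]

omit [CharZero k] in
lemma l_e1 : D.l ![0, 1, 0] = D.X := by simp [l]

omit [CharZero k] in
lemma l_e2 : D.l ![0, 0, 1] = D.Y := by simp [l]

omit [CharZero k] in
lemma r_app (x : Fin 3 → k) : D.r x = algebraMap k K (x 0) + x 1 • D.X' + x 2 • D.Y' := rfl

omit [CharZero k] in
lemma l_app (x : Fin 3 → k) : D.l x = algebraMap k K (x 0) + x 1 • D.X + x 2 • D.Y := rfl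

omit [CharZero k] in
lemma r_tg (γ u : Fin 3 → k) :
    D.r (tg γ u) = γ 0 • D.r (t1 u) + γ 1 • D.r (t2 u) + γ 2 • D.r (t3 u) := by
  unfold tg
  rw [map_add, map_add, map_smul, map_smul, map_smul]

omit [CharZero k] in
lemma rel0 (γ : Fin 3 → k) :
    D.r (tg γ ![1, 0, 0]) + D.X * D.r (tg γ ![0, 1, 0]) + D.Y * D.r (tg γ ![0, 0, 1]) = 0 := by
  rw [r_tg, r_tg, r_tg]
  have h1 : D.r (t1 ![1, 0, 0]) + D.X * D.r (t1 ![0, 1, 0]) + D.Y * D.r (t1 ![0, 0, 1]) = 0 := by
    simp only [r_app, t1]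
    simp [Algebra.smul_def]
    linear_combination D.r1 + D.X * map_ofNat (algebraMap k K) 2 + map_ofNat (algebraMap k K) 6
  have h2 : D.r (t2 ![1, 0, 0]) + D.X * D.r (t2 ![0, 1, 0]) + D.Y * D.r (t2 ![0, 0, 1]) = 0 := by
    simp only [r_app, t2]
    simp [Algebra.smul_def]
    linear_combination D.r2 - D.X' * map_ofNat (algebraMap k K) 2 - map_ofNat (algebraMap k K) 6
  have h3 : D.r (t3 ![1, 0, 0]) + D.X * D.r (t3 ![0, 1, 0]) + D.Y * D.r (t3 ![0, 0, 1]) = 0 := by
    simp only [r_app, t3]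
    simp [Algebra.smul_def]
    linear_combination D.r3 + D.X * D.X' * map_ofNat (algebraMap k K) 3 + map_ofNat (algebraMap k K) 3
  simp only [Algebra.smul_def]
  linear_combination (algebraMap k K (γ 0)) * h1 + (algebraMap k K (γ 1)) * h2 +
    (algebraMap k K (γ 2)) * h3

omit [CharZero k] in
/-- the relation in a basis adapted to `p` -/
lemma relB {p : Fin 3 → k} (B : Bas p) (γ : Fin 3 → k) :
    D.l B.v * D.r (tg γ B.v') + D.l B.w * D.r (tg γ B.w') + D.l B.g * D.r (tg γ p) = 0 := by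
  have key : ∀ u : Fin 3 → k, D.r (tg γ u) = (B.v ⬝ᵥ u) • D.r (tg γ B.v') +
      (B.w ⬝ᵥ u) • D.r (tg γ B.w') + (B.g ⬝ᵥ u) • D.r (tg γ p) := by
    intro u
    conv_lhs => rw [B.eu u]
    rw [tg_add, tg_add, tg_smul, tg_smul, tg_smul, map_add, map_add, map_smul, map_smul, map_smul]
  have h := rel0 D γ
  rw [key ![1, 0, 0], key ![0, 1, 0], key ![0, 0, 1]] at h
  simp only [dot3, Matrix.cons_val, mul_one, mul_zero, add_zero, zero_add] at h
  rw [l_app, l_app, l_app]
  simp only [Algebra.smul_def] at h ⊢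
  linear_combination h

omit [CharZero k] in
/-- expansion of a form in the basis -/
lemma l_ex {p : Fin 3 → k} (B : Bas p) (x : Fin 3 → k) :
    D.l x = (x ⬝ᵥ B.v') • D.l B.v + (x ⬝ᵥ B.w') • D.l B.w + (x ⬝ᵥ p) • D.l B.g := by
  conv_lhs => rw [B.ex x]
  rw [map_add, map_add, map_smul, map_smul, map_smul]

omit [CharZero k] in
/-- `P1` -/
lemma p1 {p : Fin 3 → k} (B : Bas p) (γ : Fin 3 → k) {s t : ℕ} {h : K} (hh : h ∈ D.W (s + 2) t) :
    D.r (tg γ p) * h ∈ D.Img p s (t + 1) := by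
  have : D.W (s + 2) t ≤ (D.Img p s (t + 1)).comap (LinearMap.mulLeft k (D.r (tg γ p))) := by
    apply W_le_s
    intro x m hm
    show D.r (tg γ p) * (D.l x * m) ∈ D.Img p s (t + 1)
    have e : D.r (tg γ p) * (D.l x * m) = (x ⬝ᵥ B.v') • (D.l B.v * (D.r (tg γ p) * m)) +
        (x ⬝ᵥ B.w') • (D.l B.w * (D.r (tg γ p) * m)) -
        (x ⬝ᵥ p) • (D.l B.v * (D.r (tg γ B.v') * m) + D.l B.w * (D.r (tg γ B.w') * m)) := by
      rw [l_ex D B x]
      simp only [Algebra.smul_def]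
      linear_combination (algebraMap k K (x ⬝ᵥ p)) * m * relB D B γ
    rw [e]
    refine Submodule.sub_mem _ (Submodule.add_mem _ (Submodule.smul_mem _ _ ?_)
      (Submodule.smul_mem _ _ ?_)) (Submodule.smul_mem _ _ (Submodule.add_mem _ ?_ ?_))
    · exact img_mem D B.vp (mul_r D hm _)
    · exact img_mem D B.wp (mul_r D hm _)
    · exact img_mem D B.vp (mul_r D hm _)
    · exact img_mem D B.wp (mul_r D hm _)
  exact this hh

omit [CharZero k] in
/-- `P2`, before saturation -/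
lemma p2 {p : Fin 3 → k} (B : Bas p) (γ : Fin 3 → k) {s t : ℕ} {h : K} (hh : h ∈ D.What p s t)
    (x : Fin 3 → k) : D.l x * (D.r (tg γ p) * h) ∈ D.W (s + 1) (t + 1) := by
  have e : D.l x * (D.r (tg γ p) * h) = (x ⬝ᵥ B.v') • (D.r (tg γ p) * (D.l B.v * h)) +
      (x ⬝ᵥ B.w') • (D.r (tg γ p) * (D.l B.w * h)) -
      (x ⬝ᵥ p) • (D.r (tg γ B.v') * (D.l B.v * h) + D.r (tg γ B.w') * (D.l B.w * h)) := by
    rw [l_ex D B x]
    simp only [Algebra.smul_def]
    linear_combination (algebraMap k K (x ⬝ᵥ p)) * h * relB D B γ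
  rw [e]
  refine Submodule.sub_mem _ (Submodule.add_mem _ (Submodule.smul_mem _ _ ?_)
    (Submodule.smul_mem _ _ ?_)) (Submodule.smul_mem _ _ (Submodule.add_mem _ ?_ ?_))
  · exact mul_r D (hh _ B.vp) _
  · exact mul_r D (hh _ B.wp) _
  · exact mul_r D (hh _ B.vp) _
  · exact mul_r D (hh _ B.wp) _

/-! ### Valuations -/

omit [CharZero k] in
lemma v_alg (a : k) : D.v (algebraMap k K a) ≤ 1 := by
  by_cases h : a = 0
  · rw [h, map_zero, map_zero]
    exact zero_le_one
  · exact (D.vk a h).le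

omit [CharZero k] in
lemma v_smul {a : k} (ha : a ≠ 0) (x : K) : D.v (a • x) = D.v x := by
  rw [Algebra.smul_def, map_mul, D.vk a ha, one_mul]

omit [CharZero k] in
lemma v_smul_le (a : k) (x : K) : D.v (a • x) ≤ D.v x := by
  rw [Algebra.smul_def, map_mul]
  exact mul_le_of_le_one_left' (v_alg D a)

omit [CharZero k] in
/-- `l` is injective -/
lemma l_inj {x : Fin 3 → k} (h : D.l x = 0) : x = 0 := by
  rw [l_app] at h
  have h1 : (1 : ℤᵐ⁰) < WithZero.exp 3 := by
    rw [← WithZero.exp_zero, WithZero.exp_lt_exp]; norm_num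
  have h2 : (WithZero.exp 2 : ℤᵐ⁰) < WithZero.exp 3 := by
    rw [WithZero.exp_lt_exp]; norm_num
  have h3 : (1 : ℤᵐ⁰) < WithZero.exp 2 := by
    rw [← WithZero.exp_zero, WithZero.exp_lt_exp]; norm_num
  have e2 : x 2 = 0 := by
    by_contra h0
    have a1 : D.v (algebraMap k K (x 0) + x 1 • D.X) < D.v (x 2 • D.Y) := by
      rw [v_smul D h0, D.vY]
      refine Valuation.map_add_lt _ ((v_alg D _).trans_lt h1) ?_
      refine (v_smul_le D _ _).trans_lt ?_
      rw [D.vX]
      exact h2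
    have a2 := Valuation.map_add_eq_of_lt_left _ a1
    rw [add_comm, h, map_zero, v_smul D h0, D.vY] at a2
    exact WithZero.exp_ne_zero a2.symm
  rw [e2, zero_smul, add_zero] at h
  have e1 : x 1 = 0 := by
    by_contra h0
    have a1 : D.v (algebraMap k K (x 0)) < D.v (x 1 • D.X) := by
      rw [v_smul D h0, D.vX]
      exact (v_alg D _).trans_lt h3
    have a2 := Valuation.map_add_eq_of_lt_left _ a1
    rw [add_comm, h, map_zero, v_smul D h0, D.vX] at a2
    exact WithZero.exp_ne_zero a2.symm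
  rw [e1, zero_smul, add_zero] at h
  have e0 : x 0 = 0 := (map_eq_zero _).1 h
  exact ext3 e0 e1 e2

/-- the vector with the last coordinate negated -/
def sg (x : Fin 3 → k) : Fin 3 → k := ![x 0, x 1, -x 2]

omit [CharZero k] in
lemma sg_sg (x : Fin 3 → k) : sg (sg x) = x := by
  apply ext3 <;> simp [sg]

omit [CharZero k] in
lemma swap_l (x : Fin 3 → k) : D.swap.l x = D.r (sg x) := by
  rw [l_app, r_app]
  simp [sg, swap]

omit [CharZero k] in
lemma swap_r (x : Fin 3 → k) : D.swap.r x = D.l (sg x) := by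
  rw [l_app, r_app]
  simp [sg, swap]

omit [CharZero k] in
/-- `r` is injective -/
lemma r_inj {x : Fin 3 → k} (h : D.r x = 0) : x = 0 := by
  rw [← sg_sg x, ← swap_l] at h
  have := l_inj D.swap h
  rw [← sg_sg x, this]
  apply ext3 <;> simp [sg]

omit [CharZero k] in
lemma v_V' {h : K} (hh : h ∈ D.V') : D.v h ≤ 1 := by
  obtain ⟨x, rfl⟩ := hh
  rw [r_app]
  refine Valuation.map_add_le _ (Valuation.map_add_le _ (v_alg D _) ?_) ?_
  · refine (v_smul_le D _ _).trans ?_
    rw [D.vX', ← WithZero.exp_zero, WithZero.exp_le_exp]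
    norm_num
  · exact (v_smul_le D _ _).trans D.vY'

/-! ### Dimensions -/

omit [CharZero k] in
lemma v_ne {p : Fin 3 → k} (B : Bas p) : D.l B.v ≠ 0 := by
  intro h
  have := l_inj D h
  have h1 := B.vv
  rw [this, zero_dotProduct] at h1
  exact zero_ne_one h1

omit [CharZero k] in
lemma w_ne {p : Fin 3 → k} (B : Bas p) : D.l B.w ≠ 0 := by
  intro h
  have := l_inj D h
  have h1 := B.ww
  rw [this, zero_dotProduct] at h1
  exact zero_ne_one h1

omit [CharZero k] in
/-- the expansion of a form vanishing at `p` -/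
lemma l_ex0 {p : Fin 3 → k} (B : Bas p) {x : Fin 3 → k} (hx : x ⬝ᵥ p = 0) :
    D.l x = (x ⬝ᵥ B.v') • D.l B.v + (x ⬝ᵥ B.w') • D.l B.w := by
  rw [l_ex D B x, hx, zero_smul, add_zero]

/-- the map `(b, c) ↦ l(v) b + l(w) c` -/
noncomputable def Phi {p : Fin 3 → k} (B : Bas p) (s t : ℕ) :
    (D.W (s + 1) t × D.W (s + 1) t) →ₗ[k] K :=
  ((LinearMap.mulLeft k (D.l B.v)).comp (D.W (s + 1) t).subtype).coprod
    ((LinearMap.mulLeft k (D.l B.w)).comp (D.W (s + 1) t).subtype)

omit [CharZero k] in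
lemma Phi_app {p : Fin 3 → k} (B : Bas p) (s t : ℕ) (z : D.W (s + 1) t × D.W (s + 1) t) :
    Phi D B s t z = D.l B.v * (z.1 : K) + D.l B.w * (z.2 : K) := by
  simp [Phi]

/-- the map `h ↦ (l(w) h, - l(v) h)` -/
noncomputable def Theta {p : Fin 3 → k} (B : Bas p) (s t : ℕ) :
    D.What p s t →ₗ[k] (D.W (s + 1) t × D.W (s + 1) t) :=
  LinearMap.prod
    (LinearMap.codRestrict _ ((LinearMap.mulLeft k (D.l B.w)).comp (D.What p s t).subtype)
      (fun h => h.2 _ B.wp))
    (-(LinearMap.codRestrict _ ((LinearMap.mulLeft k (D.l B.v)).comp (D.What p s t).subtype)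
      (fun h => h.2 _ B.vp)))

omit [CharZero k] in
lemma Theta_fst {p : Fin 3 → k} (B : Bas p) (s t : ℕ) (h : D.What p s t) :
    ((Theta D B s t h).1 : K) = D.l B.w * (h : K) := rfl

omit [CharZero k] in
lemma Theta_snd {p : Fin 3 → k} (B : Bas p) (s t : ℕ) (h : D.What p s t) :
    ((Theta D B s t h).2 : K) = -(D.l B.v * (h : K)) := rfl

omit [CharZero k] in
lemma Theta_inj {p : Fin 3 → k} (B : Bas p) (s t : ℕ) : Function.Injective (Theta D B s t) := by
  rw [injective_iff_map_eq_zero]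
  intro a ha
  have h1 : ((Theta D B s t a).1 : K) = 0 := by rw [ha]; rfl
  rw [Theta_fst] at h1
  rcases mul_eq_zero.1 h1 with h | h
  · exact absurd h (w_ne D B)
  · exact Subtype.ext h

omit [CharZero k] in
lemma range_Phi {p : Fin 3 → k} (B : Bas p) (s t : ℕ) :
    LinearMap.range (Phi D B s t) = D.Img p s t := by
  apply le_antisymm
  · rintro _ ⟨z, rfl⟩
    rw [Phi_app]
    exact Submodule.add_mem _ (img_mem D B.vp z.1.2) (img_mem D B.wp z.2.2)
  · unfold Img
    rw [Submodule.span_le]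
    rintro _ ⟨x, h, hx, hh, rfl⟩
    refine ⟨(⟨(x ⬝ᵥ B.v') • h, Submodule.smul_mem _ _ hh⟩,
      ⟨(x ⬝ᵥ B.w') • h, Submodule.smul_mem _ _ hh⟩), ?_⟩
    rw [Phi_app, l_ex0 D B hx]
    simp only [Algebra.smul_def]
    ring

omit [CharZero k] in
lemma ker_Phi {p : Fin 3 → k} (B : Bas p) (s t : ℕ) :
    LinearMap.range (Theta D B s t) = LinearMap.ker (Phi D B s t) := by
  apply le_antisymm
  · rintro _ ⟨h, rfl⟩
    rw [LinearMap.mem_ker, Phi_app, Theta_fst, Theta_snd]
    ring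
  · intro z hz
    rw [LinearMap.mem_ker, Phi_app] at hz
    have hw := w_ne D B
    have hv := v_ne D B
    have e1 : D.l B.w * ((z.1 : K) / D.l B.w) = z.1 := by
      field_simp
    have e2 : D.l B.v * ((z.1 : K) / D.l B.w) = -z.2 := by
      field_simp
      linear_combination hz
    refine ⟨⟨(z.1 : K) / D.l B.w, ?_⟩, ?_⟩
    · intro x hx
      rw [l_ex0 D B hx, add_mul, smul_mul_assoc, smul_mul_assoc, e1, e2]
      exact Submodule.add_mem _ (Submodule.smul_mem _ _ (Submodule.neg_mem _ z.2.2))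
        (Submodule.smul_mem _ _ z.1.2)
    · apply Prod.ext
      · apply Subtype.ext
        rw [Theta_fst]
        exact e1
      · apply Subtype.ext
        rw [Theta_snd]
        show -(D.l B.v * ((z.1 : K) / D.l B.w)) = _
        rw [e2, neg_neg]

omit [CharZero k] in
lemma hat_fin {p : Fin 3 → k} (B : Bas p) (s t : ℕ) : FiniteDimensional k (D.What p s t) := by
  have := W_fin D (s + 1) t
  exact Module.Finite.of_injective (Theta D B s t) (Theta_inj D B s t)

omit [CharZero k] in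
lemma img_fin {p : Fin 3 → k} (B : Bas p) (s t : ℕ) : FiniteDimensional k (D.Img p s t) := by
  have := W_fin D (s + 1) t
  rw [← range_Phi D B s t]
  infer_instance

omit [CharZero k] in
/-- the dimension count (A) -/
lemma dim_A {p : Fin 3 → k} (B : Bas p) (s t : ℕ) :
    Module.finrank k (D.What p s t) + Module.finrank k (D.Img p s t) =
      2 * Module.finrank k (D.W (s + 1) t) := by
  have := W_fin D (s + 1) t
  have h1 := LinearMap.finrank_range_add_finrank_ker (Phi D B s t)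
  rw [range_Phi, ← ker_Phi, LinearMap.finrank_range_of_inj (Theta_inj D B s t),
    Module.finrank_prod] at h1
  omega

end Kz

end Datum

end Pool.Agent.N10.Han
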