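import Pool.Agent.N10.Han.Sat
import Pool.Agent.N10.Han.KoszulB

/-!
# Koszul homology of two linear forms on the spaces `W s t`
(helper566, subtask HAN/S5b of helper10)
-/

open scoped WithZero
open Matrix

namespace Pool.Agent.N10.Han

namespace Datum

variable {k K : Type} [Field k] [CharZero k] [Field K] [Algebra k K] (D : Datum k K)

namespace Kz

/-- `P2` -/
lemma hat_nu {p : Fin 3 → k} (B : Bas p) (γ : Fin 3 → k) {s t : ℕ} {h : K}
    (hh : h ∈ D.What p s t) : D.r (tg γ p) * h ∈ D.W s (t + 1) :=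
  D.sat_s s (t + 1) (by omega) _ (fun x => p2 D B γ hh x)

/-! ### The case of rank three -/

lemma rank3 {p : Fin 3 → k} (B : Bas p) (hs : ∀ ν, ∃ γ, tg γ p = ν) (s t : ℕ) (h1 : 1 ≤ s)
    (h2 : 1 ≤ t) : D.What p s t ≤ D.W s t ∧ D.W (s + 2) t ≤ D.Img p s t := by
  constructor
  · intro h hh
    apply D.sat_t s t h1
    intro x
    obtain ⟨γ, rfl⟩ := hs x
    exact hat_nu D B γ hh
  · obtain ⟨t, rfl⟩ : ∃ t', t = t' + 1 := ⟨t - 1, by omega⟩
    apply W_le_t
    intro x m hm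
    obtain ⟨γ, rfl⟩ := hs x
    exact p1 D B γ hm

/-! ### The case of rank two -/

/-- the generator of `W (s+2) t / Img p s t` -/
noncomputable def gen {p q : Fin 3 → k} (B : Bas p) (C : Bas q) (s t : ℕ) : K :=
  D.l B.g ^ s * D.r C.g ^ t

omit [CharZero k] in
lemma gen_l {p q : Fin 3 → k} (B : Bas p) (C : Bas q) (s t : ℕ) :
    D.l B.g * gen D B C s t = gen D B C (s + 1) t := by
  unfold gen
  ring

omit [CharZero k] in
lemma gen_r {p q : Fin 3 → k} (B : Bas p) (C : Bas q) (s t : ℕ) :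
    D.r C.g * gen D B C s t = gen D B C s (t + 1) := by
  unfold gen
  ring

omit [CharZero k] in
lemma gen_mem {p q : Fin 3 → k} (B : Bas p) (C : Bas q) (s t : ℕ) :
    gen D B C s t ∈ D.W s t :=
  Submodule.mul_mem_mul (Submodule.pow_mem_pow _ (l_mem D _) _)
    (Submodule.pow_mem_pow _ (r_mem D _) _)

omit [CharZero k] in
lemma sub_g {p : Fin 3 → k} (B : Bas p) (x : Fin 3 → k) : (x - (x ⬝ᵥ p) • B.g) ⬝ᵥ p = 0 := by
  rw [sub_dotProduct, smul_dotProduct, B.gp]
  simp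

omit [CharZero k] in
lemma l_split {p : Fin 3 → k} (B : Bas p) (x : Fin 3 → k) (h : K) :
    D.l x * h = D.l (x - (x ⬝ᵥ p) • B.g) * h + (x ⬝ᵥ p) • (D.l B.g * h) := by
  rw [map_sub, map_smul]
  simp only [Algebra.smul_def]
  ring

omit [CharZero k] in
lemma r_split {q : Fin 3 → k} (C : Bas q) (x : Fin 3 → k) (h : K) :
    D.r x * h = D.r (x - (x ⬝ᵥ q) • C.g) * h + (x ⬝ᵥ q) • (D.r C.g * h) := by
  rw [map_sub, map_smul]
  simp only [Algebra.smul_def]
  ring

/-- (B) -/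
lemma gen_span {p q : Fin 3 → k} (B : Bas p) (C : Bas q) (hr : Rel p q) (s t : ℕ) :
    D.W (s + 2) t ≤ D.Img p s t ⊔ Submodule.span k {gen D B C (s + 2) t} := by
  induction s with
  | zero =>
    induction t with
    | zero =>
      apply W_le_s
      intro x m hm
      have hm' : m ∈ D.V := by rwa [← W10]
      obtain ⟨y, rfl⟩ := hm'
      rw [l_split D B x]
      refine Submodule.add_mem _ ?_ (Submodule.smul_mem _ _ ?_)
      · exact Submodule.mem_sup_left (img_mem D (sub_g B x) hm)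
      · rw [mul_comm, l_split D B y]
        have hg : D.l B.g ∈ D.W 1 0 := by rw [W10]; exact l_mem D _
        refine Submodule.add_mem _ ?_ (Submodule.smul_mem _ _ ?_)
        · exact Submodule.mem_sup_left (img_mem D (sub_g B y) hg)
        · refine Submodule.mem_sup_right (Submodule.mem_span_singleton.2 ⟨1, ?_⟩)
          rw [one_smul]
          unfold gen
          ring
    | succ t ih =>
      apply W_le_t
      intro x m hm
      obtain ⟨i, hi, z, hz, rfl⟩ := Submodule.mem_sup.1 (ih hm)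
      obtain ⟨a, rfl⟩ := Submodule.mem_span_singleton.1 hz
      rw [mul_add, mul_smul_comm, r_split D C x (gen D B C _ _), gen_r]
      obtain ⟨γ, hγ⟩ := perp_span hr _ (sub_g C x)
      rw [← hγ]
      refine Submodule.add_mem _ ?_ (Submodule.smul_mem _ _ (Submodule.add_mem _ ?_
        (Submodule.smul_mem _ _ ?_)))
      · exact Submodule.mem_sup_left (img_mul_r D hi x)
      · exact Submodule.mem_sup_left (p1 D B γ (gen_mem D B C _ _))
      · exact Submodule.mem_sup_right (Submodule.mem_span_singleton_self _)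
  | succ s ih =>
    have e : s + 1 + 2 = (s + 2) + 1 := by ring
    rw [e]
    apply W_le_s
    intro x m hm
    obtain ⟨i, hi, z, hz, rfl⟩ := Submodule.mem_sup.1 (ih hm)
    obtain ⟨a, rfl⟩ := Submodule.mem_span_singleton.1 hz
    rw [mul_add, mul_smul_comm, l_split D B x (gen D B C _ _), gen_l]
    refine Submodule.add_mem _ ?_ (Submodule.smul_mem _ _ (Submodule.add_mem _ ?_
      (Submodule.smul_mem _ _ ?_)))
    · exact Submodule.mem_sup_left (img_mul_l D hi x)
    · exact Submodule.mem_sup_left (img_mem D (sub_g B x) (gen_mem D B C _ _))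
    · exact Submodule.mem_sup_right (Submodule.mem_span_singleton_self _)

/-- (C) -/
lemma exists_h1 {p q : Fin 3 → k} (B : Bas p) (hr : Rel p q) :
    ∃ h ∈ D.What p 1 1, h ∉ D.W 1 1 := by
  obtain ⟨γ, hγ, hγp⟩ := exists_ker hr
  have hrel := relB D B γ
  rw [hγp, map_zero, mul_zero, add_zero] at hrel
  have hv := v_ne D B
  have hw := w_ne D B
  set α := tg γ B.v' with hα
  set β := tg γ B.w' with hβ
  set h0 : K := D.r α / D.l B.w with hh0
  have ew : D.l B.w * h0 = D.r α := by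
    rw [hh0]; field_simp
  have ev : D.l B.v * h0 = -D.r β := by
    rw [hh0]; field_simp
    linear_combination hrel
  have hne : h0 ≠ 0 := by
    intro h
    rw [h, mul_zero] at ew ev
    have a0 : α = 0 := r_inj D ew.symm
    have b0 : β = 0 := by
      apply r_inj D
      rw [← neg_eq_zero, ← ev]
    apply hγ
    apply tg_inj
    intro u
    rw [B.eu u, tg_add, tg_add, tg_smul, tg_smul, tg_smul, ← hα, ← hβ, a0, b0, hγp]
    simp
  have hx : ∀ x : Fin 3 → k, x ⬝ᵥ p = 0 → D.l x * h0 ∈ D.V' := by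
    intro x hx
    rw [l_ex0 D B hx, add_mul, smul_mul_assoc, smul_mul_assoc, ew, ev]
    exact Submodule.add_mem _ (Submodule.smul_mem _ _ (Submodule.neg_mem _ (r_mem D _)))
      (Submodule.smul_mem _ _ (r_mem D _))
  by_contra hcon
  push Not at hcon
  have hV2 : ∀ m ∈ D.V ^ 2, h0 * m ∈ D.W 1 1 := by
    intro m hm
    apply hcon
    intro x hxp
    rw [← mul_assoc, mul_comm]
    unfold W
    exact Submodule.mul_mem_mul hm (by rw [pow_one]; exact hx x hxp)
  have hV1 : ∀ y, h0 * D.l y ∈ D.V' := by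
    intro y
    rw [← W01]
    apply D.sat_s 0 1 le_rfl
    intro x
    have : D.l x * (h0 * D.l y) = h0 * (D.l x * D.l y) := by ring
    rw [this]
    apply hV2
    rw [pow_two]
    exact Submodule.mul_mem_mul (l_mem D x) (l_mem D y)
  have h1 := hV1 ![1, 0, 0]
  rw [l_e0, mul_one] at h1
  have h2 := hV1 ![0, 0, 1]
  rw [l_e2] at h2
  have h3 := D.low h0 h1 hne
  have h4 := v_V' D h2
  rw [map_mul, D.vY] at h4
  have h5 : (WithZero.exp 1 : ℤᵐ⁰) ≤ D.v h0 * WithZero.exp 3 := by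
    have : (WithZero.exp 1 : ℤᵐ⁰) = WithZero.exp (-2) * WithZero.exp 3 := by
      rw [← WithZero.exp_add]; norm_num
    rw [this]
    exact mul_le_mul_left h3 _
  have h6 := h5.trans h4
  rw [← WithZero.exp_zero, WithZero.exp_le_exp] at h6
  norm_num at h6

/-- (D) -/
lemma inj_l {p : Fin 3 → k} (B : Bas p) {s t : ℕ} (ht : 1 ≤ t) {h : K}
    (hh : h ∈ D.What p s t) (hg : D.l B.g * h ∈ D.W (s + 1) t) : h ∈ D.W s t := by
  apply D.sat_s s t ht
  intro x
  rw [l_split D B x]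
  exact Submodule.add_mem _ (hh _ (sub_g B x)) (Submodule.smul_mem _ _ hg)

/-- (D) -/
lemma inj_r {p q : Fin 3 → k} (B : Bas p) (C : Bas q) (hr : Rel p q) {s t : ℕ} (hs : 1 ≤ s) {h : K}
    (hh : h ∈ D.What p s t) (hg : D.r C.g * h ∈ D.W s (t + 1)) : h ∈ D.W s t := by
  apply D.sat_t s t hs
  intro x
  rw [r_split D C x]
  obtain ⟨γ, hγ⟩ := perp_span hr _ (sub_g C x)
  rw [← hγ]
  exact Submodule.add_mem _ (hat_nu D B γ hh) (Submodule.smul_mem _ _ hg)

/-- the generator of `What / W` -/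
noncomputable def gen' {p q : Fin 3 → k} (B : Bas p) (C : Bas q) (h1 : K) (s t : ℕ) : K :=
  gen D B C (s - 1) (t - 1) * h1

omit [CharZero k] in
lemma gen'_l {p q : Fin 3 → k} (B : Bas p) (C : Bas q) (h1 : K) {s t : ℕ} (hs : 1 ≤ s) :
    D.l B.g * gen' D B C h1 s t = gen' D B C h1 (s + 1) t := by
  obtain ⟨s, rfl⟩ : ∃ s', s = s' + 1 := ⟨s - 1, by omega⟩
  unfold gen'
  rw [← mul_assoc, gen_l]
  rfl

omit [CharZero k] in
lemma gen'_r {p q : Fin 3 → k} (B : Bas p) (C : Bas q) (h1 : K) {s t : ℕ} (ht : 1 ≤ t) :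
    D.r C.g * gen' D B C h1 s t = gen' D B C h1 s (t + 1) := by
  obtain ⟨t, rfl⟩ : ∃ t', t = t' + 1 := ⟨t - 1, by omega⟩
  unfold gen'
  rw [← mul_assoc, gen_r]
  rfl

lemma gen'_spec {p q : Fin 3 → k} (B : Bas p) (C : Bas q) (hr : Rel p q) {h1 : K}
    (hm : h1 ∈ D.What p 1 1) (hn : h1 ∉ D.W 1 1) (s t : ℕ) (hs : 1 ≤ s) (ht : 1 ≤ t) :
    gen' D B C h1 s t ∈ D.What p s t ∧ gen' D B C h1 s t ∉ D.W s t := by
  induction s, hs using Nat.le_induction with
  | base =>
    induction t, ht using Nat.le_induction with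
    | base =>
      have e : gen' D B C h1 1 1 = h1 := by
        unfold gen' gen
        simp
      rw [e]
      exact ⟨hm, hn⟩
    | succ t ht ih =>
      rw [← gen'_r D B C h1 ht]
      exact ⟨hat_mul_r D ih.1 _, fun h => ih.2 (inj_r D B C hr le_rfl ih.1 h)⟩
  | succ s hs ih =>
    rw [← gen'_l D B C h1 hs]
    exact ⟨hat_mul_l D ih.1 _, fun h => ih.2 (inj_l D B ht ih.1 h)⟩

/-- dimensions -/
lemma dims {p q : Fin 3 → k} (B : Bas p) (C : Bas q) (hr : Rel p q) {h1 : K}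
    (hm : h1 ∈ D.What p 1 1) (hn : h1 ∉ D.W 1 1) (s t : ℕ) (hs : 1 ≤ s) (ht : 1 ≤ t) :
    D.What p s t ≤ D.W s t ⊔ Submodule.span k {gen' D B C h1 s t} ∧
      gen D B C (s + 2) t ∉ D.Img p s t := by
  have hA := dim_A D B s t
  have hR := D.rank_s s t hs ht
  have i1 := W_fin D s t
  have i2 := W_fin D (s + 2) t
  have i3 := hat_fin D B s t
  have i4 := img_fin D B s t
  obtain ⟨g1, g2⟩ := gen'_spec D B C hr hm hn s t hs ht
  set a := gen' D B C h1 s t with ha
  have i5 : FiniteDimensional k (Submodule.span k {a}) := inferInstance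
  have i6 : FiniteDimensional k (D.W s t ⊔ Submodule.span k {a} : Submodule k K) := inferInstance
  have i7 : FiniteDimensional k (D.Img p s t ⊔ Submodule.span k {gen D B C (s + 2) t} :
    Submodule k K) := inferInstance
  -- upper bound
  have hB := Submodule.finrank_mono (gen_span D B C hr s t)
  have hB2 := Submodule.finrank_add_le_finrank_add_finrank (D.Img p s t)
    (Submodule.span k {gen D B C (s + 2) t})
  have hB3 : Module.finrank k (Submodule.span k {gen D B C (s + 2) t}) ≤ 1 :=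
    (finrank_span_le_card _).trans (by simp)
  -- lower bound
  have hlt : D.W s t < D.W s t ⊔ Submodule.span k {a} := by
    refine lt_of_le_of_ne le_sup_left ?_
    intro h
    apply g2
    rw [h]
    exact Submodule.mem_sup_right (Submodule.mem_span_singleton_self a)
  have hL := Submodule.finrank_lt_finrank_of_lt hlt
  have hle : D.W s t ⊔ Submodule.span k {a} ≤ D.What p s t := by
    apply sup_le (W_le_hat D p s t)
    rw [Submodule.span_le, Set.singleton_subset_iff]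
    exact g1
  have hL2 := Submodule.finrank_mono hle
  constructor
  · have := Submodule.eq_of_le_of_finrank_le hle (by omega)
    rw [this]
  · intro hmem
    have h3 : D.Img p s t ⊔ Submodule.span k {gen D B C (s + 2) t} = D.Img p s t := by
      rw [sup_eq_left, Submodule.span_le, Set.singleton_subset_iff]
      exact hmem
    rw [h3] at hB
    omega

/-! ### Functionals -/

omit [CharZero k] in
/-- a linear functional killing `N0` with value one at `c` -/
lemma exists_fun (N0 : Submodule k K) (c : K) (hc : c ∉ N0) :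
    ∃ φ : K →ₗ[k] k, (∀ x ∈ N0, φ x = 0) ∧ φ c = 1 := by
  obtain ⟨f, hf, hle⟩ := Submodule.exists_le_ker_of_notMem hc
  refine ⟨(f c)⁻¹ • f, ?_, ?_⟩
  · intro x hx
    have : f x = 0 := hle hx
    rw [LinearMap.smul_apply, this, smul_zero]
  · rw [LinearMap.smul_apply, smul_eq_mul, inv_mul_cancel₀ hf]

omit [CharZero k] in
lemma isFun_of {p q : Fin 3 → k} (B : Bas p) (C : Bas q) (N N0 : ℕ → ℕ → Submodule k K)
    (c : ℕ → ℕ → K)
    (hc : ∀ s t, 1 ≤ s → 1 ≤ t → c s t ∈ N s t)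
    (hspan : ∀ s t, 1 ≤ s → 1 ≤ t → N s t ≤ N0 s t ⊔ Submodule.span k {c s t})
    (hn : ∀ s t, 1 ≤ s → 1 ≤ t → c s t ∉ N0 s t)
    (cl : ∀ s t, 1 ≤ s → 1 ≤ t → D.l B.g * c s t = c (s + 1) t)
    (cr : ∀ s t, 1 ≤ s → 1 ≤ t → D.r C.g * c s t = c s (t + 1))
    (nl : ∀ s t, 1 ≤ s → 1 ≤ t → ∀ h ∈ N s t, ∀ x, x ⬝ᵥ p = 0 → D.l x * h ∈ N0 (s + 1) t)
    (nr : ∀ s t, 1 ≤ s → 1 ≤ t → ∀ h ∈ N s t, ∀ x, x ⬝ᵥ q = 0 → D.r x * h ∈ N0 s (t + 1))
    (ml : ∀ s t, 1 ≤ s → 1 ≤ t → ∀ h ∈ N0 s t, ∀ x, D.l x * h ∈ N0 (s + 1) t)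
    (mr : ∀ s t, 1 ≤ s → 1 ≤ t → ∀ h ∈ N0 s t, ∀ x, D.r x * h ∈ N0 s (t + 1)) :
    D.IsFun p q N N0 := by
  have hex : ∀ s t, ∃ φ : K →ₗ[k] k, 1 ≤ s → 1 ≤ t → (∀ x ∈ N0 s t, φ x = 0) ∧ φ (c s t) = 1 := by
    intro s t
    by_cases h : 1 ≤ s ∧ 1 ≤ t
    · obtain ⟨φ, h1, h2⟩ := exists_fun (N0 s t) (c s t) (hn s t h.1 h.2)
      exact ⟨φ, fun _ _ => ⟨h1, h2⟩⟩
    · exact ⟨0, fun h1 h2 => absurd ⟨h1, h2⟩ h⟩
  choose φ hφ using hex
  refine ⟨φ, ?_⟩
  intro s t hs _ ht _
  obtain ⟨f1, f2⟩ := hφ s t hs ht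
  refine ⟨?_, ⟨c s t, hc s t hs ht, f2⟩, ?_, ?_⟩
  · intro h hh
    constructor
    · intro h0
      obtain ⟨i, hi, z, hz, rfl⟩ := Submodule.mem_sup.1 (hspan s t hs ht hh)
      obtain ⟨a, rfl⟩ := Submodule.mem_span_singleton.1 hz
      rw [map_add, map_smul, f1 i hi, f2, zero_add, smul_eq_mul, mul_one] at h0
      rw [h0, zero_smul, add_zero]
      exact hi
    · exact f1 h
  · intro _ x h hh
    obtain ⟨g1, g2⟩ := hφ (s + 1) t (by omega) ht
    obtain ⟨i, hi, z, hz, rfl⟩ := Submodule.mem_sup.1 (hspan s t hs ht hh)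
    obtain ⟨a, rfl⟩ := Submodule.mem_span_singleton.1 hz
    rw [mul_add, mul_smul_comm, map_add, map_smul, g1 _ (ml s t hs ht i hi x),
      l_split D B x (c s t), map_add, g1 _ (nl s t hs ht _ (hc s t hs ht) _ (sub_g B x)),
      map_smul, cl s t hs ht, g2, map_add, map_smul, f1 i hi, f2]
    simp only [smul_eq_mul]
    ring
  · intro _ x h hh
    obtain ⟨g1, g2⟩ := hφ s (t + 1) hs (by omega)
    obtain ⟨i, hi, z, hz, rfl⟩ := Submodule.mem_sup.1 (hspan s t hs ht hh)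
    obtain ⟨a, rfl⟩ := Submodule.mem_span_singleton.1 hz
    rw [mul_add, mul_smul_comm, map_add, map_smul, g1 _ (mr s t hs ht i hi x),
      r_split D C x (c s t), map_add, g1 _ (nr s t hs ht _ (hc s t hs ht) _ (sub_g C x)),
      map_smul, cr s t hs ht, g2, map_add, map_smul, f1 i hi, f2]
    simp only [smul_eq_mul]
    ring

end Kz

open Kz

theorem koszul_rel (p q : Fin 3 → k) (h : Rel p q) :
    D.IsFun p q (D.What p) D.W ∧ D.IsFun p q (fun s t => D.W (s + 2) t) (D.Img p) := by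
  obtain ⟨B⟩ := exists_bas p h.1
  obtain ⟨C⟩ := exists_bas q h.2.1
  obtain ⟨h1, hm, hn⟩ := exists_h1 D B h
  constructor
  · refine isFun_of D B C _ _ (gen' D B C h1) ?_ ?_ ?_ ?_ ?_ ?_ ?_ ?_ ?_
    · intro s t hs ht
      exact (gen'_spec D B C h hm hn s t hs ht).1
    · intro s t hs ht
      exact (dims D B C h hm hn s t hs ht).1
    · intro s t hs ht
      exact (gen'_spec D B C h hm hn s t hs ht).2
    · intro s t hs _
      exact gen'_l D B C h1 hs
    · intro s t _ ht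
      exact gen'_r D B C h1 ht
    · intro s t _ _ m hm x hx
      exact hm x hx
    · intro s t _ _ m hm x hx
      obtain ⟨γ, hγ⟩ := perp_span h x hx
      rw [← hγ]
      exact hat_nu D B γ hm
    · intro s t _ _ m hm x
      exact mul_l D hm x
    · intro s t _ _ m hm x
      exact mul_r D hm x
  · refine isFun_of D B C _ _ (fun s t => gen D B C (s + 2) t) ?_ ?_ ?_ ?_ ?_ ?_ ?_ ?_ ?_
    · intro s t _ _
      exact gen_mem D B C _ _
    · intro s t _ _
      exact gen_span D B C h s t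
    · intro s t hs ht
      exact (dims D B C h hm hn s t hs ht).2
    · intro s t _ _
      exact gen_l D B C _ _
    · intro s t _ _
      exact gen_r D B C _ _
    · intro s t _ _ m hm x hx
      exact img_mem D hx hm
    · intro s t _ _ m hm x hx
      obtain ⟨γ, hγ⟩ := perp_span h x hx
      rw [← hγ]
      exact p1 D B γ hm
    · intro s t _ _ m hm x
      exact img_mul_l D hm x
    · intro s t _ _ m hm x
      exact img_mul_r D hm x

theorem koszul (p : Fin 3 → k) (hp : p ≠ 0) :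
    ((∀ q, ¬ Rel p q) ∧
      ∀ s t, 1 ≤ s → 1 ≤ t → D.What p s t ≤ D.W s t ∧ D.W (s + 2) t ≤ D.Img p s t) ∨
    ∃ q, Rel p q := by
  rcases alt p hp with h | h
  · left
    obtain ⟨B⟩ := exists_bas p hp
    exact ⟨not_rel h, fun s t hs ht => rank3 D B h s t hs ht⟩
  · exact Or.inr h

namespace Kz

/-! ### Exchange of the two sides -/

omit [CharZero k] in
lemma sg_dot (x y : Fin 3 → k) : sg x ⬝ᵥ sg y = x ⬝ᵥ y := by
  rw [dot3, dot3]
  simp [sg]

omit [CharZero k] in
lemma sg_ne {p : Fin 3 → k} (hp : p ≠ 0) : sg p ≠ 0 := by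
  intro h
  apply hp
  rw [← sg_sg p, h]
  apply ext3 <;> simp [sg]

omit [CharZero k] in
lemma swap_V : D.swap.V = D.V' := by
  ext h
  constructor
  · rintro ⟨x, rfl⟩
    rw [swap_l]
    exact ⟨_, rfl⟩
  · rintro ⟨x, rfl⟩
    refine ⟨sg x, ?_⟩
    rw [swap_l, sg_sg]

omit [CharZero k] in
lemma swap_V' : D.swap.V' = D.V := by
  ext h
  constructor
  · rintro ⟨x, rfl⟩
    rw [swap_r]
    exact ⟨_, rfl⟩
  · rintro ⟨x, rfl⟩
    refine ⟨sg x, ?_⟩
    rw [swap_r, sg_sg]

omit [CharZero k] in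
lemma swap_W (s t : ℕ) : D.swap.W s t = D.W t s := by
  unfold W
  rw [swap_V, swap_V', mul_comm]

omit [CharZero k] in
lemma swap_hat (p : Fin 3 → k) (s t : ℕ) : D.swap.What (sg p) s t = D.What' p t s := by
  ext h
  constructor
  · intro hh x hx
    have := hh (sg x) (by rw [sg_dot]; exact hx)
    rw [swap_l, sg_sg, swap_W] at this
    exact this
  · intro hh x hx
    rw [swap_l, swap_W]
    apply hh
    rw [← sg_dot, sg_sg]
    exact hx

omit [CharZero k] in
lemma swap_img (p : Fin 3 → k) (s t : ℕ) : D.swap.Img (sg p) s t = D.Img' p t s := by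
  apply le_antisymm
  · unfold Img Img'
    rw [Submodule.span_le]
    rintro _ ⟨x, h, hx, hh, rfl⟩
    rw [swap_W] at hh
    refine Submodule.subset_span ⟨sg x, h, ?_, hh, ?_⟩
    · rw [← sg_dot, sg_sg]
      exact hx
    · rw [swap_l]
  · unfold Img Img'
    rw [Submodule.span_le]
    rintro _ ⟨x, h, hx, hh, rfl⟩
    rw [← swap_W] at hh
    refine Submodule.subset_span ⟨sg x, h, ?_, hh, ?_⟩
    · rw [sg_dot]
      exact hx
    · rw [swap_l, sg_sg]

omit [CharZero k] in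
lemma rel_sg (p u : Fin 3 → k) : Rel (sg p) (sg u) ↔ Rel u p := by
  have e1 : Th1 (sg p) (sg u) = -Th2 u p := by
    simp [Th1, Th2, sg]; ring
  have e2 : Th2 (sg p) (sg u) = -Th1 u p := by
    simp [Th1, Th2, sg]; ring
  have e3 : Th3 (sg p) (sg u) = Th3 u p := by
    simp [Th3, sg]; ring
  unfold Rel
  rw [e1, e2, e3, neg_eq_zero, neg_eq_zero]
  constructor
  · rintro ⟨h1, h2, h3, h4, h5⟩
    refine ⟨?_, ?_, h4, h3, h5⟩
    · rintro rfl
      apply h2
      apply ext3 <;> simp [sg]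
    · rintro rfl
      apply h1
      apply ext3 <;> simp [sg]
  · rintro ⟨h1, h2, h3, h4, h5⟩
    exact ⟨sg_ne h2, sg_ne h1, h4, h3, h5⟩

omit [CharZero k] in
lemma isFun_swap {a b : Fin 3 → k} {N N0 M M0 : ℕ → ℕ → Submodule k K}
    (h : D.swap.IsFun (sg b) (sg a) N N0) (e : ∀ s t, N t s = M s t)
    (e0 : ∀ s t, N0 t s = M0 s t) : D.IsFun a b M M0 := by
  obtain ⟨φ, hφ⟩ := h
  refine ⟨fun s t => φ t s, ?_⟩
  intro s t hs hs3 ht ht3
  obtain ⟨f1, f2, f3, f4⟩ := hφ t s ht ht3 hs hs3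
  rw [e, e0] at f1
  rw [e] at f2 f3 f4
  refine ⟨f1, f2, ?_, ?_⟩
  · intro hlt x m hm
    have := f4 hlt (sg x) m hm
    rw [swap_r, sg_sg, sg_dot] at this
    exact this
  · intro hlt x m hm
    have := f3 hlt (sg x) m hm
    rw [swap_l, sg_sg, sg_dot] at this
    exact this

end Kz

theorem koszul_rel' (u p : Fin 3 → k) (h : Rel u p) :
    D.IsFun u p (D.What' p) D.W ∧ D.IsFun u p (fun s t => D.W s (t + 2)) (D.Img' p) := by
  obtain ⟨h1, h2⟩ := koszul_rel D.swap (sg p) (sg u) ((rel_sg p u).2 h)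
  constructor
  · exact isFun_swap D h1 (fun s t => swap_hat D p t s) (fun s t => swap_W D t s)
  · exact isFun_swap D h2 (fun s t => swap_W D (t + 2) s) (fun s t => swap_img D p t s)

theorem koszul' (p : Fin 3 → k) (hp : p ≠ 0) :
    ((∀ u, ¬ Rel u p) ∧
      ∀ s t, 1 ≤ s → 1 ≤ t → D.What' p s t ≤ D.W s t ∧ D.W s (t + 2) ≤ D.Img' p s t) ∨
    ∃ u, Rel u p := by
  rcases koszul D.swap (sg p) (sg_ne hp) with ⟨h1, h2⟩ | ⟨q, hq⟩
  · left
    refine ⟨fun u hu => h1 (sg u) ((rel_sg p u).2 hu), ?_⟩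
    intro s t hs ht
    have h3 := h2 t s ht hs
    rw [swap_hat, swap_W, swap_W, swap_img] at h3
    exact h3
  · right
    refine ⟨sg q, ?_⟩
    rw [← rel_sg, sg_sg]
    exact hq

end Datum

end Pool.Agent.N10.Han
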