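import Pool.Agent.N10.Han.Bim
import Pool.Agent.N10.Han.Koszul

/-!
# Vanishing of the Hochschild cohomology of the dual of the bimodule `M`
-/

open scoped WithZero
open Matrix

namespace Pool.Agent.N10.Han

namespace VM

open Bi

section general

variable {k A : Type} [Field k] [Ring A] [Algebra k A]

lemma bhom_ext {Y Z : Bi k A} {φ ψ : BHom Y Z} (h : ∀ y, φ.f y = ψ.f y) : φ = ψ := by
  have h' : φ.f = ψ.f := LinearMap.ext h
  cases φ
  cases ψ
  cases h'
  rfl

lemma van_of_zero {Y : Bi k A} (h : ∀ y : Y.C, y = 0) (n : ℕ) : Van n Y := by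
  have h1 : ∀ n, ∀ y : (Tn n Y).C, y = 0 := by
    intro n
    induction n with
    | zero => exact h
    | succ n ih =>
      intro y
      apply (Tn n Y).T_ext
      intro x
      exact ih _
  intro z _
  rw [h1 n z]
  exact Submodule.zero_mem _

/-- The zero bimodule. -/
noncomputable def zeroBi (k A : Type) [Field k] [Ring A] [Algebra k A] : Bi k A where
  C := PUnit
  l := 0
  r := 0
  l_mul := by intros; rfl
  r_mul := by intros; rfl
  comm := by intros; rfl

lemma van_of_bij {Y Z : Bi k A} (φ : BHom Y Z) (h : Function.Bijective φ.f)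
    (hY : ∀ n, Van n Y) (n : ℕ) : Van n Z := by
  let S : Ses Y Z (zeroBi k A) :=
    { i := φ
      p := { f := 0, hl := by intros; rfl, hr := by intros; rfl }
      inj := h.1
      surj := fun y => ⟨0, rfl⟩
      zero := fun y => rfl
      exact := fun y _ => h.2 y }
  exact S.van_mid n (hY n) (van_of_zero (fun y => rfl) n)

lemma dual_bij {Y Z : Bi k A} (φ : BHom Y Z) (h : Function.Bijective φ.f) :
    Function.Bijective φ.dual.f := by
  let S : Ses Y Z (zeroBi k A) :=
    { i := φ
      p := { f := 0, hl := by intros; rfl, hr := by intros; rfl }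
      inj := h.1
      surj := fun y => ⟨0, rfl⟩
      zero := fun y => rfl
      exact := fun y _ => h.2 y }
  refine ⟨?_, S.dual.surj⟩
  intro f g hfg
  apply LinearMap.ext
  intro x
  obtain ⟨y, rfl⟩ := h.2 x
  exact LinearMap.congr_fun hfg y

/-- Quotient of a bimodule. -/
noncomputable def quo (Y : Bi k A) (N : Submodule k Y.C) (hl : ∀ a, ∀ y ∈ N, Y.l a y ∈ N)
    (hr : ∀ a, ∀ y ∈ N, Y.r a y ∈ N) : Bi k A where
  C := Y.C ⧸ N
  l :=
    { toFun := fun a => N.mapQ N (Y.l a) (hl a)
      map_add' := by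
        intro a b
        apply Submodule.linearMap_qext
        ext y
        simp
      map_smul' := by
        intro c a
        apply Submodule.linearMap_qext
        ext y
        simp }
  r :=
    { toFun := fun a => N.mapQ N (Y.r a) (hr a)
      map_add' := by
        intro a b
        apply Submodule.linearMap_qext
        ext y
        simp
      map_smul' := by
        intro c a
        apply Submodule.linearMap_qext
        ext y
        simp }
  l_mul := by
    intro a b y
    obtain ⟨y, rfl⟩ := N.mkQ_surjective y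
    simp [Y.l_mul]
  r_mul := by
    intro a b y
    obtain ⟨y, rfl⟩ := N.mkQ_surjective y
    simp [Y.r_mul]
  comm := by
    intro a b y
    obtain ⟨y, rfl⟩ := N.mkQ_surjective y
    simp [Y.comm]

/-- Map induced on quotients. -/
noncomputable def quoMap {Y Z : Bi k A} (φ : BHom Y Z) {N : Submodule k Y.C}
    {hl : ∀ a, ∀ y ∈ N, Y.l a y ∈ N} {hr : ∀ a, ∀ y ∈ N, Y.r a y ∈ N} {N' : Submodule k Z.C}
    {hl' : ∀ a, ∀ y ∈ N', Z.l a y ∈ N'} {hr' : ∀ a, ∀ y ∈ N', Z.r a y ∈ N'}
    (h : ∀ y ∈ N, φ.f y ∈ N') : BHom (quo Y N hl hr) (quo Z N' hl' hr') where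
  f := N.mapQ N' φ.f h
  hl := by
    intro a y
    obtain ⟨y, rfl⟩ := N.mkQ_surjective y
    change N'.mkQ (φ.f (Y.l a y)) = N'.mkQ (Z.l a (φ.f y))
    rw [φ.hl]
  hr := by
    intro a y
    obtain ⟨y, rfl⟩ := N.mkQ_surjective y
    change N'.mkQ (φ.f (Y.r a y)) = N'.mkQ (Z.r a (φ.f y))
    rw [φ.hr]

/-- The identity. -/
noncomputable def idB (Y : Bi k A) : BHom Y Y where
  f := LinearMap.id
  hl := by intros; rfl
  hr := by intros; rfl

/-- The exact sequence of quotients. -/
noncomputable def quoSes {Y Z : Bi k A} (φ : BHom Y Z) {N : Submodule k Y.C}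
    {hl : ∀ a, ∀ y ∈ N, Y.l a y ∈ N} {hr : ∀ a, ∀ y ∈ N, Y.r a y ∈ N} {N' : Submodule k Z.C}
    {hl' : ∀ a, ∀ y ∈ N', Z.l a y ∈ N'} {hr' : ∀ a, ∀ y ∈ N', Z.r a y ∈ N'}
    {N'' : Submodule k Z.C}
    {hl'' : ∀ a, ∀ y ∈ N'', Z.l a y ∈ N''} {hr'' : ∀ a, ∀ y ∈ N'', Z.r a y ∈ N''}
    (h : ∀ y, φ.f y ∈ N' ↔ y ∈ N) (h' : ∀ y ∈ N', y ∈ N'') (h'' : ∀ y, φ.f y ∈ N'')
    (h3 : ∀ z ∈ N'', ∃ y, ∃ n ∈ N', z = φ.f y + n) :
    Ses (quo Y N hl hr) (quo Z N' hl' hr') (quo Z N'' hl'' hr'') where
  i := quoMap φ (fun y hy => (h y).mpr hy)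
  p := quoMap (idB Z) h'
  inj := by
    intro x y hxy
    obtain ⟨x, rfl⟩ := N.mkQ_surjective x
    obtain ⟨y, rfl⟩ := N.mkQ_surjective y
    have h1 : N'.mkQ (φ.f x) = N'.mkQ (φ.f y) := hxy
    rw [← sub_eq_zero, ← map_sub, ← map_sub, Submodule.mkQ_apply,
      Submodule.Quotient.mk_eq_zero, h] at h1
    exact (Submodule.Quotient.eq N).mpr h1
  surj := by
    intro y
    obtain ⟨y, rfl⟩ := N''.mkQ_surjective y
    exact ⟨N'.mkQ y, rfl⟩
  zero := by
    intro y
    obtain ⟨y, rfl⟩ := N.mkQ_surjective y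
    exact (Submodule.Quotient.mk_eq_zero N'').mpr (h'' y)
  exact := by
    intro z hz
    obtain ⟨z, rfl⟩ := N'.mkQ_surjective z
    have h1 : z ∈ N'' := (Submodule.Quotient.mk_eq_zero N'').mp hz
    obtain ⟨y, n, hn, rfl⟩ := h3 z h1
    refine ⟨N.mkQ y, ?_⟩
    change N'.mkQ (φ.f y) = N'.mkQ (φ.f y + n)
    rw [map_add]
    have h2 : N'.mkQ n = 0 := (Submodule.Quotient.mk_eq_zero N').mpr hn
    rw [h2, add_zero]

end general

variable {k K : Type} [Field k] [Field K] [Algebra k K] {D : Datum k K}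

/-! ### Families -/

/-- Shift of a family. -/
def shift (F : Fam D) : Fam D where
  N s t := F.N (s + 1) t
  hl v s t h hh := F.hl v (s + 1) t h hh
  hr v s t h hh := F.hr v (s + 1) t h hh

/-- Multiple of a family. -/
noncomputable def mulF (c : K) (F : Fam D) : Fam D where
  N s t := (F.N s t).map (LinearMap.mulLeft k c)
  hl := by
    rintro v s t _ ⟨y, hy, rfl⟩
    refine ⟨D.l v * y, F.hl v s t y hy, ?_⟩
    simp only [LinearMap.mulLeft_apply]
    ring
  hr := by
    rintro v s t _ ⟨y, hy, rfl⟩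
    refine ⟨D.r v * y, F.hr v s t y hy, ?_⟩
    simp only [LinearMap.mulLeft_apply]
    ring

lemma mem_mulF {c : K} {F : Fam D} {s t : ℕ} {x : K} :
    x ∈ (mulF c F).N s t ↔ ∃ y ∈ F.N s t, x = c * y := by
  constructor
  · rintro ⟨y, hy, rfl⟩
    exact ⟨y, hy, rfl⟩
  · rintro ⟨y, hy, rfl⟩
    exact ⟨y, hy, rfl⟩

variable (D) in
/-- The zero family. -/
def botF : Fam D where
  N _ _ := ⊥
  hl v s t h hh := by
    rw [Submodule.mem_bot] at hh ⊢
    rw [hh, mul_zero]
  hr v s t h hh := by
    rw [Submodule.mem_bot] at hh ⊢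
    rw [hh, mul_zero]

variable (D) in
/-- The family `What p`. -/
noncomputable def hatF (p : Fin 3 → k) : Fam D where
  N := D.What p
  hl := by
    intro v s t h hh w hw
    rw [mul_left_comm]
    exact (famW D).hl v (s + 1) t _ (hh w hw)
  hr := by
    intro v s t h hh w hw
    rw [mul_left_comm]
    exact (famW D).hr v (s + 1) t _ (hh w hw)

variable (D) in
/-- The family `Img p`. -/
noncomputable def imgF (p : Fin 3 → k) : Fam D where
  N := D.Img p
  hl := by
    intro v s t h hh
    change _ ∈ Submodule.span k _ at hh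
    induction hh using Submodule.span_induction with
    | mem x hx =>
      obtain ⟨w, y, hw, hy, rfl⟩ := hx
      rw [mul_left_comm]
      exact Submodule.subset_span ⟨w, _, hw, (famW D).hl v (s + 1) t _ hy, rfl⟩
    | zero => rw [mul_zero]; exact Submodule.zero_mem _
    | add x y _ _ hx hy => rw [mul_add]; exact Submodule.add_mem _ hx hy
    | smul c x _ hx => rw [mul_smul_comm]; exact Submodule.smul_mem _ c hx
  hr := by
    intro v s t h hh
    change _ ∈ Submodule.span k _ at hh
    induction hh using Submodule.span_induction with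
    | mem x hx =>
      obtain ⟨w, y, hw, hy, rfl⟩ := hx
      rw [mul_left_comm]
      exact Submodule.subset_span ⟨w, _, hw, (famW D).hr v (s + 1) t _ hy, rfl⟩
    | zero => rw [mul_zero]; exact Submodule.zero_mem _
    | add x y _ _ hx hy => rw [mul_add]; exact Submodule.add_mem _ hx hy
    | smul c x _ hx => rw [mul_smul_comm]; exact Submodule.smul_mem _ c hx

/-- The sub-bimodule of matrices with entries in `G`. -/
noncomputable def subm (F G : Fam D) : Submodule k F.bi.C := G.mat.comap F.mat.subtype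

lemma mem_subm {F G : Fam D} {m : F.bi.C} :
    m ∈ subm F G ↔ ∀ a b : Fin 3, (show F.mat from m).1 a b ∈ G.N (3 - (a : ℕ)) (1 + (b : ℕ)) :=
  Iff.rfl

/-- The quotient bimodule. -/
noncomputable def Q (F G : Fam D) : Bi k (AA D) :=
  quo F.bi (subm F G) (fun a _ hm => G.lM_mul_mem a hm) (fun a _ hm => G.mul_rM_mem a hm)

/-- Multiplication by `c`. -/
noncomputable def mulB (c : K) (F F' : Fam D)
    (h : ∀ s t, ∀ x ∈ F.N s t, c * x ∈ F'.N s t) : BHom F.bi F'.bi where
  f :=
    { toFun := fun m => (⟨c • (show F.mat from m).1, fun a b => h _ _ _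
        ((show F.mat from m).2 a b)⟩ : F'.mat)
      map_add' := by
        intro m n
        apply Subtype.ext
        exact smul_add c _ _
      map_smul' := by
        intro e m
        apply Subtype.ext
        exact smul_comm c e _ }
  hl := by
    intro a m
    apply Subtype.ext
    change c • (lM D a * (show F.mat from m).1) = lM D a * (c • (show F.mat from m).1)
    rw [Matrix.mul_smul]
  hr := by
    intro a m
    apply Subtype.ext
    change c • ((show F.mat from m).1 * rM D a) = (c • (show F.mat from m).1) * rM D a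
    rw [Matrix.smul_mul]

/-- Multiplication by `c` on quotients. -/
noncomputable def mulQ (c : K) (F G F' G' : Fam D)
    (h : ∀ s t, ∀ x ∈ F.N s t, c * x ∈ F'.N s t)
    (h' : ∀ s t, ∀ x ∈ G.N s t, c * x ∈ G'.N s t) : BHom (Q F G) (Q F' G') :=
  quoMap (mulB c F F' h) (fun _ hm a b => h' _ _ _ (hm a b))

/-- The exact sequence of quotients attached to multiplication by `c`. -/
noncomputable def mulSes (c : K) (F G F' G' F'' : Fam D)
    (h : ∀ s t, ∀ x ∈ F.N s t, c * x ∈ F'.N s t)
    (h1 : ∀ s t, ∀ x ∈ F.N s t, c * x ∈ G'.N s t ↔ x ∈ G.N s t)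
    (h2 : ∀ s t, ∀ x ∈ G'.N s t, x ∈ F''.N s t)
    (h3 : ∀ s t, ∀ x ∈ F.N s t, c * x ∈ F''.N s t)
    (h4 : ∀ s t, ∀ x ∈ F''.N s t, ∃ y ∈ F.N s t, ∃ z ∈ G'.N s t, x = c * y + z)
    (h5 : ∀ s t, ∀ x ∈ G'.N s t, x ∈ F'.N s t) :
    Ses (Q F G) (Q F' G') (Q F' F'') :=
  quoSes (mulB c F F' h)
    (by
      intro y
      constructor
      · intro hy a b
        exact (h1 _ _ _ ((show F.mat from y).2 a b)).mp (hy a b)
      · intro hy a b
        exact (h1 _ _ _ ((show F.mat from y).2 a b)).mpr (hy a b))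
    (fun y hy a b => h2 _ _ _ (hy a b))
    (fun y a b => h3 _ _ _ ((show F.mat from y).2 a b))
    (by
      intro z hz
      have hz' : ∀ a b : Fin 3, ∃ y ∈ F.N (3 - (a : ℕ)) (1 + (b : ℕ)),
          ∃ z' ∈ G'.N (3 - (a : ℕ)) (1 + (b : ℕ)), (show F'.mat from z).1 a b = c * y + z' :=
        fun a b => h4 _ _ _ (hz a b)
      choose y hy n hn e using hz'
      refine ⟨(⟨Matrix.of y, hy⟩ : F.mat), (⟨Matrix.of n, fun a b => h5 _ _ _ (hn a b)⟩ : F'.mat),
        hn, ?_⟩
      apply Subtype.ext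
      ext a b
      exact e a b)

lemma van_of_le (F G : Fam D) (h : ∀ s t, 1 ≤ s → 1 ≤ t → F.N s t ≤ G.N s t) (n : ℕ) :
    Van n (Q F G).dual := by
  apply van_of_zero
  intro f
  apply LinearMap.ext
  intro y
  obtain ⟨y, rfl⟩ := (subm F G).mkQ_surjective y
  have h1 : y ∈ subm F G := by
    intro a b
    have h2 : (a : ℕ) < 3 := a.2
    exact h _ _ (by omega) (by omega) ((show F.mat from y).2 a b)
  have h3 : (subm F G).mkQ y = 0 := (Submodule.Quotient.mk_eq_zero _).mpr h1
  rw [h3]
  exact LinearMap.map_zero (show (Q F G).C →ₗ[k] k from f)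

/-! ### Families of functionals -/

section functionals

variable {p q : Fin 3 → k} {φ : ℕ → ℕ → (K →ₗ[k] k)}

lemma phi_l (F : Fam D) (hφ : ∀ s t : ℕ, 1 ≤ s → s < 3 → 1 ≤ t → t ≤ 3 → ∀ v : Fin 3 → k,
      ∀ h ∈ F.N s t, φ (s + 1) t (D.l v * h) = (v ⬝ᵥ p) * φ s t h)
    {n : ℕ} {f : PS k} (hf : f ∈ P1 k ^ n) {s t : ℕ} (hs : 1 ≤ s) (hsn : s + n ≤ 3)
    (ht : 1 ≤ t) (ht' : t ≤ 3) {x : K} (hx : x ∈ F.N s t) :
    φ (s + n) t (D.lS f * x) = ev p f * φ s t x := by
  induction n generalizing f with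
  | zero =>
    rw [pow_zero, Submodule.mem_one] at hf
    obtain ⟨c, rfl⟩ := hf
    have e : D.lS (algebraMap k (PS k) c) * x = c • x := by
      rw [D.lS.commutes, Algebra.smul_def]
    rw [e, (ev p).commutes, map_smul, smul_eq_mul, Algebra.algebraMap_self, RingHom.id_apply,
      add_zero]
  | succ n ih =>
    rw [pow_succ'] at hf
    refine Submodule.mul_induction_on hf ?_ ?_
    · intro a ha b hb
      obtain ⟨v, rfl⟩ := exists_lin ha
      rw [map_mul D.lS, D.lS_lin, mul_assoc, map_mul (ev p), ev_lin, mul_assoc,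
        ← ih hb (by omega)]
      exact hφ (s + n) t (by omega) (by omega) ht ht' v _ (F.lS_mem hb hx)
    · intro a b ha hb
      rw [map_add, add_mul, map_add, ha, hb, map_add, add_mul]

lemma phi_r (F : Fam D) (hφ : ∀ s t : ℕ, 1 ≤ s → s ≤ 3 → 1 ≤ t → t < 3 → ∀ v : Fin 3 → k,
      ∀ h ∈ F.N s t, φ s (t + 1) (D.r v * h) = (v ⬝ᵥ q) * φ s t h)
    {n : ℕ} {f : PS k} (hf : f ∈ P1 k ^ n) {s t : ℕ} (hs : 1 ≤ s) (hs' : s ≤ 3)
    (ht : 1 ≤ t) (htn : t + n ≤ 3) {x : K} (hx : x ∈ F.N s t) :
    φ s (t + n) (D.rS f * x) = ev q f * φ s t x := by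
  induction n generalizing f with
  | zero =>
    rw [pow_zero, Submodule.mem_one] at hf
    obtain ⟨c, rfl⟩ := hf
    have e : D.rS (algebraMap k (PS k) c) * x = c • x := by
      rw [D.rS.commutes, Algebra.smul_def]
    rw [e, (ev q).commutes, map_smul, smul_eq_mul, Algebra.algebraMap_self, RingHom.id_apply,
      add_zero]
  | succ n ih =>
    rw [pow_succ'] at hf
    refine Submodule.mul_induction_on hf ?_ ?_
    · intro a ha b hb
      obtain ⟨v, rfl⟩ := exists_lin ha
      rw [map_mul D.rS, D.rS_lin, mul_assoc, map_mul (ev q), ev_lin, mul_assoc,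
        ← ih hb (by omega)]
      exact hφ s (t + n) hs hs' (by omega) (by omega) v _ (F.rS_mem hb hx)
    · intro a b ha hb
      rw [map_add, add_mul, map_add, ha, hb, map_add, add_mul]

lemma phi_l_PP (F : Fam D) (hφ : ∀ s t : ℕ, 1 ≤ s → s < 3 → 1 ≤ t → t ≤ 3 →
      ∀ v : Fin 3 → k, ∀ h ∈ F.N s t, φ (s + 1) t (D.l v * h) = (v ⬝ᵥ p) * φ s t h)
    {a b : Fin 3} {f : PS k} (hf : f ∈ PP k a b) {t : ℕ} (ht : 1 ≤ t) (ht' : t ≤ 3) {x : K}
    (hx : x ∈ F.N (3 - (b : ℕ)) t) :
    φ (3 - (a : ℕ)) t (D.lS f * x) = ev p f * φ (3 - (b : ℕ)) t x := by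
  unfold PP at hf
  by_cases h : a ≤ b
  · rw [if_pos h] at hf
    have h4 : (a : ℕ) ≤ (b : ℕ) := h
    have h5 : (b : ℕ) < 3 := b.2
    have h3 : 3 - (a : ℕ) = (3 - (b : ℕ)) + ((b : ℕ) - (a : ℕ)) := by omega
    rw [h3]
    exact phi_l F hφ hf (by omega) (by omega) ht ht' hx
  · rw [if_neg h, Submodule.mem_bot] at hf
    rw [hf, map_zero, zero_mul, map_zero, map_zero, zero_mul]

lemma phi_r_PP (F : Fam D) (hφ : ∀ s t : ℕ, 1 ≤ s → s ≤ 3 → 1 ≤ t → t < 3 →
      ∀ v : Fin 3 → k, ∀ h ∈ F.N s t, φ s (t + 1) (D.r v * h) = (v ⬝ᵥ q) * φ s t h)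
    {b c : Fin 3} {f : PS k} (hf : f ∈ PP k b c) {s : ℕ} (hs : 1 ≤ s) (hs' : s ≤ 3) {x : K}
    (hx : x ∈ F.N s (1 + (b : ℕ))) :
    φ s (1 + (c : ℕ)) (x * D.rS f) = ev q f * φ s (1 + (b : ℕ)) x := by
  unfold PP at hf
  by_cases h : b ≤ c
  · rw [if_pos h] at hf
    have h4 : (b : ℕ) ≤ (c : ℕ) := h
    have h5 : (c : ℕ) < 3 := c.2
    have h3 : 1 + (c : ℕ) = (1 + (b : ℕ)) + ((c : ℕ) - (b : ℕ)) := by omega
    rw [h3, mul_comm x]
    exact phi_r F hφ hf hs hs' (by omega) (by omega) hx
  · rw [if_neg h, Submodule.mem_bot] at hf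
    rw [hf, map_zero, mul_zero, map_zero, map_zero, zero_mul]

/-- Entries. -/
def ent (F : Fam D) (a b : Fin 3) : F.bi.C →ₗ[k] K where
  toFun m := (show F.mat from m).1 a b
  map_add' _ _ := rfl
  map_smul' _ _ := rfl

/-- Matrices with one entry. -/
noncomputable def unit (F : Fam D) (a b : Fin 3) (x : K)
    (hx : x ∈ F.N (3 - (a : ℕ)) (1 + (b : ℕ))) : F.bi.C :=
  (⟨Matrix.of fun i j => if i = a ∧ j = b then x else 0, by
    intro i j
    change (if i = a ∧ j = b then x else 0) ∈ F.N (3 - (i : ℕ)) (1 + (j : ℕ))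
    split_ifs with h
    · obtain ⟨rfl, rfl⟩ := h
      exact hx
    · exact Submodule.zero_mem _⟩ : F.mat)

lemma ent_unit (F : Fam D) (a b : Fin 3) (x : K)
    (hx : x ∈ F.N (3 - (a : ℕ)) (1 + (b : ℕ))) (i j : Fin 3) :
    ent F i j (unit F a b x hx) = if i = a ∧ j = b then x else 0 := rfl

lemma mem_subm' {F G : Fam D} {m : F.bi.C} :
    m ∈ subm F G ↔ ∀ a b : Fin 3, ent F a b m ∈ G.N (3 - (a : ℕ)) (1 + (b : ℕ)) := Iff.rfl

lemma ent_mem (F : Fam D) (a b : Fin 3) (m : F.bi.C) :
    ent F a b m ∈ F.N (3 - (a : ℕ)) (1 + (b : ℕ)) := (show F.mat from m).2 a b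

lemma ent_l (F : Fam D) (α : AA D) (m : F.bi.C) (a b : Fin 3) :
    ent F a b (F.bi.l α m) = ∑ c, D.lS (α.1 a c).s * ent F c b m := by
  change (lM D α * (show F.mat from m).1) a b = _
  rw [Matrix.mul_apply]
  rfl

lemma ent_r (F : Fam D) (α : AA D) (m : F.bi.C) (a b : Fin 3) :
    ent F a b (F.bi.r α m) = ∑ c, ent F a c m * D.rS (α.1 c b).s := by
  change ((show F.mat from m).1 * rM D α) a b = _
  rw [Matrix.mul_apply]
  rfl

lemma ent_ext (F : Fam D) {m n : F.bi.C} (h : ∀ a b, ent F a b m = ent F a b n) : m = n := by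
  apply Subtype.ext
  ext a b
  exact h a b

/-- The functional on matrices attached to a linear map between point modules. -/
noncomputable def pre (F : Fam D) (φ : ℕ → ℕ → (K →ₗ[k] k))
    (f : (homBi k (AA D) (LP D p) (LP D q)).C) : F.bi.C →ₗ[k] k :=
  ∑ a : Fin 3, ∑ b : Fin 3,
    (hun f (dl D p a) b) • (φ (3 - (a : ℕ)) (1 + (b : ℕ))).comp (ent F a b)

lemma pre_apply (F : Fam D) (φ : ℕ → ℕ → (K →ₗ[k] k))
    (f : (homBi k (AA D) (LP D p) (LP D q)).C) (m : F.bi.C) :
    pre F φ f m = ∑ a : Fin 3, ∑ b : Fin 3,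
      (hun f (dl D p a) b) * φ (3 - (a : ℕ)) (1 + (b : ℕ)) (ent F a b m) := by
  simp [pre, LinearMap.sum_apply]

lemma pre_l (F : Fam D) (hφ : ∀ s t : ℕ, 1 ≤ s → s ≤ 3 → 1 ≤ t → t < 3 →
      ∀ v : Fin 3 → k, ∀ h ∈ F.N s t, φ s (t + 1) (D.r v * h) = (v ⬝ᵥ q) * φ s t h)
    (α : AA D) (f : (homBi k (AA D) (LP D p) (LP D q)).C) (m : F.bi.C) :
    pre F φ ((homBi k (AA D) (LP D p) (LP D q)).l α f) m = pre F φ f (F.bi.r α m) := by
  rw [pre_apply, pre_apply]
  refine Finset.sum_congr rfl fun a _ => ?_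
  have e1 : ∀ b : Fin 3, hun ((homBi k (AA D) (LP D p) (LP D q)).l α f) (dl D p a) b =
      ∑ c, ev q (α.1 b c).s * hun f (dl D p a) c := fun b => rfl
  have e2 : ∀ b : Fin 3, φ (3 - (a : ℕ)) (1 + (b : ℕ)) (ent F a b (F.bi.r α m)) =
      ∑ c, ev q (α.1 c b).s * φ (3 - (a : ℕ)) (1 + (c : ℕ)) (ent F a c m) := by
    intro b
    rw [ent_r, map_sum]
    refine Finset.sum_congr rfl fun c _ => ?_
    have ha : (a : ℕ) < 3 := a.2
    exact phi_r_PP F hφ (α.2 c b).1 (by omega) (by omega) (ent_mem F a c m)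
  simp only [e1, e2, Finset.sum_mul, Finset.mul_sum]
  rw [Finset.sum_comm]
  refine Finset.sum_congr rfl fun b _ => Finset.sum_congr rfl fun c _ => ?_
  ring

lemma hun_dl (α : AA D) (f : (homBi k (AA D) (LP D p) (LP D q)).C) (a b : Fin 3) :
    hun ((homBi k (AA D) (LP D p) (LP D q)).r α f) (dl D p a) b =
      ∑ c, ev p (α.1 c a).s * hun f (dl D p c) b := by
  have e : (α • dl D p a : LP D p) = ∑ c, ev p (α.1 c a).s • dl D p c := by
    have e1 := LP_eq_sum D p (α • dl D p a)
    rw [e1]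
    refine Finset.sum_congr rfl fun c _ => ?_
    congr 1
    rw [LP_smul, Finset.sum_eq_single a]
    · rw [dl_apply, if_pos rfl, mul_one]
    · intro j _ hj
      rw [dl_apply, if_neg hj, mul_zero]
    · intro h
      exact absurd (Finset.mem_univ a) h
  rw [homBi_r, e, map_sum]
  have e2 : ∀ g : Fin 3 → LP D q, (∑ c, g c) b = ∑ c, g c b := by
    intro g
    exact Finset.sum_apply b Finset.univ (fun c => (show Fin 3 → k from g c))
  rw [e2]
  refine Finset.sum_congr rfl fun c _ => ?_
  rw [map_smul]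
  rfl

lemma pre_r (F : Fam D) (hφ : ∀ s t : ℕ, 1 ≤ s → s < 3 → 1 ≤ t → t ≤ 3 →
      ∀ v : Fin 3 → k, ∀ h ∈ F.N s t, φ (s + 1) t (D.l v * h) = (v ⬝ᵥ p) * φ s t h)
    (α : AA D) (f : (homBi k (AA D) (LP D p) (LP D q)).C) (m : F.bi.C) :
    pre F φ ((homBi k (AA D) (LP D p) (LP D q)).r α f) m = pre F φ f (F.bi.l α m) := by
  rw [pre_apply, pre_apply]
  have e2 : ∀ a b : Fin 3, φ (3 - (a : ℕ)) (1 + (b : ℕ)) (ent F a b (F.bi.l α m)) =
      ∑ c, ev p (α.1 a c).s * φ (3 - (c : ℕ)) (1 + (b : ℕ)) (ent F c b m) := by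
    intro a b
    rw [ent_l, map_sum]
    refine Finset.sum_congr rfl fun c _ => ?_
    have hb : (b : ℕ) < 3 := b.2
    exact phi_l_PP F hφ (α.2 a c).1 (by omega) (by omega) (ent_mem F c b m)
  simp only [hun_dl, e2, Finset.sum_mul, Finset.mul_sum]
  have e3 : ∀ g : Fin 3 → Fin 3 → Fin 3 → k,
      ∑ a, ∑ b, ∑ c, g a b c = ∑ c, ∑ b, ∑ a, g a b c := by
    intro g
    simp only [Fin.sum_univ_three]
    ring
  rw [e3]
  refine Finset.sum_congr rfl fun a _ => Finset.sum_congr rfl fun b _ =>
    Finset.sum_congr rfl fun c _ => ?_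
  ring

lemma pre_add (F : Fam D) (f g : (homBi k (AA D) (LP D p) (LP D q)).C) :
    pre F φ (f + g) = pre F φ f + pre F φ g := by
  apply LinearMap.ext
  intro m
  rw [LinearMap.add_apply, pre_apply, pre_apply, pre_apply, ← Finset.sum_add_distrib]
  refine Finset.sum_congr rfl fun a _ => ?_
  rw [← Finset.sum_add_distrib]
  refine Finset.sum_congr rfl fun b _ => ?_
  have e : hun (f + g) (dl D p a) b = hun f (dl D p a) b + hun g (dl D p a) b := rfl
  rw [e, add_mul]

lemma pre_smul (F : Fam D) (c : k) (f : (homBi k (AA D) (LP D p) (LP D q)).C) :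
    pre F φ (c • f) = c • pre F φ f := by
  apply LinearMap.ext
  intro m
  rw [LinearMap.smul_apply, pre_apply, pre_apply, Finset.smul_sum]
  refine Finset.sum_congr rfl fun a _ => ?_
  rw [Finset.smul_sum]
  refine Finset.sum_congr rfl fun b _ => ?_
  have e : hun (c • f) (dl D p a) b = c * hun f (dl D p a) b := rfl
  rw [e, smul_eq_mul, mul_assoc]

lemma pre_unit (F : Fam D) (f : (homBi k (AA D) (LP D p) (LP D q)).C) (a b : Fin 3) (x : K)
    (hx : x ∈ F.N (3 - (a : ℕ)) (1 + (b : ℕ))) :
    pre F φ f (unit F a b x hx) = hun f (dl D p a) b * φ (3 - (a : ℕ)) (1 + (b : ℕ)) x := by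
  rw [pre_apply, Finset.sum_eq_single a]
  · rw [Finset.sum_eq_single b]
    · rw [ent_unit, if_pos ⟨rfl, rfl⟩]
    · intro j _ hj
      rw [ent_unit, if_neg (fun h => hj h.2), map_zero, mul_zero]
    · intro h
      exact absurd (Finset.mem_univ b) h
  · intro i _ hi
    apply Finset.sum_eq_zero
    intro j _
    rw [ent_unit, if_neg (fun h => hi h.1), map_zero, mul_zero]
  · intro h
    exact absurd (Finset.mem_univ a) h

theorem van_fun (F G : Fam D) (h : D.IsFun p q F.N G.N)
    (hv : ∀ n, Van n (homBi k (AA D) (LP D p) (LP D q))) (n : ℕ) : Van n (Q F G).dual := by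
  obtain ⟨φ, hφ⟩ := h
  have hl : ∀ s t : ℕ, 1 ≤ s → s < 3 → 1 ≤ t → t ≤ 3 → ∀ v : Fin 3 → k,
      ∀ h ∈ F.N s t, φ (s + 1) t (D.l v * h) = (v ⬝ᵥ p) * φ s t h :=
    fun s t h1 h2 h3 h4 => (hφ s t h1 (by omega) h3 h4).2.2.1 h2
  have hr : ∀ s t : ℕ, 1 ≤ s → s ≤ 3 → 1 ≤ t → t < 3 → ∀ v : Fin 3 → k,
      ∀ h ∈ F.N s t, φ s (t + 1) (D.r v * h) = (v ⬝ᵥ q) * φ s t h :=
    fun s t h1 h2 h3 h4 => (hφ s t h1 h2 h3 (by omega)).2.2.2 h4
  have hz : ∀ a b : Fin 3, ∀ x ∈ F.N (3 - (a : ℕ)) (1 + (b : ℕ)),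
      (φ (3 - (a : ℕ)) (1 + (b : ℕ)) x = 0 ↔ x ∈ G.N (3 - (a : ℕ)) (1 + (b : ℕ))) := by
    intro a b
    have ha : (a : ℕ) < 3 := a.2
    have hb : (b : ℕ) < 3 := b.2
    exact (hφ _ _ (by omega) (by omega) (by omega) (by omega)).1
  have ho : ∀ a b : Fin 3, ∃ x ∈ F.N (3 - (a : ℕ)) (1 + (b : ℕ)),
      φ (3 - (a : ℕ)) (1 + (b : ℕ)) x = 1 := by
    intro a b
    have ha : (a : ℕ) < 3 := a.2
    have hb : (b : ℕ) < 3 := b.2
    exact (hφ _ _ (by omega) (by omega) (by omega) (by omega)).2.1
  have hsub : ∀ f : (homBi k (AA D) (LP D p) (LP D q)).C,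
      subm F G ≤ LinearMap.ker (pre F φ f) := by
    intro f m hm
    rw [LinearMap.mem_ker, pre_apply]
    apply Finset.sum_eq_zero
    intro a _
    apply Finset.sum_eq_zero
    intro b _
    rw [(hz a b _ (ent_mem F a b m)).mpr (hm a b), mul_zero]
  let T : BHom (homBi k (AA D) (LP D p) (LP D q)) (Q F G).dual :=
    { f :=
        { toFun := fun f => (subm F G).liftQ (pre F φ f) (hsub f)
          map_add' := by
            intro f g
            apply Submodule.linearMap_qext
            apply LinearMap.ext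
            intro m
            change pre F φ (f + g) m = pre F φ f m + pre F φ g m
            rw [pre_add]
            rfl
          map_smul' := by
            intro c f
            apply Submodule.linearMap_qext
            apply LinearMap.ext
            intro m
            change pre F φ (c • f) m = c • pre F φ f m
            rw [pre_smul]
            rfl }
      hl := by
        intro α f
        apply Submodule.linearMap_qext
        apply LinearMap.ext
        intro m
        exact pre_l F hr α f m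
      hr := by
        intro α f
        apply Submodule.linearMap_qext
        apply LinearMap.ext
        intro m
        exact pre_r F hl α f m }
  apply van_of_bij T _ hv
  constructor
  · rw [← LinearMap.ker_eq_bot, LinearMap.ker_eq_bot']
    intro f hf
    apply hun_ext
    intro x
    have h1 : ∀ a b, hun f (dl D p a) b = 0 := by
      intro a b
      obtain ⟨x, hx, hx1⟩ := ho a b
      have h2 : pre F φ f (unit F a b x hx) = 0 :=
        LinearMap.congr_fun (show (show (Q F G).C →ₗ[k] k from T.f f) = 0 from hf)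
          ((subm F G).mkQ (unit F a b x hx))
      rw [pre_unit, hx1, mul_one] at h2
      exact h2
    rw [LP_eq_sum D p x, map_sum]
    apply Finset.sum_eq_zero
    intro a _
    rw [map_smul]
    have h3 : hun f (dl D p a) = 0 := by
      funext b
      exact h1 a b
    rw [h3, smul_zero]
  · intro g
    choose x hx hx1 using ho
    let g' : F.bi.C →ₗ[k] k := (show (Q F G).C →ₗ[k] k from g).comp (subm F G).mkQ
    have hg' : ∀ m ∈ subm F G, g' m = 0 := by
      intro m hm
      have h1 : (subm F G).mkQ m = 0 := (Submodule.Quotient.mk_eq_zero _).mpr hm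
      change (show (Q F G).C →ₗ[k] k from g) ((subm F G).mkQ m) = 0
      rw [h1]
      exact LinearMap.map_zero (show (Q F G).C →ₗ[k] k from g)
    let f0 : (Fin 3 → k) →ₗ[k] (Fin 3 → k) :=
      { toFun := fun y b => ∑ a, y a * g' (unit F a b (x a b) (hx a b))
        map_add' := by
          intro y z
          funext b
          simp [add_mul, Finset.sum_add_distrib]
        map_smul' := by
          intro c y
          funext b
          simp [Finset.mul_sum, mul_assoc] }
    let f1 : LP D p →ₗ[k] LP D q := f0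
    refine ⟨hmk (AA D) f1, ?_⟩
    apply Submodule.linearMap_qext
    apply LinearMap.ext
    intro m
    change pre F φ (hmk (AA D) f1) m = g' m
    have h1 : ∀ a b, hun (hmk (AA D) f1) (dl D p a) b = g' (unit F a b (x a b) (hx a b)) := by
      intro a b
      change ∑ i, dl D p a i * g' (unit F i b (x i b) (hx i b)) = _
      rw [Finset.sum_eq_single a]
      · rw [dl_apply, if_pos rfl, one_mul]
      · intro i _ hi
        rw [dl_apply, if_neg hi, zero_mul]
      · intro h
        exact absurd (Finset.mem_univ a) h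
    rw [pre_apply]
    simp only [h1]
    let m' : F.bi.C := ∑ a : Fin 3, ∑ b : Fin 3,
      φ (3 - (a : ℕ)) (1 + (b : ℕ)) (ent F a b m) • unit F a b (x a b) (hx a b)
    have h2 : g' m' = ∑ a : Fin 3, ∑ b : Fin 3, g' (unit F a b (x a b) (hx a b)) *
        φ (3 - (a : ℕ)) (1 + (b : ℕ)) (ent F a b m) := by
      rw [map_sum]
      refine Finset.sum_congr rfl fun a _ => ?_
      rw [map_sum]
      refine Finset.sum_congr rfl fun b _ => ?_
      rw [map_smul, smul_eq_mul, mul_comm]
    have h3 : ∀ i j, ent F i j m' = φ (3 - (i : ℕ)) (1 + (j : ℕ)) (ent F i j m) • x i j := by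
      intro i j
      rw [map_sum, Finset.sum_eq_single i]
      · rw [map_sum, Finset.sum_eq_single j]
        · rw [map_smul, ent_unit, if_pos ⟨rfl, rfl⟩]
        · intro b _ hb
          rw [map_smul, ent_unit, if_neg (fun h => hb h.2.symm), smul_zero]
        · intro h
          exact absurd (Finset.mem_univ j) h
      · intro a _ ha
        rw [map_sum]
        apply Finset.sum_eq_zero
        intro b _
        rw [map_smul, ent_unit, if_neg (fun h => ha h.1.symm), smul_zero]
      · intro h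
        exact absurd (Finset.mem_univ i) h
    have h4 : m - m' ∈ subm F G := by
      rw [mem_subm']
      intro a b
      rw [← hz a b _ (ent_mem F a b _), map_sub, h3, map_sub, map_smul, hx1, smul_eq_mul, mul_one,
        sub_self]
    have h5 := hg' _ h4
    rw [map_sub, sub_eq_zero] at h5
    rw [h5, h2]

end functionals

/-! ### Linear algebra -/

/-- The cross product. -/
def cr (u w : Fin 3 → k) : Fin 3 → k :=
  ![u 1 * w 2 - u 2 * w 1, u 2 * w 0 - u 0 * w 2, u 0 * w 1 - u 1 * w 0]

lemma cr_left (u w : Fin 3 → k) : u ⬝ᵥ cr u w = 0 := by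
  simp [dotProduct, Fin.sum_univ_three, cr]
  ring

lemma cr_right (u w : Fin 3 → k) : w ⬝ᵥ cr u w = 0 := by
  simp [dotProduct, Fin.sum_univ_three, cr]
  ring

lemma cr_ne_left {u w : Fin 3 → k} (h : cr u w ≠ 0) : u ≠ 0 := by
  rintro rfl
  apply h
  funext i
  fin_cases i <;> simp [cr]

lemma cr_ne_right {u w : Fin 3 → k} (h : cr u w ≠ 0) : w ≠ 0 := by
  rintro rfl
  apply h
  funext i
  fin_cases i <;> simp [cr]

lemma cr_span {u w v : Fin 3 → k} (h : cr u w ≠ 0) (hv : v ⬝ᵥ cr u w = 0) :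
    ∃ a b : k, v = a • u + b • w := by
  have hv' : v 0 * (u 1 * w 2 - u 2 * w 1) + v 1 * (u 2 * w 0 - u 0 * w 2) +
      v 2 * (u 0 * w 1 - u 1 * w 0) = 0 := by
    simpa [dotProduct, Fin.sum_univ_three, cr] using hv
  by_cases h0 : u 1 * w 2 - u 2 * w 1 = 0
  · by_cases h1 : u 2 * w 0 - u 0 * w 2 = 0
    · by_cases h2 : u 0 * w 1 - u 1 * w 0 = 0
      · exfalso
        apply h
        funext i
        fin_cases i
        · exact h0
        · exact h1
        · exact h2
      · refine ⟨(v 0 * w 1 - v 1 * w 0) / (u 0 * w 1 - u 1 * w 0),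
          (u 0 * v 1 - u 1 * v 0) / (u 0 * w 1 - u 1 * w 0), ?_⟩
        funext i
        simp only [Pi.add_apply, Pi.smul_apply, smul_eq_mul]
        rw [div_mul_eq_mul_div, div_mul_eq_mul_div, ← add_div, eq_div_iff h2]
        fin_cases i
        · simp; ring
        · simp; ring
        · simp; linear_combination hv'
    · refine ⟨(v 2 * w 0 - v 0 * w 2) / (u 2 * w 0 - u 0 * w 2),
        (u 2 * v 0 - u 0 * v 2) / (u 2 * w 0 - u 0 * w 2), ?_⟩
      funext i
      simp only [Pi.add_apply, Pi.smul_apply, smul_eq_mul]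
      rw [div_mul_eq_mul_div, div_mul_eq_mul_div, ← add_div, eq_div_iff h1]
      fin_cases i
      · simp; ring
      · simp; linear_combination hv'
      · simp; ring
  · refine ⟨(v 1 * w 2 - v 2 * w 1) / (u 1 * w 2 - u 2 * w 1),
      (u 1 * v 2 - u 2 * v 1) / (u 1 * w 2 - u 2 * w 1), ?_⟩
    funext i
    simp only [Pi.add_apply, Pi.smul_apply, smul_eq_mul]
    rw [div_mul_eq_mul_div, div_mul_eq_mul_div, ← add_div, eq_div_iff h0]
    fin_cases i
    · simp; linear_combination hv'
    · simp; ring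
    · simp; ring

lemma exists_two {u : Fin 3 → k} (hu : u ≠ 0) :
    ∃ w1 w2 : Fin 3 → k, cr u w1 ≠ 0 ∧ ∀ μ : k, cr u (w2 - μ • w1) ≠ 0 := by
  by_cases h0 : u 0 = 0
  · by_cases h1 : u 1 = 0
    · have h2 : u 2 ≠ 0 := by
        intro h2
        apply hu
        funext i
        fin_cases i
        · exact h0
        · exact h1
        · exact h2
      refine ⟨![1, 0, 0], ![0, 1, 0], ?_, ?_⟩
      · intro h
        have := congrFun h 1
        simp [cr] at this
        exact h2 this
      · intro μ h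
        have := congrFun h 0
        simp [cr] at this
        exact h2 this
    · refine ⟨![0, 0, 1], ![1, 0, 0], ?_, ?_⟩
      · intro h
        have := congrFun h 0
        simp [cr] at this
        exact h1 this
      · intro μ h
        have := congrFun h 2
        simp [cr] at this
        exact h1 this
  · refine ⟨![0, 1, 0], ![0, 0, 1], ?_, ?_⟩
    · intro h
      have := congrFun h 2
      simp [cr] at this
      exact h0 this
    · intro μ h
      have := congrFun h 1
      simp [cr] at this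
      exact h0 this

lemma l_ne_zero {v : Fin 3 → k} (hv : v ≠ 0) : D.l v ≠ 0 := by
  have hs : ∀ (c : k) (y : K), c ≠ 0 → D.v (c • y) = D.v y := fun c y hc => by
    rw [Algebra.smul_def, map_mul, D.vk c hc, one_mul]
  have hs' : ∀ (c : k) (y : K), D.v (c • y) ≤ D.v y := fun c y => by
    by_cases hc : c = 0
    · rw [hc, zero_smul, map_zero]; exact zero_le
    · exact (hs c y hc).le
  have e : D.l v = v 0 • (1 : K) + v 1 • D.X + v 2 • D.Y := by
    simp only [Datum.l, LinearMap.coe_mk, AddHom.coe_mk, Algebra.algebraMap_eq_smul_one]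
  rw [e]
  by_cases h2 : v 2 = 0
  · rw [h2, zero_smul, add_zero]
    by_cases h1 : v 1 = 0
    · rw [h1, zero_smul, add_zero]
      have h0 : v 0 ≠ 0 := by
        intro h0
        apply hv
        funext i
        fin_cases i
        · exact h0
        · exact h1
        · exact h2
      exact smul_ne_zero h0 one_ne_zero
    · intro h
      have h3 : D.v (v 0 • (1 : K)) < D.v (v 1 • D.X) := by
        rw [hs _ _ h1, D.vX]
        refine (hs' _ _).trans_lt ?_
        rw [map_one, ← WithZero.exp_zero, WithZero.exp_lt_exp]; norm_num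
      have h4 := D.v.map_add_eq_of_lt_right h3
      rw [h, map_zero, hs _ _ h1, D.vX] at h4
      exact WithZero.exp_ne_zero h4.symm
  · intro h
    have h3 : D.v (v 0 • (1 : K) + v 1 • D.X) < D.v (v 2 • D.Y) := by
      rw [hs _ _ h2, D.vY]
      apply D.v.map_add_lt
      · refine (hs' _ _).trans_lt ?_
        rw [map_one, ← WithZero.exp_zero, WithZero.exp_lt_exp]; norm_num
      · refine (hs' _ _).trans_lt ?_
        rw [D.vX, WithZero.exp_lt_exp]; norm_num
    have h4 := D.v.map_add_eq_of_lt_right h3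
    rw [h, map_zero, hs _ _ h2, D.vY] at h4
    exact WithZero.exp_ne_zero h4.symm

/-! ### Finiteness -/

lemma finite_W (D : Datum k K) (s t : ℕ) : FiniteDimensional k (D.W s t) := by
  have h1 : D.V.FG := by
    have : Module.Finite k (LinearMap.range D.l) := inferInstance
    exact Module.Finite.iff_fg.mp this
  have h2 : D.V'.FG := by
    have : Module.Finite k (LinearMap.range D.r) := inferInstance
    exact Module.Finite.iff_fg.mp this
  exact Module.Finite.iff_fg.mpr ((h1.pow s).mul (h2.pow t))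

lemma finite_Q (F G : Fam D) (h : ∀ s t, FiniteDimensional k (F.N s t)) :
    FiniteDimensional k (Q F G).dual.C := by
  have h1 : FiniteDimensional k F.mat := by
    let j : F.mat →ₗ[k] ((a b : Fin 3) → F.N (3 - (a : ℕ)) (1 + (b : ℕ))) :=
      { toFun := fun m a b => ⟨m.1 a b, m.2 a b⟩
        map_add' := by intro m n; rfl
        map_smul' := by intro c m; rfl }
    apply FiniteDimensional.of_injective j
    intro m n hmn
    apply Subtype.ext
    ext a b
    exact congrArg Subtype.val (congrFun (congrFun hmn a) b)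
  have h2 : FiniteDimensional k F.bi.C := h1
  have h3 : FiniteDimensional k (Q F G).C := by
    change FiniteDimensional k (F.bi.C ⧸ subm F G)
    infer_instance
  change FiniteDimensional k ((Q F G).C →ₗ[k] k)
  infer_instance

/-! ### The two applications of the pencil lemma -/

lemma l_mem (v : Fin 3 → k) (F : Fam D) (s t : ℕ) : ∀ x ∈ F.N s t, D.l v * x ∈ (shift F).N s t :=
  fun x hx => F.hl v s t x hx

/-- `l v` times a family inside its shift. -/
lemma l_mul_mem (v u : Fin 3 → k) (F : Fam D) (s t : ℕ) :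
    ∀ x ∈ (mulF (D.l u) F).N s t, D.l v * x ∈ (mulF (D.l u) (shift F)).N s t := by
  rintro _ ⟨y, hy, rfl⟩
  refine ⟨D.l v * y, F.hl v s t y hy, ?_⟩
  simp only [LinearMap.mulLeft_apply]
  ring

/-- Multiplication by `l w` from `W1 / u W` to `W2 / u W1`. -/
noncomputable def mw (D : Datum k K) (u w : Fin 3 → k) :
    BHom (Q (shift (famW D)) (mulF (D.l u) (famW D)))
      (Q (shift (shift (famW D))) (mulF (D.l u) (shift (famW D)))) :=
  mulQ (D.l w) _ _ _ _ (l_mem w (shift (famW D))) (l_mul_mem w u (famW D))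

section main

variable (hLP : ∀ p q : Fin 3 → k, Rel p q → ∀ n, Bi.Van n (homBi k (AA D) (LP D p) (LP D q)))

include hLP in
lemma mw_dual [CharZero k] (u w : Fin 3 → k) (h : cr u w ≠ 0) (n : ℕ) :
    (mw D u w).dual.HInj n ∧ (mw D u w).dual.HSurj n := by
  set p := cr u w with hp
  have hu : D.l u ≠ 0 := l_ne_zero (cr_ne_left h)
  have hw : D.l w ≠ 0 := l_ne_zero (cr_ne_right h)
  -- the two quotients
  have hk : (∀ n, Van n (Q (hatF D p) (famW D)).dual) ∧
      (∀ n, Van n (Q (shift (shift (famW D))) (imgF D p)).dual) := by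
    rcases D.koszul p h with ⟨_, h1⟩ | ⟨q, hq⟩
    · exact ⟨van_of_le _ _ (fun s t hs ht => (h1 s t hs ht).1),
        van_of_le _ _ (fun s t hs ht => (h1 s t hs ht).2)⟩
    · obtain ⟨h1, h2⟩ := D.koszul_rel p q hq
      exact ⟨van_fun (hatF D p) (famW D) h1 (hLP p q hq),
        van_fun (shift (shift (famW D))) (imgF D p) h2 (hLP p q hq)⟩
  obtain ⟨hk1, hk2⟩ := hk
  have hWhat : ∀ s t, ∀ x ∈ D.W s t, x ∈ D.What p s t := by
    intro s t x hx v _
    exact (famW D).hl v s t x hx
  let S1 : Ses (Q (hatF D p) (famW D)) (Q (shift (famW D)) (mulF (D.l u) (famW D)))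
      (Q (shift (famW D)) (mulF (D.l u) (hatF D p))) :=
    mulSes (D.l u) _ _ _ _ _
      (fun s t x hx => hx u (cr_left u w))
      (by
        intro s t x _
        rw [mem_mulF]
        constructor
        · rintro ⟨y, hy, e⟩
          rwa [mul_left_cancel₀ hu e]
        · intro hx
          exact ⟨x, hx, rfl⟩)
      (by
        intro s t x hx
        rw [mem_mulF] at hx ⊢
        obtain ⟨y, hy, rfl⟩ := hx
        exact ⟨y, hWhat s t y hy, rfl⟩)
      (by
        intro s t x hx
        rw [mem_mulF]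
        exact ⟨x, hx, rfl⟩)
      (by
        intro s t x hx
        rw [mem_mulF] at hx
        obtain ⟨y, hy, rfl⟩ := hx
        exact ⟨y, hy, 0, Submodule.zero_mem _, (add_zero _).symm⟩)
      (by
        intro s t x hx
        rw [mem_mulF] at hx
        obtain ⟨y, hy, rfl⟩ := hx
        exact (famW D).hl u s t y hy)
  let S2 : Ses (Q (shift (famW D)) (mulF (D.l u) (hatF D p)))
      (Q (shift (shift (famW D))) (mulF (D.l u) (shift (famW D))))
      (Q (shift (shift (famW D))) (imgF D p)) :=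
    mulSes (D.l w) _ _ _ _ _ (l_mem w (shift (famW D)))
      (by
        intro s t x hx
        rw [mem_mulF, mem_mulF]
        constructor
        · rintro ⟨y, hy, e⟩
          refine ⟨x / D.l u, ?_, by field_simp⟩
          intro v hv
          obtain ⟨a, b, rfl⟩ := cr_span h hv
          have e1 : D.l (a • u + b • w) * (x / D.l u) = a • x + b • y := by
            rw [map_add, map_smul, map_smul, add_mul, smul_mul_assoc, smul_mul_assoc]
            congr 2
            · field_simp
            · rw [← mul_div_assoc, e]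
              field_simp
          rw [e1]
          exact Submodule.add_mem _ (Submodule.smul_mem _ _ hx) (Submodule.smul_mem _ _ hy)
        · rintro ⟨y, hy, rfl⟩
          exact ⟨D.l w * y, hy w (cr_right u w), by ring⟩)
      (by
        intro s t x hx
        rw [mem_mulF] at hx
        obtain ⟨y, hy, rfl⟩ := hx
        exact Submodule.subset_span ⟨u, y, cr_left u w, hy, rfl⟩)
      (by
        intro s t x hx
        exact Submodule.subset_span ⟨w, x, cr_right u w, hx, rfl⟩)
      (by
        intro s t x hx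
        change x ∈ Submodule.span k _ at hx
        induction hx using Submodule.span_induction with
        | mem x hx =>
          obtain ⟨v, y, hv, hy, rfl⟩ := hx
          obtain ⟨a, b, rfl⟩ := cr_span h hv
          refine ⟨b • y, Submodule.smul_mem _ _ hy, D.l u * (a • y),
            mem_mulF.mpr ⟨a • y, Submodule.smul_mem _ _ hy, rfl⟩, ?_⟩
          rw [map_add, map_smul, map_smul, add_mul, smul_mul_assoc, smul_mul_assoc,
            mul_smul_comm, mul_smul_comm, add_comm]
        | zero =>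
          exact ⟨0, Submodule.zero_mem _, 0, Submodule.zero_mem _, by rw [mul_zero, add_zero]⟩
        | add x y _ _ hx hy =>
          obtain ⟨a, ha, b, hb, rfl⟩ := hx
          obtain ⟨c, hc, d, hd, rfl⟩ := hy
          exact ⟨a + c, Submodule.add_mem _ ha hc, b + d, Submodule.add_mem _ hb hd, by ring⟩
        | smul c x _ hx =>
          obtain ⟨a, ha, b, hb, rfl⟩ := hx
          exact ⟨c • a, Submodule.smul_mem _ c ha, c • b, Submodule.smul_mem _ c hb, by
            rw [smul_add, mul_smul_comm]⟩)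
      (by
        intro s t x hx
        rw [mem_mulF] at hx
        obtain ⟨y, hy, rfl⟩ := hx
        exact (famW D).hl u (s + 1) t y hy)
  have e : (mw D u w).dual = S1.dual.i.comp S2.dual.p := by
    apply bhom_ext
    intro y
    apply Submodule.linearMap_qext
    apply LinearMap.ext
    intro m
    rfl
  rw [e]
  exact ⟨(S1.dual.hinj_i hk1 n).comp (S2.dual.hinj_p hk2 n),
    (S1.dual.hsurj_i hk1 n).comp (S2.dual.hsurj_p hk2 n)⟩

include hLP in
lemma van_quot [CharZero k] [IsAlgClosed k] [FiniteDimensional k (AA D)] (u : Fin 3 → k)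
    (hu : u ≠ 0) (n : ℕ) : Van n (Q (shift (famW D)) (mulF (D.l u) (famW D))).dual := by
  obtain ⟨w1, w2, h1, h2⟩ := exists_two hu
  have hfd : FiniteDimensional k
      (Q (shift (shift (famW D))) (mulF (D.l u) (shift (famW D)))).dual.C :=
    finite_Q _ _ (fun s t => finite_W D (s + 1 + 1) t)
  refine (pencil n (mw D u w1).dual (mw D u w2).dual (mw_dual hLP u w1 h1 n).1
    (mw_dual hLP u w1 h1 n).2 ?_).2
  intro μ
  have e : (mw D u w2).dual.lin (mw D u w1).dual μ = (mw D u (w2 - μ • w1)).dual := by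
    apply bhom_ext
    intro y
    apply Submodule.linearMap_qext
    apply LinearMap.ext
    intro m
    let y' : (shift (shift (famW D))).bi.C →ₗ[k] k :=
      (show (Q (shift (shift (famW D))) (mulF (D.l u) (shift (famW D)))).C →ₗ[k] k from y).comp
        (subm _ (mulF (D.l u) (shift (famW D)))).mkQ
    change y' ((mulB (D.l w2) (shift (famW D)) _ (l_mem w2 _)).f m) -
      μ • y' ((mulB (D.l w1) (shift (famW D)) _ (l_mem w1 _)).f m) =
      y' ((mulB (D.l (w2 - μ • w1)) (shift (famW D)) _ (l_mem _ _)).f m)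
    rw [← map_smul, ← map_sub]
    congr 1
    apply Subtype.ext
    ext a b
    change D.l w2 * _ - μ • (D.l w1 * _) = D.l (w2 - μ • w1) * _
    rw [map_sub, map_smul, sub_mul, smul_mul_assoc]
  rw [e]
  exact (mw_dual hLP u _ (h2 μ) n).1

/-- Multiplication by `l u` from `W` to `W1`. -/
noncomputable def mu (D : Datum k K) (u : Fin 3 → k) :
    BHom (Q (famW D) (botF D)) (Q (shift (famW D)) (botF D)) :=
  mulQ (D.l u) _ _ _ _ (l_mem u (famW D)) (by
    intro s t x hx
    change x = 0 at hx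
    rw [hx, mul_zero]
    exact Submodule.zero_mem _)

include hLP in
lemma mu_dual [CharZero k] [IsAlgClosed k] [FiniteDimensional k (AA D)] (u : Fin 3 → k)
    (hu : u ≠ 0) (n : ℕ) : (mu D u).dual.HInj n ∧ (mu D u).dual.HSurj n := by
  have hu' : D.l u ≠ 0 := l_ne_zero hu
  let S : Ses (Q (famW D) (botF D)) (Q (shift (famW D)) (botF D))
      (Q (shift (famW D)) (mulF (D.l u) (famW D))) :=
    mulSes (D.l u) _ _ _ _ _ (l_mem u (famW D))
      (by
        intro s t x _
        change D.l u * x = 0 ↔ x = 0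
        constructor
        · intro h
          exact (mul_eq_zero.mp h).resolve_left hu'
        · intro h
          rw [h, mul_zero])
      (by
        intro s t x hx
        change x = 0 at hx
        rw [hx]
        exact Submodule.zero_mem _)
      (by
        intro s t x hx
        rw [mem_mulF]
        exact ⟨x, hx, rfl⟩)
      (by
        intro s t x hx
        rw [mem_mulF] at hx
        obtain ⟨y, hy, rfl⟩ := hx
        exact ⟨y, hy, 0, Submodule.zero_mem _, (add_zero _).symm⟩)
      (by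
        intro s t x hx
        change x = 0 at hx
        rw [hx]
        exact Submodule.zero_mem _)
  have e : (mu D u).dual = S.dual.p := by
    apply bhom_ext
    intro y
    apply Submodule.linearMap_qext
    apply LinearMap.ext
    intro m
    rfl
  rw [e]
  exact ⟨S.dual.hinj_p (van_quot hLP u hu) n, S.dual.hsurj_p (van_quot hLP u hu) n⟩

include hLP in
lemma van_Q [CharZero k] [IsAlgClosed k] [FiniteDimensional k (AA D)] (n : ℕ) :
    Van n (Q (famW D) (botF D)).dual := by
  have hfd : FiniteDimensional k (Q (shift (famW D)) (botF D)).dual.C :=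
    finite_Q _ _ (fun s t => finite_W D (s + 1) t)
  have hne : ∀ μ : k, (![0, 1, 0] - μ • ![1, 0, 0] : Fin 3 → k) ≠ 0 := by
    intro μ h
    have := congrFun h 1
    simp at this
  have hne1 : (![1, 0, 0] : Fin 3 → k) ≠ 0 := by
    intro h
    have := congrFun h 0
    simp at this
  refine (pencil n (mu D ![1, 0, 0]).dual (mu D ![0, 1, 0]).dual
    (mu_dual hLP _ hne1 n).1 (mu_dual hLP _ hne1 n).2 ?_).2
  intro μ
  have e : (mu D ![0, 1, 0]).dual.lin (mu D ![1, 0, 0]).dual μ =
      (mu D (![0, 1, 0] - μ • ![1, 0, 0])).dual := by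
    apply bhom_ext
    intro y
    apply Submodule.linearMap_qext
    apply LinearMap.ext
    intro m
    let y' : (shift (famW D)).bi.C →ₗ[k] k :=
      (show (Q (shift (famW D)) (botF D)).C →ₗ[k] k from y).comp (subm _ (botF D)).mkQ
    change y' ((mulB (D.l ![0, 1, 0]) (famW D) _ (l_mem _ _)).f m) -
      μ • y' ((mulB (D.l ![1, 0, 0]) (famW D) _ (l_mem _ _)).f m) =
      y' ((mulB (D.l (![0, 1, 0] - μ • ![1, 0, 0])) (famW D) _ (l_mem _ _)).f m)
    rw [← map_smul, ← map_sub]
    congr 1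
    apply Subtype.ext
    ext a b
    change D.l ![0, 1, 0] * _ - μ • (D.l ![1, 0, 0] * _) =
      D.l (![0, 1, 0] - μ • ![1, 0, 0]) * _
    rw [map_sub, map_smul, sub_mul, smul_mul_assoc]
  rw [e]
  exact (mu_dual hLP _ (hne μ) n).1

end main

/-- The quotient by the zero family. -/
noncomputable def toQ (F : Fam D) : BHom F.bi (Q F (botF D)) where
  f := (subm F (botF D)).mkQ
  hl := by intros; rfl
  hr := by intros; rfl

lemma toQ_bij (F : Fam D) : Function.Bijective (toQ F).f := by
  constructor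
  · intro x y hxy
    have h1 : x - y ∈ subm F (botF D) := (Submodule.Quotient.eq _).mp hxy
    apply ent_ext
    intro a b
    have h2 : ent F a b (x - y) = 0 := h1 a b
    rw [map_sub, sub_eq_zero] at h2
    exact h2
  · exact (subm F (botF D)).mkQ_surjective

end VM

open VM in
theorem van_M {k K : Type} [Field k] [Field K] [Algebra k K] (D : Datum k K)
    [CharZero k] [IsAlgClosed k] [FiniteDimensional k (AA D)]
    (hLP : ∀ p q : Fin 3 → k, Rel p q → ∀ n, Bi.Van n (homBi k (AA D) (LP D p) (LP D q)))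
    (n : ℕ) : Bi.Van n (MBi D).dual :=
  van_of_bij (toQ (famW D)).dual (dual_bij _ (toQ_bij _)) (fun m => van_Q hLP m) n

end Pool.Agent.N10.Han
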