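import Pool.Agent.N10.Han.Defs2

/-!
# Saturation and ranks of the spaces `W s t`
-/

open scoped WithZero
open Matrix

namespace Pool.Agent.N10.Han

namespace Datum

variable {k K : Type} [Field k] [CharZero k] [Field K] [Algebra k K] (D : Datum k K)

namespace Sat

open WithZero (exp)

/-! ### Relations -/

lemma three_ne (k K : Type) [Field k] [CharZero k] [Field K] [Algebra k K] : (3 : K) ≠ 0 := by
  have : CharZero K := charZero_of_injective_algebraMap (algebraMap k K).injective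
  norm_num

lemma two_ne (k K : Type) [Field k] [CharZero k] [Field K] [Algebra k K] : (2 : K) ≠ 0 := by
  have : CharZero K := charZero_of_injective_algebraMap (algebraMap k K).injective
  norm_num

omit [CharZero k] in
lemma mul_mono_right {M S T : Submodule k K} (h : S ≤ T) : M * S ≤ M * T :=
  Submodule.mul_le.2 fun _ hm _ hn => Submodule.mul_mem_mul hm (h hn)

lemma r4 : D.X * D.X' ^ 2 = 2 * (D.Y' + 1) := by
  have h : (3 : K) * (D.X * D.X' ^ 2 - 2 * (D.Y' + 1)) = 0 := by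
    linear_combination D.X' * D.r3 + (1 - D.Y') * D.r1 + 2 * D.r2
  have := (mul_eq_zero.1 h).resolve_left (three_ne k K)
  exact sub_eq_zero.1 this

lemma r5 : D.X ^ 2 * D.X' = - 2 * (D.Y - 1) := by
  have h := r4 D.swap
  simp only [swap] at h
  linear_combination h

lemma r6 : D.X' ^ 3 = D.Y' ^ 2 - 3 * D.X' ^ 2 - 1 := by
  have h : (2 : K) * (D.Y' ^ 2 - D.X' ^ 3 - 3 * D.X' ^ 2 - 1) = 0 := by
    linear_combination D.X' ^ 2 * D.r2 + (1 - D.Y') * r4 D
  have := (mul_eq_zero.1 h).resolve_left (two_ne k K)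
  linear_combination -this

/-! ### Spans -/

omit [CharZero k] in
lemma V_eq : D.V = Submodule.span k {1, D.X, D.Y} := by
  apply le_antisymm
  · rintro _ ⟨v, rfl⟩
    have h : D.l v = v 0 • (1 : K) + v 1 • D.X + v 2 • D.Y := by
      simp only [l, LinearMap.coe_mk, AddHom.coe_mk, Algebra.algebraMap_eq_smul_one]
    rw [h]
    refine add_mem (add_mem ?_ ?_) ?_ <;>
      exact Submodule.smul_mem _ _ (Submodule.subset_span (by simp))
  · rw [Submodule.span_le]
    rintro x (rfl | rfl | rfl)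
    · exact ⟨![1, 0, 0], by simp [l]⟩
    · exact ⟨![0, 1, 0], by simp [l]⟩
    · exact ⟨![0, 0, 1], by simp [l]⟩

omit [CharZero k] in
lemma V'_eq : D.V' = Submodule.span k {1, D.X', D.Y'} := by
  apply le_antisymm
  · rintro _ ⟨v, rfl⟩
    have h : D.r v = v 0 • (1 : K) + v 1 • D.X' + v 2 • D.Y' := by
      simp only [r, LinearMap.coe_mk, AddHom.coe_mk, Algebra.algebraMap_eq_smul_one]
    rw [h]
    refine add_mem (add_mem ?_ ?_) ?_ <;>
      exact Submodule.smul_mem _ _ (Submodule.subset_span (by simp))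
  · rw [Submodule.span_le]
    rintro x (rfl | rfl | rfl)
    · exact ⟨![1, 0, 0], by simp [r]⟩
    · exact ⟨![0, 1, 0], by simp [r]⟩
    · exact ⟨![0, 0, 1], by simp [r]⟩

omit [CharZero k] in
lemma one_V : (1 : K) ∈ D.V := by rw [V_eq]; exact Submodule.subset_span (by simp)
omit [CharZero k] in
lemma X_V : D.X ∈ D.V := by rw [V_eq]; exact Submodule.subset_span (by simp)
omit [CharZero k] in
lemma Y_V : D.Y ∈ D.V := by rw [V_eq]; exact Submodule.subset_span (by simp)
omit [CharZero k] in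
lemma one_V' : (1 : K) ∈ D.V' := by rw [V'_eq]; exact Submodule.subset_span (by simp)
omit [CharZero k] in
lemma X_V' : D.X' ∈ D.V' := by rw [V'_eq]; exact Submodule.subset_span (by simp)
omit [CharZero k] in
lemma Y_V' : D.Y' ∈ D.V' := by rw [V'_eq]; exact Submodule.subset_span (by simp)

omit [CharZero k] in
lemma V_mul_span {s : Set K} {T : Submodule k K}
    (h : ∀ x ∈ s, x ∈ T ∧ D.X * x ∈ T ∧ D.Y * x ∈ T) : D.V * Submodule.span k s ≤ T := by
  rw [V_eq, Submodule.span_mul_span, Submodule.span_le]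
  rintro _ ⟨a, ha, x, hx, rfl⟩
  obtain ⟨h1, h2, h3⟩ := h x hx
  rcases ha with rfl | rfl | rfl
  · simpa using h1
  · exact h2
  · exact h3

omit [CharZero k] in
lemma V'_mul_span {s : Set K} {T : Submodule k K}
    (h : ∀ x ∈ s, x ∈ T ∧ D.X' * x ∈ T ∧ D.Y' * x ∈ T) : D.V' * Submodule.span k s ≤ T := by
  rw [V'_eq, Submodule.span_mul_span, Submodule.span_le]
  rintro _ ⟨a, ha, x, hx, rfl⟩
  obtain ⟨h1, h2, h3⟩ := h x hx
  rcases ha with rfl | rfl | rfl
  · simpa using h1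
  · exact h2
  · exact h3

/-- The line spanned by `X X'`. -/
noncomputable def L : Submodule k K := Submodule.span k {D.X * D.X'}

omit [CharZero k] in
lemma XX_L : D.X * D.X' ∈ L D := Submodule.subset_span rfl

omit [CharZero k] in
lemma smul_nat_mem {T : Submodule k K} (n : ℕ) {x : K} (hx : x ∈ T) : (n : K) * x ∈ T := by
  have : (n : K) * x = n • x := by simp
  rw [this]
  exact nsmul_mem hx n

omit [CharZero k] in
lemma VV'_le : D.V * D.V' ≤ D.V ⊔ D.V' ⊔ L D := by
  have hV : D.V ≤ D.V ⊔ D.V' ⊔ L D := le_sup_of_le_left le_sup_left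
  have hV' : D.V' ≤ D.V ⊔ D.V' ⊔ L D := le_sup_of_le_left le_sup_right
  have hL : L D ≤ D.V ⊔ D.V' ⊔ L D := le_sup_right
  have one := hV (one_V D)
  have hX := hV (X_V D)
  have hY := hV (Y_V D)
  have hX' := hV' (X_V' D)
  have hY' := hV' (Y_V' D)
  have hXX := hL (XX_L D)
  conv_lhs => rw [V'_eq]
  apply V_mul_span
  rintro x (rfl | rfl | rfl)
  · refine ⟨one, ?_, ?_⟩
    · rwa [mul_one]
    · rwa [mul_one]
  · refine ⟨hX', hXX, ?_⟩
    have : D.Y * D.X' = -D.X' - ((2 : ℕ) : K) * D.X - ((6 : ℕ) : K) * 1 := by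
      push_cast; linear_combination D.r1
    rw [this]
    exact sub_mem (sub_mem (neg_mem hX') (smul_nat_mem _ hX)) (smul_nat_mem _ one)
  · refine ⟨hY', ?_, ?_⟩
    · have : D.X * D.Y' = D.X + ((2 : ℕ) : K) * D.X' + ((6 : ℕ) : K) * 1 := by
        push_cast; linear_combination D.r2
      rw [this]
      exact add_mem (add_mem hX (smul_nat_mem _ hX')) (smul_nat_mem _ one)
    · have : D.Y * D.Y' = D.Y - D.Y' - ((3 : ℕ) : K) * (D.X * D.X') - ((3 : ℕ) : K) * 1 := by
        push_cast; linear_combination D.r3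
      rw [this]
      exact sub_mem (sub_mem (sub_mem hY hY') (smul_nat_mem _ hXX)) (smul_nat_mem _ one)

omit [CharZero k] in
lemma le_V_mul (S : Submodule k K) : S ≤ D.V * S := by
  intro x hx
  have := Submodule.mul_mem_mul (one_V D) hx
  rwa [one_mul] at this

omit [CharZero k] in
lemma le_V'_mul (S : Submodule k K) : S ≤ D.V' * S := by
  intro x hx
  have := Submodule.mul_mem_mul (one_V' D) hx
  rwa [one_mul] at this

omit [CharZero k] in
lemma V_mono {a b : ℕ} (h : a ≤ b) : D.V ^ a ≤ D.V ^ b := by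
  induction b, h using Nat.le_induction with
  | base => exact le_rfl
  | succ b _ ih => rw [pow_succ']; exact ih.trans (le_V_mul D _)

omit [CharZero k] in
lemma V'_mono {a b : ℕ} (h : a ≤ b) : D.V' ^ a ≤ D.V' ^ b := by
  induction b, h using Nat.le_induction with
  | base => exact le_rfl
  | succ b _ ih => rw [pow_succ']; exact ih.trans (le_V'_mul D _)

omit [CharZero k] in
lemma one_V'_pow (t : ℕ) : (1 : K) ∈ D.V' ^ t := by
  have := V'_mono D (Nat.zero_le t)
  rw [pow_zero] at this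
  exact this (Submodule.one_le.1 le_rfl)

omit [CharZero k] in
lemma one_V_pow (t : ℕ) : (1 : K) ∈ D.V ^ t := by
  have := V_mono D (Nat.zero_le t)
  rw [pow_zero] at this
  exact this (Submodule.one_le.1 le_rfl)

lemma VL_le : D.V * L D ≤ D.V ^ 2 ⊔ L D := by
  have hXX : D.X * D.X' ∈ D.V ^ 2 ⊔ L D := (le_sup_right : L D ≤ D.V ^ 2 ⊔ L D) (XX_L D)
  have h2 : D.V ^ 2 ≤ D.V ^ 2 ⊔ L D := le_sup_left
  have h1 : D.V ≤ D.V ^ 2 ⊔ L D := by
    have := V_mono D (show 1 ≤ 2 by norm_num)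
    rw [pow_one] at this
    exact this.trans h2
  have hX2 : D.X * D.X ∈ D.V ^ 2 ⊔ L D := by
    apply h2
    rw [pow_two]
    exact Submodule.mul_mem_mul (X_V D) (X_V D)
  unfold L at *
  apply V_mul_span
  rintro x rfl
  refine ⟨hXX, ?_, ?_⟩
  · have : D.X * (D.X * D.X') = ((2 : ℕ) : K) * 1 - ((2 : ℕ) : K) * D.Y := by
      push_cast; linear_combination r5 D
    rw [this]
    exact sub_mem (smul_nat_mem _ (h1 (one_V D))) (smul_nat_mem _ (h1 (Y_V D)))
  · have : D.Y * (D.X * D.X') = - (D.X * D.X') - ((2 : ℕ) : K) * (D.X * D.X) -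
        ((6 : ℕ) : K) * D.X := by
      push_cast; linear_combination D.X * D.r1
    rw [this]
    exact sub_mem (sub_mem (neg_mem hXX) (smul_nat_mem _ hX2)) (smul_nat_mem _ (h1 (X_V D)))

lemma V'L_le : D.V' * L D ≤ D.V' ^ 2 ⊔ L D := by
  have hXX : D.X * D.X' ∈ D.V' ^ 2 ⊔ L D := (le_sup_right : L D ≤ D.V' ^ 2 ⊔ L D) (XX_L D)
  have h2 : D.V' ^ 2 ≤ D.V' ^ 2 ⊔ L D := le_sup_left
  have h1 : D.V' ≤ D.V' ^ 2 ⊔ L D := by
    have := V'_mono D (show 1 ≤ 2 by norm_num)
    rw [pow_one] at this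
    exact this.trans h2
  have hX2 : D.X' * D.X' ∈ D.V' ^ 2 ⊔ L D := by
    apply h2
    rw [pow_two]
    exact Submodule.mul_mem_mul (X_V' D) (X_V' D)
  unfold L at *
  apply V'_mul_span
  rintro x rfl
  refine ⟨hXX, ?_, ?_⟩
  · have : D.X' * (D.X * D.X') = ((2 : ℕ) : K) * 1 + ((2 : ℕ) : K) * D.Y' := by
      push_cast; linear_combination r4 D
    rw [this]
    exact add_mem (smul_nat_mem _ (h1 (one_V' D))) (smul_nat_mem _ (h1 (Y_V' D)))
  · have : D.Y' * (D.X * D.X') = (D.X * D.X') + ((2 : ℕ) : K) * (D.X' * D.X') +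
        ((6 : ℕ) : K) * D.X' := by
      push_cast; linear_combination D.X' * D.r2
    rw [this]
    exact add_mem (add_mem hXX (smul_nat_mem _ hX2)) (smul_nat_mem _ (h1 (X_V' D)))

lemma claim1 (t : ℕ) : D.V * D.V' ^ (t + 1) ≤ D.V ⊔ D.V' ^ (t + 1) ⊔ L D := by
  induction t with
  | zero => simpa using VV'_le D
  | succ t ih =>
    have e : D.V * D.V' ^ (t + 1 + 1) = D.V' * (D.V * D.V' ^ (t + 1)) := by
      rw [pow_succ']; ring
    rw [e]
    refine (mul_mono_right ih).trans ?_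
    rw [Submodule.mul_sup, Submodule.mul_sup, ← pow_succ']
    have h1 : D.V' ≤ D.V' ^ (t + 1 + 1) := by
      have := V'_mono D (show 1 ≤ t + 1 + 1 by omega)
      rwa [pow_one] at this
    have h2 : D.V' ^ 2 ≤ D.V' ^ (t + 1 + 1) := V'_mono D (by omega)
    refine sup_le (sup_le ?_ ?_) ?_
    · rw [mul_comm]
      refine (VV'_le D).trans ?_
      exact sup_le_sup_right (sup_le_sup_left h1 _) _
    · exact le_sup_of_le_left le_sup_right
    · refine (V'L_le D).trans ?_
      exact sup_le_sup_right (h2.trans le_sup_right) _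

lemma claim2 (s t : ℕ) :
    D.V ^ (s + 1) * D.V' ^ (t + 1) ≤ D.V ^ (s + 1) ⊔ D.V' ^ (t + 1) ⊔ L D := by
  induction s with
  | zero => simpa using claim1 D t
  | succ s ih =>
    have e : D.V ^ (s + 1 + 1) * D.V' ^ (t + 1) = D.V * (D.V ^ (s + 1) * D.V' ^ (t + 1)) := by
      rw [pow_succ']; ring
    rw [e]
    refine (mul_mono_right ih).trans ?_
    rw [Submodule.mul_sup, Submodule.mul_sup, ← pow_succ']
    have h1 : D.V ≤ D.V ^ (s + 1 + 1) := by
      have := V_mono D (show 1 ≤ s + 1 + 1 by omega)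
      rwa [pow_one] at this
    have h2 : D.V ^ 2 ≤ D.V ^ (s + 1 + 1) := V_mono D (by omega)
    refine sup_le (sup_le ?_ ?_) ?_
    · exact le_sup_of_le_left le_sup_left
    · refine (claim1 D t).trans ?_
      exact sup_le_sup_right (sup_le_sup_right h1 _) _
    · refine (VL_le D).trans ?_
      exact sup_le_sup_right (h2.trans le_sup_left) _

omit [CharZero k] in
lemma V_le_W (s t : ℕ) : D.V ^ s ≤ D.W s t := by
  intro x hx
  have := Submodule.mul_mem_mul hx (one_V'_pow D t)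
  rwa [mul_one] at this

omit [CharZero k] in
lemma V'_le_W (s t : ℕ) : D.V' ^ t ≤ D.W s t := by
  intro x hx
  have := Submodule.mul_mem_mul (one_V_pow D s) hx
  rwa [one_mul] at this

omit [CharZero k] in
lemma L_le_W (s t : ℕ) : L D ≤ D.W (s + 1) (t + 1) := by
  unfold L
  rw [Submodule.span_singleton_le_iff_mem]
  apply Submodule.mul_mem_mul
  · have := V_mono D (show 1 ≤ s + 1 by omega)
    rw [pow_one] at this
    exact this (X_V D)
  · have := V'_mono D (show 1 ≤ t + 1 by omega)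
    rw [pow_one] at this
    exact this (X_V' D)

omit [CharZero k] in
lemma W_mono (s t : ℕ) : D.W s t ≤ D.W s (t + 1) :=
  mul_mono_right (V'_mono D (Nat.le_succ t))

/-- (a2) -/
lemma V'_succ (u : ℕ) : D.V' ^ (u + 2) ≤ D.V' ^ (u + 1) ⊔
    Submodule.span k {D.X' ^ 2 * D.Y' ^ u, D.X' * D.Y' ^ (u + 1), D.Y' ^ (u + 2)} := by
  have hpow : ∀ n, D.Y' ^ n ∈ D.V' ^ n := fun n => Submodule.pow_mem_pow _ (Y_V' D) n
  induction u with
  | zero =>
    set T := D.V' ^ (0 + 1) ⊔
      Submodule.span k {D.X' ^ 2 * D.Y' ^ 0, D.X' * D.Y' ^ (0 + 1), D.Y' ^ (0 + 2)} with hT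
    have h1 : D.V' ≤ T := by
      rw [hT, zero_add, pow_one]; exact le_sup_left
    have h2 : ∀ x ∈ ({D.X' ^ 2 * D.Y' ^ 0, D.X' * D.Y' ^ (0 + 1), D.Y' ^ (0 + 2)} : Set K),
        x ∈ T := fun x hx => (le_sup_right : _ ≤ T) (Submodule.subset_span hx)
    have h3 := h2 (D.X' ^ 2 * D.Y' ^ 0) (by simp)
    have h4 := h2 (D.X' * D.Y' ^ (0 + 1)) (by simp)
    have h5 := h2 (D.Y' ^ (0 + 2)) (by simp)
    rw [zero_add, pow_two]
    conv_lhs => rhs; rw [V'_eq]
    apply V'_mul_span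
    rintro x (rfl | rfl | rfl)
    · refine ⟨h1 (one_V' D), ?_, ?_⟩
      · rw [mul_one]; exact h1 (X_V' D)
      · rw [mul_one]; exact h1 (Y_V' D)
    · refine ⟨h1 (X_V' D), ?_, ?_⟩
      · convert h3 using 1; ring
      · convert h4 using 1; ring
    · refine ⟨h1 (Y_V' D), ?_, ?_⟩
      · convert h4 using 1; ring
      · convert h5 using 1; ring
  | succ u ih =>
    set T := D.V' ^ (u + 1 + 1) ⊔ Submodule.span k
      {D.X' ^ 2 * D.Y' ^ (u + 1), D.X' * D.Y' ^ (u + 1 + 1), D.Y' ^ (u + 1 + 2)} with hT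
    have h1 : D.V' ^ (u + 1 + 1) ≤ T := le_sup_left
    have h2 : ∀ x ∈ ({D.X' ^ 2 * D.Y' ^ (u + 1), D.X' * D.Y' ^ (u + 1 + 1),
        D.Y' ^ (u + 1 + 2)} : Set K), x ∈ T :=
      fun x hx => (le_sup_right : _ ≤ T) (Submodule.subset_span hx)
    have h3 := h2 (D.X' ^ 2 * D.Y' ^ (u + 1)) (by simp)
    have h4 := h2 (D.X' * D.Y' ^ (u + 1 + 1)) (by simp)
    have h5 := h2 (D.Y' ^ (u + 1 + 2)) (by simp)
    have e : D.V' ^ (u + 1 + 2) = D.V' * D.V' ^ (u + 2) := by ring
    rw [e]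
    refine (mul_mono_right ih).trans ?_
    rw [Submodule.mul_sup, ← pow_succ']
    refine sup_le h1 ?_
    apply V'_mul_span
    have m1 : D.X' ^ 2 * D.Y' ^ u ∈ D.V' ^ (u + 2) := by
      rw [add_comm u 2, pow_add D.V']
      exact Submodule.mul_mem_mul (Submodule.pow_mem_pow _ (X_V' D) 2) (hpow u)
    have m2 : D.X' * D.Y' ^ (u + 1) ∈ D.V' ^ (u + 2) := by
      rw [pow_succ' D.V' (u + 1)]
      exact Submodule.mul_mem_mul (X_V' D) (hpow (u + 1))
    rintro x (rfl | rfl | rfl)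
    · refine ⟨h1 m1, ?_, ?_⟩
      · have e1 : D.X' * (D.X' ^ 2 * D.Y' ^ u) = D.Y' ^ (u + 2) -
            ((3 : ℕ) : K) * (D.X' ^ 2 * D.Y' ^ u) - D.Y' ^ u := by
          push_cast; linear_combination D.Y' ^ u * r6 D
        rw [e1]
        exact sub_mem (sub_mem (h1 (hpow (u + 2))) (smul_nat_mem _ (h1 m1)))
          (h1 (V'_mono D (by omega) (hpow u)))
      · convert h3 using 1; ring
    · refine ⟨h1 m2, ?_, ?_⟩
      · convert h3 using 1; ring
      · convert h4 using 1; ring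
    · refine ⟨h1 (hpow (u + 2)), ?_, ?_⟩
      · convert h4 using 1
      · convert h5 using 1; ring

/-! ### Valuations -/

/-- balls -/
def ball (w : Valuation K ℤᵐ⁰) (hw : ∀ a : k, a ≠ 0 → w (algebraMap k K a) = 1) (m : ℤ) :
    Submodule k K where
  carrier := {x | w x ≤ exp m}
  zero_mem' := by
    show w 0 ≤ _
    rw [map_zero]; exact zero_le
  add_mem' := fun {a b} ha hb => w.map_add_le ha hb
  smul_mem' := fun c x hx => by
    show w (c • x) ≤ _
    by_cases hc : c = 0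
    · rw [hc, zero_smul, map_zero]; exact zero_le
    · rw [Algebra.smul_def, map_mul, hw c hc, one_mul]; exact hx

variable {w : Valuation K ℤᵐ⁰} {hw : ∀ a : k, a ≠ 0 → w (algebraMap k K a) = 1}

omit [CharZero k] in
lemma ball_mul {m n : ℤ} {S T : Submodule k K} (hS : S ≤ ball w hw m) (hT : T ≤ ball w hw n) :
    S * T ≤ ball w hw (m + n) := by
  rw [Submodule.mul_le]
  intro x hx y hy
  show w (x * y) ≤ _
  rw [map_mul, WithZero.exp_add]
  exact mul_le_mul' (hS hx) (hT hy)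

omit [CharZero k] in
lemma ball_one : (1 : Submodule k K) ≤ ball w hw 0 := by
  rw [Submodule.one_le]
  show w 1 ≤ _
  rw [map_one, WithZero.exp_zero]

omit [CharZero k] in
lemma ball_pow {m : ℤ} {S : Submodule k K} (hS : S ≤ ball w hw m) (n : ℕ) :
    S ^ n ≤ ball w hw (n * m) := by
  induction n with
  | zero => simpa using ball_one
  | succ n ih =>
    rw [pow_succ]
    have := ball_mul ih hS
    convert this using 2
    push_cast; ring

omit [CharZero k] in
lemma V_ball : D.V ≤ ball D.v' D.v'k 0 := by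
  rw [V_eq, Submodule.span_le]
  rintro x (rfl | rfl | rfl)
  · show D.v' 1 ≤ _
    rw [map_one, WithZero.exp_zero]
  · show D.v' D.X ≤ _
    rw [D.v'X, WithZero.exp_le_exp]; norm_num
  · show D.v' D.Y ≤ _
    rw [WithZero.exp_zero]; exact D.v'Y

omit [CharZero k] in
lemma V'_ball : D.V' ≤ ball D.v' D.v'k 3 := by
  rw [V'_eq, Submodule.span_le]
  rintro x (rfl | rfl | rfl)
  · show D.v' 1 ≤ _
    rw [map_one, ← WithZero.exp_zero, WithZero.exp_le_exp]; norm_num
  · show D.v' D.X' ≤ _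
    rw [D.v'X', WithZero.exp_le_exp]; norm_num
  · show D.v' D.Y' ≤ _
    rw [D.v'Y']

omit [CharZero k] in
lemma W_ball (s t : ℕ) : D.W s t ≤ ball D.v' D.v'k (3 * t) := by
  have := ball_mul (ball_pow (V_ball D) s) (ball_pow (V'_ball D) t)
  rwa [show (s : ℤ) * 0 + (t : ℤ) * 3 = 3 * t by ring] at this

omit [CharZero k] in
lemma comb (hw : ∀ a : k, a ≠ 0 → w (algebraMap k K a) = 1) {m : ℤ} {x e1 e2 e3 : K}
    (hx : w x ≤ exp m) (h1 : w e1 = exp (m + 1)) (h2 : w e2 = exp (m + 2))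
    (h3 : w e3 = exp (m + 3)) {a b c : k}
    (h : w (x + a • e1 + b • e2 + c • e3) ≤ exp m) : a = 0 ∧ b = 0 ∧ c = 0 := by
  have hs : ∀ (c : k) (y : K), c ≠ 0 → w (c • y) = w y := fun c y hc => by
    rw [Algebra.smul_def, map_mul, hw c hc, one_mul]
  have hs' : ∀ (c : k) (y : K), w (c • y) ≤ w y := fun c y => by
    by_cases hc : c = 0
    · rw [hc, zero_smul, map_zero]; exact zero_le
    · exact (hs c y hc).le
  have b1 : w (x + a • e1) ≤ exp (m + 1) := by
    refine w.map_add_le (hx.trans ?_) ((hs' a e1).trans h1.le)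
    rw [WithZero.exp_le_exp]; omega
  have b2 : w (x + a • e1 + b • e2) ≤ exp (m + 2) := by
    refine w.map_add_le (b1.trans ?_) ((hs' b e2).trans h2.le)
    rw [WithZero.exp_le_exp]; omega
  have hc : c = 0 := by
    by_contra hc
    have h4 : w (x + a • e1 + b • e2) < w (c • e3) := by
      rw [hs c e3 hc, h3]
      refine b2.trans_lt ?_
      rw [WithZero.exp_lt_exp]; omega
    rw [w.map_add_eq_of_lt_right h4, hs c e3 hc, h3, WithZero.exp_le_exp] at h
    omega
  rw [hc, zero_smul, add_zero] at h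
  have hb : b = 0 := by
    by_contra hb
    have h4 : w (x + a • e1) < w (b • e2) := by
      rw [hs b e2 hb, h2]
      refine b1.trans_lt ?_
      rw [WithZero.exp_lt_exp]; omega
    rw [w.map_add_eq_of_lt_right h4, hs b e2 hb, h2, WithZero.exp_le_exp] at h
    omega
  rw [hb, zero_smul, add_zero] at h
  have ha : a = 0 := by
    by_contra ha
    have h4 : w x < w (a • e1) := by
      rw [hs a e1 ha, h1]
      refine hx.trans_lt ?_
      rw [WithZero.exp_lt_exp]; omega
    rw [w.map_add_eq_of_lt_right h4, hs a e1 ha, h1, WithZero.exp_le_exp] at h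
    omega
  exact ⟨ha, hb, hc⟩

omit [CharZero k] in
lemma mem_of_ball (hw : ∀ a : k, a ≠ 0 → w (algebraMap k K a) = 1) {m : ℤ}
    {S T : Submodule k K} {e1 e2 e3 : K}
    (hS : S ≤ ball w hw m) (h1 : w e1 = exp (m + 1)) (h2 : w e2 = exp (m + 2))
    (h3 : w e3 = exp (m + 3)) (hT : T ≤ S ⊔ Submodule.span k {e1, e2, e3}) {h : K}
    (hh : h ∈ T) (hm : w h ≤ exp m) : h ∈ S := by
  obtain ⟨x, hx, y, hy, rfl⟩ := Submodule.mem_sup.1 (hT hh)
  obtain ⟨a, b, c, rfl⟩ := Submodule.mem_span_triple.1 hy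
  have e : x + (a • e1 + b • e2 + c • e3) = x + a • e1 + b • e2 + c • e3 := by abel
  rw [e] at hm ⊢
  obtain ⟨rfl, rfl, rfl⟩ := comb hw (hS hx) h1 h2 h3 hm
  simpa using hx

omit [CharZero k] in
lemma rank_of (hw : ∀ a : k, a ≠ 0 → w (algebraMap k K a) = 1) {m : ℤ}
    {S T : Submodule k K} {e1 e2 e3 : K}
    (hS : S ≤ ball w hw m) (h1 : w e1 = exp (m + 1)) (h2 : w e2 = exp (m + 2))
    (h3 : w e3 = exp (m + 3)) (hT : T ≤ S ⊔ Submodule.span k {e1, e2, e3}) (hST : S ≤ T)
    (m1 : e1 ∈ T) (m2 : e2 ∈ T) (m3 : e3 ∈ T) [Module.Finite k S] :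
    Module.finrank k T = Module.finrank k S + 3 := by
  let φ : (S × (Fin 3 → k)) →ₗ[k] K :=
    LinearMap.coprod S.subtype (Fintype.linearCombination k ![e1, e2, e3])
  have hφ : ∀ (x : S) (c : Fin 3 → k), φ (x, c) = x + c 0 • e1 + c 1 • e2 + c 2 • e3 := by
    intro x c
    simp only [φ, LinearMap.coprod_apply, Submodule.subtype_apply,
      Fintype.linearCombination_apply, Fin.sum_univ_three]
    simp [add_assoc]
  have hinj : Function.Injective φ := by
    rw [← LinearMap.ker_eq_bot, LinearMap.ker_eq_bot']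
    rintro ⟨x, c⟩ hx
    rw [hφ] at hx
    obtain ⟨ha, hb, hc⟩ := comb hw (hS x.2) h1 h2 h3 (a := c 0) (b := c 1) (c := c 2)
      (by rw [hx, map_zero]; exact zero_le)
    rw [ha, hb, hc] at hx
    have h0 : c = 0 := by
      funext i
      fin_cases i
      · exact ha
      · exact hb
      · exact hc
    have h5 : (x : K) = 0 := by simpa using hx
    rw [h0]
    exact Prod.ext (Subtype.ext h5) rfl
  have hrange : LinearMap.range φ = T := by
    apply le_antisymm
    · rintro _ ⟨⟨x, c⟩, rfl⟩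
      rw [hφ]
      exact add_mem (add_mem (add_mem (hST x.2) (T.smul_mem _ m1)) (T.smul_mem _ m2))
        (T.smul_mem _ m3)
    · intro h hh
      obtain ⟨x, hx, y, hy, rfl⟩ := Submodule.mem_sup.1 (hT hh)
      obtain ⟨a, b, c, rfl⟩ := Submodule.mem_span_triple.1 hy
      refine ⟨(⟨x, hx⟩, ![a, b, c]), ?_⟩
      rw [hφ]
      simp [add_assoc]
  rw [← hrange, LinearMap.finrank_range_of_inj hinj, Module.finrank_prod, Module.finrank_fin_fun]

lemma tops (s t : ℕ) : ∃ e1 e2 e3 : K, D.v' e1 = exp (3 * (t : ℤ) + 1) ∧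
    D.v' e2 = exp (3 * (t : ℤ) + 2) ∧ D.v' e3 = exp (3 * (t : ℤ) + 3) ∧
    e1 ∈ D.W (s + 1) (t + 1) ∧ e2 ∈ D.W (s + 1) (t + 1) ∧ e3 ∈ D.W (s + 1) (t + 1) ∧
    D.W (s + 1) (t + 1) ≤ D.W (s + 1) t ⊔ Submodule.span k {e1, e2, e3} := by
  have hpow : ∀ n, D.Y' ^ n ∈ D.V' ^ n := fun n => Submodule.pow_mem_pow _ (Y_V' D) n
  have vpow : ∀ n : ℕ, D.v' (D.Y' ^ n) = exp (3 * (n : ℤ)) := by
    intro n
    rw [map_pow, D.v'Y', ← WithZero.exp_nsmul]
    congr 1
    simp [mul_comm]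
  cases t with
  | zero =>
    refine ⟨D.X * D.X', D.X', D.Y', ?_, ?_, ?_, ?_, ?_, ?_, ?_⟩
    · rw [map_mul, D.v'X, D.v'X', ← WithZero.exp_add]; rfl
    · rw [D.v'X']; rfl
    · rw [D.v'Y']; rfl
    · exact L_le_W D s 0 (XX_L D)
    · apply V'_le_W; rw [zero_add, pow_one]; exact X_V' D
    · apply V'_le_W; rw [zero_add, pow_one]; exact Y_V' D
    · refine (claim2 D s 0).trans ?_
      refine sup_le (sup_le ?_ ?_) ?_
      · exact (V_le_W D _ _).trans le_sup_left
      · rw [zero_add, pow_one, V'_eq, Submodule.span_le]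
        rintro x (rfl | rfl | rfl)
        · exact (le_sup_left : D.W (s + 1) 0 ≤ _) (V_le_W D _ _ (one_V_pow D _))
        · exact (le_sup_right : _ ≤ D.W (s + 1) 0 ⊔ _) (Submodule.subset_span (by simp))
        · exact (le_sup_right : _ ≤ D.W (s + 1) 0 ⊔ _) (Submodule.subset_span (by simp))
      · unfold L
        rw [Submodule.span_singleton_le_iff_mem]
        exact (le_sup_right : _ ≤ D.W (s + 1) 0 ⊔ _) (Submodule.subset_span (by simp))
  | succ u =>
    refine ⟨D.X' ^ 2 * D.Y' ^ u, D.X' * D.Y' ^ (u + 1), D.Y' ^ (u + 2), ?_, ?_, ?_, ?_, ?_, ?_, ?_⟩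
    · rw [map_mul, vpow, map_pow, D.v'X', ← WithZero.exp_nsmul, ← WithZero.exp_add]
      congr 1
      push_cast; simp; ring
    · rw [map_mul, vpow, D.v'X', ← WithZero.exp_add]
      congr 1
      push_cast; ring
    · rw [vpow]
      congr 1
    · apply V'_le_W
      rw [show u + 1 + 1 = 2 + u by ring, pow_add D.V']
      exact Submodule.mul_mem_mul (Submodule.pow_mem_pow _ (X_V' D) 2) (hpow u)
    · apply V'_le_W
      rw [pow_succ' D.V' (u + 1)]
      exact Submodule.mul_mem_mul (X_V' D) (hpow (u + 1))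
    · apply V'_le_W
      exact hpow (u + 2)
    · refine (claim2 D s (u + 1)).trans ?_
      refine sup_le (sup_le ?_ ?_) ?_
      · exact (V_le_W D _ _).trans le_sup_left
      · refine (V'_succ D u).trans ?_
        exact sup_le_sup_right (V'_le_W D _ _) _
      · exact (L_le_W D _ _).trans le_sup_left

instance finite_V : Module.Finite k D.V := by unfold V; infer_instance
instance finite_V' : Module.Finite k D.V' := by unfold V'; infer_instance

omit [CharZero k] in
lemma finite_W (s t : ℕ) : Module.Finite k (D.W s t) := by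
  rw [Module.Finite.iff_fg]
  have h1 : D.V.FG := by
    rw [V_eq]; exact Submodule.fg_span (Set.toFinite _)
  have h2 : D.V'.FG := by
    rw [V'_eq]; exact Submodule.fg_span (Set.toFinite _)
  exact Submodule.FG.mul (h1.pow s) (h2.pow t)

theorem sat_t (s t : ℕ) (h : K) (hh : ∀ v, D.r v * h ∈ D.W (s + 1) (t + 1)) :
    h ∈ D.W (s + 1) t := by
  obtain ⟨e1, e2, e3, h1, h2, h3, -, -, -, hle⟩ := tops D s t
  have ha : h ∈ D.W (s + 1) (t + 1) := by
    have := hh ![1, 0, 0]
    have e : D.r ![1, 0, 0] = 1 := by simp [r]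
    rwa [e, one_mul] at this
  have hb : D.v' (D.Y' * h) ≤ exp (3 * ((t + 1 : ℕ) : ℤ)) := by
    have := hh ![0, 0, 1]
    have e : D.r ![0, 0, 1] = D.Y' := by simp [r]
    rw [e] at this
    exact W_ball D _ _ this
  refine mem_of_ball D.v'k (W_ball D _ _) h1 h2 h3 hle ha ?_
  rw [map_mul, D.v'Y'] at hb
  have e : exp (3 * ((t + 1 : ℕ) : ℤ)) = exp (3 : ℤ) * exp (3 * (t : ℤ)) := by
    rw [← WithZero.exp_add]; congr 1; push_cast; ring
  rw [e] at hb
  exact (mul_le_mul_iff_right₀ WithZero.exp_pos).1 hb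

theorem rank_t (s t : ℕ) :
    Module.finrank k (D.W (s + 1) (t + 1)) = Module.finrank k (D.W (s + 1) t) + 3 := by
  obtain ⟨e1, e2, e3, h1, h2, h3, m1, m2, m3, hle⟩ := tops D s t
  have := finite_W D (s + 1) t
  exact rank_of D.v'k (W_ball D _ _) h1 h2 h3 hle (W_mono D _ _) m1 m2 m3

/-! ### Swap -/

omit [CharZero k] in
lemma swap_l (v : Fin 3 → k) : D.swap.l v = D.r ![v 0, v 1, - v 2] := by
  simp [l, r, swap]

omit [CharZero k] in
lemma swap_r (v : Fin 3 → k) : D.swap.r v = D.l ![v 0, v 1, - v 2] := by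
  simp [l, r, swap]

omit [CharZero k] in
lemma swap_V : D.swap.V = D.V' := by
  apply le_antisymm
  · rintro _ ⟨v, rfl⟩
    rw [swap_l]
    exact ⟨_, rfl⟩
  · rintro _ ⟨v, rfl⟩
    refine ⟨![v 0, v 1, - v 2], ?_⟩
    rw [swap_l]
    congr 1
    funext i
    fin_cases i <;> simp

omit [CharZero k] in
lemma swap_V' : D.swap.V' = D.V := by
  apply le_antisymm
  · rintro _ ⟨v, rfl⟩
    rw [swap_r]
    exact ⟨_, rfl⟩
  · rintro _ ⟨v, rfl⟩
    refine ⟨![v 0, v 1, - v 2], ?_⟩
    rw [swap_r]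
    congr 1
    funext i
    fin_cases i <;> simp

omit [CharZero k] in
lemma swap_W (s t : ℕ) : D.swap.W s t = D.W t s := by
  unfold W
  rw [swap_V, swap_V', mul_comm]

end Sat

theorem sat_t (s t : ℕ) (hs : 1 ≤ s) (h : K) (hh : ∀ v, D.r v * h ∈ D.W s (t + 1)) :
    h ∈ D.W s t := by
  obtain ⟨s, rfl⟩ : ∃ u, s = u + 1 := ⟨s - 1, by omega⟩
  exact Sat.sat_t D s t h hh

open Datum.Sat in
theorem sat_s (s t : ℕ) (ht : 1 ≤ t) (h : K) (hh : ∀ v, D.l v * h ∈ D.W (s + 1) t) :
    h ∈ D.W s t := by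
  rw [← swap_W]
  apply sat_t D.swap t s ht
  intro v
  rw [swap_r, swap_W]
  exact hh _

open Datum.Sat in
theorem rank_s (s t : ℕ) (hs : 1 ≤ s) (ht : 1 ≤ t) :
    Module.finrank k (D.W (s + 2) t) + Module.finrank k (D.W s t) =
      2 * Module.finrank k (D.W (s + 1) t) := by
  obtain ⟨t, rfl⟩ : ∃ u, t = u + 1 := ⟨t - 1, by omega⟩
  have h1 := rank_t D.swap t s
  have h2 := rank_t D.swap t (s + 1)
  rw [swap_W, swap_W] at h1 h2
  rw [show s + 2 = s + 1 + 1 from rfl, h2, h1]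
  ring

open WithZero in
theorem low (h : K) (hh : h ∈ D.V') (h0 : h ≠ 0) : WithZero.exp (-2) ≤ D.v h := by
  have hX : D.X ≠ 0 := by
    intro h
    have := D.vX
    rw [h, map_zero] at this
    exact WithZero.exp_ne_zero this.symm
  have n2 : D.v (2 : K) = 1 := by
    have := D.vk 2 two_ne_zero
    rwa [map_ofNat] at this
  have n3 : D.v (3 : K) = 1 := by
    have := D.vk 3 three_ne_zero
    rwa [map_ofNat] at this
  have h1 : D.v (D.X' + 3) = 1 := by
    rw [D.v.map_add_eq_of_lt_right, n3]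
    rw [n3, D.vX', ← WithZero.exp_zero, WithZero.exp_lt_exp]
    norm_num
  have h2 : D.v (D.Y' - 1) = exp (-2) := by
    have e : D.X * (D.Y' - 1) = 2 * (D.X' + 3) := by linear_combination D.r2
    have e1 := congrArg D.v e
    rw [map_mul, map_mul, D.vX, n2, h1, one_mul] at e1
    have e2 : exp (2 : ℤ) * exp (-2 : ℤ) = 1 := by
      rw [← WithZero.exp_add]; rfl
    rw [← e2] at e1
    exact mul_left_cancel₀ WithZero.exp_ne_zero e1
  obtain ⟨u, rfl⟩ := hh
  have hs : ∀ (c : k) (y : K), c ≠ 0 → D.v (c • y) = D.v y := fun c y hc => by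
    rw [Algebra.smul_def, map_mul, D.vk c hc, one_mul]
  have hs' : ∀ (c : k) (y : K), D.v (c • y) ≤ D.v y := fun c y => by
    by_cases hc : c = 0
    · rw [hc, zero_smul, map_zero]; exact zero_le
    · exact (hs c y hc).le
  have e : D.r u = u 2 • (D.Y' - 1) + u 1 • D.X' + (u 0 + u 2) • (1 : K) := by
    simp only [r, LinearMap.coe_mk, AddHom.coe_mk, Algebra.algebraMap_eq_smul_one, smul_sub,
      add_smul]
    abel
  rw [e] at h0 ⊢
  by_cases ha : u 0 + u 2 = 0
  · rw [ha, zero_smul, add_zero] at h0 ⊢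
    by_cases hb : u 1 = 0
    · rw [hb, zero_smul, add_zero] at h0 ⊢
      have hc : u 2 ≠ 0 := fun h => h0 (by rw [h, zero_smul])
      rw [hs _ _ hc, h2]
    · have : D.v (u 2 • (D.Y' - 1)) < D.v (u 1 • D.X') := by
        rw [hs _ _ hb, D.vX']
        refine (hs' _ _).trans_lt ?_
        rw [h2, WithZero.exp_lt_exp]; norm_num
      rw [D.v.map_add_eq_of_lt_right this, hs _ _ hb, D.vX', WithZero.exp_le_exp]
      norm_num
  · have : D.v (u 2 • (D.Y' - 1) + u 1 • D.X') < D.v ((u 0 + u 2) • (1 : K)) := by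
      rw [hs _ _ ha, map_one, ← WithZero.exp_zero]
      apply D.v.map_add_lt
      · refine (hs' _ _).trans_lt ?_
        rw [h2, WithZero.exp_lt_exp]; norm_num
      · refine (hs' _ _).trans_lt ?_
        rw [D.vX', WithZero.exp_lt_exp]; norm_num
    rw [D.v.map_add_eq_of_lt_right this, hs _ _ ha, map_one, ← WithZero.exp_zero,
      WithZero.exp_le_exp]
    norm_num

end Datum

end Pool.Agent.N10.Han
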