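import Pool.Agent.N10.Han.Bim
import Pool.Agent.N10.Han.Sat

/-!
# Vanishing for the regular bimodule
-/

open scoped WithZero
open Matrix

namespace Pool.Agent.N10.Han

variable {k K : Type} [Field k] [Field K] [Algebra k K] (D : Datum k K)

namespace VanReg

open Bi

/-! ### Generalities on bimodules -/

section gen

variable {A : Type} [Ring A] [Algebra k A]

/-- The zero bimodule. -/
def zeroBi (k A : Type) [Field k] [Ring A] [Algebra k A] : Bi k A where
  C := PUnit
  l := 0
  r := 0
  l_mul := fun _ _ _ => rfl
  r_mul := fun _ _ _ => rfl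
  comm := fun _ _ _ => rfl

theorem van_of_subsingleton (Y : Bi k A) [Subsingleton Y.C] (n : ℕ) : Van (n + 1) Y :=
  Star.van ⟨0, fun _ _ => Subsingleton.elim _ _, fun _ _ => Subsingleton.elim _ _⟩ n

theorem van_of_iso (n : ℕ) {Y Z : Bi k A} (φ : BHom Y Z) (hb : Function.Bijective φ.f)
    (h : Van (n + 1) Y) : Van (n + 1) Z := by
  let S : Ses Y Z (zeroBi k A) :=
    { i := φ
      p := { f := 0
             hl := fun _ _ => rfl
             hr := fun _ _ => rfl }
      inj := hb.1
      surj := fun x => ⟨0, rfl⟩
      zero := fun _ => rfl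
      exact := fun y _ => hb.2 y }
  have : Subsingleton (zeroBi k A).C := inferInstanceAs (Subsingleton PUnit)
  exact S.van_mid (n + 1) h (van_of_subsingleton _ n)

theorem dual_bij {X Y : Bi k A} (φ : BHom X Y) (hb : Function.Bijective φ.f) :
    Function.Bijective φ.dual.f := by
  let e : X.C ≃ₗ[k] Y.C := LinearEquiv.ofBijective φ.f hb
  constructor
  · intro f g h
    apply LinearMap.ext
    intro y
    obtain ⟨x, rfl⟩ := hb.2 y
    exact LinearMap.congr_fun h x
  · intro g
    refine ⟨(show X.C →ₗ[k] k from g) ∘ₗ e.symm.toLinearMap, ?_⟩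
    apply LinearMap.ext
    intro x
    change (show X.C →ₗ[k] k from g) (e.symm (e x)) = _
    rw [LinearEquiv.symm_apply_apply]

end gen

/-! ### Twisted bimodules -/

/-- `(s, x) ↦ (s, 0)` -/
noncomputable def piT : TT D →ₐ[k] TT D :=
  AlgHom.ofLinearMap
    { toFun := fun e => ⟨e.s, 0⟩
      map_add' := by intro a b; ext <;> simp
      map_smul' := by intro c a; ext <;> simp }
    (by rfl) (by intro a b; ext <;> simp)

@[simp] lemma piT_apply (e : TT D) : piT D e = ⟨e.s, 0⟩ := rfl

/-- `(s, x) ↦ (s, 0)` entrywise -/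
noncomputable def piA : AA D →ₐ[k] AA D :=
  ((piT D).mapMatrix.comp (AA D).val).codRestrict (AA D) (by
    intro a i j
    exact ⟨(a.2 i j).1, Submodule.zero_mem _⟩)

lemma piA_apply (a : AA D) (i j : Fin 3) : (piA D a).1 i j = ⟨(a.1 i j).s, 0⟩ := rfl

/-- The algebra as a bimodule with twisted right action. -/
noncomputable def tw (ρ : AA D →ₐ[k] AA D) : Bi k (AA D) where
  C := AA D
  l := LinearMap.mul k (AA D)
  r := (LinearMap.mul k (AA D)).flip ∘ₗ ρ.toLinearMap
  l_mul := by intro a b y; simp [mul_assoc]
  r_mul := by intro a b y; simp [mul_assoc]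
  comm := by intro a b y; simp [mul_assoc]

lemma tw_l (ρ : AA D →ₐ[k] AA D) (a x : AA D) : (tw D ρ).l a x = a * x := rfl

lemma tw_r (ρ : AA D →ₐ[k] AA D) (a x : AA D) : (tw D ρ).r a x = x * ρ a := rfl

lemma tw_id : tw D (AlgHom.id k (AA D)) = regBi k (AA D) := rfl

/-- Matrices of polynomials. -/
noncomputable def LamS (k : Type) [Field k] : Submodule k (Matrix (Fin 3) (Fin 3) (PS k)) where
  carrier := {m | ∀ a b : Fin 3, m a b ∈ PP k a b}
  add_mem' := by intro x y hx hy a b; exact Submodule.add_mem _ (hx a b) (hy a b)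
  zero_mem' := fun a b => Submodule.zero_mem _
  smul_mem' := by intro c x hx a b; exact Submodule.smul_mem _ c (hx a b)

lemma LamS_mul {m n : Matrix (Fin 3) (Fin 3) (PS k)} (hm : m ∈ LamS k) (hn : n ∈ LamS k) :
    m * n ∈ LamS k := by
  intro i j
  rw [Matrix.mul_apply]
  exact Submodule.sum_mem _ fun c _ => PP_mul (hm i c) (hn c j)

lemma sM_mem (a : AA D) : sM D a ∈ LamS k := fun i j => (a.2 i j).1

/-- The bimodule of matrices of polynomials. -/
noncomputable def Lam : Bi k (AA D) where
  C := LamS k
  l := LinearMap.mk₂ k (fun a m => (⟨sM D a * m.1, LamS_mul (sM_mem D a) m.2⟩ : LamS k))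
    (by intro a b m; apply Subtype.ext; simp [add_mul])
    (by intro c a m; apply Subtype.ext; simp)
    (by intro a m n; apply Subtype.ext; simp [mul_add])
    (by intro c a m; apply Subtype.ext; simp)
  r := LinearMap.mk₂ k (fun a m => (⟨m.1 * sM D a, LamS_mul m.2 (sM_mem D a)⟩ : LamS k))
    (by intro a b m; apply Subtype.ext; simp [mul_add])
    (by intro c a m; apply Subtype.ext; simp)
    (by intro a m n; apply Subtype.ext; simp [add_mul])
    (by intro c a m; apply Subtype.ext; simp)
  l_mul := by intro a b m; apply Subtype.ext; simp [mul_assoc]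
  r_mul := by intro a b m; apply Subtype.ext; simp [mul_assoc]
  comm := by intro a b m; apply Subtype.ext; simp [mul_assoc]

lemma AA_ext {x y : AA D} (h : ∀ i j, x.1 i j = y.1 i j) : x = y :=
  Subtype.ext (Matrix.ext h)

/-- Inclusion of `M`. -/
noncomputable def inM : (famW D).mat →ₗ[k] AA D where
  toFun m := ⟨Matrix.of fun i j => ⟨0, m.1 i j⟩, fun i j => ⟨Submodule.zero_mem _, m.2 i j⟩⟩
  map_add' x y := by
    apply AA_ext
    intro i j
    apply TT.ext
    · change (0 : PS k) = 0 + 0; rw [add_zero]
    · rfl
  map_smul' c x := by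
    apply AA_ext
    intro i j
    apply TT.ext
    · change (0 : PS k) = c • 0; rw [smul_zero]
    · rfl

lemma inM_apply (m : (famW D).mat) (i j : Fin 3) : (inM D m).1 i j = ⟨0, m.1 i j⟩ := rfl

lemma inM_l (a : AA D) (m : (famW D).mat) :
    inM D ⟨lM D a * m.1, (famW D).lM_mul_mem a m.2⟩ = a * inM D m := by
  apply AA_ext
  intro i j
  have h : (a * inM D m).1 i j = ∑ c, a.1 i c * (inM D m).1 c j := Matrix.mul_apply
  rw [h, inM_apply]
  apply TT.ext
  · rw [TT.sum_s]
    change (0 : PS k) = _
    rw [Finset.sum_eq_zero]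
    intro c _
    rw [TT.mul_s, inM_apply, mul_zero]
  · rw [TT.sum_x]
    change (lM D a * m.1) i j = _
    rw [Matrix.mul_apply]
    refine Finset.sum_congr rfl fun c _ => ?_
    rw [TT.mul_x, inM_apply, map_zero, mul_zero, add_zero, lM_apply]

lemma inM_r (ρ : AA D →ₐ[k] AA D) (hρ : ∀ a, sM D (ρ a) = sM D a) (a : AA D)
    (m : (famW D).mat) :
    inM D ⟨m.1 * rM D a, (famW D).mul_rM_mem a m.2⟩ = inM D m * ρ a := by
  apply AA_ext
  intro i j
  have h : (inM D m * ρ a).1 i j = ∑ c, (inM D m).1 i c * (ρ a).1 c j := Matrix.mul_apply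
  rw [h, inM_apply]
  apply TT.ext
  · rw [TT.sum_s]
    change (0 : PS k) = _
    rw [Finset.sum_eq_zero]
    intro c _
    rw [TT.mul_s, inM_apply, zero_mul]
  · rw [TT.sum_x]
    change (m.1 * rM D a) i j = _
    rw [Matrix.mul_apply]
    refine Finset.sum_congr rfl fun c _ => ?_
    have h2 : ((ρ a).1 c j).s = (a.1 c j).s := congrFun (congrFun (hρ a) c) j
    rw [TT.mul_x, inM_apply, map_zero, zero_mul, zero_add, rM_apply, h2]

/-- The exact sequence `0 → M → A → Λ → 0`. -/
noncomputable def sesM (ρ : AA D →ₐ[k] AA D) (hρ : ∀ a, sM D (ρ a) = sM D a) :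
    Ses (MBi D) (tw D ρ) (Lam D) where
  i := 
    { f := inM D
      hl := fun a m => inM_l D a m
      hr := fun a m => inM_r D ρ hρ a m }
  p := 
    { f := (sM D).toLinearMap.codRestrict (LamS k) (sM_mem D)
      hl := by
        intro a x
        apply Subtype.ext
        exact map_mul (sM D) a x
      hr := by
        intro a (x : AA D)
        apply Subtype.ext
        change sM D (x * ρ a) = sM D x * sM D a
        rw [map_mul, hρ] }
  inj := by
    intro m n h
    apply Subtype.ext
    ext i j : 2
    have h1 : (inM D m).1 i j = (inM D n).1 i j := by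
      have : inM D m = inM D n := h
      rw [this]
    exact congrArg TT.x h1
  surj := by
    intro x
    refine ⟨⟨Matrix.of fun i j => ⟨x.1 i j, 0⟩, fun i j => ⟨x.2 i j, Submodule.zero_mem _⟩⟩, ?_⟩
    apply Subtype.ext
    rfl
  zero := by
    intro m
    apply Subtype.ext
    rfl
  exact := by
    intro x hx
    refine ⟨⟨Matrix.of fun i j => (x.1 i j).x, fun i j => (x.2 i j).2⟩, ?_⟩
    apply AA_ext
    intro i j
    apply TT.ext
    · have h1 := congrArg Subtype.val hx
      exact (congrFun (congrFun h1 i) j).symm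
    · rfl

/-! ### The column filtration -/

/-- matrices whose first `j` columns vanish -/
noncomputable def colS (j : ℕ) : Submodule k (AA D) where
  carrier := {x | ∀ i b : Fin 3, (b : ℕ) < j → x.1 i b = 0}
  add_mem' := by
    intro x y hx hy i b hb
    change x.1 i b + y.1 i b = 0
    rw [hx i b hb, hy i b hb, add_zero]
  zero_mem' := fun i b _ => rfl
  smul_mem' := by
    intro c x hx i b hb
    change c • x.1 i b = 0
    rw [hx i b hb, smul_zero]

lemma mul_app (x y : AA D) (i j : Fin 3) : (x * y).1 i j = ∑ c, x.1 i c * y.1 c j :=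
  Matrix.mul_apply

lemma colS_l {j : ℕ} (a : AA D) {x : AA D} (hx : x ∈ colS D j) : a * x ∈ colS D j := by
  intro i b hb
  rw [mul_app]
  refine Finset.sum_eq_zero fun c _ => ?_
  rw [hx c b hb, mul_zero]

lemma piA_lt (a : AA D) {c b : Fin 3} (h : b < c) : (piA D a).1 c b = 0 := by
  rw [piA_apply]
  have h1 := (a.2 c b).1
  rw [PP_lt h, Submodule.mem_bot] at h1
  rw [h1]
  rfl

lemma colS_r {j : ℕ} (a : AA D) {x : AA D} (hx : x ∈ colS D j) : x * piA D a ∈ colS D j := by
  intro i b hb
  rw [mul_app]
  refine Finset.sum_eq_zero fun c _ => ?_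
  by_cases hc : (c : ℕ) < j
  · rw [hx i c hc, zero_mul]
  · rw [piA_lt D a (show b < c from by rw [Fin.lt_def]; omega), mul_zero]

/-- The bimodule of matrices whose first `j` columns vanish. -/
noncomputable def cBi (j : ℕ) : Bi k (AA D) where
  C := colS D j
  l := LinearMap.mk₂ k (fun a x => (⟨a * x.1, colS_l D a x.2⟩ : colS D j))
    (by intro a b m; apply Subtype.ext; simp [add_mul])
    (by intro c a m; apply Subtype.ext; simp)
    (by intro a m n; apply Subtype.ext; simp [mul_add])
    (by intro c a m; apply Subtype.ext; simp)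
  r := LinearMap.mk₂ k (fun a x => (⟨x.1 * piA D a, colS_r D a x.2⟩ : colS D j))
    (by intro a b m; apply Subtype.ext; simp [mul_add])
    (by intro c a m; apply Subtype.ext; simp)
    (by intro a m n; apply Subtype.ext; simp [add_mul])
    (by intro c a m; apply Subtype.ext; simp)
  l_mul := by intro a b m; apply Subtype.ext; simp [mul_assoc]
  r_mul := by intro a b m; apply Subtype.ext; simp [mul_assoc]
  comm := by intro a b m; apply Subtype.ext; simp [mul_assoc]

/-- The character at `j`. -/
noncomputable def chr (j : Fin 3) : AA D →ₐ[k] k :=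
  AlgHom.ofLinearMap
    { toFun := fun a => ev 0 (a.1 j j).s
      map_add' := by
        intro a b
        change ev 0 (a.1 j j + b.1 j j).s = _
        rw [TT.add_s, map_add]
      map_smul' := by
        intro c a
        change ev 0 (c • a.1 j j).s = _
        rw [TT.smul_s, map_smul]
        rfl }
    (by
      change ev 0 ((1 : Matrix (Fin 3) (Fin 3) (TT D)) j j).s = 1
      rw [Matrix.one_apply_eq, TT.one_s, map_one])
    (by
      intro a b
      change ev 0 ((a * b).1 j j).s = ev 0 (a.1 j j).s * ev 0 (b.1 j j).s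
      rw [mul_app, TT.sum_s, Finset.sum_eq_single j, TT.mul_s, map_mul]
      · intro c _ hc
        rw [TT.mul_s]
        rcases lt_or_gt_of_ne hc with h | h
        · have h1 := (a.2 j c).1
          rw [PP_lt h, Submodule.mem_bot] at h1
          rw [h1, zero_mul]
        · have h1 := (b.2 c j).1
          rw [PP_lt h, Submodule.mem_bot] at h1
          rw [h1, mul_zero]
      · intro h
        exact absurd (Finset.mem_univ j) h)

lemma chr_apply (j : Fin 3) (a : AA D) : chr D j a = ev 0 (a.1 j j).s := rfl

lemma diag_eq (j : Fin 3) (a : AA D) : (a.1 j j).s = algebraMap k (PS k) (chr D j a) := by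
  have h1 := (a.2 j j).1
  rw [PP_self, Submodule.mem_one] at h1
  obtain ⟨c, hc⟩ := h1
  rw [chr_apply, ← hc]
  congr 1
  exact ((ev 0).commutes c).symm

/-- `k` with `A` acting through the character. -/
def SS (_ : Datum k K) (_ : Fin 3) : Type := k

noncomputable instance (j : Fin 3) : AddCommGroup (SS D j) := inferInstanceAs (AddCommGroup k)
noncomputable instance (j : Fin 3) : Module k (SS D j) := inferInstanceAs (Module k k)
noncomputable instance (j : Fin 3) : Module (AA D) (SS D j) :=
  Module.compHom k (chr D j).toRingHom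

lemma SS_smul (j : Fin 3) (a : AA D) (y : SS D j) : a • y = (chr D j a • y : SS D j) := rfl

instance (j : Fin 3) : IsScalarTower k (AA D) (SS D j) where
  smul_assoc c a x := by
    rw [SS_smul, SS_smul, map_smul, smul_assoc]

/-- Column `j`. -/
noncomputable def colj (j : Fin 3) : AA D →ₗ[k] UU D j where
  toFun x := ⟨fun i => x.1 i j, fun i => x.2 i j⟩
  map_add' x y := rfl
  map_smul' c x := rfl

lemma colj_apply (j : Fin 3) (x : AA D) (i : Fin 3) : (colj D j x).1 i = x.1 i j := rfl

lemma colj_l (j : Fin 3) (a x : AA D) : colj D j (a * x) = a • colj D j x := by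
  apply Subtype.ext
  funext i
  rw [colj_apply, mul_app]
  rfl

lemma colj_r (j : Fin 3) (a x : AA D) (hx : x ∈ colS D j) :
    colj D j (x * piA D a) = chr D j a • colj D j x := by
  apply Subtype.ext
  funext i
  rw [colj_apply, mul_app, Finset.sum_eq_single j]
  · change x.1 i j * (piA D a).1 j j = chr D j a • x.1 i j
    rw [piA_apply, diag_eq]
    apply TT.ext
    · rw [TT.mul_s, TT.smul_s, Algebra.smul_def, mul_comm]
    · rw [TT.mul_x, TT.smul_x, mul_zero, zero_add, AlgHom.commutes, Algebra.smul_def, mul_comm]
  · intro c _ hc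
    rcases lt_or_gt_of_ne hc with h | h
    · rw [hx i c h, zero_mul]
    · rw [piA_lt D a h, mul_zero]
  · intro h
    exact absurd (Finset.mem_univ j) h

/-- Insertion of a column. -/
noncomputable def insj (j : Fin 3) : UU D j →ₗ[k] colS D j where
  toFun x := ⟨colIn D j x, by
    intro i b hb
    change (if b = j then x.1 i else 0) = 0
    rw [if_neg]
    rintro rfl
    exact lt_irrefl _ hb⟩
  map_add' x y := by
    apply Subtype.ext
    exact map_add (colIn D j) x y
  map_smul' c x := by
    apply Subtype.ext
    change colIn D j (c • x) = c • colIn D j x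
    have h1 : (c • x : UU D j) = (c • (1 : AA D)) • x := by rw [smul_assoc, one_smul]
    rw [h1, map_smul, smul_assoc, one_smul]

lemma colj_insj (j : Fin 3) (x : UU D j) : colj D j (insj D j x).1 = x := by
  apply Subtype.ext
  funext i
  change (if j = j then x.1 i else 0) = x.1 i
  rw [if_pos rfl]

lemma insj_colj (j : Fin 3) (x : colS D j) :
    x.1 - (insj D j (colj D j x.1)).1 ∈ colS D (j + 1) := by
  intro i b hb
  change x.1.1 i b - (if b = j then x.1.1 i j else 0) = 0
  split_ifs with h
  · subst h
    rw [sub_self]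
  · have : (b : ℕ) < j := by
      have h2 : (b : ℕ) ≠ j := fun h' => h (Fin.ext h')
      omega
    rw [x.2 i b this, sub_zero]

lemma colS_anti (j : ℕ) : colS D (j + 1) ≤ colS D j :=
  fun _ hx i b hb => hx i b (by omega)

/-- projection to the smaller space -/
noncomputable def prj (j : Fin 3) : colS D j →ₗ[k] colS D (j + 1) where
  toFun x := ⟨x.1 - (insj D j (colj D j x.1)).1, insj_colj D j x⟩
  map_add' x y := by
    apply Subtype.ext
    change (x.1 + y.1) - (insj D j (colj D j (x.1 + y.1))).1 =
      (x.1 - (insj D j (colj D j x.1)).1) + (y.1 - (insj D j (colj D j y.1)).1)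
    rw [map_add, map_add, Submodule.coe_add]
    abel
  map_smul' c x := by
    apply Subtype.ext
    change (c • x.1) - (insj D j (colj D j (c • x.1))).1 =
      c • (x.1 - (insj D j (colj D j x.1)).1)
    rw [map_smul, map_smul, Submodule.coe_smul, smul_sub]

lemma prj_incl (j : Fin 3) (x : colS D (j + 1)) :
    prj D j (Submodule.inclusion (colS_anti D j) x) = x := by
  apply Subtype.ext
  change x.1 - (insj D j (colj D j x.1)).1 = x.1
  have : colj D j x.1 = 0 := by
    apply Subtype.ext
    funext i
    exact x.2 i j (Nat.lt_succ_self _)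
  rw [this, map_zero, Submodule.coe_zero, sub_zero]

/-- `0 → Hom (U_j, S_j) → (A_j)^* → (A_(j+1))^* → 0` -/
noncomputable def sesC (j : Fin 3) :
    Ses (homBi k (AA D) (UU D j) (SS D j)) (cBi D j).dual (cBi D (j + 1)).dual where
  i :=
    { f :=
        { toFun := fun f => ((hun f) ∘ₗ ((colj D j).comp (colS D j).subtype) :
            colS D j →ₗ[k] SS D j)
          map_add' := fun _ _ => rfl
          map_smul' := fun _ _ => rfl }
      hl := by
        intro a f
        apply LinearMap.ext
        intro x
        change (a • (hun f (colj D j x.1)) : SS D j) = hun f (colj D j (x.1 * piA D a))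
        rw [colj_r D j a x.1 x.2, SS_smul, map_smul]
      hr := by
        intro a f
        apply LinearMap.ext
        intro x
        change hun f (a • colj D j x.1) = hun f (colj D j (a * x.1))
        rw [colj_l] }
  p :=
    { f := LinearMap.lcomp k k (Submodule.inclusion (colS_anti D j))
      hl := by
        intro a f
        rfl
      hr := by
        intro a f
        rfl }
  inj := by
    intro f g h
    apply LinearMap.ext
    intro x
    have := LinearMap.congr_fun h (insj D j x)
    change hun f (colj D j (insj D j x).1) = hun g (colj D j (insj D j x).1) at this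
    rw [colj_insj] at this
    exact this
  surj := by
    intro g
    refine ⟨(show colS D (j + 1) →ₗ[k] k from g) ∘ₗ prj D j, ?_⟩
    refine LinearMap.ext fun (x : colS D (j + 1)) => ?_
    exact congrArg (show colS D (j + 1) →ₗ[k] k from g) (prj_incl D j x)
  zero := by
    intro f
    apply LinearMap.ext
    intro x
    change hun f (colj D j x.1) = 0
    have : colj D j x.1 = 0 := by
      apply Subtype.ext
      funext i
      exact x.2 i j (Nat.lt_succ_self _)
    rw [this, map_zero]
  exact := by
    intro f hf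
    obtain ⟨fl, rfl⟩ : ∃ fl : colS D j →ₗ[k] k, fl = f := ⟨f, rfl⟩
    refine ⟨fl ∘ₗ insj D j, ?_⟩
    refine LinearMap.ext fun (x : colS D j) => ?_
    have h1 : fl (x - insj D j (colj D j x.1)) = 0 :=
      LinearMap.congr_fun hf ⟨x.1 - (insj D j (colj D j x.1)).1, insj_colj D j x⟩
    have e : (x - insj D j (colj D j x.1)) + insj D j (colj D j x.1) = x :=
      Subtype.ext (sub_add_cancel x.1 _)
    have h3 := fl.map_add (x - insj D j (colj D j x.1)) (insj D j (colj D j x.1))
    rw [e, h1, zero_add] at h3
    exact h3.symm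

theorem van_col (n : ℕ) : ∀ d j : ℕ, j + d = 3 → Van (n + 1) (cBi D j).dual := by
  intro d
  induction d with
  | zero =>
    intro j hj
    have h3 : Subsingleton (cBi D j).C := by
      constructor
      intro x y
      apply Subtype.ext
      apply AA_ext
      intro i b
      rw [x.2 i b (by omega), y.2 i b (by omega)]
    have : Subsingleton (cBi D j).dual.C := by
      constructor
      intro f g
      apply LinearMap.ext
      intro x
      rw [Subsingleton.elim x 0]
      exact (map_zero (show (cBi D j).C →ₗ[k] k from f)).trans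
        (map_zero (show (cBi D j).C →ₗ[k] k from g)).symm
    exact van_of_subsingleton _ n
  | succ d ih =>
    intro j hj
    have h1 := ih (j + 1) (by omega)
    let j' : Fin 3 := ⟨j, by omega⟩
    exact (sesC D j').van_mid (n + 1) (Star.van star_homBi_of_projective n) h1

theorem van_tw (n : ℕ) : Van (n + 1) (tw D (piA D)).dual := by
  let κ : BHom (tw D (piA D)) (cBi D 0) :=
    { f := LinearMap.codRestrict (colS D 0) (LinearMap.id : AA D →ₗ[k] AA D)
        (fun x i b hb => absurd hb (Nat.not_lt_zero _))
      hl := fun a x => rfl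
      hr := fun a x => rfl }
  have hκ : Function.Bijective κ.f := by
    constructor
    · intro x y h
      exact congrArg Subtype.val h
    · intro x
      exact ⟨x.1, rfl⟩
  exact van_of_iso n κ.dual (dual_bij κ hκ) (van_col D n 3 0 rfl)

end VanReg

open VanReg in
theorem van_reg (hM : ∀ n, Bi.Van n (MBi D).dual) (n : ℕ) :
    Bi.Van (n + 1) (regBi k (AA D)).dual := by
  have h1 : Bi.Van (n + 1) (Lam D).dual :=
    (sesM D (piA D) (fun a => rfl)).dual.van_left n (hM n) (van_tw D n)
  exact (sesM D (AlgHom.id k (AA D)) (fun a => rfl)).dual.van_mid (n + 1) h1 (hM (n + 1))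

theorem finite_AA [CharZero k] : FiniteDimensional k (AA D) := by
  have hP : ∀ a b : Fin 3, Module.Finite k (PP k a b) := by
    intro a b
    rw [Module.Finite.iff_fg]
    unfold PP
    split_ifs
    · apply Submodule.FG.pow
      unfold P1
      exact Submodule.fg_span (Set.finite_range _)
    · exact Submodule.fg_bot
  have hW : ∀ s t : ℕ, Module.Finite k (D.W s t) := fun s t => Datum.Sat.finite_W D s t
  let f : AA D →ₗ[k] (∀ a b : Fin 3, PP k a b × D.W (3 - (a : ℕ)) (1 + (b : ℕ))) :=
    { toFun := fun x a b => (⟨(x.1 a b).s, (x.2 a b).1⟩, ⟨(x.1 a b).x, (x.2 a b).2⟩)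
      map_add' := fun x y => rfl
      map_smul' := fun c x => rfl }
  have hf : Function.Injective f := by
    intro x y h
    apply VanReg.AA_ext
    intro i j
    have h1 := congrFun (congrFun h i) j
    apply TT.ext
    · exact congrArg (fun z => z.1.1) h1
    · exact congrArg (fun z => z.2.1) h1
  exact Module.Finite.of_injective f hf

end Pool.Agent.N10.Han
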