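import Pool.Agent.N10.Han.Ext
import Pool.Agent.N10.Han.Ex
import Pool.Agent.N10.Han.Link
import Pool.Agent.N10.Han.Gld
import Pool.Agent.N10.Han.VanM
import Pool.Agent.N10.Han.VanReg

/-!
# A finite-dimensional algebra of infinite global dimension without higher Hochschild homology
-/

open CategoryTheory

namespace Pool.Agent.N10.Han

/-- The global dimension is infinite. -/
theorem gldim_infinite {k K : Type} [Field k] [Field K] [Algebra k K] [CharZero k]
    (D : Datum k K) (d : ℕ) : ∃ M : ModuleCat.{0} (AA D),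
      ¬ ∃ P : CategoryTheory.ProjectiveResolution M,
        ∀ i : ℕ, d < i → CategoryTheory.Limits.IsZero (P.complex.X i) := by
  classical
  refine ⟨ModuleCat.of (AA D) (LP D (Dyn.crd (Dyn.P0 k))), ?_⟩
  rintro ⟨P, hP⟩
  exact not_van_LP D (d + 1) (Dyn.P0 k) (van_of_resolution k (AA D) d _ P hP _ (d + 1)
    (Nat.lt_succ_self d))

theorem han_counterexample : ∃ (A : Type) (_ : Ring A) (_ : Algebra ℂ A)
    (_ : FiniteDimensional ℂ A), (∀ n, Bi.Van (n + 1) (regBi ℂ A).dual) ∧
      ∀ d : ℕ, ∃ M : ModuleCat.{0} A, ¬ ∃ P : CategoryTheory.ProjectiveResolution M,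
        ∀ i : ℕ, d < i → CategoryTheory.Limits.IsZero (P.complex.X i) := by
  obtain ⟨K, hK, hA, ⟨D⟩⟩ := exists_datum
  have hfin : FiniteDimensional ℂ (AA D) := finite_AA D
  refine ⟨AA D, inferInstance, inferInstance, hfin, ?_, ?_⟩
  · exact van_reg D (van_M D (fun p q h n => van_LP_rel D p q h n))
  · exact gldim_infinite D

end Pool.Agent.N10.Han
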