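import Mathlib

/-!
# Hochschild cochains with coefficients in a bimodule, by iterated dimension shift

`Bi k A` is the type of `k`-central `A`-bimodules, `Y.T` is the bimodule `Hom_k (A, Y)` with
`(a f) x = a (f x)` and `(f a) x = f (a x) - (f a) x`, and `Y.ad : Y → Y.T` is `y ↦ (a ↦ a y - y a)`.
The Hochschild complex of `Y` is `Y → Y.T → Y.T.T → ...` with all maps `ad`.
-/

namespace Pool.Agent.N10.Han

/-- Bimodules over a `k`-algebra. -/
structure Bi (k A : Type) [Field k] [Ring A] [Algebra k A] where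
  C : Type
  [acg : AddCommGroup C]
  [mod : Module k C]
  l : A →ₗ[k] C →ₗ[k] C
  r : A →ₗ[k] C →ₗ[k] C
  l_mul : ∀ a b y, l (a * b) y = l a (l b y)
  r_mul : ∀ a b y, r (a * b) y = r b (r a y)
  comm : ∀ a b y, l a (r b y) = r b (l a y)

attribute [instance] Bi.acg Bi.mod

variable {k A : Type} [Field k] [Ring A] [Algebra k A]

namespace Bi

/-- The shifted bimodule. -/
noncomputable def T (Y : Bi k A) : Bi k A where
  C := A →ₗ[k] Y.C
  l := LinearMap.mk₂ k (fun a f => (Y.l a).comp f)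
    (by intros; ext; simp) (by intros; ext; simp) (by intros; ext; simp) (by intros; ext; simp)
  r := LinearMap.mk₂ k (fun a f => f.comp (LinearMap.mulLeft k a) - Y.r.flip (f a))
    (by intros; ext; simp [add_mul]; abel) (by intros; ext; simp [smul_sub])
    (by intros; ext; simp; abel) (by intros; ext; simp [smul_sub])
  l_mul := by intro a b y; ext x; simp [Y.l_mul]
  r_mul := by
    intro a b y; ext x
    simp [Y.r_mul]
  comm := by intro a b y; ext x; simp [Y.comm]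

/-- Elements of `Y.T` are linear maps. -/
def toFun (Y : Bi k A) (f : Y.T.C) : A →ₗ[k] Y.C := f

@[simp] lemma T_l (Y : Bi k A) (a : A) (f : Y.T.C) (x : A) :
    Y.toFun (Y.T.l a f) x = Y.l a (Y.toFun f x) := rfl

@[simp] lemma T_r (Y : Bi k A) (a : A) (f : Y.T.C) (x : A) :
    Y.toFun (Y.T.r a f) x = Y.toFun f (a * x) - Y.r x (Y.toFun f a) := rfl

/-- The differential. -/
noncomputable def ad (Y : Bi k A) : Y.C →ₗ[k] Y.T.C := Y.l.flip - Y.r.flip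

lemma ad_apply (Y : Bi k A) (y : Y.C) (a : A) : Y.toFun (Y.ad y) a = Y.l a y - Y.r a y := rfl

lemma T_ext (Y : Bi k A) {f g : Y.T.C} (h : ∀ x, Y.toFun f x = Y.toFun g x) : f = g :=
  LinearMap.ext h

@[simp] lemma toFun_sub (Y : Bi k A) (f g : Y.T.C) (x : A) :
    Y.toFun (f - g) x = Y.toFun f x - Y.toFun g x := rfl

@[simp] lemma toFun_add (Y : Bi k A) (f g : Y.T.C) (x : A) :
    Y.toFun (f + g) x = Y.toFun f x + Y.toFun g x := rfl

@[simp] lemma toFun_zero (Y : Bi k A) (x : A) : Y.toFun 0 x = 0 := rfl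

@[simp] lemma toFun_neg (Y : Bi k A) (f : Y.T.C) (x : A) :
    Y.toFun (-f) x = - Y.toFun f x := rfl

@[simp] lemma toFun_smul (Y : Bi k A) (c : k) (f : Y.T.C) (x : A) :
    Y.toFun (c • f) x = c • Y.toFun f x := rfl

lemma mem_ker_ad (Y : Bi k A) (y : Y.C) : Y.ad y = 0 ↔ ∀ a, Y.l a y = Y.r a y := by
  constructor
  · intro h a
    have := congrArg (fun f => Y.toFun f a) h
    simp only [ad_apply, toFun_zero] at this
    exact sub_eq_zero.mp this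
  · intro h
    apply Y.T_ext
    intro x
    rw [ad_apply, h x, sub_self, toFun_zero]

lemma ad_ad (Y : Bi k A) (y : Y.C) : Y.T.ad (Y.ad y) = 0 := by
  rw [mem_ker_ad]
  intro a
  apply Y.T_ext
  intro x
  rw [T_l, T_r, ad_apply, ad_apply, ad_apply, map_sub, map_sub, Y.l_mul, Y.r_mul, Y.comm]
  abel

/-- Iterated shift. -/
noncomputable def Tn : ℕ → Bi k A → Bi k A
  | 0, Y => Y
  | n + 1, Y => (Tn n Y).T

/-- The differential in degree `n`. -/
noncomputable def d (n : ℕ) (Y : Bi k A) : (Tn n Y).C →ₗ[k] (Tn (n + 1) Y).C := (Tn n Y).ad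

lemma d_d (n : ℕ) (Y : Bi k A) (y : (Tn n Y).C) : d (n + 1) Y (d n Y y) = 0 := (Tn n Y).ad_ad y

/-- Cocycles. -/
noncomputable def Z (n : ℕ) (Y : Bi k A) : Submodule k (Tn n Y).C := LinearMap.ker (d n Y)

/-- Coboundaries. -/
noncomputable def B : (n : ℕ) → (Y : Bi k A) → Submodule k (Tn n Y).C
  | 0, _ => ⊥
  | n + 1, Y => LinearMap.range (d n Y)

/-- Vanishing of the Hochschild cohomology in degree `n`. -/
def Van (n : ℕ) (Y : Bi k A) : Prop := Z n Y ≤ B n Y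

lemma B_le_Z (n : ℕ) (Y : Bi k A) : B n Y ≤ Z n Y := by
  cases n with
  | zero => exact bot_le
  | succ n =>
    rintro _ ⟨y, rfl⟩
    exact d_d n Y y

lemma mem_Z {n : ℕ} {Y : Bi k A} {y : (Tn n Y).C} : y ∈ Z n Y ↔ d n Y y = 0 := Iff.rfl

lemma d_mem_B (n : ℕ) (Y : Bi k A) (y : (Tn n Y).C) : d n Y y ∈ B (n + 1) Y := ⟨y, rfl⟩

end Bi

open Bi

/-- Morphisms of bimodules. -/
structure BHom (Y Z : Bi k A) where
  f : Y.C →ₗ[k] Z.C
  hl : ∀ a y, f (Y.l a y) = Z.l a (f y)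
  hr : ∀ a y, f (Y.r a y) = Z.r a (f y)

namespace BHom

variable {Y Z : Bi k A}

/-- Functoriality of the shift. -/
noncomputable def T (φ : BHom Y Z) : BHom Y.T Z.T where
  f := LinearMap.compRight k φ.f
  hl := by
    intro a y
    apply Z.T_ext
    intro x
    exact φ.hl a _
  hr := by
    intro a y
    apply Z.T_ext
    intro x
    change φ.f (Y.toFun y (a * x) - Y.r x (Y.toFun y a)) = _
    rw [map_sub, φ.hr]
    rfl

lemma T_apply (φ : BHom Y Z) (g : Y.T.C) (x : A) : Z.toFun (φ.T.f g) x = φ.f (Y.toFun g x) := rfl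

lemma ad_comm (φ : BHom Y Z) (y : Y.C) : φ.T.f (Y.ad y) = Z.ad (φ.f y) := by
  apply Z.T_ext
  intro x
  rw [T_apply, ad_apply, ad_apply, map_sub, φ.hl, φ.hr]

/-- Iterated functoriality. -/
noncomputable def Tn : (n : ℕ) → (φ : BHom Y Z) → BHom (Bi.Tn n Y) (Bi.Tn n Z)
  | 0, φ => φ
  | n + 1, φ => (Tn n φ).T

lemma d_comm (n : ℕ) (φ : BHom Y Z) (y : (Bi.Tn n Y).C) :
    (φ.Tn (n + 1)).f (d n Y y) = d n Z ((φ.Tn n).f y) :=
  (φ.Tn n).ad_comm y

lemma map_Z (n : ℕ) (φ : BHom Y Z) {y : (Bi.Tn n Y).C} (hy : y ∈ Bi.Z n Y) :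
    (φ.Tn n).f y ∈ Bi.Z n Z := by
  rw [mem_Z, ← d_comm, mem_Z.mp hy, map_zero]

lemma map_B (n : ℕ) (φ : BHom Y Z) {y : (Bi.Tn n Y).C} (hy : y ∈ Bi.B n Y) :
    (φ.Tn n).f y ∈ Bi.B n Z := by
  cases n with
  | zero =>
    have : y = 0 := hy
    rw [this, map_zero]
    exact Submodule.zero_mem _
  | succ n =>
    obtain ⟨x, rfl⟩ := hy
    exact ⟨(φ.Tn n).f x, (d_comm n φ x).symm⟩

end BHom

/-- Short exact sequences of bimodules. -/
structure Ses (Y' Y Y'' : Bi k A) where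
  i : BHom Y' Y
  p : BHom Y Y''
  inj : Function.Injective i.f
  surj : Function.Surjective p.f
  zero : ∀ y, p.f (i.f y) = 0
  exact : ∀ y, p.f y = 0 → ∃ y', i.f y' = y

namespace Ses

variable {Y' Y Y'' : Bi k A}

/-- The shift preserves exact sequences. -/
noncomputable def T (S : Ses Y' Y Y'') : Ses Y'.T Y.T Y''.T where
  i := S.i.T
  p := S.p.T
  inj := by
    intro f g h
    apply Y'.T_ext
    intro x
    apply S.inj
    exact congrArg (fun f => Y.toFun f x) h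
  surj := by
    intro g
    obtain ⟨s, hs⟩ := S.p.f.exists_rightInverse_of_surjective (LinearMap.range_eq_top.mpr S.surj)
    refine ⟨s.comp (Y''.toFun g), ?_⟩
    apply Y''.T_ext
    intro x
    exact LinearMap.congr_fun hs _
  zero := by
    intro y
    apply Y''.T_ext
    intro x
    exact S.zero _
  exact := by
    intro g hg
    obtain ⟨s, hs⟩ := S.i.f.exists_leftInverse_of_injective (LinearMap.ker_eq_bot.mpr S.inj)
    refine ⟨s.comp (Y.toFun g), ?_⟩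
    apply Y.T_ext
    intro x
    have h1 : S.p.f (Y.toFun g x) = 0 := congrArg (fun f => Y''.toFun f x) hg
    obtain ⟨y', hy'⟩ := S.exact _ h1
    have h2 : s (Y.toFun g x) = y' := by
      rw [← hy']
      exact LinearMap.congr_fun hs _
    change S.i.f (s (Y.toFun g x)) = _
    rw [h2, hy']

/-- Iterated shift of an exact sequence. -/
noncomputable def Tn : (n : ℕ) → (S : Ses Y' Y Y'') → Ses (Bi.Tn n Y') (Bi.Tn n Y) (Bi.Tn n Y'')
  | 0, S => S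
  | n + 1, S => (Tn n S).T

lemma Tn_i (n : ℕ) (S : Ses Y' Y Y'') : (S.Tn n).i = S.i.Tn n := by
  induction n with
  | zero => rfl
  | succ n ih => change (S.Tn n).i.T = (S.i.Tn n).T; rw [ih]

lemma Tn_p (n : ℕ) (S : Ses Y' Y Y'') : (S.Tn n).p = S.p.Tn n := by
  induction n with
  | zero => rfl
  | succ n ih => change (S.Tn n).p.T = (S.p.Tn n).T; rw [ih]

lemma inj' (n : ℕ) (S : Ses Y' Y Y'') : Function.Injective (S.i.Tn n).f := by
  rw [← Tn_i]; exact (S.Tn n).inj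

lemma surj' (n : ℕ) (S : Ses Y' Y Y'') : Function.Surjective (S.p.Tn n).f := by
  rw [← Tn_p]; exact (S.Tn n).surj

lemma zero' (n : ℕ) (S : Ses Y' Y Y'') (y) : (S.p.Tn n).f ((S.i.Tn n).f y) = 0 := by
  rw [← Tn_p, ← Tn_i]; exact (S.Tn n).zero y

lemma exact' (n : ℕ) (S : Ses Y' Y Y'') (y) (h : (S.p.Tn n).f y = 0) :
    ∃ y', (S.i.Tn n).f y' = y := by
  rw [← Tn_p] at h; rw [← Tn_i]; exact (S.Tn n).exact y h

lemma lift_B (n : ℕ) (S : Ses Y' Y Y'') {b : (Bi.Tn n Y'').C} (hb : b ∈ Bi.B n Y'') :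
    ∃ c ∈ Bi.B n Y, (S.p.Tn n).f c = b := by
  cases n with
  | zero =>
    refine ⟨0, Submodule.zero_mem _, ?_⟩
    have : b = 0 := hb
    rw [this, map_zero]
  | succ n =>
    obtain ⟨x, rfl⟩ := hb
    obtain ⟨y, rfl⟩ := S.surj' n x
    exact ⟨_, Bi.d_mem_B n Y y, BHom.d_comm n S.p y⟩

lemma mem_Z_of_i (n : ℕ) (S : Ses Y' Y Y'') {y : (Bi.Tn n Y').C}
    (h : (S.i.Tn n).f y ∈ Bi.Z n Y) : y ∈ Bi.Z n Y' := by
  rw [mem_Z]
  apply S.inj' (n + 1)
  rw [BHom.d_comm, map_zero]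
  exact h

/-- A class which dies in the quotient comes from the sub-bimodule. -/
lemma mid (n : ℕ) (S : Ses Y' Y Y'') {z : (Bi.Tn n Y).C} (hz : z ∈ Bi.Z n Y)
    (h : (S.p.Tn n).f z ∈ Bi.B n Y'') : ∃ z' ∈ Bi.Z n Y', z - (S.i.Tn n).f z' ∈ Bi.B n Y := by
  obtain ⟨b, hb, hb'⟩ := S.lift_B n h
  obtain ⟨z', hz'⟩ := S.exact' n (z - b) (by rw [map_sub, hb', sub_self])
  refine ⟨z', S.mem_Z_of_i n ?_, ?_⟩
  · rw [hz']
    exact Submodule.sub_mem _ hz (Bi.B_le_Z n Y hb)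
  · rw [hz', sub_sub_cancel]
    exact hb

/-- If `H^(n+1)(Y') = 0` cocycles of `Y''` lift. -/
lemma lift_Z (n : ℕ) (S : Ses Y' Y Y'') (h : Van (n + 1) Y') {z : (Bi.Tn n Y'').C}
    (hz : z ∈ Bi.Z n Y'') : ∃ y ∈ Bi.Z n Y, (S.p.Tn n).f y = z := by
  obtain ⟨y, rfl⟩ := S.surj' n z
  have h1 : (S.p.Tn (n + 1)).f (d n Y y) = 0 := by
    rw [BHom.d_comm]; exact hz
  obtain ⟨h', hh'⟩ := S.exact' (n + 1) _ h1
  have h2 : h' ∈ Bi.Z (n + 1) Y' := by
    apply S.mem_Z_of_i (n + 1)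
    rw [hh']
    exact d_d n Y y
  obtain ⟨g, hg⟩ := h h2
  refine ⟨y - (S.i.Tn n).f g, ?_, ?_⟩
  · rw [mem_Z, map_sub, ← BHom.d_comm, hg, hh', sub_self]
  · rw [map_sub, S.zero' n, sub_zero]

/-- Injectivity of `H^(n+1)(Y') → H^(n+1)(Y)` if cocycles of `Y''` in degree `n` lift. -/
lemma inj_of_lift (n : ℕ) (S : Ses Y' Y Y'')
    (h : ∀ z ∈ Bi.Z n Y'', ∃ y ∈ Bi.Z n Y, (S.p.Tn n).f y - z ∈ Bi.B n Y'')
    {z : (Bi.Tn (n + 1) Y').C} (hz : (S.i.Tn (n + 1)).f z ∈ Bi.B (n + 1) Y) :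
    z ∈ Bi.B (n + 1) Y' := by
  obtain ⟨g, hg⟩ := hz
  have h1 : (S.p.Tn n).f g ∈ Bi.Z n Y'' := by
    rw [mem_Z, ← BHom.d_comm, hg, S.zero']
  obtain ⟨y, hy, hy'⟩ := h _ h1
  rw [← map_sub] at hy'
  obtain ⟨b, hb, hb'⟩ := S.lift_B n hy'
  obtain ⟨g', hg'⟩ := S.exact' n (y - g - b) (by rw [map_sub, hb', sub_self])
  refine ⟨- g', ?_⟩
  apply S.inj' (n + 1)
  rw [BHom.d_comm, map_neg, hg', map_neg, map_sub, map_sub, hg,
    mem_Z.mp hy, mem_Z.mp (Bi.B_le_Z n Y hb)]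
  abel

theorem van_mid (n : ℕ) (S : Ses Y' Y Y'') (h1 : Van n Y') (h2 : Van n Y'') : Van n Y := by
  intro z hz
  obtain ⟨z', hz', hb⟩ := S.mid n hz (h2 (S.p.map_Z n hz))
  have := Submodule.add_mem _ hb (S.i.map_B n (h1 hz'))
  rwa [sub_add_cancel] at this

theorem van_right (n : ℕ) (S : Ses Y' Y Y'') (h1 : Van n Y) (h2 : Van (n + 1) Y') :
    Van n Y'' := by
  intro z hz
  obtain ⟨y, hy, rfl⟩ := S.lift_Z n h2 hz
  exact S.p.map_B n (h1 hy)

theorem van_left_of_lift (n : ℕ) (S : Ses Y' Y Y'')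
    (h : ∀ z ∈ Bi.Z n Y'', ∃ y ∈ Bi.Z n Y, (S.p.Tn n).f y - z ∈ Bi.B n Y'')
    (h2 : Van (n + 1) Y) : Van (n + 1) Y' := by
  intro z hz
  exact S.inj_of_lift n h (h2 (S.i.map_Z (n + 1) hz))

theorem van_left (n : ℕ) (S : Ses Y' Y Y'') (h1 : Van n Y'') (h2 : Van (n + 1) Y) :
    Van (n + 1) Y' := by
  apply S.van_left_of_lift n _ h2
  intro z hz
  exact ⟨0, Submodule.zero_mem _, by rw [map_zero, zero_sub]; exact Submodule.neg_mem _ (h1 hz)⟩

theorem van_left_zero (S : Ses Y' Y Y'') (h1 : Van 0 Y) : Van 0 Y' := by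
  intro z hz
  have h2 : (S.i.Tn 0).f z ∈ Bi.B 0 Y := h1 (S.i.map_Z 0 hz)
  have h3 : (S.i.Tn 0).f z = 0 := h2
  have h4 : z = 0 := S.inj' 0 (by rw [h3, map_zero])
  rw [h4]
  exact Submodule.zero_mem _

end Ses

end Pool.Agent.N10.Han
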