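import Pool.Agent.N10.Han.Defs2

/-!
# Linear algebra in `k^3` for the Koszul homology of the spaces `W s t`
(helper566, subtask HAN/S5b of helper10)
-/

open scoped WithZero
open Matrix

namespace Pool.Agent.N10.Han

namespace Datum

variable {k K : Type} [Field k] [CharZero k] [Field K] [Algebra k K] (D : Datum k K)

namespace Kz

/-! ### Linear algebra in `k^3` -/

omit [CharZero k] in
lemma dot3 (x y : Fin 3 → k) : x ⬝ᵥ y = x 0 * y 0 + x 1 * y 1 + x 2 * y 2 := by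
  simp [dotProduct, Fin.sum_univ_three]

/-- the vector of the form `Th1 u` -/
def t1 (u : Fin 3 → k) : Fin 3 → k := ![2 * u 1 + 6 * u 0, u 2 + u 0, 0]

/-- the vector of the form `Th2 u` -/
def t2 (u : Fin 3 → k) : Fin 3 → k := ![-u 1 - 6 * u 0, -2 * u 0, u 1]

/-- the vector of the form `Th3 u` -/
def t3 (u : Fin 3 → k) : Fin 3 → k := ![-u 2 + 3 * u 0, 3 * u 1, u 2 + u 0]

omit [CharZero k] in
lemma th1_eq (u q : Fin 3 → k) : Th1 u q = q ⬝ᵥ t1 u := by
  rw [dot3]; simp [Th1, t1]; ring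

omit [CharZero k] in
lemma th2_eq (u q : Fin 3 → k) : Th2 u q = q ⬝ᵥ t2 u := by
  rw [dot3]; simp [Th2, t2]; ring

omit [CharZero k] in
lemma th3_eq (u q : Fin 3 → k) : Th3 u q = q ⬝ᵥ t3 u := by
  rw [dot3]; simp [Th3, t3]; ring

/-- the combination of the three vectors -/
def tg (γ u : Fin 3 → k) : Fin 3 → k := γ 0 • t1 u + γ 1 • t2 u + γ 2 • t3 u

/-- the cross product -/
def cr (a b : Fin 3 → k) : Fin 3 → k :=
  ![a 1 * b 2 - a 2 * b 1, a 2 * b 0 - a 0 * b 2, a 0 * b 1 - a 1 * b 0]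

omit [CharZero k] in
lemma cr_left (a b : Fin 3 → k) : a ⬝ᵥ cr a b = 0 := by
  rw [dot3]; simp [cr]; ring

omit [CharZero k] in
lemma cr_right (a b : Fin 3 → k) : b ⬝ᵥ cr a b = 0 := by
  rw [dot3]; simp [cr]; ring

omit [Field k] [CharZero k] in
lemma ext3 {x y : Fin 3 → k} (h0 : x 0 = y 0) (h1 : x 1 = y 1) (h2 : x 2 = y 2) : x = y := by
  funext i
  fin_cases i
  · exact h0
  · exact h1
  · exact h2

omit [CharZero k] in
/-- vectors orthogonal to the cross product -/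
lemma span2 (a b x : Fin 3 → k) (h : cr a b ≠ 0) (hx : x ⬝ᵥ cr a b = 0) :
    ∃ s t : k, x = s • a + t • b := by
  rw [dot3] at hx
  by_cases h0 : cr a b 0 ≠ 0
  · refine ⟨(x 1 * b 2 - x 2 * b 1) / cr a b 0, (a 1 * x 2 - a 2 * x 1) / cr a b 0, ?_⟩
    apply ext3
    · simp only [Pi.add_apply, Pi.smul_apply, smul_eq_mul]
      rw [div_mul_eq_mul_div, div_mul_eq_mul_div, ← add_div, eq_div_iff h0]
      simp [cr] at hx ⊢
      linear_combination hx
    · simp only [Pi.add_apply, Pi.smul_apply, smul_eq_mul]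
      rw [div_mul_eq_mul_div, div_mul_eq_mul_div, ← add_div, eq_div_iff h0]
      simp [cr]
      ring
    · simp only [Pi.add_apply, Pi.smul_apply, smul_eq_mul]
      rw [div_mul_eq_mul_div, div_mul_eq_mul_div, ← add_div, eq_div_iff h0]
      simp [cr]
      ring
  by_cases h1 : cr a b 1 ≠ 0
  · refine ⟨(x 2 * b 0 - x 0 * b 2) / cr a b 1, (a 2 * x 0 - a 0 * x 2) / cr a b 1, ?_⟩
    apply ext3
    · simp only [Pi.add_apply, Pi.smul_apply, smul_eq_mul]
      rw [div_mul_eq_mul_div, div_mul_eq_mul_div, ← add_div, eq_div_iff h1]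
      simp [cr]
      ring
    · simp only [Pi.add_apply, Pi.smul_apply, smul_eq_mul]
      rw [div_mul_eq_mul_div, div_mul_eq_mul_div, ← add_div, eq_div_iff h1]
      simp [cr] at hx ⊢
      linear_combination hx
    · simp only [Pi.add_apply, Pi.smul_apply, smul_eq_mul]
      rw [div_mul_eq_mul_div, div_mul_eq_mul_div, ← add_div, eq_div_iff h1]
      simp [cr]
      ring
  by_cases h2 : cr a b 2 ≠ 0
  · refine ⟨(x 0 * b 1 - x 1 * b 0) / cr a b 2, (a 0 * x 1 - a 1 * x 0) / cr a b 2, ?_⟩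
    apply ext3
    · simp only [Pi.add_apply, Pi.smul_apply, smul_eq_mul]
      rw [div_mul_eq_mul_div, div_mul_eq_mul_div, ← add_div, eq_div_iff h2]
      simp [cr]
      ring
    · simp only [Pi.add_apply, Pi.smul_apply, smul_eq_mul]
      rw [div_mul_eq_mul_div, div_mul_eq_mul_div, ← add_div, eq_div_iff h2]
      simp [cr]
      ring
    · simp only [Pi.add_apply, Pi.smul_apply, smul_eq_mul]
      rw [div_mul_eq_mul_div, div_mul_eq_mul_div, ← add_div, eq_div_iff h2]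
      simp [cr] at hx ⊢
      linear_combination hx
  exfalso
  push Not at h0 h1 h2
  exact h (ext3 h0 h1 h2)

/-- the rank of the three vectors is at least two -/
lemma rank_two (p : Fin 3 → k) (hp : p ≠ 0) :
    cr (t1 p) (t2 p) ≠ 0 ∨ cr (t1 p) (t3 p) ≠ 0 ∨ cr (t2 p) (t3 p) ≠ 0 := by
  by_contra hcon
  push Not at hcon
  obtain ⟨h12, h13, h23⟩ := hcon
  have e12 : ∀ i, cr (t1 p) (t2 p) i = 0 := fun i => by rw [h12]; rfl
  have e13 : ∀ i, cr (t1 p) (t3 p) i = 0 := fun i => by rw [h13]; rfl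
  have e23 : ∀ i, cr (t2 p) (t3 p) i = 0 := fun i => by rw [h23]; rfl
  have a0 := e12 0
  have a1 := e12 1
  have a2 := e12 2
  have b0 := e13 0
  have c2 := e23 2
  simp [cr, t1, t2, t3] at a0 a1 a2 b0 c2
  apply hp
  by_cases hp1 : p 1 = 0
  · have h1 : p 2 + p 0 = 0 := b0
    rw [hp1] at a2
    have h2 : p 0 * p 0 = 0 := by
      have : (12 : k) * (p 0 * p 0) = 0 := by linear_combination (-1 : k) * a2 + 6 * p 0 * h1
      rcases mul_eq_zero.1 this with h | h
      · norm_num at h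
      · exact h
    have h3 : p 0 = 0 := mul_self_eq_zero.1 h2
    apply ext3 h3 hp1
    rw [h3, add_zero] at h1
    exact h1
  · exfalso
    have h1 : p 2 + p 0 = 0 := by
      rcases a0 with h | h
      · exact h
      · exact absurd h hp1
    have h2 : 2 * p 1 + 6 * p 0 = 0 := by
      rcases a1 with h | h
      · exact h
      · exact absurd h hp1
    have h3 : p 1 * p 1 = 0 := by
      have h4 : p 1 = -3 * p 0 := by
        have : (2 : k) * (p 1 + 3 * p 0) = 0 := by linear_combination h2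
        rcases mul_eq_zero.1 this with h | h
        · norm_num at h
        · linear_combination h
      have h5 : p 2 = -p 0 := by linear_combination h1
      rw [h4, h5] at c2
      have h6 : (35 : k) * (p 0 * p 0) = 0 := by linear_combination c2
      have h7 : p 0 * p 0 = 0 := by
        rcases mul_eq_zero.1 h6 with h | h
        · norm_num at h
        · exact h
      rw [h4]
      linear_combination 9 * h7
    exact hp1 (mul_self_eq_zero.1 h3)

omit [CharZero k] in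
/-- a basis adapted to `p` and its dual basis -/
lemma basis (p : Fin 3 → k) (hp : p ≠ 0) : ∃ v w g v' w' : Fin 3 → k,
    v ⬝ᵥ p = 0 ∧ w ⬝ᵥ p = 0 ∧ g ⬝ᵥ p = 1 ∧ v ⬝ᵥ v' = 1 ∧ v ⬝ᵥ w' = 0 ∧ w ⬝ᵥ v' = 0 ∧ w ⬝ᵥ w' = 1 ∧
    (∀ x, x = (x ⬝ᵥ v') • v + (x ⬝ᵥ w') • w + (x ⬝ᵥ p) • g) ∧
    (∀ u, u = (v ⬝ᵥ u) • v' + (w ⬝ᵥ u) • w' + (g ⬝ᵥ u) • p) := by
  by_cases h0 : p 0 ≠ 0
  · refine ⟨![-(p 1) / p 0, 1, 0], ![-(p 2) / p 0, 0, 1], ![1 / p 0, 0, 0], ![0, 1, 0], ![0, 0, 1],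
      ?_, ?_, ?_, ?_, ?_, ?_, ?_, ?_, ?_⟩
    · rw [dot3]; simp [h0]
    · rw [dot3]; simp [h0]
    · rw [dot3]; simp [h0]
    · rw [dot3]; simp
    · rw [dot3]; simp
    · rw [dot3]; simp
    · rw [dot3]; simp
    · intro x
      apply ext3
      · simp only [dot3]; simp; field_simp; ring
      · simp only [dot3]; simp
      · simp only [dot3]; simp
    · intro x
      apply ext3
      · simp only [dot3]; simp; field_simp
      · simp only [dot3]; simp; field_simp; ring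
      · simp only [dot3]; simp; field_simp; ring
  by_cases h1 : p 1 ≠ 0
  · refine ⟨![1, -(p 0) / p 1, 0], ![0, -(p 2) / p 1, 1], ![0, 1 / p 1, 0], ![1, 0, 0], ![0, 0, 1],
      ?_, ?_, ?_, ?_, ?_, ?_, ?_, ?_, ?_⟩
    · rw [dot3]; simp [h1]
    · rw [dot3]; simp [h1]
    · rw [dot3]; simp [h1]
    · rw [dot3]; simp
    · rw [dot3]; simp
    · rw [dot3]; simp
    · rw [dot3]; simp
    · intro x
      apply ext3
      · simp only [dot3]; simp
      · simp only [dot3]; simp; field_simp; ring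
      · simp only [dot3]; simp
    · intro x
      apply ext3
      · simp only [dot3]; simp; field_simp; ring
      · simp only [dot3]; simp; field_simp
      · simp only [dot3]; simp; field_simp; ring
  by_cases h2 : p 2 ≠ 0
  · refine ⟨![1, 0, -(p 0) / p 2], ![0, 1, -(p 1) / p 2], ![0, 0, 1 / p 2], ![1, 0, 0], ![0, 1, 0],
      ?_, ?_, ?_, ?_, ?_, ?_, ?_, ?_, ?_⟩
    · rw [dot3]; simp [h2]
    · rw [dot3]; simp [h2]
    · rw [dot3]; simp [h2]
    · rw [dot3]; simp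
    · rw [dot3]; simp
    · rw [dot3]; simp
    · rw [dot3]; simp
    · intro x
      apply ext3
      · simp only [dot3]; simp
      · simp only [dot3]; simp
      · simp only [dot3]; simp; field_simp; ring
    · intro x
      apply ext3
      · simp only [dot3]; simp; field_simp; ring
      · simp only [dot3]; simp; field_simp; ring
      · simp only [dot3]; simp; field_simp
  exfalso
  push Not at h0 h1 h2
  exact hp (ext3 h0 h1 h2)


/-- a basis adapted to `p` together with its dual basis -/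
structure Bas (p : Fin 3 → k) where
  v : Fin 3 → k
  w : Fin 3 → k
  g : Fin 3 → k
  v' : Fin 3 → k
  w' : Fin 3 → k
  vp : v ⬝ᵥ p = 0
  wp : w ⬝ᵥ p = 0
  gp : g ⬝ᵥ p = 1
  vv : v ⬝ᵥ v' = 1
  vw : v ⬝ᵥ w' = 0
  wv : w ⬝ᵥ v' = 0
  ww : w ⬝ᵥ w' = 1
  ex : ∀ x : Fin 3 → k, x = (x ⬝ᵥ v') • v + (x ⬝ᵥ w') • w + (x ⬝ᵥ p) • g
  eu : ∀ u : Fin 3 → k, u = (v ⬝ᵥ u) • v' + (w ⬝ᵥ u) • w' + (g ⬝ᵥ u) • p

omit [CharZero k] in
lemma exists_bas (p : Fin 3 → k) (hp : p ≠ 0) : Nonempty (Bas p) := by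
  obtain ⟨v, w, g, v', w', h1, h2, h3, h4, h5, h6, h7, h8, h9⟩ := basis p hp
  exact ⟨⟨v, w, g, v', w', h1, h2, h3, h4, h5, h6, h7, h8, h9⟩⟩

omit [CharZero k] in
lemma tg_add (γ u x : Fin 3 → k) : tg γ (u + x) = tg γ u + tg γ x := by
  apply ext3 <;> simp [tg, t1, t2, t3] <;> ring

omit [CharZero k] in
lemma tg_smul (γ : Fin 3 → k) (c : k) (u : Fin 3 → k) : tg γ (c • u) = c • tg γ u := by
  apply ext3 <;> simp [tg, t1, t2, t3] <;> ring

omit [CharZero k] in
lemma rel_dot {p q : Fin 3 → k} (h : Rel p q) :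
    q ⬝ᵥ t1 p = 0 ∧ q ⬝ᵥ t2 p = 0 ∧ q ⬝ᵥ t3 p = 0 := by
  obtain ⟨_, _, h1, h2, h3⟩ := h
  rw [th1_eq] at h1
  rw [th2_eq] at h2
  rw [th3_eq] at h3
  exact ⟨h1, h2, h3⟩

omit [CharZero k] in
lemma rel_of_dot {p q : Fin 3 → k} (hp : p ≠ 0) (hq : q ≠ 0) (h1 : q ⬝ᵥ t1 p = 0)
    (h2 : q ⬝ᵥ t2 p = 0) (h3 : q ⬝ᵥ t3 p = 0) : Rel p q :=
  ⟨hp, hq, by rw [th1_eq]; exact h1, by rw [th2_eq]; exact h2, by rw [th3_eq]; exact h3⟩

omit [CharZero k] in
/-- a vector orthogonal to `a` and `b` is a multiple of the cross product -/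
lemma parallel (a b q : Fin 3 → k) (h : cr a b ≠ 0) (ha : q ⬝ᵥ a = 0) (hb : q ⬝ᵥ b = 0) :
    ∃ c : k, q = c • cr a b := by
  rw [dot3] at ha hb
  have e0 : q 1 * cr a b 2 = q 2 * cr a b 1 := by
    simp only [cr, Matrix.cons_val]
    linear_combination a 0 * hb - b 0 * ha
  have e1 : q 2 * cr a b 0 = q 0 * cr a b 2 := by
    simp only [cr, Matrix.cons_val]
    linear_combination a 1 * hb - b 1 * ha
  have e2 : q 0 * cr a b 1 = q 1 * cr a b 0 := by
    simp only [cr, Matrix.cons_val]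
    linear_combination a 2 * hb - b 2 * ha
  by_cases h0 : cr a b 0 ≠ 0
  · refine ⟨q 0 / cr a b 0, ?_⟩
    apply ext3
    · simp only [Pi.smul_apply, smul_eq_mul]
      rw [div_mul_eq_mul_div, eq_div_iff h0]
    · simp only [Pi.smul_apply, smul_eq_mul]
      rw [div_mul_eq_mul_div, eq_div_iff h0]
      linear_combination -e2
    · simp only [Pi.smul_apply, smul_eq_mul]
      rw [div_mul_eq_mul_div, eq_div_iff h0]
      linear_combination e1
  by_cases h1 : cr a b 1 ≠ 0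
  · refine ⟨q 1 / cr a b 1, ?_⟩
    apply ext3
    · simp only [Pi.smul_apply, smul_eq_mul]
      rw [div_mul_eq_mul_div, eq_div_iff h1]
      linear_combination e2
    · simp only [Pi.smul_apply, smul_eq_mul]
      rw [div_mul_eq_mul_div, eq_div_iff h1]
    · simp only [Pi.smul_apply, smul_eq_mul]
      rw [div_mul_eq_mul_div, eq_div_iff h1]
      linear_combination -e0
  by_cases h2 : cr a b 2 ≠ 0
  · refine ⟨q 2 / cr a b 2, ?_⟩
    apply ext3
    · simp only [Pi.smul_apply, smul_eq_mul]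
      rw [div_mul_eq_mul_div, eq_div_iff h2]
      linear_combination -e1
    · simp only [Pi.smul_apply, smul_eq_mul]
      rw [div_mul_eq_mul_div, eq_div_iff h2]
      linear_combination e0
    · simp only [Pi.smul_apply, smul_eq_mul]
      rw [div_mul_eq_mul_div, eq_div_iff h2]
  exfalso
  push Not at h0 h1 h2
  exact h (ext3 h0 h1 h2)

omit [CharZero k] in
lemma perp_cr (a b q ν : Fin 3 → k) (h : cr a b ≠ 0) (hq : q ≠ 0) (ha : q ⬝ᵥ a = 0)
    (hb : q ⬝ᵥ b = 0) (hν : ν ⬝ᵥ q = 0) : ν ⬝ᵥ cr a b = 0 := by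
  obtain ⟨c, hc⟩ := parallel a b q h ha hb
  rw [hc, dotProduct_smul, smul_eq_mul] at hν
  rcases mul_eq_zero.1 hν with h0 | h0
  · exfalso
    apply hq
    rw [hc, h0, zero_smul]
  · exact h0

/-- the plane orthogonal to `q` is spanned by the three vectors -/
lemma perp_span {p q : Fin 3 → k} (h : Rel p q) (ν : Fin 3 → k) (hν : ν ⬝ᵥ q = 0) :
    ∃ γ, tg γ p = ν := by
  obtain ⟨h1, h2, h3⟩ := rel_dot h
  rcases rank_two p h.1 with hc | hc | hc
  · obtain ⟨s, t, e⟩ := span2 _ _ ν hc (perp_cr _ _ q ν hc h.2.1 h1 h2 hν)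
    refine ⟨![s, t, 0], ?_⟩
    rw [e]
    simp [tg]
  · obtain ⟨s, t, e⟩ := span2 _ _ ν hc (perp_cr _ _ q ν hc h.2.1 h1 h3 hν)
    refine ⟨![s, 0, t], ?_⟩
    rw [e]
    simp [tg]
  · obtain ⟨s, t, e⟩ := span2 _ _ ν hc (perp_cr _ _ q ν hc h.2.1 h2 h3 hν)
    refine ⟨![0, s, t], ?_⟩
    rw [e]
    simp [tg]

/-- the linear dependence of the three vectors -/
lemma exists_ker {p q : Fin 3 → k} (h : Rel p q) : ∃ γ : Fin 3 → k, γ ≠ 0 ∧ tg γ p = 0 := by
  obtain ⟨h1, h2, h3⟩ := rel_dot h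
  rcases rank_two p h.1 with hc | hc | hc
  · obtain ⟨s, t, e⟩ := span2 _ _ (t3 p) hc
      (perp_cr _ _ q (t3 p) hc h.2.1 h1 h2 (by rw [dotProduct_comm]; exact h3))
    refine ⟨![s, t, -1], ?_, ?_⟩
    · intro h0
      have := congrFun h0 2
      simp at this
    · simp only [tg, Matrix.cons_val]
      rw [e]
      rw [neg_one_smul]
      abel
  · obtain ⟨s, t, e⟩ := span2 _ _ (t2 p) hc
      (perp_cr _ _ q (t2 p) hc h.2.1 h1 h3 (by rw [dotProduct_comm]; exact h2))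
    refine ⟨![s, -1, t], ?_, ?_⟩
    · intro h0
      have := congrFun h0 1
      simp at this
    · simp only [tg, Matrix.cons_val]
      rw [e]
      rw [neg_one_smul]
      abel
  · obtain ⟨s, t, e⟩ := span2 _ _ (t1 p) hc
      (perp_cr _ _ q (t1 p) hc h.2.1 h2 h3 (by rw [dotProduct_comm]; exact h1))
    refine ⟨![-1, s, t], ?_, ?_⟩
    · intro h0
      have := congrFun h0 0
      simp at this
    · simp only [tg, Matrix.cons_val]
      rw [e]
      rw [neg_one_smul]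
      abel

/-- the alternative -/
lemma alt (p : Fin 3 → k) (hp : p ≠ 0) :
    (∀ ν, ∃ γ, tg γ p = ν) ∨ ∃ q, Rel p q := by
  by_cases hdet : t3 p ⬝ᵥ cr (t1 p) (t2 p) = 0
  · right
    have c12 : t1 p ⬝ᵥ cr (t1 p) (t2 p) = 0 := cr_left _ _
    have c12' : t2 p ⬝ᵥ cr (t1 p) (t2 p) = 0 := cr_right _ _
    have c13 : t1 p ⬝ᵥ cr (t1 p) (t3 p) = 0 := cr_left _ _
    have c13' : t3 p ⬝ᵥ cr (t1 p) (t3 p) = 0 := cr_right _ _
    have c23 : t2 p ⬝ᵥ cr (t2 p) (t3 p) = 0 := cr_left _ _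
    have c23' : t3 p ⬝ᵥ cr (t2 p) (t3 p) = 0 := cr_right _ _
    have d13 : t2 p ⬝ᵥ cr (t1 p) (t3 p) = 0 := by
      rw [← neg_eq_zero, ← hdet, dot3, dot3]
      simp [cr]
      ring
    have d23 : t1 p ⬝ᵥ cr (t2 p) (t3 p) = 0 := by
      rw [← hdet, dot3, dot3]
      simp [cr]
      ring
    rcases rank_two p hp with hc | hc | hc
    · exact ⟨_, rel_of_dot hp hc (by rw [dotProduct_comm]; exact c12)
        (by rw [dotProduct_comm]; exact c12') (by rw [dotProduct_comm]; exact hdet)⟩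
    · exact ⟨_, rel_of_dot hp hc (by rw [dotProduct_comm]; exact c13)
        (by rw [dotProduct_comm]; exact d13) (by rw [dotProduct_comm]; exact c13')⟩
    · exact ⟨_, rel_of_dot hp hc (by rw [dotProduct_comm]; exact d23)
        (by rw [dotProduct_comm]; exact c23) (by rw [dotProduct_comm]; exact c23')⟩
  · left
    intro ν
    set d := t3 p ⬝ᵥ cr (t1 p) (t2 p) with hd
    have hc : cr (t1 p) (t2 p) ≠ 0 := by
      intro h0
      apply hdet
      rw [hd, h0, dotProduct_zero]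
    set c := (ν ⬝ᵥ cr (t1 p) (t2 p)) / d with hcdef
    obtain ⟨s, t, e⟩ := span2 _ _ (ν - c • t3 p) hc (by
      rw [sub_dotProduct, smul_dotProduct, ← hd, smul_eq_mul, hcdef, div_mul_cancel₀ _ hdet,
        sub_self])
    refine ⟨![s, t, c], ?_⟩
    simp only [tg, Matrix.cons_val]
    rw [← e]
    abel

omit [CharZero k] in
lemma not_rel {p : Fin 3 → k} (h : ∀ ν, ∃ γ, tg γ p = ν) (q : Fin 3 → k) : ¬ Rel p q := by
  intro hr
  obtain ⟨h1, h2, h3⟩ := rel_dot hr
  apply hr.2.1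
  have key : ∀ ν : Fin 3 → k, q ⬝ᵥ ν = 0 := by
    intro ν
    obtain ⟨γ, hγ⟩ := h ν
    rw [← hγ, tg, dotProduct_add, dotProduct_add, dotProduct_smul, dotProduct_smul,
      dotProduct_smul, h1, h2, h3]
    simp
  apply ext3
  · have := key ![1, 0, 0]
    rw [dot3] at this
    simpa using this
  · have := key ![0, 1, 0]
    rw [dot3] at this
    simpa using this
  · have := key ![0, 0, 1]
    rw [dot3] at this
    simpa using this

/-- the three bilinear forms are independent -/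
lemma tg_inj (γ : Fin 3 → k) (h : ∀ u, tg γ u = 0) : γ = 0 := by
  have h0 := h ![1, 0, 0]
  have a0 := congrFun h0 0
  have a1 := congrFun h0 1
  have a2 := congrFun h0 2
  simp [tg, t1, t2, t3] at a0 a1 a2
  have e2 : γ 2 = 0 := a2
  rw [e2] at a0
  have e1 : γ 1 = 0 := by
    have : (6 : k) * γ 1 = 0 := by linear_combination a0 - 6 * a1
    rcases mul_eq_zero.1 this with h | h
    · norm_num at h
    · exact h
  have e0 : γ 0 = 0 := by
    rw [e1] at a1
    linear_combination a1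
  exact ext3 e0 e1 e2

end Kz

end Datum

end Pool.Agent.N10.Han
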