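import Pool.Agent.N10.Han.Alg

/-!
# Modules over the algebra `AA D`
-/

open scoped WithZero
open Matrix

namespace Pool.Agent.N10.Han

variable {k K : Type} [Field k] [Field K] [Algebra k K] (D : Datum k K)

/-! ### The point modules -/

/-- Evaluation at a point on `TT D`. -/
noncomputable def evT (p : Fin 3 → k) : TT D →ₐ[k] k :=
  AlgHom.ofLinearMap
    { toFun := fun e => ev p e.s
      map_add' := by intro a b; simp
      map_smul' := by intro c a; simp }
    (by simp) (by intro a b; simp)

@[simp] lemma evT_apply (p : Fin 3 → k) (e : TT D) : evT D p e = ev p e.s := rfl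

/-- Evaluation at a point on matrices. -/
noncomputable def evM (p : Fin 3 → k) : AA D →ₐ[k] Matrix (Fin 3) (Fin 3) k :=
  (evT D p).mapMatrix.comp (AA D).val

@[simp] lemma evM_apply (p : Fin 3 → k) (a : AA D) (i j : Fin 3) :
    evM D p a i j = ev p (a.1 i j).s := rfl

/-- The module attached to a point of the plane. -/
def LP (_ : Datum k K) (_ : Fin 3 → k) : Type := Fin 3 → k

variable (p : Fin 3 → k)

noncomputable instance : AddCommGroup (LP D p) := inferInstanceAs (AddCommGroup (Fin 3 → k))
noncomputable instance : Module k (LP D p) := inferInstanceAs (Module k (Fin 3 → k))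
instance : FiniteDimensional k (LP D p) := inferInstanceAs (FiniteDimensional k (Fin 3 → k))

noncomputable instance : Module (AA D) (LP D p) where
  smul a x := (evM D p a) *ᵥ (show Fin 3 → k from x)
  one_smul x := by
    change (evM D p 1) *ᵥ (show Fin 3 → k from x) = x
    rw [map_one, Matrix.one_mulVec]
  mul_smul a b x := by
    change (evM D p (a * b)) *ᵥ (show Fin 3 → k from x) =
      (evM D p a) *ᵥ ((evM D p b) *ᵥ (show Fin 3 → k from x))
    rw [map_mul, Matrix.mulVec_mulVec]
  smul_zero a := Matrix.mulVec_zero _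
  smul_add a x y := Matrix.mulVec_add _ _ _
  add_smul a b x := by
    change (evM D p (a + b)) *ᵥ (show Fin 3 → k from x) = _
    rw [map_add, Matrix.add_mulVec]
    rfl
  zero_smul x := by
    change (evM D p 0) *ᵥ (show Fin 3 → k from x) = _
    rw [map_zero, Matrix.zero_mulVec]
    rfl

lemma LP_smul (a : AA D) (x : LP D p) (i : Fin 3) :
    (a • x : LP D p) i = ∑ j, ev p (a.1 i j).s * x j := rfl

instance : IsScalarTower k (AA D) (LP D p) where
  smul_assoc c a x := by
    change (evM D p (c • a)) *ᵥ (show Fin 3 → k from x) =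
      c • ((evM D p a) *ᵥ (show Fin 3 → k from x))
    rw [map_smul, Matrix.smul_mulVec]

/-! ### Columns -/

/-- Columns over `TT D`. -/
def Col (D : Datum k K) : Type := Fin 3 → TT D

noncomputable instance : AddCommGroup (Col D) := inferInstanceAs (AddCommGroup (Fin 3 → TT D))
noncomputable instance : Module k (Col D) := inferInstanceAs (Module k (Fin 3 → TT D))

noncomputable instance : Module (AA D) (Col D) where
  smul a x := a.1 *ᵥ (show Fin 3 → TT D from x)
  one_smul x := Matrix.one_mulVec _
  mul_smul a b x := by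
    change (a.1 * b.1) *ᵥ (show Fin 3 → TT D from x) =
      a.1 *ᵥ (b.1 *ᵥ (show Fin 3 → TT D from x))
    rw [Matrix.mulVec_mulVec]
  smul_zero a := Matrix.mulVec_zero _
  smul_add a x y := Matrix.mulVec_add _ _ _
  add_smul a b x := Matrix.add_mulVec _ _ _
  zero_smul x := Matrix.zero_mulVec _

lemma Col_smul (a : AA D) (x : Col D) (i : Fin 3) :
    (a • x : Col D) i = ∑ j, a.1 i j * x j := rfl

instance : IsScalarTower k (AA D) (Col D) where
  smul_assoc c a x := by
    funext i
    rw [Col_smul]
    change ∑ j, (c • a.1 i j) * x j = c • ∑ j, a.1 i j * x j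
    rw [Finset.smul_sum]
    exact Finset.sum_congr rfl fun j _ => smul_mul_assoc _ _ _

/-- The projective module with index `c`. -/
noncomputable def UU (c : Fin 3) : Submodule (AA D) (Col D) where
  carrier := {x | ∀ a, x a ∈ EE D a c}
  add_mem' := by
    intro x y hx hy a
    exact Submodule.add_mem _ (hx a) (hy a)
  zero_mem' := fun a => Submodule.zero_mem _
  smul_mem' := by
    intro m x hx a
    rw [Col_smul]
    exact Submodule.sum_mem _ fun b _ => EE_mul D (m.2 a b) (hx b)

lemma mem_UU {c : Fin 3} {x : Col D} : x ∈ UU D c ↔ ∀ a, x a ∈ EE D a c := Iff.rfl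

/-- The generator. -/
noncomputable def ee (c : Fin 3) : UU D c :=
  ⟨(fun a => if a = c then 1 else 0 : Fin 3 → TT D), by
    intro a
    change (if a = c then (1 : TT D) else 0) ∈ EE D a c
    split_ifs with h
    · subst h; exact EE_one D a
    · exact Submodule.zero_mem _⟩

/-- Inclusion of a column. -/
noncomputable def colIn (c : Fin 3) : UU D c →ₗ[AA D] AA D where
  toFun x := ⟨Matrix.of fun a b => if b = c then x.1 a else 0, by
    intro a b
    change (if b = c then x.1 a else 0) ∈ EE D a b
    split_ifs with h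
    · subst h; exact x.2 a
    · exact Submodule.zero_mem _⟩
  map_add' x y := by
    apply Subtype.ext
    ext a b : 1
    change (if b = c then (x.1 a + y.1 a) else 0) =
      (if b = c then x.1 a else 0) + (if b = c then y.1 a else 0)
    split_ifs <;> simp
  map_smul' m x := by
    apply Subtype.ext
    ext a b : 1
    change (if b = c then (m • x.1 : Col D) a else 0) =
      (m.1 * (Matrix.of fun a b => if b = c then x.1 a else 0)) a b
    rw [Matrix.mul_apply]
    simp only [Matrix.of_apply]
    split_ifs with h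
    · rw [Col_smul]
    · simp

lemma colIn_smul (c : Fin 3) (x : UU D c) : colIn D c x • ee D c = x := by
  apply Subtype.ext
  funext a
  change ∑ b, (if b = c then x.1 a else 0) * (if b = c then (1 : TT D) else 0) = x.1 a
  simp

instance UU_projective (c : Fin 3) : Module.Projective (AA D) (UU D c) := by
  apply Module.Projective.of_split (colIn D c) (LinearMap.toSpanSingleton (AA D) _ (ee D c))
  apply LinearMap.ext
  intro x
  exact colIn_smul D c x

/-- Pairs of columns form a projective module. -/
instance UU_prod_projective (c : Fin 3) : Module.Projective (AA D) (UU D c × UU D c) :=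
  inferInstance

/-- Right multiplication by a linear form. -/
noncomputable def rm (v : Fin 3 → k) (c c' : Fin 3) (h : (c' : ℕ) = (c : ℕ) + 1) :
    UU D c →ₗ[AA D] UU D c' where
  toFun x := ⟨(fun a => x.1 a * ⟨lin v, 0⟩ : Fin 3 → TT D), by
    intro a
    have h1 := x.2 a
    have h2 : (⟨lin v, 0⟩ : TT D) ∈ EE D c c' := by
      refine ⟨?_, Submodule.zero_mem _⟩
      have h3 : c ≤ c' := by
        have : (c : ℕ) ≤ (c' : ℕ) := by omega
        exact this
      unfold PP
      rw [if_pos h3, h, Nat.add_sub_cancel_left, pow_one]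
      exact lin_mem v
    exact EE_mul D h1 h2⟩
  map_add' x y := by
    apply Subtype.ext
    funext a
    change (x.1 a + y.1 a) * _ = x.1 a * _ + y.1 a * _
    rw [add_mul]
  map_smul' m x := by
    apply Subtype.ext
    funext a
    change (∑ b, m.1 a b * x.1 b) * _ = ∑ b, m.1 a b * (x.1 b * _)
    rw [Finset.sum_mul]
    exact Finset.sum_congr rfl fun b _ => mul_assoc _ _ _

lemma rm_s (v : Fin 3 → k) (c c' : Fin 3) (h : (c' : ℕ) = (c : ℕ) + 1) (x : UU D c) (a : Fin 3) :
    ((rm D v c c' h x).1 a).s = (x.1 a).s * lin v := rfl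

lemma rm_x (v : Fin 3 → k) (c c' : Fin 3) (h : (c' : ℕ) = (c : ℕ) + 1) (x : UU D c) (a : Fin 3) :
    ((rm D v c c' h x).1 a).x = (x.1 a).x * D.r v := by
  change D.lS (x.1 a).s * 0 + (x.1 a).x * D.rS (lin v) = _
  rw [mul_zero, zero_add, D.rS_lin]

/-- Evaluation of columns. -/
noncomputable def piU (c : Fin 3) (p : Fin 3 → k) : UU D c →ₗ[AA D] LP D p where
  toFun x := fun a => ev p (x.1 a).s
  map_add' x y := by
    funext a
    change ev p (x.1 a + y.1 a).s = ev p (x.1 a).s + ev p (y.1 a).s
    rw [TT.add_s, map_add]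
  map_smul' m x := by
    funext a
    change ev p (∑ b, m.1 a b * x.1 b).s = ∑ b, ev p (m.1 a b).s * ev p (x.1 b).s
    rw [TT.sum_s, map_sum]
    exact Finset.sum_congr rfl fun b _ => by rw [TT.mul_s, map_mul]

lemma piU_apply (c : Fin 3) (p : Fin 3 → k) (x : UU D c) (a : Fin 3) :
    piU D c p x a = ev p (x.1 a).s := rfl

lemma piU_rm (v : Fin 3 → k) (c c' : Fin 3) (h : (c' : ℕ) = (c : ℕ) + 1) (p : Fin 3 → k)
    (x : UU D c) : piU D c' p (rm D v c c' h x) = (v ⬝ᵥ p) • piU D c p x := by
  funext a
  change ev p ((rm D v c c' h x).1 a).s = (v ⬝ᵥ p) * ev p (x.1 a).s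
  rw [rm_s, map_mul, ev_lin, mul_comm]

/-- Maps from `UU c` to a point module. -/
lemma hom_UU (c : Fin 3) (q : Fin 3 → k) (f : UU D c →ₗ[AA D] LP D q) :
    ∃ α : k, ∀ x, f x = α • piU D c q x := by
  -- `f (ee c)` is supported at `c`
  have h1 : (colIn D c (ee D c)) • f (ee D c) = f (ee D c) := by
    rw [← map_smul, colIn_smul]
  have h2 : ∀ a, a ≠ c → f (ee D c) a = 0 := by
    intro a ha
    rw [← h1, LP_smul]
    apply Finset.sum_eq_zero
    intro j _
    change ev q (if j = c then (if a = c then (1 : TT D) else 0) else 0).s * _ = 0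
    rw [if_neg ha]
    simp
  refine ⟨f (ee D c) c, ?_⟩
  intro x
  funext a
  have h3 : f x = colIn D c x • f (ee D c) := by rw [← map_smul, colIn_smul]
  rw [h3, LP_smul, Finset.sum_eq_single c]
  · change ev q (if c = c then x.1 a else 0).s * _ = f (ee D c) c * ev q (x.1 a).s
    rw [if_pos rfl, mul_comm]
  · intro j _ hj
    rw [h2 j hj, mul_zero]
  · intro h
    exact absurd (Finset.mem_univ c) h

lemma piU_ee (c : Fin 3) (q : Fin 3 → k) : piU D c q (ee D c) c = 1 := by
  change ev q (if c = c then (1 : TT D) else 0).s = 1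
  simp

/-- Matrix units times entries. -/
noncomputable def elt (a b : Fin 3) (e : TT D) (he : e ∈ EE D a b) : AA D :=
  ⟨Matrix.of fun i j => if i = a ∧ j = b then e else 0, by
    intro i j
    change (if i = a ∧ j = b then e else 0) ∈ EE D i j
    split_ifs with h
    · obtain ⟨rfl, rfl⟩ := h
      exact he
    · exact Submodule.zero_mem _⟩

lemma elt_smul (a b : Fin 3) (e : TT D) (he : e ∈ EE D a b) (p : Fin 3 → k) (x : LP D p)
    (i : Fin 3) : (elt D a b e he • x : LP D p) i = if i = a then ev p e.s * x b else 0 := by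
  rw [LP_smul]
  change ∑ j, ev p (if i = a ∧ j = b then e else 0).s * x j = _
  split_ifs with h
  · rw [Finset.sum_eq_single b]
    · rw [if_pos ⟨h, rfl⟩]
    · intro j _ hj
      rw [if_neg (fun h => hj h.2)]
      simp
    · intro h
      exact absurd (Finset.mem_univ b) h
  · apply Finset.sum_eq_zero
    intro j _
    rw [if_neg (fun h' => h h'.1)]
    simp

lemma lin_mem_EE (v : Fin 3 → k) (a b : Fin 3) (h : (b : ℕ) = (a : ℕ) + 1) :
    (⟨lin v, 0⟩ : TT D) ∈ EE D a b := by
  refine ⟨?_, Submodule.zero_mem _⟩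
  have h3 : a ≤ b := by
    have : (a : ℕ) ≤ (b : ℕ) := by omega
    exact this
  unfold PP
  rw [if_pos h3, h, Nat.add_sub_cancel_left, pow_one]
  exact lin_mem v

/-- Basis vectors of a point module. -/
def dl (b : Fin 3) : LP D p := (Pi.single b 1 : Fin 3 → k)

lemma dl_apply (b i : Fin 3) : dl D p b i = if i = b then 1 else 0 := by
  change (Pi.single b 1 : Fin 3 → k) i = _
  rw [Pi.single_apply]

lemma LP_eq_sum (x : LP D p) : x = ∑ b, x b • dl D p b := by
  have h : ∀ x : Fin 3 → k, x = ∑ b, x b • (Pi.single b (1 : k) : Fin 3 → k) := by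
    intro x
    funext i
    simp [Pi.single_apply, Finset.sum_apply]
  exact h x

/-- Maps between point modules. -/
lemma hom_LP (u q : Fin 3 → k) (hu : u ≠ 0) (h : ¬ ∃ c : k, q = c • u)
    (f : LP D u →ₗ[AA D] LP D q) : f = 0 := by
  have hk : ∀ (c : k) (x : LP D u), f (c • x) = c • f x := by
    intro c x
    have h1 : (c • x : LP D u) = (c • (1 : AA D)) • x := by rw [smul_assoc, one_smul]
    have h2 : (c • f x : LP D q) = (c • (1 : AA D)) • f x := by rw [smul_assoc, one_smul]
    rw [h1, map_smul, h2]
  -- diagonal form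
  have h1 : ∀ b i, i ≠ b → f (dl D u b) i = 0 := by
    intro b i hi
    have e1 : elt D b b 1 (EE_one D b) • dl D u b = dl D u b := by
      funext j
      rw [elt_smul, dl_apply, dl_apply]
      split_ifs <;> simp_all
    rw [← e1, map_smul, elt_smul, if_neg hi]
  have h2 : ∀ (a b : Fin 3), (b : ℕ) = (a : ℕ) + 1 → ∀ v : Fin 3 → k,
      (v ⬝ᵥ u) * f (dl D u a) a = (v ⬝ᵥ q) * f (dl D u b) b := by
    intro a b hab v
    have e1 : elt D a b _ (lin_mem_EE D v a b hab) • dl D u b = (v ⬝ᵥ u) • dl D u a := by
      funext j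
      rw [elt_smul, dl_apply, if_pos rfl]
      change _ = (v ⬝ᵥ u) * dl D u a j
      rw [dl_apply]
      split_ifs <;> simp
    have e2 := congrArg f e1
    rw [map_smul, hk] at e2
    have e3 := congrFun e2 a
    rw [elt_smul, if_pos rfl] at e3
    change _ = (v ⬝ᵥ u) * f (dl D u a) a at e3
    rw [← e3]
    simp
  have h3 : ∀ (a b : Fin 3), (b : ℕ) = (a : ℕ) + 1 → f (dl D u b) b = 0 := by
    intro a b hab
    by_contra h0
    apply h
    refine ⟨f (dl D u a) a / f (dl D u b) b, ?_⟩
    funext i
    have e := h2 a b hab (Pi.single i 1)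
    simp only [single_dotProduct, one_mul] at e
    rw [Pi.smul_apply, smul_eq_mul]
    field_simp
    linear_combination -e
  have h4 : ∀ (a b : Fin 3), (b : ℕ) = (a : ℕ) + 1 → f (dl D u a) a = 0 := by
    intro a b hab
    obtain ⟨i, hi⟩ := Function.ne_iff.mp hu
    have e := h2 a b hab (Pi.single i 1)
    rw [h3 a b hab] at e
    simp only [single_dotProduct, one_mul, mul_zero] at e
    rcases mul_eq_zero.mp e with e | e
    · exact absurd e hi
    · exact e
  have h5 : ∀ b, f (dl D u b) = 0 := by
    intro b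
    funext i
    by_cases hi : i = b
    · subst hi
      fin_cases i
      · exact h4 0 1 rfl
      · exact h4 1 2 rfl
      · exact h3 1 2 rfl
    · exact h1 b i hi
  apply LinearMap.ext
  intro x
  rw [LP_eq_sum D u x, map_sum]
  simp [hk, h5]

end Pool.Agent.N10.Han
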