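import Pool.Agent.N10.Han.Hoch2

/-!
# Dimension shifting along a Koszul complex
-/

namespace Pool.Agent.N10.Han

open Bi

/-- The data of the exact sequences `0 → K → U2 → L → 0`, `0 → B → K → C → 0`,
`0 → Z → U1 → B → 0`, `0 → U0 → Z → C → 0` with `U0, U1, U2` projective. -/
structure Kos (k A : Type) [Field k] [Ring A] [Algebra k A] (U0 U1 U2 L C : Type)
    [AddCommGroup U0] [Module k U0] [Module A U0] [IsScalarTower k A U0]
    [AddCommGroup U1] [Module k U1] [Module A U1] [IsScalarTower k A U1]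
    [AddCommGroup U2] [Module k U2] [Module A U2] [IsScalarTower k A U2]
    [AddCommGroup L] [Module k L] [Module A L] [IsScalarTower k A L]
    [AddCommGroup C] [Module k C] [Module A C] [IsScalarTower k A C] where
  d1 : U0 →ₗ[A] U1
  d2 : U1 →ₗ[A] U2
  dd : ∀ x, d2 (d1 x) = 0
  p : U2 →ₗ[A] L
  p_surj : Function.Surjective p
  pd : ∀ x, p (d2 x) = 0
  d1_inj : Function.Injective d1
  /-- the homology in the last place -/
  rho : LinearMap.ker p →ₗ[A] C
  rho_surj : Function.Surjective rho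
  rho_ker : ∀ x, rho x = 0 ↔ ∃ y, d2 y = x.1
  /-- the homology in the middle -/
  psi : LinearMap.ker d2 →ₗ[A] C
  psi_surj : Function.Surjective psi
  psi_ker : ∀ x, psi x = 0 ↔ ∃ y, d1 y = x.1

variable {k A : Type} [Field k] [Ring A] [Algebra k A] {U0 U1 U2 L C N : Type}
    [AddCommGroup U0] [Module k U0] [Module A U0] [IsScalarTower k A U0]
    [AddCommGroup U1] [Module k U1] [Module A U1] [IsScalarTower k A U1]
    [AddCommGroup U2] [Module k U2] [Module A U2] [IsScalarTower k A U2]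
    [AddCommGroup L] [Module k L] [Module A L] [IsScalarTower k A L]
    [AddCommGroup C] [Module k C] [Module A C] [IsScalarTower k A C]
    [AddCommGroup N] [Module k N] [Module A N] [IsScalarTower k A N]

namespace Kos

variable (Q : Kos k A U0 U1 U2 L C)

/-- `0 → K → U2 → L → 0`. -/
noncomputable def S1 (N : Type) [AddCommGroup N] [Module k N] [Module A N] [IsScalarTower k A N] :
    Ses (homBi k A L N) (homBi k A U2 N) (homBi k A (LinearMap.ker Q.p) N) :=
  homSes (LinearMap.ker Q.p).subtype Q.p (Submodule.subtype_injective _) Q.p_surj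
    (fun x => x.2) (fun x hx => ⟨⟨x, hx⟩, rfl⟩) N

/-- `0 → B → K → C → 0`. -/
noncomputable def S2 (N : Type) [AddCommGroup N] [Module k N] [Module A N] [IsScalarTower k A N] :
    Ses (homBi k A C N) (homBi k A (LinearMap.ker Q.p) N)
      (homBi k A (LinearMap.range Q.d2) N) :=
  homSes (Submodule.inclusion (show LinearMap.range Q.d2 ≤ LinearMap.ker Q.p by
      rintro _ ⟨y, rfl⟩; exact Q.pd y)) Q.rho (Submodule.inclusion_injective _) Q.rho_surj
    (by
      rintro ⟨_, y, rfl⟩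
      rw [Q.rho_ker]
      exact ⟨y, rfl⟩)
    (by
      intro x hx
      obtain ⟨y, hy⟩ := (Q.rho_ker x).mp hx
      exact ⟨⟨x.1, y, hy⟩, rfl⟩) N

/-- `0 → Z → U1 → B → 0`. -/
noncomputable def S3 (N : Type) [AddCommGroup N] [Module k N] [Module A N] [IsScalarTower k A N] :
    Ses (homBi k A (LinearMap.range Q.d2) N) (homBi k A U1 N)
      (homBi k A (LinearMap.ker Q.d2) N) :=
  homSes (LinearMap.ker Q.d2).subtype Q.d2.rangeRestrict (Submodule.subtype_injective _)
    (LinearMap.surjective_rangeRestrict _)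
    (fun x => Subtype.ext x.2) (fun x hx => ⟨⟨x, congrArg Subtype.val hx⟩, rfl⟩) N

/-- `0 → U0 → Z → C → 0`. -/
noncomputable def S4 (N : Type) [AddCommGroup N] [Module k N] [Module A N] [IsScalarTower k A N] :
    Ses (homBi k A C N) (homBi k A (LinearMap.ker Q.d2) N) (homBi k A U0 N) :=
  homSes (Q.d1.codRestrict (LinearMap.ker Q.d2) Q.dd) Q.psi
    (by
      intro x y h
      exact Q.d1_inj (congrArg Subtype.val h)) Q.psi_surj
    (by
      intro x
      rw [Q.psi_ker]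
      exact ⟨x, rfl⟩)
    (by
      intro x hx
      obtain ⟨y, hy⟩ := (Q.psi_ker x).mp hx
      exact ⟨y, Subtype.ext hy⟩) N



/-- Every map from the image of `d2` to `N` extends to `U2`. -/
def H1 (Q : Kos k A U0 U1 U2 L C) (N : Type) [AddCommGroup N] [Module A N] : Prop :=
  ∀ f : U1 →ₗ[A] N, (∀ x, f (Q.d1 x) = 0) → ∃ g : U2 →ₗ[A] N, ∀ x, g (Q.d2 x) = f x

/-- Every map from `U0` to `N` extends to `U1`. -/
def H2 (Q : Kos k A U0 U1 U2 L C) (N : Type) [AddCommGroup N] [Module A N] : Prop :=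
  ∀ f : U0 →ₗ[A] N, ∃ g : U1 →ₗ[A] N, ∀ x, g (Q.d1 x) = f x

/-- A linear map in `Z 0` is `A`-linear. -/
def toA {M : Type} [AddCommGroup M] [Module k M] [Module A M] [IsScalarTower k A M]
    (f : (Tn 0 (homBi k A M N)).C) (hf : f ∈ Bi.Z 0 (homBi k A M N)) : M →ₗ[A] N where
  toFun := hun (A := A) f
  map_add' := (hun (A := A) f).map_add
  map_smul' := (mem_Z_homBi (A := A) f).mp hf

/-- An `A`-linear map gives an element of `Z 0`. -/
def ofA {M : Type} [AddCommGroup M] [Module k M] [Module A M] [IsScalarTower k A M]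
    (f : M →ₗ[A] N) : (Tn 0 (homBi k A M N)).C := hmk A (f.restrictScalars k)

lemma ofA_mem {M : Type} [AddCommGroup M] [Module k M] [Module A M] [IsScalarTower k A M]
    (f : M →ₗ[A] N) : (ofA f : (Tn 0 (homBi k A M N)).C) ∈ Bi.Z 0 (homBi k A M N) := by
  refine (mem_Z_homBi (A := A) (hmk A (f.restrictScalars k))).mpr ?_
  intro a x
  exact f.map_smul a x

lemma van_zero_iff {M : Type} [AddCommGroup M] [Module k M] [Module A M] [IsScalarTower k A M] :
    Van 0 (homBi k A M N) ↔ ∀ f : M →ₗ[A] N, f = 0 := by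
  constructor
  · intro h f
    have h1 : (ofA f : (Tn 0 (homBi k A M N)).C) = 0 := h (ofA_mem f)
    apply LinearMap.ext
    intro x
    exact congrArg (fun g : (homBi k A M N).C => hun g x) h1
  · intro h f hf
    have h1 := h (toA f hf)
    change f = 0
    apply hun_ext
    intro x
    exact LinearMap.congr_fun h1 x

/-- Maps `Z → N` extend to `U1` if there are no maps `C → N` and `H2` holds. -/
lemma liftZ (h2 : Q.H2 N) (hC : Van 0 (homBi k A C N)) :
    ∀ z ∈ Bi.Z 0 (homBi k A (LinearMap.ker Q.d2) N), ∃ y ∈ Bi.Z 0 (homBi k A U1 N),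
      ((Q.S3 N).p.Tn 0).f y - z ∈ Bi.B 0 (homBi k A (LinearMap.ker Q.d2) N) := by
  intro z hz
  obtain ⟨g, hg⟩ := h2 ((toA z hz).comp (Q.d1.codRestrict (LinearMap.ker Q.d2) Q.dd))
  refine ⟨ofA g, ofA_mem g, ?_⟩
  have h3 : ((Q.S3 N).p.Tn 0).f (ofA g) - z = 0 := by
    have h5 : ((Q.S3 N).p.Tn 0).f (ofA g) - z ∈ Bi.Z 0 (homBi k A (LinearMap.ker Q.d2) N) :=
      Submodule.sub_mem _ ((Q.S3 N).p.map_Z 0 (ofA_mem g)) hz
    have h6 : ((Q.S4 N).p.Tn 0).f (((Q.S3 N).p.Tn 0).f (ofA g) - z) = 0 := by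
      apply hun_ext
      intro x
      change g (Q.d1 x) - toA z hz ⟨Q.d1 x, _⟩ = 0
      rw [hg x]
      exact sub_self _
    obtain ⟨c, hc⟩ := (Q.S4 N).exact' 0 _ h6
    have h7 : c ∈ Bi.Z 0 (homBi k A C N) := by
      apply (Q.S4 N).mem_Z_of_i 0
      rw [hc]
      exact h5
    have h8 : c = 0 := hC h7
    rw [← hc, h8, map_zero]
  rw [h3]
  exact Submodule.zero_mem _

/-- Maps `B → N` extend to `K`. -/
lemma liftB (h1 : Q.H1 N) :
    ∀ z ∈ Bi.Z 0 (homBi k A (LinearMap.range Q.d2) N),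
      ∃ y ∈ Bi.Z 0 (homBi k A (LinearMap.ker Q.p) N),
      ((Q.S2 N).p.Tn 0).f y - z ∈ Bi.B 0 (homBi k A (LinearMap.range Q.d2) N) := by
  intro z hz
  obtain ⟨g, hg⟩ := h1 ((toA z hz).comp Q.d2.rangeRestrict) (by
    intro x
    change toA z hz (Q.d2.rangeRestrict (Q.d1 x)) = 0
    have : Q.d2.rangeRestrict (Q.d1 x) = 0 := Subtype.ext (Q.dd x)
    rw [this, map_zero])
  refine ⟨ofA (g.comp (LinearMap.ker Q.p).subtype), ofA_mem _, ?_⟩
  have h3 : ((Q.S2 N).p.Tn 0).f (ofA (g.comp (LinearMap.ker Q.p).subtype)) - z = 0 := by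
    apply hun_ext
    rintro ⟨_, y, rfl⟩
    change g (Q.d2 y) - toA z hz (Q.d2.rangeRestrict y) = 0
    rw [hg y]
    exact sub_self _
  rw [h3]
  exact Submodule.zero_mem _

/-- Maps `K → N` extend to `U2`. -/
lemma liftK (h1 : Q.H1 N) (hC : Van 0 (homBi k A C N)) :
    ∀ z ∈ Bi.Z 0 (homBi k A (LinearMap.ker Q.p) N), ∃ y ∈ Bi.Z 0 (homBi k A U2 N),
      ((Q.S1 N).p.Tn 0).f y - z ∈ Bi.B 0 (homBi k A (LinearMap.ker Q.p) N) := by
  intro z hz
  obtain ⟨g, hg⟩ := h1 (((toA z hz).comp (Submodule.inclusion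
    (show LinearMap.range Q.d2 ≤ LinearMap.ker Q.p by
      rintro _ ⟨y, rfl⟩; exact Q.pd y))).comp Q.d2.rangeRestrict) (by
    intro x
    change toA z hz (Submodule.inclusion _ (Q.d2.rangeRestrict (Q.d1 x))) = 0
    have : Q.d2.rangeRestrict (Q.d1 x) = 0 := Subtype.ext (Q.dd x)
    rw [this, map_zero, map_zero])
  refine ⟨ofA g, ofA_mem _, ?_⟩
  have h3 : ((Q.S1 N).p.Tn 0).f (ofA g) - z = 0 := by
    have h5 : ((Q.S1 N).p.Tn 0).f (ofA g) - z ∈ Bi.Z 0 (homBi k A (LinearMap.ker Q.p) N) :=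
      Submodule.sub_mem _ ((Q.S1 N).p.map_Z 0 (ofA_mem g)) hz
    have h6 : ((Q.S2 N).p.Tn 0).f (((Q.S1 N).p.Tn 0).f (ofA g) - z) = 0 := by
      apply hun_ext
      rintro ⟨_, y, rfl⟩
      change g (Q.d2 y) - toA z hz ⟨Q.d2 y, _⟩ = 0
      rw [hg y]
      exact sub_self _
    obtain ⟨c, hc⟩ := (Q.S2 N).exact' 0 _ h6
    have h7 : c ∈ Bi.Z 0 (homBi k A C N) := by
      apply (Q.S2 N).mem_Z_of_i 0
      rw [hc]
      exact h5
    have h8 : c = 0 := hC h7
    rw [← hc, h8, map_zero]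
  rw [h3]
  exact Submodule.zero_mem _

variable [Module.Projective A U0] [Module.Projective A U1]

/-- Vanishing for the boundaries. -/
lemma vanB (h2 : Q.H2 N) (n : ℕ) (hC : ∀ j ≤ n, Van j (homBi k A C N)) :
    ∀ j ≤ n, Van (j + 1) (homBi k A (LinearMap.range Q.d2) N) := by
  intro j hj
  cases j with
  | zero =>
    exact (Q.S3 N).van_left_of_lift 0 (Q.liftZ h2 (hC 0 hj))
      (star_homBi_of_projective.van 0)
  | succ m =>
    apply (Q.S3 N).van_left (m + 1)
    · exact (Q.S4 N).van_mid (m + 1) (hC _ hj) (star_homBi_of_projective.van m)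
    · exact star_homBi_of_projective.van (m + 1)

/-- Vanishing for `K`. -/
lemma vanK (h2 : Q.H2 N) (n : ℕ) (hC : ∀ j ≤ n, Van j (homBi k A C N)) :
    ∀ j < n, Van (j + 1) (homBi k A (LinearMap.ker Q.p) N) := by
  intro j hj
  exact (Q.S2 N).van_mid (j + 1) (hC _ hj) (Q.vanB h2 n hC j hj.le)

variable [Module.Projective A U2]

/-- Dimension shift for vanishing. -/
theorem vanL (h1 : Q.H1 N) (h2 : Q.H2 N) (n : ℕ) (hC : ∀ j ≤ n, Van j (homBi k A C N)) :
    ∀ j ≤ n, Van (j + 1) (homBi k A L N) := by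
  intro j hj
  cases j with
  | zero =>
    exact (Q.S1 N).van_left_of_lift 0 (Q.liftK h1 (hC 0 hj))
      (star_homBi_of_projective.van 0)
  | succ m =>
    apply (Q.S1 N).van_left (m + 1)
    · exact Q.vanK h2 n hC m hj
    · exact star_homBi_of_projective.van (m + 1)

/-- Dimension shift for nonvanishing, positive degree. -/
theorem vanC (h1 : Q.H1 N) (h2 : Q.H2 N) (n : ℕ) (hC : ∀ j ≤ n, Van j (homBi k A C N))
    (hL : Van (n + 2) (homBi k A L N)) : Van (n + 1) (homBi k A C N) := by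
  have hK : Van (n + 1) (homBi k A (LinearMap.ker Q.p) N) :=
    (Q.S1 N).van_right (n + 1) (star_homBi_of_projective.van n) hL
  cases n with
  | zero => exact (Q.S2 N).van_left_of_lift 0 (Q.liftB h1) hK
  | succ m => exact (Q.S2 N).van_left (m + 1) (Q.vanB h2 m (fun j hj => hC j (by omega)) m le_rfl) hK

omit [Module.Projective A U0] [Module.Projective A U1] [Module.Projective A U2] in
/-- Dimension shift for nonvanishing, degree zero. -/
theorem vanC_zero (h3 : ∀ g : U2 →ₗ[A] N, (∀ x, g (Q.d2 x) = 0) → g = 0)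
    (hL : Van 1 (homBi k A L N)) : Van 0 (homBi k A C N) := by
  rw [van_zero_iff]
  intro f
  obtain ⟨y, hy, hy'⟩ := (Q.S1 N).lift_Z 0 hL
    (ofA_mem (k := k) (f.comp Q.rho))
  have h4 : toA y hy = 0 := by
    apply h3
    intro x
    have h5 := congrArg (fun g : (homBi k A (LinearMap.ker Q.p) N).C => hun g ⟨Q.d2 x, Q.pd x⟩) hy'
    have h6 : toA y hy (Q.d2 x) = f (Q.rho ⟨Q.d2 x, Q.pd x⟩) := h5
    rw [h6, (Q.rho_ker _).mpr ⟨x, rfl⟩, map_zero]
  apply LinearMap.ext
  intro c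
  obtain ⟨x, rfl⟩ := Q.rho_surj c
  have h5 := congrArg (fun g : (homBi k A (LinearMap.ker Q.p) N).C => hun g x) hy'
  have h6 : toA y hy x.1 = f (Q.rho x) := h5
  rw [← h6, h4]
  rfl

end Kos

end Pool.Agent.N10.Han
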