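import Pool.Agent.N10.Han.Bim
import Pool.Agent.N10.Han.Step
import Pool.Agent.N10.Han.Koszul

/-!
# The Koszul complex of a point of the plane
-/

open scoped WithZero
open Matrix

namespace Pool.Agent.N10.Han

variable {k K : Type} [Field k] [Field K] [Algebra k K] (D : Datum k K)

/-! ### Linear algebra in `k^3` -/

/-- A basis `v, w, g` of linear forms adapted to the point `p`. -/
structure Ad (p v w g : Fin 3 → k) : Prop where
  hv : v ⬝ᵥ p = 0
  hw : w ⬝ᵥ p = 0
  hg : g ⬝ᵥ p = 1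
  span : ∀ u : Fin 3 → k, u ⬝ᵥ p = 0 → ∃ α β : k, u = α • v + β • w
  indep : ∀ α β : k, α • v + β • w = 0 → α = 0 ∧ β = 0
  dual : ∃ pv pw : Fin 3 → k, v ⬝ᵥ pv = 1 ∧ w ⬝ᵥ pv = 0 ∧ g ⬝ᵥ pv = 0 ∧
    v ⬝ᵥ pw = 0 ∧ w ⬝ᵥ pw = 1 ∧ g ⬝ᵥ pw = 0

lemma exists_ad (p : Fin 3 → k) (hp : p ≠ 0) : ∃ v w g, Ad p v w g := by
  by_cases h0 : p 0 = 0
  · by_cases h1 : p 1 = 0
    · have h2 : p 2 ≠ 0 := by
        intro h2
        apply hp
        funext i
        fin_cases i
        · exact h0
        · exact h1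
        · exact h2
      refine ⟨![1, 0, 0], ![0, 1, 0], ![0, 0, (p 2)⁻¹], ?_, ?_, ?_, ?_, ?_,
        ⟨![1, 0, 0], ![0, 1, 0], by simp [dotProduct, Fin.sum_univ_three]⟩⟩
      · simp [dotProduct, Fin.sum_univ_three, h0]
      · simp [dotProduct, Fin.sum_univ_three, h1]
      · simp [dotProduct, Fin.sum_univ_three, h2]
      · intro u hu
        simp only [dotProduct, Fin.sum_univ_three, h0, h1, mul_zero, zero_add] at hu
        have h3 : u 2 = 0 := (mul_eq_zero.mp hu).resolve_right h2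
        refine ⟨u 0, u 1, ?_⟩
        funext i
        fin_cases i <;> simp [h3]
      · intro α β h
        have e0 := congrFun h 0
        have e1 := congrFun h 1
        simp at e0 e1
        exact ⟨e0, e1⟩
    · refine ⟨![1, 0, 0], ![0, -(p 2), p 1], ![0, (p 1)⁻¹, 0], ?_, ?_, ?_, ?_, ?_,
        ⟨![1, 0, 0], ![0, 0, (p 1)⁻¹], by simp [dotProduct, Fin.sum_univ_three, h1]⟩⟩
      · simp [dotProduct, Fin.sum_univ_three, h0]
      · simp [dotProduct, Fin.sum_univ_three]; ring
      · simp [dotProduct, Fin.sum_univ_three, h1]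
      · intro u hu
        simp only [dotProduct, Fin.sum_univ_three, h0, mul_zero, zero_add] at hu
        refine ⟨u 0, u 2 / p 1, ?_⟩
        funext i
        fin_cases i
        · simp
        · simp
          field_simp
          linear_combination hu
        · simp [h1]
      · intro α β h
        have e0 := congrFun h 0
        have e1 := congrFun h 2
        simp at e0 e1
        exact ⟨e0, e1.resolve_right h1⟩
  · refine ⟨![-(p 1), p 0, 0], ![-(p 2), 0, p 0], ![(p 0)⁻¹, 0, 0], ?_, ?_, ?_, ?_, ?_,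
      ⟨![0, (p 0)⁻¹, 0], ![0, 0, (p 0)⁻¹], by simp [dotProduct, Fin.sum_univ_three, h0]⟩⟩
    · simp [dotProduct, Fin.sum_univ_three]; ring
    · simp [dotProduct, Fin.sum_univ_three]; ring
    · simp [dotProduct, Fin.sum_univ_three, h0]
    · intro u hu
      simp only [dotProduct, Fin.sum_univ_three] at hu
      refine ⟨u 1 / p 0, u 2 / p 0, ?_⟩
      funext i
      fin_cases i
      · simp
        field_simp
        linear_combination hu
      · simp [h0]
      · simp [h0]
    · intro α β h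
      have e0 := congrFun h 1
      have e1 := congrFun h 2
      simp at e0 e1
      exact ⟨e0.resolve_right h0, e1.resolve_right h0⟩

lemma Ad.decomp {p v w g : Fin 3 → k} (h : Ad p v w g) (u : Fin 3 → k) :
    ∃ α β : k, u = (u ⬝ᵥ p) • g + (α • v + β • w) := by
  obtain ⟨α, β, hu⟩ := h.span (u - (u ⬝ᵥ p) • g) (by
    rw [sub_dotProduct, smul_dotProduct, h.hg]; simp)
  exact ⟨α, β, by rw [← hu]; abel⟩

lemma Ad.prop {p v w g : Fin 3 → k} (h : Ad p v w g) (q : Fin 3 → k) (h1 : v ⬝ᵥ q = 0)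
    (h2 : w ⬝ᵥ q = 0) : ∃ c : k, q = c • p := by
  refine ⟨g ⬝ᵥ q, ?_⟩
  funext i
  obtain ⟨α, β, hu⟩ := h.decomp (Pi.single i 1)
  have e := congrArg (fun u => u ⬝ᵥ q) hu
  simp only [add_dotProduct, smul_dotProduct, h1, h2, single_dotProduct, one_mul, smul_eq_mul,
    mul_zero, add_zero] at e
  rw [e, Pi.smul_apply, smul_eq_mul, mul_comm]

lemma Ad.v_ne {p v w g : Fin 3 → k} (h : Ad p v w g) : v ≠ 0 := by
  rintro rfl
  have := (h.indep 1 0 (by simp)).1
  exact one_ne_zero this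

lemma Ad.w_ne {p v w g : Fin 3 → k} (h : Ad p v w g) : w ≠ 0 := by
  rintro rfl
  have := (h.indep 0 1 (by simp)).2
  exact one_ne_zero this

/-! ### Forms are nonzero in `K` -/

lemma Datum.l_ne_zero {u : Fin 3 → k} (hu : u ≠ 0) : D.l u ≠ 0 := by
  have hk : ∀ a : k, D.v (algebraMap k K a) ≤ 1 := by
    intro a
    by_cases ha : a = 0
    · rw [ha, map_zero, map_zero]; exact zero_le
    · exact (D.vk a ha).le
  have e : D.l u = algebraMap k K (u 0) + algebraMap k K (u 1) * D.X +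
      algebraMap k K (u 2) * D.Y := by
    simp [Datum.l, Algebra.smul_def]
  have hX : D.v (algebraMap k K (u 1) * D.X) ≤ WithZero.exp 2 := by
    rw [map_mul, D.vX]
    calc _ ≤ 1 * WithZero.exp (2 : ℤ) := mul_le_mul_left (hk _) _
      _ = _ := one_mul _
  intro h0
  by_cases h2 : u 2 = 0
  · by_cases h1 : u 1 = 0
    · have h3 : u 0 ≠ 0 := by
        intro h3
        apply hu
        funext i
        fin_cases i
        · exact h3
        · exact h1
        · exact h2
      rw [e, h1, h2] at h0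
      simp at h0
      exact h3 h0
    · have h3 : D.v (algebraMap k K (u 0)) < D.v (algebraMap k K (u 1) * D.X) := by
        rw [map_mul, D.vk _ h1, one_mul, D.vX]
        refine lt_of_le_of_lt (hk _) ?_
        rw [← WithZero.exp_zero]
        exact WithZero.exp_lt_exp.mpr (by norm_num)
      have h4 : D.v (D.l u) = D.v (algebraMap k K (u 1) * D.X) := by
        rw [e, h2, map_zero, zero_mul, add_zero]
        exact D.v.map_add_eq_of_lt_right h3
      rw [h0, map_zero, map_mul, D.vk _ h1, one_mul, D.vX] at h4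
      exact WithZero.exp_ne_zero h4.symm
  · have h3 : D.v (algebraMap k K (u 0) + algebraMap k K (u 1) * D.X) <
        D.v (algebraMap k K (u 2) * D.Y) := by
      rw [map_mul, D.vk _ h2, one_mul, D.vY]
      refine lt_of_le_of_lt (D.v.map_add _ _) (max_lt ?_ ?_)
      · refine lt_of_le_of_lt (hk _) ?_
        rw [← WithZero.exp_zero]
        exact WithZero.exp_lt_exp.mpr (by norm_num)
      · refine lt_of_le_of_lt hX ?_
        exact WithZero.exp_lt_exp.mpr (by norm_num)
    have h4 : D.v (D.l u) = D.v (algebraMap k K (u 2) * D.Y) := by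
      rw [e]
      exact D.v.map_add_eq_of_lt_right h3
    rw [h0, map_zero, map_mul, D.vk _ h2, one_mul, D.vY] at h4
    exact WithZero.exp_ne_zero h4.symm

lemma Datum.r_ne_zero {u : Fin 3 → k} (hu : u ≠ 0) : D.r u ≠ 0 := by
  have h1 : D.r u = D.swap.l ![u 0, u 1, -(u 2)] := by
    simp [Datum.l, Datum.r, Datum.swap]
  rw [h1]
  apply Datum.l_ne_zero
  intro h
  apply hu
  funext i
  have e0 := congrFun h 0
  have e1 := congrFun h 1
  have e2 := congrFun h 2
  simp at e0 e1 e2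
  fin_cases i
  · exact e0
  · exact e1
  · exact e2

/-! ### Polynomials vanishing at a point -/

lemma P1_mul {n : ℕ} {f g : PS k} (hf : f ∈ P1 k ^ n) (hg : g ∈ P1 k) : f * g ∈ P1 k ^ (n + 1) := by
  rw [pow_succ]
  exact Submodule.mul_mem_mul hf hg

lemma lin_add (u v : Fin 3 → k) : lin (u + v) = lin u + lin v := by
  simp [lin, Fin.sum_univ_three, add_smul]; abel

lemma lin_smul (c : k) (v : Fin 3 → k) : lin (c • v) = c • lin v := by
  simp [lin, Fin.sum_univ_three, mul_smul]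

lemma lin_ne_zero {v : Fin 3 → k} (hv : v ≠ 0) : lin v ≠ 0 := by
  intro h
  obtain ⟨i, hi⟩ := Function.ne_iff.mp hv
  apply hi
  have := congrArg (ev (Pi.single i 1)) h
  rw [ev_lin, map_zero, dotProduct_single, mul_one] at this
  exact this

lemma poly_decomp {p v w g : Fin 3 → k} (h : Ad p v w g) (n : ℕ) :
    ∀ f ∈ P1 k ^ (n + 1), ∃ c : k, ∃ f1 ∈ P1 k ^ n, ∃ f2 ∈ P1 k ^ n,
      f = c • lin g ^ (n + 1) + (f1 * lin w - f2 * lin v) := by
  induction n with
  | zero =>
    intro f hf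
    rw [zero_add, pow_one] at hf
    obtain ⟨u, rfl⟩ := exists_lin hf
    obtain ⟨α, β, hu⟩ := h.decomp u
    refine ⟨u ⬝ᵥ p, MvPolynomial.C β, ?_, -(MvPolynomial.C α), ?_, ?_⟩
    · rw [pow_zero, Submodule.mem_one]; exact ⟨β, rfl⟩
    · rw [pow_zero]
      exact Submodule.neg_mem _ (Submodule.mem_one.mpr ⟨α, rfl⟩)
    · conv_lhs => rw [hu]
      rw [lin_add, lin_smul, lin_add, lin_smul, lin_smul, zero_add, pow_one, neg_mul,
        sub_neg_eq_add]
      simp only [MvPolynomial.smul_eq_C_mul]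
      ring
  | succ n ih =>
    intro f hf
    rw [pow_succ] at hf
    refine Submodule.mul_induction_on hf ?_ ?_
    · intro a ha b hb
      obtain ⟨u, rfl⟩ := exists_lin hb
      obtain ⟨c, f1, hf1, f2, hf2, ha'⟩ := ih a ha
      obtain ⟨α, β, hu⟩ := h.decomp u
      refine ⟨(u ⬝ᵥ p) * c, (u ⬝ᵥ p) • (f1 * lin g) + β • a, ?_,
        (u ⬝ᵥ p) • (f2 * lin g) - α • a, ?_, ?_⟩
      · exact Submodule.add_mem _ (Submodule.smul_mem _ _ (P1_mul hf1 (lin_mem g)))
          (Submodule.smul_mem _ _ ha)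
      · exact Submodule.sub_mem _ (Submodule.smul_mem _ _ (P1_mul hf2 (lin_mem g)))
          (Submodule.smul_mem _ _ ha)
      · conv_lhs => rw [hu]
        rw [lin_add, lin_smul, lin_add, lin_smul, lin_smul]
        have e : a * (u ⬝ᵥ p) • lin g = (u ⬝ᵥ p) • ((c • lin g ^ (n + 1) +
          (f1 * lin w - f2 * lin v)) * lin g) := by rw [← ha', mul_smul_comm]
        rw [mul_add, e]
        simp only [MvPolynomial.smul_eq_C_mul, map_mul]
        ring
    · rintro a b ⟨c, f1, hf1, f2, hf2, ha⟩ ⟨c', f1', hf1', f2', hf2', hb⟩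
      refine ⟨c + c', f1 + f1', Submodule.add_mem _ hf1 hf1', f2 + f2',
        Submodule.add_mem _ hf2 hf2', ?_⟩
      rw [ha, hb, add_smul]
      ring

lemma poly_ker {p v w g : Fin 3 → k} (h : Ad p v w g) (n : ℕ) (f : PS k)
    (hf : f ∈ P1 k ^ (n + 1)) (h0 : ev p f = 0) : ∃ f1 ∈ P1 k ^ n, ∃ f2 ∈ P1 k ^ n,
      f = f1 * lin w - f2 * lin v := by
  obtain ⟨c, f1, hf1, f2, hf2, e⟩ := poly_decomp h n f hf
  refine ⟨f1, hf1, f2, hf2, ?_⟩
  have h1 : c = 0 := by
    have := congrArg (ev p) e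
    rw [h0] at this
    simp only [map_add, map_smul, map_pow, ev_lin, h.hg, one_pow, map_sub, map_mul, h.hv, h.hw,
      mul_zero, sub_zero, add_zero, smul_eq_mul, mul_one] at this
    exact this.symm
  rw [e, h1, zero_smul, zero_add]

lemma PP_ker {p v w g : Fin 3 → k} (h : Ad p v w g) {a c c' : Fin 3} (hc : (c' : ℕ) = (c : ℕ) + 1)
    {f : PS k} (hf : f ∈ PP k a c') (h0 : ev p f = 0) : ∃ f1 ∈ PP k a c, ∃ f2 ∈ PP k a c,
      f = f1 * lin w - f2 * lin v := by
  by_cases h1 : a ≤ c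
  · have h2 : (a : ℕ) ≤ (c : ℕ) := h1
    have h3 : a ≤ c' := by
      have : (a : ℕ) ≤ (c' : ℕ) := by omega
      exact this
    unfold PP at hf ⊢
    rw [if_pos h3, show (c' : ℕ) - (a : ℕ) = ((c : ℕ) - (a : ℕ)) + 1 by omega] at hf
    rw [if_pos h1]
    exact poly_ker h _ f hf h0
  · have h2 : ¬ (a : ℕ) ≤ (c : ℕ) := h1
    have h4 : f = 0 := by
      by_cases h3 : a = c'
      · subst h3
        rw [PP_self, Submodule.mem_one] at hf
        obtain ⟨y, rfl⟩ := hf
        have h5 : y = 0 := by simpa using h0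
        rw [h5, map_zero]
      · have h5 : c' < a := by
          have h6 : (a : ℕ) ≠ (c' : ℕ) := fun h => h3 (Fin.ext h)
          have : (c' : ℕ) < (a : ℕ) := by omega
          exact this
        rw [PP_lt h5] at hf
        exact hf
    exact ⟨0, Submodule.zero_mem _, 0, Submodule.zero_mem _, by rw [h4]; simp⟩

/-- Exactness in the middle of the polynomial Koszul complex. -/
lemma PP_mid {p v w g : Fin 3 → k} (h : Ad p v w g) {a : Fin 3} {b c : PS k}
    (hb : b ∈ PP k a 1) (hc : c ∈ PP k a 1) (e : b * lin w = c * lin v) :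
    ∃ f ∈ PP k a 0, b = f * lin v ∧ c = f * lin w := by
  obtain ⟨pv, pw, d1, d2, d3, d4, d5, d6⟩ := h.dual
  fin_cases a
  · have hb' : b ∈ P1 k := by
      unfold PP at hb; simpa using hb
    have hc' : c ∈ P1 k := by
      unfold PP at hc; simpa using hc
    obtain ⟨b', rfl⟩ := exists_lin hb'
    obtain ⟨c', rfl⟩ := exists_lin hc'
    have key : ∀ x : Fin 3 → k, (b' ⬝ᵥ x) * (w ⬝ᵥ x) = (c' ⬝ᵥ x) * (v ⬝ᵥ x) := by
      intro x
      have := congrArg (ev x) e
      simpa using this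
    obtain ⟨b1, b2, eb⟩ := h.decomp b'
    obtain ⟨c1, c2, ec⟩ := h.decomp c'
    set b0 := b' ⬝ᵥ p
    set c0 := c' ⬝ᵥ p
    have k1 := key pw
    have k2 := key pv
    have k3 := key (p + pw)
    have k4 := key (p + pv)
    have k5 := key (pv + pw)
    rw [eb, ec] at k1 k2 k3 k4 k5
    simp only [add_dotProduct, dotProduct_add, smul_dotProduct, h.hv, h.hw, h.hg, d1, d2, d3, d4,
      d5, d6, smul_eq_mul, mul_zero, mul_one, add_zero, zero_add] at k1 k2 k3 k4 k5
    have hb2 : b2 = 0 := k1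
    have hc1 : c1 = 0 := k2.symm
    have hb0 : b0 = 0 := by rw [hb2, add_zero] at k3; exact k3
    have hc0 : c0 = 0 := by rw [hc1, add_zero] at k4; exact k4.symm
    have hbc : b1 = c2 := by rw [hb2, hc1, add_zero, zero_add] at k5; exact k5
    refine ⟨MvPolynomial.C b1, ?_, ?_, ?_⟩
    · change _ ∈ PP k 0 0
      rw [PP_self, Submodule.mem_one]
      exact ⟨b1, rfl⟩
    · rw [eb, hb0, hb2, zero_smul, zero_add, zero_smul, add_zero, lin_smul,
        MvPolynomial.smul_eq_C_mul]
    · rw [ec, hc0, hc1, zero_smul, zero_add, zero_smul, zero_add, lin_smul,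
        MvPolynomial.smul_eq_C_mul, hbc]
  · have hb' : b ∈ PP k 1 1 := hb
    have hc' : c ∈ PP k 1 1 := hc
    rw [PP_self, Submodule.mem_one] at hb' hc'
    obtain ⟨β, rfl⟩ := hb'
    obtain ⟨γ, rfl⟩ := hc'
    have e1 : lin (β • w + (-γ) • v) = 0 := by
      rw [lin_add, lin_smul, lin_smul, MvPolynomial.smul_eq_C_mul, MvPolynomial.smul_eq_C_mul,
        map_neg, neg_mul]
      rw [← sub_eq_add_neg, sub_eq_zero]
      exact e
    have e2 : β • w + (-γ) • v = 0 := by
      by_contra h0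
      exact lin_ne_zero h0 e1
    have e3 := h.indep (-γ) β (by rw [add_comm]; exact e2)
    refine ⟨0, Submodule.zero_mem _, ?_, ?_⟩
    · rw [e3.2, map_zero, zero_mul]
    · rw [neg_eq_zero.mp e3.1, map_zero, zero_mul]
  · have hb' : b ∈ PP k 2 1 := hb
    have hc' : c ∈ PP k 2 1 := hc
    rw [PP_lt (by decide), Submodule.mem_bot] at hb' hc'
    refine ⟨0, Submodule.zero_mem _, ?_, ?_⟩
    · rw [hb', zero_mul]
    · rw [hc', zero_mul]

end Pool.Agent.N10.Han
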