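import Pool.Agent.N10.Han.Point

/-!
# The Koszul complex of a point of the plane, continued
-/

open scoped WithZero
open Matrix

namespace Pool.Agent.N10.Han

variable {k K : Type} [Field k] [Field K] [Algebra k K] (D : Datum k K)

/-! ### The functionals and polynomials -/

/-- The property of the functionals in `IsFun`. -/
def Cmp (a b : Fin 3 → k) (N N0 : ℕ → ℕ → Submodule k K) (φ : ℕ → ℕ → (K →ₗ[k] k)) : Prop :=
  ∀ s t : ℕ, 1 ≤ s → s ≤ 3 → 1 ≤ t → t ≤ 3 →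
    (∀ h ∈ N s t, φ s t h = 0 ↔ h ∈ N0 s t) ∧
    (∃ h ∈ N s t, φ s t h = 1) ∧
    (s < 3 → ∀ v : Fin 3 → k, ∀ h ∈ N s t, φ (s + 1) t (D.l v * h) = (v ⬝ᵥ a) * φ s t h) ∧
    (t < 3 → ∀ v : Fin 3 → k, ∀ h ∈ N s t, φ s (t + 1) (D.r v * h) = (v ⬝ᵥ b) * φ s t h)

variable {D}

lemma Cmp.lS {a b : Fin 3 → k} {F : Fam D} {N0 : ℕ → ℕ → Submodule k K}
    {φ : ℕ → ℕ → (K →ₗ[k] k)} (h : Cmp D a b F.N N0 φ) {t : ℕ} (ht : 1 ≤ t) (ht' : t ≤ 3)
    {s : ℕ} (hs : 1 ≤ s) {x : K} (hx : x ∈ F.N s t) (n : ℕ) (hn : s + n ≤ 3) {f : PS k}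
    (hf : f ∈ P1 k ^ n) : φ (s + n) t (D.lS f * x) = ev a f * φ s t x := by
  induction n generalizing f with
  | zero =>
    rw [pow_zero, Submodule.mem_one] at hf
    obtain ⟨c, rfl⟩ := hf
    have e : D.lS (algebraMap k (PS k) c) * x = c • x := by
      rw [D.lS.commutes, Algebra.smul_def]
    rw [e, map_smul, (ev a).commutes]
    rfl
  | succ n ih =>
    rw [pow_succ'] at hf
    refine Submodule.mul_induction_on hf ?_ ?_
    · intro c hc b' hb
      obtain ⟨v, rfl⟩ := exists_lin hc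
      have e1 := (h (s + n) t (by omega) (by omega) ht ht').2.2.1 (by omega) v _ (F.lS_mem hb hx)
      have e2 : D.lS (lin v * b') * x = D.l v * (D.lS b' * x) := by
        rw [map_mul D.lS, D.lS_lin, mul_assoc]
      rw [e2]
      change φ (s + n + 1) t (D.l v * (D.lS b' * x)) = _
      rw [e1, ih (by omega) hb, map_mul, ev_lin, mul_assoc]
    · intro c d hc hd
      rw [map_add, add_mul, map_add, hc, hd, map_add, add_mul]

lemma Cmp.lS_PP {a b : Fin 3 → k} {F : Fam D} {N0 : ℕ → ℕ → Submodule k K}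
    {φ : ℕ → ℕ → (K →ₗ[k] k)} (h : Cmp D a b F.N N0 φ) {t : ℕ} (ht : 1 ≤ t) (ht' : t ≤ 3)
    {i j : Fin 3} {f : PS k} (hf : f ∈ PP k i j) {x : K} (hx : x ∈ F.N (3 - (j : ℕ)) t) :
    φ (3 - (i : ℕ)) t (D.lS f * x) = ev a f * φ (3 - (j : ℕ)) t x := by
  unfold PP at hf
  by_cases hij : i ≤ j
  · rw [if_pos hij] at hf
    have h4 : (i : ℕ) ≤ (j : ℕ) := hij
    have h5 : (j : ℕ) < 3 := j.2
    have h3 : 3 - (i : ℕ) = (3 - (j : ℕ)) + ((j : ℕ) - (i : ℕ)) := by omega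
    rw [h3]
    exact h.lS ht ht' (by omega) hx _ (by omega) hf
  · rw [if_neg hij, Submodule.mem_bot] at hf
    rw [hf]
    simp

variable (D)

/-! ### The complex -/

/-- The first map. -/
noncomputable def d1 (v w : Fin 3 → k) : UU D 0 →ₗ[AA D] (UU D 1 × UU D 1) :=
  (rm D v 0 1 rfl).prod (rm D w 0 1 rfl)

/-- The second map. -/
noncomputable def d2 (v w : Fin 3 → k) : (UU D 1 × UU D 1) →ₗ[AA D] UU D 2 :=
  LinearMap.coprod (rm D w 1 2 rfl) (rm D (-v) 1 2 rfl)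

lemma d2_s (v w : Fin 3 → k) (z : UU D 1 × UU D 1) (a : Fin 3) :
    ((d2 D v w z).1 a).s = (z.1.1 a).s * lin w - (z.2.1 a).s * lin v := by
  change ((rm D w 1 2 rfl z.1).1 a + (rm D (-v) 1 2 rfl z.2).1 a).s = _
  rw [TT.add_s, rm_s, rm_s, ← neg_one_smul k v, lin_smul, neg_one_smul]
  ring

lemma d2_x (v w : Fin 3 → k) (z : UU D 1 × UU D 1) (a : Fin 3) :
    ((d2 D v w z).1 a).x = (z.1.1 a).x * D.r w - (z.2.1 a).x * D.r v := by
  change ((rm D w 1 2 rfl z.1).1 a + (rm D (-v) 1 2 rfl z.2).1 a).x = _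
  rw [TT.add_x, rm_x, rm_x, map_neg]
  ring

lemma UU_ext {c : Fin 3} {x y : UU D c} (h1 : ∀ a, (x.1 a).s = (y.1 a).s)
    (h2 : ∀ a, (x.1 a).x = (y.1 a).x) : x = y := by
  apply Subtype.ext
  funext a
  exact TT.ext (h1 a) (h2 a)

lemma zero_s' {c : Fin 3} (a : Fin 3) : ((0 : UU D c).1 a).s = 0 := rfl
lemma zero_x' {c : Fin 3} (a : Fin 3) : ((0 : UU D c).1 a).x = 0 := rfl

lemma d2_d1 (v w : Fin 3 → k) (x : UU D 0) : d2 D v w (d1 D v w x) = 0 := by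
  apply UU_ext
  · intro a
    rw [d2_s, zero_s']
    change ((rm D v 0 1 rfl x).1 a).s * lin w - ((rm D w 0 1 rfl x).1 a).s * lin v = 0
    rw [rm_s, rm_s]
    ring
  · intro a
    rw [d2_x, zero_x']
    change ((rm D v 0 1 rfl x).1 a).x * D.r w - ((rm D w 0 1 rfl x).1 a).x * D.r v = 0
    rw [rm_x, rm_x]
    ring

lemma rm_inj {v : Fin 3 → k} (hv : v ≠ 0) (c c' : Fin 3) (h : (c' : ℕ) = (c : ℕ) + 1) :
    Function.Injective (rm D v c c' h) := by
  refine (injective_iff_map_eq_zero _).mpr ?_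
  intro x hx
  apply UU_ext
  · intro a
    have e : ((rm D v c c' h x).1 a).s = 0 := by rw [hx]; rfl
    rw [rm_s] at e
    exact (mul_eq_zero.mp e).resolve_right (lin_ne_zero hv)
  · intro a
    have e : ((rm D v c c' h x).1 a).x = 0 := by rw [hx]; rfl
    rw [rm_x] at e
    exact (mul_eq_zero.mp e).resolve_right (D.r_ne_zero hv)

lemma d1_inj {v w : Fin 3 → k} (hv : v ≠ 0) : Function.Injective (d1 D v w) := by
  intro x y h
  exact rm_inj D hv 0 1 rfl (congrArg Prod.fst h)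

/-- Build an element of `UU c`. -/
noncomputable def mkU (c : Fin 3) (s : Fin 3 → PS k) (x : Fin 3 → K)
    (hs : ∀ a, s a ∈ PP k a c) (hx : ∀ a : Fin 3, x a ∈ D.W (3 - (a : ℕ)) (1 + (c : ℕ))) :
    UU D c :=
  ⟨(fun a => ⟨s a, x a⟩ : Fin 3 → TT D), fun a => ⟨hs a, hx a⟩⟩

lemma mkU_s (c : Fin 3) (s : Fin 3 → PS k) (x : Fin 3 → K)
    (hs : ∀ a, s a ∈ PP k a c) (hx : ∀ a : Fin 3, x a ∈ D.W (3 - (a : ℕ)) (1 + (c : ℕ)))
    (a : Fin 3) : ((mkU D c s x hs hx).1 a).s = s a := rfl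

lemma mkU_x (c : Fin 3) (s : Fin 3 → PS k) (x : Fin 3 → K)
    (hs : ∀ a, s a ∈ PP k a c) (hx : ∀ a : Fin 3, x a ∈ D.W (3 - (a : ℕ)) (1 + (c : ℕ)))
    (a : Fin 3) : ((mkU D c s x hs hx).1 a).x = x a := rfl

section

variable {D} {p v w g : Fin 3 → k} (hp : Ad p v w g)

include hp

lemma piU_surj : Function.Surjective (piU D 2 p) := by
  intro y
  have hg : ∀ a : Fin 3, lin g ^ (2 - (a : ℕ)) ∈ PP k a 2 := by
    intro a
    have h3 : a ≤ 2 := Fin.le_last a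
    unfold PP
    rw [if_pos h3]
    exact Submodule.pow_mem_pow _ (lin_mem g) _
  refine ⟨mkU D 2 (fun a => (show Fin 3 → k from y) a • lin g ^ (2 - (a : ℕ))) (fun _ => 0)
    (fun a => Submodule.smul_mem _ _ (hg a)) (fun a => Submodule.zero_mem _), ?_⟩
  funext a
  rw [piU_apply, mkU_s, map_smul, map_pow, ev_lin, hp.hg, one_pow, smul_eq_mul, mul_one]

lemma pi_d2 (z : UU D 1 × UU D 1) : piU D 2 p (d2 D v w z) = 0 := by
  funext a
  rw [piU_apply, d2_s, map_sub, map_mul, map_mul, ev_lin, ev_lin, hp.hv, hp.hw]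
  change _ = (0 : k)
  ring

/-- The image of forms vanishing at `p`. -/
lemma mem_Img' {s t : ℕ} {x : K} : x ∈ D.Img' p s t ↔
    ∃ y1 ∈ D.W s (t + 1), ∃ y2 ∈ D.W s (t + 1), x = y1 * D.r w - y2 * D.r v := by
  constructor
  · intro hx
    unfold Datum.Img' at hx
    induction hx using Submodule.span_induction with
    | mem x hx =>
      obtain ⟨u, h, hu, hh, rfl⟩ := hx
      obtain ⟨α, β, rfl⟩ := hp.span u hu
      refine ⟨β • h, Submodule.smul_mem _ _ hh, -(α • h),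
        Submodule.neg_mem _ (Submodule.smul_mem _ _ hh), ?_⟩
      rw [map_add, map_smul, map_smul]
      simp only [Algebra.smul_def]
      ring
    | zero => exact ⟨0, Submodule.zero_mem _, 0, Submodule.zero_mem _, by simp⟩
    | add x y _ _ hx hy =>
      obtain ⟨a, ha, b, hb, rfl⟩ := hx
      obtain ⟨c, hc, d, hd, rfl⟩ := hy
      exact ⟨a + c, Submodule.add_mem _ ha hc, b + d, Submodule.add_mem _ hb hd, by ring⟩
    | smul c x _ hx =>
      obtain ⟨a, ha, b, hb, rfl⟩ := hx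
      refine ⟨c • a, Submodule.smul_mem _ _ ha, c • b, Submodule.smul_mem _ _ hb, ?_⟩
      rw [smul_sub, smul_mul_assoc, smul_mul_assoc]
  · rintro ⟨y1, h1, y2, h2, rfl⟩
    refine Submodule.sub_mem _ (Submodule.subset_span ⟨w, y1, hp.hw, h1, mul_comm _ _⟩)
      (Submodule.subset_span ⟨v, y2, hp.hv, h2, mul_comm _ _⟩)

lemma mem_What' {s t : ℕ} {h : K} (h1 : D.r v * h ∈ D.W s (t + 1))
    (h2 : D.r w * h ∈ D.W s (t + 1)) : h ∈ D.What' p s t := by
  intro u hu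
  obtain ⟨α, β, rfl⟩ := hp.span u hu
  rw [map_add, map_smul, map_smul, add_mul, smul_mul_assoc, smul_mul_assoc]
  exact Submodule.add_mem _ (Submodule.smul_mem _ _ h1) (Submodule.smul_mem _ _ h2)

lemma d2_range_iff (x : UU D 2) (hx : piU D 2 p x = 0) :
    (∃ y, d2 D v w y = x) ↔ ∀ a : Fin 3, (x.1 a).x ∈ D.Img' p (3 - (a : ℕ)) 1 := by
  constructor
  · rintro ⟨z, rfl⟩ a
    rw [mem_Img' hp, d2_x]
    exact ⟨_, (z.1.2 a).2, _, (z.2.2 a).2, rfl⟩
  · intro h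
    have hs : ∀ a : Fin 3, ∃ f1 ∈ PP k a 1, ∃ f2 ∈ PP k a 1,
        (x.1 a).s = f1 * lin w - f2 * lin v := by
      intro a
      exact PP_ker hp (c := 1) (c' := 2) rfl (x.2 a).1 (congrFun hx a)
    have hx' : ∀ a : Fin 3, ∃ y1 ∈ D.W (3 - (a : ℕ)) (1 + 1), ∃ y2 ∈ D.W (3 - (a : ℕ)) (1 + 1),
        (x.1 a).x = y1 * D.r w - y2 * D.r v := fun a => (mem_Img' hp).mp (h a)
    choose f1 hf1 f2 hf2 hf using hs
    choose y1 hy1 y2 hy2 hy using hx'
    refine ⟨(mkU D 1 f1 y1 hf1 hy1, mkU D 1 f2 y2 hf2 hy2), ?_⟩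
    apply UU_ext
    · intro a
      rw [d2_s, mkU_s, mkU_s, hf a]
    · intro a
      rw [d2_x, mkU_x, mkU_x, hy a]

lemma ker_d2_s {z : UU D 1 × UU D 1} (hz : d2 D v w z = 0) (a : Fin 3) :
    ∃ f ∈ PP k a 0, (z.1.1 a).s = f * lin v ∧ (z.2.1 a).s = f * lin w := by
  apply PP_mid hp (z.1.2 a).1 (z.2.2 a).1
  have : ((d2 D v w z).1 a).s = 0 := by rw [hz]; rfl
  rw [d2_s] at this
  exact sub_eq_zero.mp this

lemma ker_d2_x {z : UU D 1 × UU D 1} (hz : d2 D v w z = 0) (a : Fin 3) :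
    (z.1.1 a).x = D.r v * ((z.1.1 a).x / D.r v) ∧
      (z.2.1 a).x = D.r w * ((z.1.1 a).x / D.r v) := by
  have hv := D.r_ne_zero hp.v_ne
  have : ((d2 D v w z).1 a).x = 0 := by rw [hz]; rfl
  rw [d2_x] at this
  constructor
  · field_simp
  · field_simp
    linear_combination -this

lemma ker_d2_What' {z : UU D 1 × UU D 1} (hz : d2 D v w z = 0) (a : Fin 3) :
    (z.1.1 a).x / D.r v ∈ D.What' p (3 - (a : ℕ)) 1 := by
  obtain ⟨e1, e2⟩ := ker_d2_x hp hz a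
  apply mem_What' hp
  · rw [← e1]; exact (z.1.2 a).2
  · rw [← e2]; exact (z.2.2 a).2

lemma d1_range_iff (z : UU D 1 × UU D 1) (hz : d2 D v w z = 0) :
    (∃ y, d1 D v w y = z) ↔ ∀ a : Fin 3, (z.1.1 a).x / D.r v ∈ D.W (3 - (a : ℕ)) 1 := by
  have hv := D.r_ne_zero hp.v_ne
  constructor
  · rintro ⟨y, rfl⟩ a
    have : ((rm D v 0 1 rfl y).1 a).x / D.r v = (y.1 a).x := by
      rw [rm_x]; field_simp
    change ((rm D v 0 1 rfl y).1 a).x / D.r v ∈ _
    rw [this]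
    exact (y.2 a).2
  · intro h
    choose f hf hf1 hf2 using fun a => ker_d2_s hp hz a
    refine ⟨mkU D 0 f (fun a => (z.1.1 a).x / D.r v) hf h, ?_⟩
    apply Prod.ext
    · apply UU_ext
      · intro a
        change ((rm D v 0 1 rfl _).1 a).s = _
        rw [rm_s, mkU_s, hf1 a]
      · intro a
        change ((rm D v 0 1 rfl _).1 a).x = _
        rw [rm_x, mkU_x, mul_comm]
        exact (ker_d2_x hp hz a).1.symm
    · apply UU_ext
      · intro a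
        change ((rm D w 0 1 rfl _).1 a).s = _
        rw [rm_s, mkU_s, hf2 a]
      · intro a
        change ((rm D w 0 1 rfl _).1 a).x = _
        rw [rm_x, mkU_x, mul_comm]
        exact (ker_d2_x hp hz a).2.symm

end

end Pool.Agent.N10.Han
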