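import Pool.Agent.N10.Han.Point2

/-!
# The Koszul complex of a point of the plane: the two cases
-/

open scoped WithZero
open Matrix

namespace Pool.Agent.N10.Han

variable {k K : Type} [Field k] [Field K] [Algebra k K] (D : Datum k K)

/-- The family `W s (t+2)`. -/
noncomputable def famW2 : Fam D where
  N := fun s t => D.W s (t + 2)
  hl := fun v s t h hh => (famW D).hl v s (t + 2) h hh
  hr := fun v s t h hh => (famW D).hr v s (t + 2) h hh

/-- The family `What' p`. -/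
noncomputable def famWh (p : Fin 3 → k) : Fam D where
  N := D.What' p
  hl := by
    intro v s t h hh u hu
    rw [mul_left_comm]
    exact (famW D).hl v _ _ _ (hh u hu)
  hr := by
    intro v s t h hh u hu
    rw [mul_left_comm]
    exact (famW D).hr v _ _ _ (hh u hu)

variable {D} {p v w g : Fin 3 → k} (hp : Ad p v w g)

lemma W_le_What' (p : Fin 3 → k) (s t : ℕ) : D.W s t ≤ D.What' p s t :=
  fun h hh v _ => (famW D).hr v s t h hh

include hp in
/-- The polynomial parts of elements killed by `piU`. -/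
lemma mul_rS_Img' {c : Fin 3} {f : PS k} (hf : f ∈ PP k c 2) (h0 : ev p f = 0) {s : ℕ} {x : K}
    (hx : x ∈ D.W s (1 + (c : ℕ))) : x * D.rS f ∈ D.Img' p s 1 := by
  obtain ⟨f1, hf1, f2, hf2, rfl⟩ := PP_ker hp (c := 1) (c' := 2) rfl hf h0
  rw [mem_Img' hp]
  refine ⟨x * D.rS f1, D.mul_rS_mem hf1 hx, x * D.rS f2, D.mul_rS_mem hf2 hx, ?_⟩
  rw [map_sub, map_mul, map_mul, D.rS_lin, D.rS_lin]
  ring

/-- The homology in the last place. -/
noncomputable def rhoMap {u : Fin 3 → k} {φ : ℕ → ℕ → (K →ₗ[k] k)}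
    (hφ : Cmp D u p (famW2 D).N (D.Img' p) φ) :
    LinearMap.ker (piU D 2 p) →ₗ[AA D] LP D u where
  toFun x := (fun a : Fin 3 => φ (3 - (a : ℕ)) 1 (x.1.1 a).x : Fin 3 → k)
  map_add' x y := by
    funext a
    exact map_add _ _ _
  map_smul' m x := by
    funext a
    change φ (3 - (a : ℕ)) 1 (∑ b, m.1 a b * x.1.1 b).x =
      ∑ b, ev u (m.1 a b).s * φ (3 - (b : ℕ)) 1 (x.1.1 b).x
    rw [TT.sum_x, map_sum]
    apply Finset.sum_congr rfl
    intro b _
    rw [TT.mul_x, map_add]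
    have h1 : φ (3 - (a : ℕ)) 1 ((m.1 a b).x * D.rS (x.1.1 b).s) = 0 := by
      have ha : (a : ℕ) < 3 := a.2
      have h2 : (m.1 a b).x * D.rS (x.1.1 b).s ∈ D.Img' p (3 - (a : ℕ)) 1 :=
        mul_rS_Img' hp (x.1.2 b).1 (congrFun x.2 b) (m.2 a b).2
      refine ((hφ (3 - (a : ℕ)) 1 (by omega) (by omega) le_rfl (by omega)).1 _ ?_).mpr h2
      exact D.mul_rS_mem (x.1.2 b).1 (m.2 a b).2
    rw [h1, add_zero]
    exact hφ.lS_PP (F := famW2 D) le_rfl (by omega) (m.2 a b).1 (x.1.2 b).2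

/-- The homology in the middle. -/
noncomputable def psiMap {u : Fin 3 → k} {φ : ℕ → ℕ → (K →ₗ[k] k)}
    (hφ : Cmp D u p (famWh D p).N D.W φ) :
    LinearMap.ker (d2 D v w) →ₗ[AA D] LP D u where
  toFun z := (fun a : Fin 3 => φ (3 - (a : ℕ)) 1 ((z.1.1.1 a).x / D.r v) : Fin 3 → k)
  map_add' x y := by
    funext a
    change φ _ 1 (((x.1.1.1 a).x + (y.1.1.1 a).x) / D.r v) = _
    rw [add_div]
    exact map_add _ _ _
  map_smul' m z := by
    funext a
    change φ (3 - (a : ℕ)) 1 ((∑ b, m.1 a b * z.1.1.1 b).x / D.r v) =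
      ∑ b, ev u (m.1 a b).s * φ (3 - (b : ℕ)) 1 ((z.1.1.1 b).x / D.r v)
    rw [TT.sum_x, Finset.sum_div, map_sum]
    apply Finset.sum_congr rfl
    intro b _
    have hv := D.r_ne_zero hp.v_ne
    obtain ⟨f, hf, hf1, -⟩ := ker_d2_s hp z.2 b
    have e : (m.1 a b * z.1.1.1 b).x / D.r v =
        D.lS (m.1 a b).s * ((z.1.1.1 b).x / D.r v) + (m.1 a b).x * D.rS f := by
      rw [TT.mul_x, hf1, map_mul, D.rS_lin]
      field_simp
    rw [e, map_add]
    have h1 : φ (3 - (a : ℕ)) 1 ((m.1 a b).x * D.rS f) = 0 := by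
      have ha : (a : ℕ) < 3 := a.2
      have h2 : (m.1 a b).x * D.rS f ∈ D.W (3 - (a : ℕ)) 1 := D.mul_rS_mem hf (m.2 a b).2
      exact ((hφ (3 - (a : ℕ)) 1 (by omega) (by omega) le_rfl (by omega)).1 _
        (W_le_What' p _ _ h2)).mpr h2
    rw [h1, add_zero]
    exact hφ.lS_PP (F := famWh D p) le_rfl (by omega) (m.2 a b).1 (ker_d2_What' hp z.2 b)

/-- The Koszul data of a point which has a predecessor. -/
noncomputable def kosRel {u : Fin 3 → k} {φ ψ : ℕ → ℕ → (K →ₗ[k] k)}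
    (hφ : Cmp D u p (famWh D p).N D.W φ) (hψ : Cmp D u p (famW2 D).N (D.Img' p) ψ) :
    Kos k (AA D) (UU D 0) (UU D 1 × UU D 1) (UU D 2) (LP D p) (LP D u) where
  d1 := d1 D v w
  d2 := d2 D v w
  dd := d2_d1 D v w
  p := piU D 2 p
  p_surj := piU_surj hp
  pd := pi_d2 hp
  d1_inj := d1_inj D hp.v_ne
  rho := rhoMap hp hψ
  rho_surj := by
    intro y
    have h : ∀ a : Fin 3, ∃ x ∈ D.W (3 - (a : ℕ)) (1 + 2), ψ (3 - (a : ℕ)) 1 x = 1 := by
      intro a
      have ha : (a : ℕ) < 3 := a.2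
      exact (hψ (3 - (a : ℕ)) 1 (by omega) (by omega) le_rfl (by omega)).2.1
    choose x hx hx' using h
    refine ⟨⟨mkU D 2 (fun _ => 0) (fun a => (show Fin 3 → k from y) a • x a)
      (fun a => Submodule.zero_mem _) (fun a => Submodule.smul_mem _ _ (hx a)), ?_⟩, ?_⟩
    · rw [LinearMap.mem_ker]
      funext a
      rw [piU_apply, mkU_s, map_zero]
      rfl
    · funext a
      change ψ (3 - (a : ℕ)) 1 ((show Fin 3 → k from y) a • x a) = y a
      rw [map_smul, hx' a, smul_eq_mul, mul_one]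
  rho_ker := by
    intro x
    rw [d2_range_iff hp x.1 x.2]
    constructor
    · intro h a
      have ha : (a : ℕ) < 3 := a.2
      exact ((hψ (3 - (a : ℕ)) 1 (by omega) (by omega) le_rfl (by omega)).1 _
        (x.1.2 a).2).mp (congrFun h a)
    · intro h
      funext a
      have ha : (a : ℕ) < 3 := a.2
      exact ((hψ (3 - (a : ℕ)) 1 (by omega) (by omega) le_rfl (by omega)).1 _
        (x.1.2 a).2).mpr (h a)
  psi := psiMap hp hφ
  psi_surj := by
    intro y
    have hv := D.r_ne_zero hp.v_ne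
    have h : ∀ a : Fin 3, ∃ x ∈ D.What' p (3 - (a : ℕ)) 1, φ (3 - (a : ℕ)) 1 x = 1 := by
      intro a
      have ha : (a : ℕ) < 3 := a.2
      exact (hφ (3 - (a : ℕ)) 1 (by omega) (by omega) le_rfl (by omega)).2.1
    choose x hx hx' using h
    refine ⟨⟨(mkU D 1 (fun _ => 0) (fun a => D.r v * ((show Fin 3 → k from y) a • x a))
      (fun a => Submodule.zero_mem _)
      (fun a => Submodule.smul_mem (D.What' p (3 - (a : ℕ)) 1) _ (hx a) v hp.hv),
      mkU D 1 (fun _ => 0) (fun a => D.r w * ((show Fin 3 → k from y) a • x a))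
      (fun a => Submodule.zero_mem _)
      (fun a => Submodule.smul_mem (D.What' p (3 - (a : ℕ)) 1) _ (hx a) w hp.hw)), ?_⟩, ?_⟩
    · rw [LinearMap.mem_ker]
      apply UU_ext
      · intro a
        rw [d2_s, mkU_s, mkU_s, zero_mul, zero_mul, sub_zero]
        rfl
      · intro a
        rw [d2_x, mkU_x, mkU_x, zero_x']
        ring
    · funext a
      change φ (3 - (a : ℕ)) 1 (D.r v * ((show Fin 3 → k from y) a • x a) / D.r v) = y a
      rw [mul_div_cancel_left₀ _ hv, map_smul, hx' a, smul_eq_mul, mul_one]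
  psi_ker := by
    intro z
    rw [d1_range_iff hp z.1 z.2]
    constructor
    · intro h a
      have ha : (a : ℕ) < 3 := a.2
      exact ((hφ (3 - (a : ℕ)) 1 (by omega) (by omega) le_rfl (by omega)).1 _
        (ker_d2_What' hp z.2 a)).mp (congrFun h a)
    · intro h
      funext a
      have ha : (a : ℕ) < 3 := a.2
      exact ((hφ (3 - (a : ℕ)) 1 (by omega) (by omega) le_rfl (by omega)).1 _
        (ker_d2_What' hp z.2 a)).mpr (h a)

/-- The Koszul data of a point without predecessor. -/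
noncomputable def kosNone
    (h1 : ∀ s t, 1 ≤ s → 1 ≤ t → D.What' p s t ≤ D.W s t ∧ D.W s (t + 2) ≤ D.Img' p s t) :
    Kos k (AA D) (UU D 0) (UU D 1 × UU D 1) (UU D 2) (LP D p) PUnit.{1} where
  d1 := d1 D v w
  d2 := d2 D v w
  dd := d2_d1 D v w
  p := piU D 2 p
  p_surj := piU_surj hp
  pd := pi_d2 hp
  d1_inj := d1_inj D hp.v_ne
  rho := 0
  rho_surj := fun y => ⟨0, rfl⟩
  rho_ker := by
    intro x
    rw [d2_range_iff hp x.1 x.2]
    refine ⟨fun _ a => ?_, fun _ => rfl⟩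
    have ha : (a : ℕ) < 3 := a.2
    exact (h1 (3 - (a : ℕ)) 1 (by omega) le_rfl).2 (x.1.2 a).2
  psi := 0
  psi_surj := fun y => ⟨0, rfl⟩
  psi_ker := by
    intro z
    rw [d1_range_iff hp z.1 z.2]
    refine ⟨fun _ a => ?_, fun _ => rfl⟩
    have ha : (a : ℕ) < 3 := a.2
    exact (h1 (3 - (a : ℕ)) 1 (by omega) le_rfl).1 (ker_d2_What' hp z.2 a)

end Pool.Agent.N10.Han
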